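import Pool.Agent.Lib.MP_f399a8_nt.DensA

/-!
# Density, all functions

See the header of `DensA.lean` for the proof of `density`.
-/

namespace Pool.Agent.Lib.MP_f399a8_nt

open Matrix

noncomputable section

variable {p : ℕ} [Fact p.Prime] {C : Type*} [NormedField C] [IsUltrametricDist C]

/-- `j` is the last index of an entry of maximal norm -/
def Density_P {N : ℕ} (j : Fin (N + 1)) (v : Fin (N + 1) → ℚ_[p]) : Prop :=
  (∀ k, ‖v k‖ ≤ ‖v j‖) ∧ ∀ k, j < k → ‖v k‖ < ‖v j‖

open Classical in
/-- the part of `f` with pivot `j` -/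
def Density_f {m N : ℕ} (j : Fin (N + 1)) (f : Matrix (Fin (m + 1)) (Fin (N + 1)) ℚ_[p] → C) :
    Matrix (Fin (m + 1)) (Fin (N + 1)) ℚ_[p] → C :=
  fun R => if Density_P j (R (Fin.last m)) then f R else 0

theorem Density_exists {N : ℕ} (v : Fin (N + 1) → ℚ_[p]) : ∃ j, Density_P j v := by
  classical
  set S := (Finset.univ : Finset (Fin (N + 1))).filter (fun j => ∀ k, ‖v k‖ ≤ ‖v j‖) with hSd
  have hS : S.Nonempty := by
    obtain ⟨j, _, hj⟩ := Finset.exists_max_image Finset.univ (fun k => ‖v k‖) ⟨0, Finset.mem_univ _⟩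
    refine ⟨j, ?_⟩
    rw [hSd, Finset.mem_filter]
    exact ⟨Finset.mem_univ _, fun k => hj k (Finset.mem_univ _)⟩
  have hm := (Finset.mem_filter.mp (S.max'_mem hS)).2
  refine ⟨S.max' hS, hm, ?_⟩
  intro k hk
  by_contra hc
  rw [not_lt] at hc
  have : k ∈ S := by
    rw [hSd, Finset.mem_filter]
    exact ⟨Finset.mem_univ _, fun k' => (hm k').trans hc⟩
  exact absurd (S.le_max' k this) (not_le.mpr hk)

theorem Density_unique {N : ℕ} {v : Fin (N + 1) → ℚ_[p]} {i j : Fin (N + 1)} (hi : Density_P i v)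
    (hj : Density_P j v) : i = j := by
  rcases lt_trichotomy i j with h | h | h
  · exact absurd (hj.1 i) (not_le.mpr (hi.2 j h))
  · exact h
  · exact absurd (hi.1 j) (not_le.mpr (hj.2 i h))

theorem Density_ev {N : ℕ} {j : Fin (N + 1)} {v0 : Fin (N + 1) → ℚ_[p]} (hP : Density_P j v0)
    (h0 : v0 ≠ 0) : ∀ᶠ v in nhds v0, Density_P j v := by
  have hj0 : v0 j ≠ 0 := by
    intro h
    apply h0
    funext k
    have h1 := hP.1 k
    rw [h, norm_zero] at h1
    exact norm_le_zero_iff.mp h1
  have hcont : ∀ k, Continuous (fun v : Fin (N + 1) → ℚ_[p] => v k) := fun k => continuous_apply k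
  have heq : ∀ k, v0 k ≠ 0 → ∀ᶠ v in nhds v0, ‖v k‖ = ‖v0 k‖ := by
    intro k hk
    have h1 : ∀ᶠ v in nhds v0, ‖v k - v0 k‖ < ‖v0 k‖ := by
      have h2 : Continuous (fun v : Fin (N + 1) → ℚ_[p] => ‖v k - v0 k‖) :=
        ((hcont k).sub continuous_const).norm
      have h3 := (h2.tendsto v0)
      rw [sub_self, norm_zero] at h3
      exact h3.eventually_lt_const (norm_pos_iff.mpr hk)
    filter_upwards [h1] with v hv
    have h4 := IsUltrametricDist.norm_add_eq_max_of_norm_ne_norm hv.ne
    rw [sub_add_cancel, max_eq_right hv.le] at h4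
    exact h4
  have hlt : ∀ k, ‖v0 k‖ < ‖v0 j‖ → ∀ᶠ v in nhds v0, ‖v k‖ < ‖v0 j‖ := fun k hk =>
    ((hcont k).norm.tendsto v0).eventually_lt_const hk
  have hall1 : ∀ᶠ v in nhds v0, ∀ k, ‖v k‖ ≤ ‖v0 j‖ := by
    rw [Filter.eventually_all]
    intro k
    rcases (hP.1 k).lt_or_eq with h | h
    · exact (hlt k h).mono fun v hv => hv.le
    · have hk0 : v0 k ≠ 0 := by
        rw [← norm_ne_zero_iff, h]
        exact norm_ne_zero_iff.mpr hj0
      exact (heq k hk0).mono fun v hv => by rw [hv, h]
  have hall2 : ∀ᶠ v in nhds v0, ∀ k, j < k → ‖v k‖ < ‖v0 j‖ := by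
    rw [Filter.eventually_all]
    intro k
    by_cases hk : j < k
    · exact (hlt k (hP.2 k hk)).mono fun v hv _ => hv
    · exact Filter.Eventually.of_forall fun v h => absurd h hk
  filter_upwards [heq j hj0, hall1, hall2] with v h1 h2 h3
  refine ⟨fun k => ?_, fun k hk => ?_⟩
  · rw [h1]
    exact h2 k
  · rw [h1]
    exact h3 k hk

omit [IsUltrametricDist C] in
theorem Density_cont {m N : ℕ} {χ : Fin (m + 1) → ℚ_[p] →*₀ C}
    {f : Matrix (Fin (m + 1)) (Fin (N + 1)) ℚ_[p] → C} (hf : f ∈ PSM (m + 1) (N + 1) χ)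
    (j : Fin (N + 1)) : Continuous (Density_f j f) := by
  rw [continuous_iff_continuousAt]
  intro R0
  by_cases h0 : R0 (Fin.last m) = 0
  · have hv : f R0 = 0 := psm_zero_row hf h0
    have hv' : Density_f j f R0 = 0 := by
      unfold Density_f
      split_ifs
      · exact hv
      · rfl
    rw [ContinuousAt, hv']
    refine squeeze_zero_norm (a := fun R => ‖f R‖) ?_ ?_
    · intro R
      unfold Density_f
      split_ifs
      · exact le_rfl
      · rw [norm_zero]
        exact norm_nonneg _
    · have := hf.1.norm.tendsto R0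
      rw [hv, norm_zero] at this
      exact this
  · have hrow : Continuous (fun R : Matrix (Fin (m + 1)) (Fin (N + 1)) ℚ_[p] => R (Fin.last m)) :=
      continuous_apply _
    by_cases hP : Density_P j (R0 (Fin.last m))
    · have hev := (hrow.tendsto R0).eventually (Density_ev hP h0)
      have he : f =ᶠ[nhds R0] Density_f j f := hev.mono fun R hR => by
        unfold Density_f
        rw [if_pos hR]
      exact hf.1.continuousAt.congr he
    · obtain ⟨j', hj'⟩ := Density_exists (R0 (Fin.last m))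
      have hev := (hrow.tendsto R0).eventually (Density_ev hj' h0)
      have he : (fun _ => (0 : C)) =ᶠ[nhds R0] Density_f j f := hev.mono fun R hR => by
        unfold Density_f
        rw [if_neg]
        intro h
        have := Density_unique h hR
        subst this
        exact hP hj'
      exact continuousAt_const.congr he

theorem Density_smul {N : ℕ} {j : Fin (N + 1)} {v : Fin (N + 1) → ℚ_[p]} {c : ℚ_[p]} (hc : c ≠ 0) :
    Density_P j (c • v) ↔ Density_P j v := by
  have hcn : 0 < ‖c‖ := norm_pos_iff.mpr hc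
  unfold Density_P
  simp only [Pi.smul_apply, smul_eq_mul, norm_mul]
  constructor
  · rintro ⟨h1, h2⟩
    exact ⟨fun k => le_of_mul_le_mul_left (h1 k) hcn, fun k hk => lt_of_mul_lt_mul_left (h2 k hk) hcn.le⟩
  · rintro ⟨h1, h2⟩
    exact ⟨fun k => mul_le_mul_of_nonneg_left (h1 k) hcn.le, fun k hk => mul_lt_mul_of_pos_left (h2 k hk) hcn⟩

theorem Density_mem {m N : ℕ} {χ : Fin (m + 1) → ℚ_[p] →*₀ C}
    {f : Matrix (Fin (m + 1)) (Fin (N + 1)) ℚ_[p] → C} (hf : f ∈ PSM (m + 1) (N + 1) χ)
    (j : Fin (N + 1)) : Density_f j f ∈ PSM (m + 1) (N + 1) χ := by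
  refine ⟨Density_cont hf j, fun R i c => ?_, fun R i k hik c => ?_⟩
  · have h1 := hf.2.1 R i c
    by_cases hi : i = Fin.last m
    · subst hi
      by_cases hc : c = 0
      · subst hc
        rw [map_zero, zero_mul] at h1
        unfold Density_f
        rw [h1, map_zero, zero_mul]
        simp
      · unfold Density_f
        rw [h1, updateRow_self]
        by_cases hP : Density_P j (R (Fin.last m))
        · rw [if_pos hP, if_pos ((Density_smul hc).mpr hP)]
        · rw [if_neg hP, if_neg (fun h => hP ((Density_smul hc).mp h)), mul_zero]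
    · unfold Density_f
      rw [h1, updateRow_ne (Ne.symm hi)]
      by_cases hP : Density_P j (R (Fin.last m))
      · rw [if_pos hP, if_pos hP]
      · rw [if_neg hP, if_neg hP, mul_zero]
  · have h1 := hf.2.2 R i k hik c
    have hi : i ≠ Fin.last m := (lt_of_lt_of_le hik (Fin.le_last k)).ne
    unfold Density_f
    rw [h1, updateRow_ne (Ne.symm hi)]

theorem density {m N : ℕ} {χ : Fin (m + 1) → ℚ_[p] →*₀ C} (hχ : Small χ)
    {X : Submodule C (Matrix (Fin (m + 1)) (Fin (N + 1)) ℚ_[p] → C)}
    (hX : X ≤ PSM (m + 1) (N + 1) χ) (hcl : ClosedU χ X) (hk : KStab X)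
    (h : ∀ ψ ∈ PSM m N (fun i => χ i.castSucc), ∀ r : ℕ, Op (χ (Fin.last m)) (ind r) ψ ∈ X) :
    X = PSM (m + 1) (N + 1) χ := by
  refine le_antisymm hX fun f hf => ?_
  have hsum : f = ∑ j : Fin (N + 1), Density_f j f := by
    funext R
    rw [Finset.sum_apply]
    obtain ⟨j, hj⟩ := Density_exists (R (Fin.last m))
    rw [Finset.sum_eq_single j]
    · unfold Density_f
      rw [if_pos hj]
    · intro b _ hb
      unfold Density_f
      rw [if_neg fun hP => hb (Density_unique hP hj)]
    · intro h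
      exact absurd (Finset.mem_univ _) h
  rw [hsum]
  refine Submodule.sum_mem _ fun j _ => ?_
  have hfj := Density_mem hf j
  by_cases hjL : j = Fin.last N
  · subst hjL
    refine chart_mem hχ hcl hk h hfj ?_
    rintro R ⟨k, hk'⟩
    unfold Density_f
    rw [if_neg fun hP => absurd (hP.1 k) (not_le.mpr hk')]
  · have hg : (fun R : Matrix (Fin (m + 1)) (Fin (N + 1)) ℚ_[p] =>
        Density_f j f (R * sw (p := p) (Fin.last N) j)) ∈ X := by
      refine chart_mem hχ hcl hk h (psm_right hfj _) ?_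
      rintro R ⟨k, hk'⟩
      have hL : ((R * sw (p := p) (Fin.last N) j) (Fin.last m)) j = R (Fin.last m) (Fin.last N) := by
        rw [mul_sw R (Ne.symm hjL), if_neg hjL, if_pos rfl]
      unfold Density_f
      rw [if_neg]
      intro hP
      by_cases hkj : k = j
      · subst hkj
        have h1 := hP.1 (Fin.last N)
        rw [hL, mul_sw R (Ne.symm hjL), if_pos rfl, norm_neg] at h1
        exact absurd h1 (not_le.mpr hk')
      · by_cases hkL : k = Fin.last N
        · subst hkL
          exact lt_irrefl _ hk'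
        · have h1 := hP.1 k
          rw [hL, mul_sw R (Ne.symm hjL), if_neg hkL, if_neg hkj] at h1
          exact absurd h1 (not_le.mpr hk')
    have h2 := sw_mem hk hg hjL
    have e : (fun R : Matrix (Fin (m + 1)) (Fin (N + 1)) ℚ_[p] =>
        Density_f j f (R * sw (p := p) j (Fin.last N) * sw (p := p) (Fin.last N) j)) =
        Density_f j f := by
      funext R
      congr 1
      ext a b
      rw [mul_sw _ (Ne.symm hjL)]
      by_cases hb : b = Fin.last N
      · subst hb
        rw [if_pos rfl, mul_sw R hjL, if_pos rfl, neg_neg]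
      · rw [if_neg hb]
        by_cases hbj : b = j
        · subst hbj
          rw [if_pos rfl, mul_sw R hjL, if_neg (Ne.symm hjL), if_pos rfl]
        · rw [if_neg hbj, mul_sw R hjL, if_neg hbj, if_neg hb]
    rw [← e]
    exact h2

end

end Pool.Agent.Lib.MP_f399a8_nt
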