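import Pool.Agent.Lib.MP_f399a8_nt.Iter
import Pool.Agent.Lib.MP_f399a8_nt.Density

/-!
# Functions independent of the first column generate

PROOF by induction on `m` (generalizing `χ`, `X`).
`m = 0`: a function of a `0 × 1` matrix is `Drop` of the function of the `0 × 0` matrix with the
same value (both types are subsingletons; `PSM 0 0 χ` contains all functions on it).
`m + 1`: use `density` (with `N = m + 1`).  Let `ψ ∈ PSM m (m + 1) (χ ∘ castSucc)`, `r : ℕ`.  Let
`X' := {ψ ∈ PSM m (m + 1) (χ ∘ castSucc) | Op (χ last) (ind r) ψ ∈ X}` (a submodule: `Op` is linear in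
`ψ`).  `ClosedU X'`: if `ψ` is within `ε` of `w ∈ X'` on integral matrices then
`Op (ind r) ψ` is within `ε` of `Op (ind r) w` (`op_bdd` for `ψ - w`, `‖ind‖ ≤ 1`).  `KStab X'`: by
`op_transvection` and `KStab X` for the transvection with `i.castSucc, j.castSucc`.
For `φ ∈ PSM m m (χ ∘ castSucc)`: `Drop φ ∈ X'` because `Op (ind r) (Drop φ) = Op (E r r) (Drop φ) ∈ X`
by `E_self` and `op_E_mem`, with `hF` from the hypothesis on `X` and `op_mem`
(`Op (ind M) φ ∈ PSM (m + 1) (m + 1) χ`).  By induction `X' = PSM m (m + 1)`.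
-/

namespace Pool.Agent.Lib.MP_f399a8_nt

open Matrix

noncomputable section

variable {p : ℕ} [Fact p.Prime] {C : Type*} [NormedField C] [NormedAlgebra ℚ_[p] C]
  [IsUltrametricDist C]

omit [NormedAlgebra ℚ_[p] C] [IsUltrametricDist C] in
theorem Astar_op_add {m N : ℕ} (η : ℚ_[p] →*₀ C) (γ : (Fin N → ℚ_[p]) → C)
    (ψ ψ' : Matrix (Fin m) (Fin N) ℚ_[p] → C) :
    Op η γ (ψ + ψ') = Op η γ ψ + Op η γ ψ' := by
  funext R
  simp only [Op, Pi.add_apply, mul_add]

omit [NormedAlgebra ℚ_[p] C] [IsUltrametricDist C] in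
theorem Astar_op_sub {m N : ℕ} (η : ℚ_[p] →*₀ C) (γ : (Fin N → ℚ_[p]) → C)
    (ψ ψ' : Matrix (Fin m) (Fin N) ℚ_[p] → C) :
    Op η γ (ψ - ψ') = Op η γ ψ - Op η γ ψ' := by
  funext R
  simp only [Op, Pi.sub_apply, mul_sub]

omit [NormedAlgebra ℚ_[p] C] [IsUltrametricDist C] in
theorem Astar_op_smul {m N : ℕ} (η : ℚ_[p] →*₀ C) (γ : (Fin N → ℚ_[p]) → C) (a : C)
    (ψ : Matrix (Fin m) (Fin N) ℚ_[p] → C) :
    Op η γ (a • ψ) = a • Op η γ ψ := by
  funext R
  simp only [Op, Pi.smul_apply, smul_eq_mul]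
  ring

omit [NormedAlgebra ℚ_[p] C] [IsUltrametricDist C] in
theorem Astar_op_zero {m N : ℕ} (η : ℚ_[p] →*₀ C) (γ : (Fin N → ℚ_[p]) → C) :
    Op η γ (0 : Matrix (Fin m) (Fin N) ℚ_[p] → C) = 0 := by
  funext R
  simp only [Op, Pi.zero_apply, mul_zero]

/-- the pull-back of `X` under `Op (χ last) (ind r)` -/
def Astar_X {m : ℕ} (χ : Fin (m + 1) → ℚ_[p] →*₀ C)
    (X : Submodule C (Matrix (Fin (m + 1)) (Fin (m + 1 + 1)) ℚ_[p] → C)) (r : ℕ) :
    Submodule C (Matrix (Fin m) (Fin (m + 1)) ℚ_[p] → C) where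
  carrier := {ψ | ψ ∈ PSM m (m + 1) (fun i => χ i.castSucc) ∧
    Op (χ (Fin.last m)) (ind r) ψ ∈ X}
  add_mem' := by
    rintro f g ⟨hf1, hf2⟩ ⟨hg1, hg2⟩
    refine ⟨add_mem hf1 hg1, ?_⟩
    rw [Astar_op_add]
    exact add_mem hf2 hg2
  zero_mem' := by
    refine ⟨zero_mem _, ?_⟩
    rw [Astar_op_zero]
    exact zero_mem _
  smul_mem' := by
    rintro a f ⟨hf1, hf2⟩
    refine ⟨Submodule.smul_mem _ _ hf1, ?_⟩
    rw [Astar_op_smul]
    exact Submodule.smul_mem _ _ hf2

omit [NormedAlgebra ℚ_[p] C] [IsUltrametricDist C] in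
theorem Astar_norm_ind {N : ℕ} (r : ℕ) (y : Fin N → ℚ_[p]) :
    ‖(ind r y : C)‖ ≤ 1 := by
  unfold ind
  split_ifs <;> simp

omit [NormedAlgebra ℚ_[p] C] [IsUltrametricDist C] in
theorem Astar_ind_zero {N : ℕ} (r : ℕ) (y : Fin N → ℚ_[p]) (hy : ∃ j, 1 < ‖y j‖) :
    (ind r y : C) = 0 := by
  obtain ⟨j, hj⟩ := hy
  unfold ind
  rw [if_neg]
  intro h
  have h1 := h j
  have hp : (1 : ℝ) ≤ p := by exact_mod_cast (Fact.out : p.Prime).one_lt.le
  have h2 : (p : ℝ) ^ (-(r : ℤ)) ≤ 1 := by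
    rw [_root_.zpow_neg, zpow_natCast]
    exact inv_le_one_of_one_le₀ (one_le_pow₀ hp)
  linarith

theorem astar (m : ℕ) (χ : Fin m → ℚ_[p] →*₀ C) (hχ : Small χ) (hloc : ∀ i, Loc (χ i))
    (X : Submodule C (Matrix (Fin m) (Fin (m + 1)) ℚ_[p] → C)) (hX : X ≤ PSM m (m + 1) χ)
    (hcl : ClosedU χ X) (hk : KStab X) (hF : ∀ φ ∈ PSM m m χ, Drop φ ∈ X) :
    X = PSM m (m + 1) χ := by
  induction m with
  | zero =>
    refine le_antisymm hX ?_
    intro f _
    have h0 : f = Drop (fun _ => f 0) := by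
      funext R
      show f R = f 0
      congr 1
      exact Subsingleton.elim _ _
    rw [h0]
    apply hF
    exact ⟨continuous_const, fun R i => i.elim0, fun R i => i.elim0⟩
  | succ m ih =>
    refine density hχ hX hcl hk ?_
    intro ψ hψ r
    have hχ' : Small (fun i : Fin m => χ i.castSucc) := fun i => hχ _
    have key := ih (fun i => χ i.castSucc) hχ' (fun i => hloc _) (Astar_X χ X r)
      (fun f hf => hf.1) ?_ ?_ ?_
    · have h1 : ψ ∈ Astar_X χ X r := by
        rw [key]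
        exact hψ
      exact h1.2
    · -- closedness
      intro f hf hn
      refine ⟨hf, ?_⟩
      refine hcl _ (op_mem hχ (continuous_ind r) (Astar_ind_zero r) hf) ?_
      intro ε hε
      obtain ⟨w, hw, hwf⟩ := hn ε hε
      refine ⟨Op (χ (Fin.last m)) (ind r) w, hw.2, ?_⟩
      intro R hR
      have h2 := op_bdd (hχ (Fin.last m)).1 (hχ (Fin.last m)).2 (Astar_norm_ind (C := C) r)
        (Astar_ind_zero r) (ψ := f - w) hε.le (fun A hA => hwf A hA) R hR
      rw [Astar_op_sub, one_mul] at h2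
      exact h2
    · -- stability
      intro f hf i j hij c hc
      have hf1 : f ∈ PSM m (m + 1) (fun i => χ i.castSucc) := hf.1
      have hf2 : Op (χ (Fin.last m)) (ind r) f ∈ X := hf.2
      refine ⟨psm_right hf1 (transvection i j c), ?_⟩
      have h3 := hk _ hf2 i.castSucc j.castSucc
        (fun h => hij (Fin.castSucc_injective _ h)) c hc
      have h4 : (fun R : Matrix (Fin (m + 1)) (Fin (m + 1 + 1)) ℚ_[p] =>
          Op (χ (Fin.last m)) (ind r) f (R * transvection i.castSucc j.castSucc c)) =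
          Op (χ (Fin.last m)) (ind r) (fun A => f (A * transvection i j c)) := by
        funext R
        exact op_transvection _ r f hij hc R
      rw [h4] at h3
      exact h3
    · -- the generators
      intro φ hφ
      refine ⟨drop_mem hφ, ?_⟩
      rw [← E_self]
      refine op_E_mem hχ (hloc _) hcl hk hφ ?_ r r
      intro M
      exact hF _ (op_mem hχ (continuous_ind M) (Astar_ind_zero M) hφ)

end

end Pool.Agent.Lib.MP_f399a8_nt
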