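import Pool.Agent.Lib.MP_f399a8_nt.Defs

/-!
# Basic facts on `PSM`
-/

namespace Pool.Agent.Lib.MP_f399a8_nt

open Matrix

noncomputable section

variable {p : ℕ} [Fact p.Prime] {C : Type*} [NormedField C]

theorem norm_char_one {η : ℚ_[p] →*₀ C} (hη : Continuous η) {x : ℚ_[p]} (hx : ‖x‖ = 1) :
    ‖η x‖ = 1 := by
  -- bounded on the unit sphere
  have hcomp : IsCompact (Metric.closedBall (0 : ℚ_[p]) 1) := isCompact_closedBall 0 1
  obtain ⟨B, hB⟩ := hcomp.exists_bound_of_continuousOn (f := η) hη.continuousOn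
  have key : ∀ y : ℚ_[p], ‖y‖ = 1 → ‖η y‖ ≤ 1 := by
    intro y hy
    by_contra hcon
    push Not at hcon
    obtain ⟨n, hn⟩ := pow_unbounded_of_one_lt B hcon
    have h1 : ‖η (y ^ n)‖ ≤ B := by
      apply hB
      simp [hy]
    rw [map_pow, norm_pow] at h1
    linarith
  have h0 : x ≠ 0 := by
    intro h
    rw [h, norm_zero] at hx
    exact zero_ne_one hx
  apply le_antisymm (key x hx)
  have h2 := key x⁻¹ (by rw [norm_inv, hx, inv_one])
  rw [map_inv₀, norm_inv] at h2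
  have h3 : 0 < ‖η x‖ := by
    rw [norm_pos_iff]
    exact (map_ne_zero η).mpr h0
  rw [inv_le_one₀ h3] at h2
  exact h2

theorem norm_p_pow' (k : ℕ) : ‖(p : ℚ_[p]) ^ k‖ = (p : ℝ) ^ (-(k : ℤ)) := by
  rw [norm_pow, Padic.norm_p, _root_.zpow_neg, zpow_natCast, inv_pow]

theorem norm_char_p {η : ℚ_[p] →*₀ C} (hη : Continuous η) {x : ℚ_[p]} {k : ℕ}
    (hx : ‖x‖ = (p : ℝ) ^ (-(k : ℤ))) : ‖η x‖ = ‖η (p : ℚ_[p])‖ ^ k := by
  have hp0 : (p : ℚ_[p]) ≠ 0 := by exact_mod_cast (Fact.out : p.Prime).ne_zero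
  have hpk : (p : ℚ_[p]) ^ k ≠ 0 := pow_ne_zero k hp0
  have h1 : ‖x / (p : ℚ_[p]) ^ k‖ = 1 := by
    rw [norm_div, hx, norm_p_pow', div_self]
    exact zpow_ne_zero _ (by exact_mod_cast (Fact.out : p.Prime).ne_zero)
  have h2 : x = (p : ℚ_[p]) ^ k * (x / (p : ℚ_[p]) ^ k) := by field_simp
  rw [h2, map_mul, norm_mul, norm_char_one hη h1, mul_one, map_pow, norm_pow]

theorem norm_char_le_one {η : ℚ_[p] →*₀ C} (hη : Continuous η) (h1 : ‖η (p : ℚ_[p])‖ < 1)
    {x : ℚ_[p]} (hx : ‖x‖ ≤ 1) : ‖η x‖ ≤ 1 := by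
  by_cases h0 : x = 0
  · simp [h0]
  obtain ⟨n, hn⟩ : ∃ n : ℤ, ‖x‖ = (p : ℝ) ^ (-n) := ⟨_, Padic.norm_eq_zpow_neg_valuation h0⟩
  have hp1 : (1 : ℝ) < p := by exact_mod_cast (Fact.out : p.Prime).one_lt
  have hn0 : 0 ≤ n := by
    by_contra hcon
    push Not at hcon
    have : (1 : ℝ) < (p : ℝ) ^ (-n) := one_lt_zpow₀ hp1 (by linarith)
    rw [hn] at hx
    linarith
  obtain ⟨k, rfl⟩ := Int.eq_ofNat_of_zero_le hn0
  rw [norm_char_p hη hn]
  exact pow_le_one₀ (norm_nonneg _) h1.le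

/-- a function in `PSM` vanishes on matrices with a zero row -/
theorem psm_zero_row {m N : ℕ} {χ : Fin m → ℚ_[p] →*₀ C}
    {f : Matrix (Fin m) (Fin N) ℚ_[p] → C} (hf : f ∈ PSM m N χ)
    {R : Matrix (Fin m) (Fin N) ℚ_[p]} {i : Fin m} (h : R i = 0) : f R = 0 := by
  have h1 := hf.2.1 R i 0
  rw [map_zero, zero_mul, zero_smul] at h1
  rw [← h1]
  congr 1
  rw [← h, Matrix.updateRow_eq_self]

/-- right multiplication by an arbitrary (rectangular) matrix -/
theorem psm_right {m N N' : ℕ} {χ : Fin m → ℚ_[p] →*₀ C}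
    {f : Matrix (Fin m) (Fin N) ℚ_[p] → C} (hf : f ∈ PSM m N χ)
    (g : Matrix (Fin N') (Fin N) ℚ_[p]) :
    (fun R : Matrix (Fin m) (Fin N') ℚ_[p] => f (R * g)) ∈ PSM m N' χ := by
  refine ⟨hf.1.comp (by fun_prop), fun R i c => ?_, fun R i j hij c => ?_⟩
  · have h1 : (R.updateRow i (c • R i)) * g = (R * g).updateRow i (c • (R * g) i) := by
      ext a b
      by_cases ha : a = i
      · subst ha
        simp [Matrix.mul_apply, Matrix.updateRow_self, Finset.mul_sum, mul_assoc]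
      · simp [Matrix.mul_apply, Matrix.updateRow_ne ha]
    show f ((R.updateRow i (c • R i)) * g) = χ i c * f (R * g)
    rw [h1, hf.2.1]
  · have h1 : (R.updateRow i (R i + c • R j)) * g =
        (R * g).updateRow i ((R * g) i + c • (R * g) j) := by
      ext a b
      by_cases ha : a = i
      · subst ha
        simp [Matrix.mul_apply, Matrix.updateRow_self, Finset.mul_sum, mul_assoc, add_mul,
          Finset.sum_add_distrib]
      · simp [Matrix.mul_apply, Matrix.updateRow_ne ha]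
    show f ((R.updateRow i (R i + c • R j)) * g) = f (R * g)
    rw [h1, hf.2.2 _ _ _ hij]

theorem drop_mem {m N : ℕ} {χ : Fin m → ℚ_[p] →*₀ C}
    {f : Matrix (Fin m) (Fin N) ℚ_[p] → C} (hf : f ∈ PSM m N χ) :
    Drop f ∈ PSM m (N + 1) χ := by
  have h1 := psm_right hf ((1 : Matrix (Fin (N + 1)) (Fin (N + 1)) ℚ_[p]).submatrix id Fin.succ)
  convert h1 using 1
  funext R
  show f (R.submatrix id Fin.succ) = _
  congr 1
  ext a b
  simp [Matrix.mul_apply, Matrix.one_apply]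

theorem isCompact_intM (m N : ℕ) :
    IsCompact {R : Matrix (Fin m) (Fin N) ℚ_[p] | IntM R} := by
  have h1 : {R : Matrix (Fin m) (Fin N) ℚ_[p] | IntM R} =
      Set.pi Set.univ (fun _ : Fin m => Set.pi Set.univ
        (fun _ : Fin N => Metric.closedBall (0 : ℚ_[p]) 1)) := by
    ext R
    constructor
    · intro h i _ j _
      simpa using h i j
    · intro h i j
      simpa using h i (Set.mem_univ _) j (Set.mem_univ _)
  rw [h1]
  exact isCompact_univ_pi (fun _ => isCompact_univ_pi (fun _ => isCompact_closedBall 0 1))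

theorem psm_bdd {m N : ℕ} {χ : Fin m → ℚ_[p] →*₀ C}
    {f : Matrix (Fin m) (Fin N) ℚ_[p] → C} (hf : f ∈ PSM m N χ) :
    ∃ B : ℝ, 0 < B ∧ ∀ R : Matrix (Fin m) (Fin N) ℚ_[p], IntM R → ‖f R‖ ≤ B := by
  obtain ⟨B, hB⟩ := (isCompact_intM (p := p) m N).exists_bound_of_continuousOn
    (f := f) hf.1.continuousOn
  exact ⟨max B 1, lt_max_of_lt_right one_pos, fun R hR => le_max_of_le_left (hB R hR)⟩

theorem psm_unif {m N : ℕ} {χ : Fin m → ℚ_[p] →*₀ C}
    {f : Matrix (Fin m) (Fin N) ℚ_[p] → C} (hf : f ∈ PSM m N χ) {ε : ℝ} (hε : 0 < ε) :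
    ∃ M : ℕ, ∀ R R' : Matrix (Fin m) (Fin N) ℚ_[p], IntM R → IntM R' →
      (∀ i j, ‖R i j - R' i j‖ ≤ (p : ℝ) ^ (-(M : ℤ))) → ‖f R - f R'‖ ≤ ε := by
  -- work with functions on a product of copies of `ℚ_p`
  let f' : (Fin m → Fin N → ℚ_[p]) → C := f
  have hf' : Continuous f' := hf.1
  have hcomp : IsCompact {R : Fin m → Fin N → ℚ_[p] | IntM R} := isCompact_intM (p := p) m N
  have huc : UniformContinuousOn f' {R : Fin m → Fin N → ℚ_[p] | IntM R} :=
    hcomp.uniformContinuousOn_of_continuous hf'.continuousOn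
  rw [Metric.uniformContinuousOn_iff] at huc
  obtain ⟨δ, hδ, h⟩ := huc ε hε
  have hp1 : (1 : ℝ) < p := by exact_mod_cast (Fact.out : p.Prime).one_lt
  obtain ⟨M, hM⟩ := exists_pow_lt_of_lt_one hδ (inv_lt_one_of_one_lt₀ hp1)
  have key : ∀ S S' : Fin m → Fin N → ℚ_[p], S ∈ {R : Fin m → Fin N → ℚ_[p] | IntM R} →
      S' ∈ {R : Fin m → Fin N → ℚ_[p] | IntM R} →
      (∀ i j, ‖S i j - S' i j‖ ≤ (p : ℝ) ^ (-(M : ℤ))) → ‖f' S - f' S'‖ ≤ ε := by
    intro S S' hS hS' hSS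
    have h2 : dist S S' < δ := by
      refine lt_of_le_of_lt ?_ hM
      rw [dist_pi_le_iff (by positivity)]
      intro i
      rw [dist_pi_le_iff (by positivity)]
      intro j
      rw [dist_eq_norm]
      have := hSS i j
      rwa [_root_.zpow_neg, zpow_natCast, ← inv_pow] at this
    have h3 := h S hS S' hS' h2
    rw [dist_eq_norm] at h3
    exact h3.le
  exact ⟨M, fun R R' hR hR' hRR => key R R' hR hR' hRR⟩

/-- it is enough to bound a function in `PSM` where the last row has an entry of norm one -/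
theorem psm_prim {m N : ℕ} {χ : Fin (m + 1) → ℚ_[p] →*₀ C} (hχ : Small χ)
    {f : Matrix (Fin (m + 1)) (Fin N) ℚ_[p] → C} (hf : f ∈ PSM (m + 1) N χ) {B : ℝ}
    (hB : 0 ≤ B)
    (h : ∀ R : Matrix (Fin (m + 1)) (Fin N) ℚ_[p], IntM R → (∃ j, ‖R (Fin.last m) j‖ = 1) →
      ‖f R‖ ≤ B) (R : Matrix (Fin (m + 1)) (Fin N) ℚ_[p]) (hR : IntM R) : ‖f R‖ ≤ B := by
  by_cases h0 : R (Fin.last m) = 0
  · rw [psm_zero_row hf h0, norm_zero]
    exact hB
  have h1 : ∃ j, R (Fin.last m) j ≠ 0 := by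
    by_contra hcon
    push Not at hcon
    exact h0 (funext hcon)
  obtain ⟨j1, hj1⟩ := h1
  obtain ⟨j, -, hj⟩ := Finset.exists_max_image Finset.univ (fun j => ‖R (Fin.last m) j‖)
    ⟨j1, Finset.mem_univ _⟩
  set c := R (Fin.last m) j with hc
  have hc0 : c ≠ 0 := by
    intro hcc
    have := hj j1 (Finset.mem_univ _)
    rw [hcc, norm_zero] at this
    exact hj1 (norm_le_zero_iff.mp this)
  set R' := R.updateRow (Fin.last m) (c⁻¹ • R (Fin.last m)) with hR'
  have h2 : R = R'.updateRow (Fin.last m) (c • R' (Fin.last m)) := by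
    rw [hR']
    ext a b
    by_cases ha : a = Fin.last m
    · subst ha
      simp [Matrix.updateRow_self, hc0]
    · simp [Matrix.updateRow_ne ha]
  rw [h2, hf.2.1, norm_mul]
  have h3 : ‖χ (Fin.last m) c‖ ≤ 1 := norm_char_le_one (hχ _).1 (hχ _).2 (hR _ _)
  have h4 : ‖f R'‖ ≤ B := by
    apply h
    · intro a b
      by_cases ha : a = Fin.last m
      · subst ha
        simp only [hR', Matrix.updateRow_self, Pi.smul_apply, smul_eq_mul, norm_mul, norm_inv]
        rw [inv_mul_le_one₀ (norm_pos_iff.mpr hc0)]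
        exact hj b (Finset.mem_univ _)
      · simp only [hR', Matrix.updateRow_ne ha]
        exact hR a b
    · refine ⟨j, ?_⟩
      simp only [hR', Matrix.updateRow_self, Pi.smul_apply, smul_eq_mul, norm_mul, norm_inv]
      rw [← hc, inv_mul_cancel₀ (norm_ne_zero_iff.mpr hc0)]
  calc ‖χ (Fin.last m) c‖ * ‖f R'‖ ≤ 1 * B := by
        apply mul_le_mul h3 h4 (norm_nonneg _) zero_le_one
    _ = B := one_mul B

theorem intM_mul {m N N' : ℕ} {R : Matrix (Fin m) (Fin N) ℚ_[p]}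
    {g : Matrix (Fin N) (Fin N') ℚ_[p]} (hR : IntM R) (hg : IntM g) : IntM (R * g) := by
  intro i j
  rw [Matrix.mul_apply]
  apply IsUltrametricDist.norm_sum_le_of_forall_le_of_nonneg zero_le_one
  intro k _
  rw [norm_mul]
  exact mul_le_one₀ (hR i k) (norm_nonneg _) (hg k j)

theorem intM_transvection {N : ℕ} {i j : Fin N} {c : ℚ_[p]} (hc : ‖c‖ ≤ 1) :
    IntM (transvection i j c) := by
  intro a b
  rw [transvection, Matrix.add_apply]
  refine le_trans (IsUltrametricDist.norm_add_le_max _ _) (max_le ?_ ?_)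
  · rw [Matrix.one_apply]
    split_ifs <;> simp
  · rw [Matrix.single_apply]
    split_ifs <;> simp [hc]

theorem intM_nU {N : ℕ} {u : Fin N → ℚ_[p]} (hu : ∀ j, ‖u j‖ ≤ 1) : IntM (nU u) := by
  intro a b
  rw [nU, Matrix.add_apply]
  refine le_trans (IsUltrametricDist.norm_add_le_max _ _) (max_le ?_ ?_)
  · rw [Matrix.one_apply]
    split_ifs <;> simp
  · rw [Matrix.of_apply]
    split_ifs
    · refine Fin.lastCases ?_ (fun i => ?_) b
      · simp
      · simpa using hu i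
    · simp

end

end Pool.Agent.Lib.MP_f399a8_nt
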