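import Mathlib

/-!
# MP_f399a8_nt: principal series as functions of a block of rows

`PSM m N χ` is the space of continuous functions `f` of an `m × N` matrix `R` over `ℚ_p` such that
multiplying row `i` by `c` multiplies `f` by `χ i c`, and adding a multiple of a lower row to a
higher row does not change `f`.  The characters `χ i` are extended by `χ i 0 = 0`.
-/

namespace Pool.Agent.Lib.MP_f399a8_nt

open Matrix

noncomputable section

variable {p : ℕ} [Fact p.Prime] {C : Type*} [NormedField C]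

/-- all entries are `p`-adic integers -/
def IntM {m N : ℕ} (R : Matrix (Fin m) (Fin N) ℚ_[p]) : Prop := ∀ i j, ‖R i j‖ ≤ 1

/-- functions of an `m × N` matrix, equivariant under upper triangular row operations -/
def PSM (m N : ℕ) (χ : Fin m → ℚ_[p] →*₀ C) :
    Submodule C (Matrix (Fin m) (Fin N) ℚ_[p] → C) where
  carrier := {f | Continuous f ∧
    (∀ (R : Matrix (Fin m) (Fin N) ℚ_[p]) (i : Fin m) (c : ℚ_[p]),
      f (R.updateRow i (c • R i)) = χ i c * f R) ∧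
    (∀ (R : Matrix (Fin m) (Fin N) ℚ_[p]) (i j : Fin m), i < j → ∀ c : ℚ_[p],
      f (R.updateRow i (R i + c • R j)) = f R)}
  add_mem' := by
    rintro f g ⟨hf1, hf2, hf3⟩ ⟨hg1, hg2, hg3⟩
    refine ⟨hf1.add hg1, fun R i c => ?_, fun R i j hij c => ?_⟩
    · simp only [Pi.add_apply, hf2, hg2]; ring
    · simp only [Pi.add_apply, hf3 R i j hij c, hg3 R i j hij c]
  zero_mem' := by
    refine ⟨continuous_const, fun R i c => ?_, fun R i j hij c => ?_⟩
    · simp
    · simp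
  smul_mem' := by
    rintro a f ⟨hf1, hf2, hf3⟩
    refine ⟨hf1.const_smul a, fun R i c => ?_, fun R i j hij c => ?_⟩
    · simp only [Pi.smul_apply, hf2, smul_eq_mul]; ring
    · simp only [Pi.smul_apply, hf3 R i j hij c]

/-- continuous characters which are small at `p` -/
def Small {m : ℕ} (χ : Fin m → ℚ_[p] →*₀ C) : Prop :=
  ∀ i, Continuous (χ i) ∧ ‖χ i (p : ℚ_[p])‖ < 1

/-- a finite combination of translates of the character vanishes outside `ℤ_p`, but not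
identically -/
def Loc (η : ℚ_[p] →*₀ C) : Prop :=
  ∃ (n : ℕ) (c : Fin n → ℚ_[p]) (lam : Fin n → C), (∀ i, ‖c i‖ ≤ 1) ∧
    (∀ z : ℚ_[p], 1 < ‖z‖ → ∑ i, lam i * η (z - c i) = 0) ∧ (∑ i, lam i = 0) ∧
    ∃ z : ℚ_[p], ‖z‖ ≤ 1 ∧ ∑ i, lam i * η (z - c i) ≠ 0

/-- `f` is within `ε` of the subspace `X`, uniformly on integral matrices -/
def Near {m N : ℕ} (X : Submodule C (Matrix (Fin m) (Fin N) ℚ_[p] → C)) (ε : ℝ)
    (f : Matrix (Fin m) (Fin N) ℚ_[p] → C) : Prop :=
  ∃ w ∈ X, ∀ R : Matrix (Fin m) (Fin N) ℚ_[p], IntM R → ‖f R - w R‖ ≤ ε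

/-- closed in `PSM` for uniform convergence on integral matrices -/
def ClosedU {m N : ℕ} (χ : Fin m → ℚ_[p] →*₀ C)
    (X : Submodule C (Matrix (Fin m) (Fin N) ℚ_[p] → C)) : Prop :=
  ∀ f ∈ PSM m N χ, (∀ ε : ℝ, 0 < ε → Near X ε f) → f ∈ X

/-- stable under integral elementary column operations -/
def KStab {m N : ℕ} (X : Submodule C (Matrix (Fin m) (Fin N) ℚ_[p] → C)) : Prop :=
  ∀ f ∈ X, ∀ i j : Fin N, i ≠ j → ∀ c : ℚ_[p], ‖c‖ ≤ 1 →
    (fun R : Matrix (Fin m) (Fin N) ℚ_[p] => f (R * transvection i j c)) ∈ X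

/-- topological irreducibility of the principal series of `GL_m` -/
def Irr (m : ℕ) (χ : Fin m → ℚ_[p] →*₀ C) : Prop :=
  ∀ Y : Submodule C (Matrix (Fin m) (Fin m) ℚ_[p] → C), Y ≤ PSM m m χ → ClosedU χ Y →
    (∀ φ ∈ Y, ∀ g : Matrix (Fin m) (Fin m) ℚ_[p], g.det ≠ 0 →
      (fun A : Matrix (Fin m) (Fin m) ℚ_[p] => φ (A * g)) ∈ Y) →
    (∃ φ ∈ Y, φ ≠ 0) → Y = PSM m m χ

/-- the quotient of two characters -/
def chDiv (a b : ℚ_[p] →*₀ C) : ℚ_[p] →*₀ C where
  toFun x := a x / b x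
  map_zero' := by simp
  map_one' := by simp
  map_mul' x y := by simp [mul_div_mul_comm]

/-- the quotients of the last row by its last entry -/
def ratio {m N : ℕ} (R : Matrix (Fin (m + 1)) (Fin (N + 1)) ℚ_[p]) : Fin N → ℚ_[p] :=
  fun j => R (Fin.last m) j.castSucc / R (Fin.last m) (Fin.last N)

/-- the Schur complement of the last entry of the last row -/
def Schur {m N : ℕ} (R : Matrix (Fin (m + 1)) (Fin (N + 1)) ℚ_[p]) :
    Matrix (Fin m) (Fin N) ℚ_[p] :=
  fun i j => R i.castSucc j.castSucc - R i.castSucc (Fin.last N) * ratio R j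

/-- functions concentrated near the last coordinate line, with weight `γ` -/
def Op {m N : ℕ} (η : ℚ_[p] →*₀ C) (γ : (Fin N → ℚ_[p]) → C)
    (ψ : Matrix (Fin m) (Fin N) ℚ_[p] → C) :
    Matrix (Fin (m + 1)) (Fin (N + 1)) ℚ_[p] → C :=
  fun R => η (R (Fin.last m) (Fin.last N)) * γ (ratio R) * ψ (Schur R)

open Classical in
/-- the indicator function of the ball of radius `p ^ (-r)` -/
def ind {N : ℕ} (r : ℕ) : (Fin N → ℚ_[p]) → C :=
  fun y => if ∀ j, ‖y j‖ ≤ (p : ℝ) ^ (-(r : ℤ)) then 1 else 0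

open Classical in
/-- the indicator function of a box with radius `p ^ (-r)` in the first coordinate and `p ^ (-s)`
in the others -/
def E {m : ℕ} (r s : ℕ) : (Fin (m + 1) → ℚ_[p]) → C :=
  fun y => if ‖y 0‖ ≤ (p : ℝ) ^ (-(r : ℤ)) ∧ ∀ j : Fin m, ‖y j.succ‖ ≤ (p : ℝ) ^ (-(s : ℤ))
    then 1 else 0

/-- functions which do not depend on the first column -/
def Drop {m N : ℕ} (φ : Matrix (Fin m) (Fin N) ℚ_[p] → C) :
    Matrix (Fin m) (Fin (N + 1)) ℚ_[p] → C :=
  fun R => φ (R.submatrix id Fin.succ)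

/-- the matrix of the column operations `col j ↦ col j + u j * col last` -/
def nU {N : ℕ} (u : Fin N → ℚ_[p]) : Matrix (Fin (N + 1)) (Fin (N + 1)) ℚ_[p] :=
  1 + Matrix.of fun i j => if i = Fin.last N then (Fin.snoc u 0 : Fin (N + 1) → ℚ_[p]) j else 0

/-- block diagonal matrix with last entry `1` -/
def bd {m N : ℕ} (A : Matrix (Fin m) (Fin N) ℚ_[p]) :
    Matrix (Fin (m + 1)) (Fin (N + 1)) ℚ_[p] :=
  fun i j => (Fin.snoc (fun i' : Fin m => (Fin.snoc (A i') 0 : Fin (N + 1) → ℚ_[p]))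
    (Fin.snoc (0 : Fin N → ℚ_[p]) 1) : Fin (m + 1) → Fin (N + 1) → ℚ_[p]) i j

end

end Pool.Agent.Lib.MP_f399a8_nt
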