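import Pool.Agent.Lib.MP_f399a8_nt.Defs

/-!
# Expansion of continuous functions in indicator functions of small boxes

PROOFS.
`expand`: `γ` is uniformly continuous on the compact unit polydisc; every `y` in the unit polydisc
is congruent modulo `p ^ N` to exactly one `α : Fin d → Fin (p ^ N)` (`PadicInt.appr`,
`PadicInt.toZModPow` or by hand), so exactly one term of the sum is nonzero; for `y` outside of the
polydisc everything vanishes.
`E_refine`: the same for the last `m` coordinates divided by `p ^ s`.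
`ind_scl`: unfold everything; `‖x / p ^ r‖ = ‖x‖ * p ^ r`.
-/

namespace Pool.Agent.Lib.MP_f399a8_nt

noncomputable section

variable {p : ℕ} [Fact p.Prime] {C : Type*} [NormedField C]

/-- rescaling: first coordinate divided by `p ^ r`, the others by `p ^ s` -/
def scl {m : ℕ} (r s : ℕ) (y : Fin (m + 1) → ℚ_[p]) : Fin (m + 1) → ℚ_[p] :=
  Fin.cons (y 0 / (p : ℚ_[p]) ^ r) (fun j => y j.succ / (p : ℚ_[p]) ^ s)

/-- inverse rescaling -/
def usc {m : ℕ} (r s : ℕ) (y : Fin (m + 1) → ℚ_[p]) : Fin (m + 1) → ℚ_[p] :=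
  Fin.cons (y 0 * (p : ℚ_[p]) ^ r) (fun j => y j.succ * (p : ℚ_[p]) ^ s)

theorem Expand_zpow_le_one (N : ℕ) : (p : ℝ) ^ (-(N : ℤ)) ≤ 1 := by
  have h1 : (1 : ℝ) ≤ (p : ℝ) := by
    exact_mod_cast (Fact.out : p.Prime).one_lt.le
  exact zpow_le_one_of_nonpos₀ h1 (by simp)

theorem Expand_nat_le (n : ℕ) : ‖((n : ℕ) : ℚ_[p])‖ ≤ 1 := by
  have := Padic.norm_int_le_one (p := p) (n : ℤ)
  simpa using this

theorem Expand_norm_le_one {x : ℚ_[p]} {n N : ℕ}
    (h : ‖x - ((n : ℕ) : ℚ_[p])‖ ≤ (p : ℝ) ^ (-(N : ℤ))) : ‖x‖ ≤ 1 := by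
  have e : x = (x - ((n : ℕ) : ℚ_[p])) + ((n : ℕ) : ℚ_[p]) := by ring
  rw [e]
  exact (IsUltrametricDist.norm_add_le_max _ _).trans
    (max_le (h.trans (Expand_zpow_le_one N)) (Expand_nat_le n))

theorem Expand_scale (x b : ℚ_[p]) (s t : ℕ) :
    ‖x / (p : ℚ_[p]) ^ s - b‖ ≤ (p : ℝ) ^ (-(t : ℤ)) ↔
      ‖x - b * (p : ℚ_[p]) ^ s‖ ≤ (p : ℝ) ^ (-((s + t : ℕ) : ℤ)) := by
  have hp0 : (p : ℝ) ≠ 0 := by
    have := (Fact.out : p.Prime).ne_zero
    exact_mod_cast this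
  have hpp : (0 : ℝ) < (p : ℝ) := by
    exact_mod_cast (Fact.out : p.Prime).pos
  have hps : (0 : ℝ) < (p : ℝ) ^ (-(s : ℤ)) := zpow_pos hpp _
  have hq0 : (p : ℚ_[p]) ≠ 0 := by
    have := (Fact.out : p.Prime).ne_zero
    exact_mod_cast this
  have hq : (p : ℚ_[p]) ^ s ≠ 0 := pow_ne_zero _ hq0
  have e1 : x - b * (p : ℚ_[p]) ^ s = (x / (p : ℚ_[p]) ^ s - b) * (p : ℚ_[p]) ^ s := by
    rw [sub_mul, div_mul_cancel₀ _ hq]
  have e2 : (p : ℝ) ^ (-((s + t : ℕ) : ℤ)) = (p : ℝ) ^ (-(t : ℤ)) * (p : ℝ) ^ (-(s : ℤ)) := by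
    rw [← zpow_add₀ hp0]
    congr 1
    push_cast
    ring
  rw [e1, norm_mul, Padic.norm_p_pow, e2]
  constructor
  · intro h
    exact mul_le_mul_of_nonneg_right h hps.le
  · intro h
    exact le_of_mul_le_mul_right h hps

theorem Expand_exists {x : ℚ_[p]} (hx : ‖x‖ ≤ 1) (N : ℕ) :
    ∃ a : Fin (p ^ N), ‖x - ((a : ℕ) : ℚ_[p])‖ ≤ (p : ℝ) ^ (-(N : ℤ)) := by
  set z : ℤ_[p] := ⟨x, hx⟩ with hz
  refine ⟨⟨z.appr N, z.appr_lt N⟩, ?_⟩
  have h1 := PadicInt.appr_spec N z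
  rw [← PadicInt.norm_le_pow_iff_mem_span_pow] at h1
  rw [← PadicInt.padic_norm_e_of_padicInt] at h1
  have e : ((z - (z.appr N : ℤ_[p]) : ℤ_[p]) : ℚ_[p]) = x - ((z.appr N : ℕ) : ℚ_[p]) := by
    push_cast
    rfl
  rw [e] at h1
  exact h1

theorem Expand_unique {x : ℚ_[p]} {N : ℕ} {a b : Fin (p ^ N)}
    (ha : ‖x - ((a : ℕ) : ℚ_[p])‖ ≤ (p : ℝ) ^ (-(N : ℤ)))
    (hb : ‖x - ((b : ℕ) : ℚ_[p])‖ ≤ (p : ℝ) ^ (-(N : ℤ))) : a = b := by
  have h : ‖((((a : ℕ) : ℤ) - ((b : ℕ) : ℤ) : ℤ) : ℚ_[p])‖ ≤ (p : ℝ) ^ (-(N : ℤ)) := by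
    have e : ((((a : ℕ) : ℤ) - ((b : ℕ) : ℤ) : ℤ) : ℚ_[p]) =
        (x - ((b : ℕ) : ℚ_[p])) + -(x - ((a : ℕ) : ℚ_[p])) := by
      push_cast
      ring
    rw [e]
    refine (IsUltrametricDist.norm_add_le_max _ _).trans (max_le hb ?_)
    rw [norm_neg]
    exact ha
  rw [Padic.norm_int_le_pow_iff_dvd] at h
  have h2 := Int.eq_zero_of_abs_lt_dvd h (by
    have h3 := a.2
    have h4 := b.2
    rw [abs_lt]
    zify at h3 h4
    constructor <;> omega)
  exact Fin.ext (by omega)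

theorem Expand_unif {d : ℕ} {γ : (Fin d → ℚ_[p]) → C} (hc : Continuous γ) {δ : ℝ} (hδ : 0 < δ) :
    ∃ N : ℕ, ∀ y y' : Fin d → ℚ_[p], (∀ j, ‖y j‖ ≤ 1) → (∀ j, ‖y' j‖ ≤ 1) →
      (∀ j, ‖y j - y' j‖ ≤ (p : ℝ) ^ (-(N : ℤ))) → ‖γ y - γ y'‖ ≤ δ := by
  have hK : IsCompact (Set.pi Set.univ (fun _ : Fin d => Metric.closedBall (0 : ℚ_[p]) 1)) :=
    isCompact_univ_pi fun _ => isCompact_closedBall _ _
  have hu := hK.uniformContinuousOn_of_continuous hc.continuousOn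
  rw [Metric.uniformContinuousOn_iff] at hu
  obtain ⟨ε, hε, h⟩ := hu δ hδ
  have hp1 : (p : ℝ)⁻¹ < 1 := by
    have : (1 : ℝ) < (p : ℝ) := by exact_mod_cast (Fact.out : p.Prime).one_lt
    exact inv_lt_one_of_one_lt₀ this
  obtain ⟨N, hN⟩ := exists_pow_lt_of_lt_one hε hp1
  refine ⟨N, fun y y' hy hy' hyy => ?_⟩
  have hmem : ∀ z : Fin d → ℚ_[p], (∀ j, ‖z j‖ ≤ 1) →
      z ∈ Set.pi Set.univ (fun _ : Fin d => Metric.closedBall (0 : ℚ_[p]) 1) := by
    intro z hz j _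
    rw [mem_closedBall_zero_iff]
    exact hz j
  have hd : dist y y' < ε := by
    refine lt_of_le_of_lt ?_ hN
    rw [dist_pi_le_iff (by positivity)]
    intro j
    rw [dist_eq_norm]
    have := hyy j
    rwa [zpow_neg, zpow_natCast, ← inv_pow] at this
  have := h y (hmem y hy) y' (hmem y' hy') hd
  rw [dist_eq_norm] at this
  exact this.le

theorem expand {d : ℕ} {γ : (Fin d → ℚ_[p]) → C} (hc : Continuous γ)
    (h0 : ∀ y, (∃ j, 1 < ‖y j‖) → γ y = 0) {δ : ℝ} (hδ : 0 < δ) :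
    ∃ N : ℕ, ∀ y : Fin d → ℚ_[p],
      ‖γ y - ∑ α : Fin d → Fin (p ^ N), γ (fun j => ((α j : ℕ) : ℚ_[p])) *
        ind N (y - fun j => ((α j : ℕ) : ℚ_[p]))‖ ≤ δ := by
  obtain ⟨N, hN⟩ := Expand_unif hc hδ
  refine ⟨N, fun y => ?_⟩
  by_cases h : ∃ j, 1 < ‖y j‖
  · have hz : ∑ α : Fin d → Fin (p ^ N), γ (fun j => ((α j : ℕ) : ℚ_[p])) *
        ind N (y - fun j => ((α j : ℕ) : ℚ_[p])) = 0 := by
      refine Finset.sum_eq_zero fun α _ => ?_
      obtain ⟨j, hj⟩ := h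
      have : ind (C := C) N (y - fun j => ((α j : ℕ) : ℚ_[p])) = 0 := by
        unfold ind
        rw [if_neg]
        intro hall
        exact absurd (Expand_norm_le_one (hall j)) (not_le.mpr hj)
      rw [this, mul_zero]
    rw [hz, h0 y h, sub_zero, norm_zero]
    exact hδ.le
  · push Not at h
    choose α hα using fun j => Expand_exists (h j) N
    have hs : ∑ α : Fin d → Fin (p ^ N), γ (fun j => ((α j : ℕ) : ℚ_[p])) *
        ind N (y - fun j => ((α j : ℕ) : ℚ_[p])) = γ (fun j => ((α j : ℕ) : ℚ_[p])) := by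
      rw [Finset.sum_eq_single α]
      · have : ind (C := C) N (y - fun j => ((α j : ℕ) : ℚ_[p])) = 1 := by
          unfold ind
          rw [if_pos]
          exact hα
        rw [this, mul_one]
      · intro β _ hβ
        have : ind (C := C) N (y - fun j => ((β j : ℕ) : ℚ_[p])) = 0 := by
          unfold ind
          rw [if_neg]
          intro hall
          apply hβ
          funext j
          exact Expand_unique (hall j) (hα j)
        rw [this, mul_zero]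
      · intro h
        exact absurd (Finset.mem_univ _) h
    rw [hs]
    exact hN y _ h (fun j => Expand_nat_le _) hα

theorem E_refine {m : ℕ} (r s t : ℕ) (y : Fin (m + 1) → ℚ_[p]) :
    E (C := C) r s y = ∑ β : Fin m → Fin (p ^ t),
      E r (s + t) (y - Fin.cons 0 (fun j => ((β j : ℕ) : ℚ_[p]) * (p : ℚ_[p]) ^ s)) := by
  by_cases h : ‖y 0‖ ≤ (p : ℝ) ^ (-(r : ℤ)) ∧ ∀ j : Fin m, ‖y j.succ‖ ≤ (p : ℝ) ^ (-(s : ℤ))
  · have h1 : ∀ j : Fin m, ‖y j.succ / (p : ℚ_[p]) ^ s‖ ≤ 1 := fun j => by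
      have := (Expand_scale (y j.succ) 0 s 0).mpr (by simpa using h.2 j)
      simpa using this
    choose β hβ using fun j => Expand_exists (h1 j) t
    rw [Finset.sum_eq_single β]
    · have e1 : E (C := C) r s y = 1 := by
        unfold E
        rw [if_pos h]
      rw [e1]
      unfold E
      rw [if_pos]
      refine ⟨by simpa using h.1, fun j => ?_⟩
      have := (Expand_scale (y j.succ) _ s t).mp (hβ j)
      simpa using this
    · intro β' _ hne
      unfold E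
      rw [if_neg]
      intro hall
      apply hne
      funext j
      have h2 := hall.2 j
      refine Expand_unique (N := t) ((Expand_scale (y j.succ) _ s t).mpr ?_) (hβ j)
      simpa using h2
    · intro h
      exact absurd (Finset.mem_univ _) h
  · have e1 : E (C := C) r s y = 0 := by
      unfold E
      rw [if_neg h]
    rw [e1]
    symm
    refine Finset.sum_eq_zero fun β _ => ?_
    unfold E
    rw [if_neg]
    intro hall
    apply h
    refine ⟨by simpa using hall.1, fun j => ?_⟩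
    have h2 := hall.2 j
    have h3 : ‖y j.succ / (p : ℚ_[p]) ^ s - ((β j : ℕ) : ℚ_[p])‖ ≤ (p : ℝ) ^ (-(t : ℤ)) :=
      (Expand_scale (y j.succ) _ s t).mpr (by simpa using h2)
    have h4 := Expand_norm_le_one h3
    have h5 := (Expand_scale (y j.succ) 0 s 0).mp (by simpa using h4)
    simpa using h5

theorem ind_scl {m : ℕ} (r s N : ℕ) (α y : Fin (m + 1) → ℚ_[p]) :
    ind (C := C) N (scl r s y - α) = E (r + N) (s + N) (y - usc r s α) := by
  unfold ind E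
  have h : (∀ j, ‖(scl r s y - α) j‖ ≤ (p : ℝ) ^ (-(N : ℤ))) ↔
      (‖(y - usc r s α) 0‖ ≤ (p : ℝ) ^ (-((r + N : ℕ) : ℤ)) ∧
        ∀ j : Fin m, ‖(y - usc r s α) j.succ‖ ≤ (p : ℝ) ^ (-((s + N : ℕ) : ℤ))) := by
    rw [Fin.forall_fin_succ]
    refine and_congr ?_ (forall_congr' fun j => ?_)
    · exact Expand_scale (y 0) (α 0) r N
    · exact Expand_scale (y j.succ) (α j.succ) s N
  simp only [h]

theorem ind_zero_scl {m : ℕ} (r s : ℕ) (y : Fin (m + 1) → ℚ_[p]) :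
    ind (C := C) 0 (scl r s y) = E r s y := by
  unfold ind E
  have h : (∀ j, ‖(scl r s y) j‖ ≤ (p : ℝ) ^ (-((0 : ℕ) : ℤ))) ↔
      (‖y 0‖ ≤ (p : ℝ) ^ (-(r : ℤ)) ∧ ∀ j : Fin m, ‖y j.succ‖ ≤ (p : ℝ) ^ (-(s : ℤ))) := by
    rw [Fin.forall_fin_succ]
    refine and_congr ?_ (forall_congr' fun j => ?_)
    · have := Expand_scale (y 0) 0 r 0
      simpa [scl] using this
    · have := Expand_scale (y j.succ) 0 s 0
      simpa [scl] using this
  simp only [h]

theorem continuous_scl {m : ℕ} (r s : ℕ) : Continuous (scl (p := p) (m := m) r s) := by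
  refine continuous_pi fun j => ?_
  refine Fin.cases ?_ (fun j => ?_) j
  · exact (continuous_apply 0).div_const _
  · exact (continuous_apply j.succ).div_const _

/-- the rescaled polydisc is contained in the unit polydisc -/
theorem scl_supp {m : ℕ} (r s : ℕ) {y : Fin (m + 1) → ℚ_[p]} (h : ∃ j, 1 < ‖y j‖) :
    ∃ j, 1 < ‖scl r s y j‖ := by
  have key : ∀ (x : ℚ_[p]) (r : ℕ), 1 < ‖x‖ → 1 < ‖x / (p : ℚ_[p]) ^ r‖ := by
    intro x r hx
    by_contra hc
    rw [not_lt] at hc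
    have h1 := (Expand_scale x 0 r 0).mp (by simpa using hc)
    have h2 : (p : ℝ) ^ (-((r + 0 : ℕ) : ℤ)) ≤ 1 := Expand_zpow_le_one _
    have h3 : ‖x‖ ≤ 1 := by
      refine le_trans ?_ h2
      simpa using h1
    linarith
  obtain ⟨j, hj⟩ := h
  refine ⟨j, ?_⟩
  revert hj
  refine Fin.cases ?_ (fun j => ?_) j
  · intro hj
    exact key _ _ hj
  · intro hj
    exact key _ _ hj

end

end Pool.Agent.Lib.MP_f399a8_nt
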