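import Pool.Agent.Lib.MP_f399a8_nt.OpA
import Pool.Agent.Lib.MP_f399a8_nt.Expand

/-!
# Functions concentrated near the last coordinate line are dense

PROOF.  Write `l` for the last index, `v` for the last row of `R`.
`chart_mem`: `f ∈ PSM` with `f R = 0` unless `‖v j‖ ≤ ‖v l‖` for all `j`.  For `R` with `v l ≠ 0`,
`f R = χ_last (v l) * f (bd (Schur R) * nU (ratio R))` (row operations: subtract multiples of the
last row, scale the last row; this is `psm_chart`).  Given `ε > 0` let `N` be such that `f` changes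
by at most `ε` on integral matrices under changes of size `p ^ (-N)` (`psm_unif`).  For
`α : Fin N' → Fin (p ^ N)` put `ψ_α A := f (bd A * nU α) ∈ PSM m N'` (`N'` the number of columns
minus one) and `w := ∑ α, Op χ_last (fun y => ind N (y - α)) ψ_α`.  By `op_nU` each summand is a
translate by `nU (-α)` of `Op χ_last (ind N) ψ_α ∈ X`, so `w ∈ X` (`nU_mem`).  For integral `R`
with primitive last row (`psm_prim`): if some `‖v j‖ > ‖v l‖` both functions vanish (some
`‖ratio‖ > 1`, or `v l = 0`); otherwise `‖v l‖ = 1`, `Schur R` is integral, exactly one `α` is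
congruent to `ratio R`, and `‖f R - w R‖ = ‖f (bd (Schur R) * nU (ratio R)) -
f (bd (Schur R) * nU α)‖ ≤ ε`.  Hence `f ∈ X` as `X` is closed.
`density`: let `f ∈ PSM`.  For an index `j` let `P_j v` mean: `‖v k‖ ≤ ‖v j‖` for all `k`,
`‖v k‖ < ‖v j‖` for all `k > j`.  For `v ≠ 0` exactly one `P_j v` holds.  `f = ∑_j f_j`,
`f_j R := if P_j v then f R else 0`; `f_j ∈ PSM` (the condition `P_j` is open and closed on
`v ≠ 0`, invariant under scaling, and `f R → 0` as `v → 0`, `f R = 0` if `v = 0`).  `f_l` is as in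
`chart_mem`; for `j ≠ l` the function `R ↦ f_j (R * sw l j)` is as in `chart_mem` [new column
`l` is `- column j`], so it is in `X`, and `f_j R` is obtained from it by another `sw` (`sw_mem`,
`sw j l` after `sw l j` is the identity).
-/

namespace Pool.Agent.Lib.MP_f399a8_nt

open Matrix

noncomputable section

variable {p : ℕ} [Fact p.Prime] {C : Type*} [NormedField C] [IsUltrametricDist C]

omit [IsUltrametricDist C] in
/-- adding multiples of the last row to other rows -/
theorem DensA_rows {m N : ℕ} {χ : Fin (m + 1) → ℚ_[p] →*₀ C}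
    {f : Matrix (Fin (m + 1)) (Fin N) ℚ_[p] → C} (hf : f ∈ PSM (m + 1) N χ)
    (d : Fin (m + 1) → ℚ_[p]) (R : Matrix (Fin (m + 1)) (Fin N) ℚ_[p])
    (s : Finset (Fin (m + 1))) (hs : Fin.last m ∉ s) :
    f (Matrix.of fun i j => R i j + (if i ∈ s then d i else 0) * R (Fin.last m) j) = f R := by
  induction s using Finset.induction_on with
  | empty =>
    congr 1
    ext i j
    simp
  | insert i₀ s hi₀ ih =>
    have hs' : Fin.last m ∉ s := fun h => hs (Finset.mem_insert_of_mem h)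
    have hne : i₀ ≠ Fin.last m := fun h => hs (h ▸ Finset.mem_insert_self _ _)
    rw [← ih hs']
    have hlt : i₀ < Fin.last m := lt_of_le_of_ne (Fin.le_last i₀) hne
    rw [← hf.2.2 (Matrix.of fun i j => R i j + (if i ∈ s then d i else 0) * R (Fin.last m) j)
      i₀ (Fin.last m) hlt (d i₀)]
    congr 1
    ext i j
    rw [Matrix.updateRow_apply]
    by_cases hi : i = i₀
    · rw [if_pos hi, hi]
      simp [hi₀, hs']
    · rw [if_neg hi]
      simp [Finset.mem_insert, hi]

theorem DensA_bd_cc {m N : ℕ} (A : Matrix (Fin m) (Fin N) ℚ_[p]) (i : Fin m) (j : Fin N) :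
    bd A i.castSucc j.castSucc = A i j := by
  simp [bd]

theorem DensA_bd_cl {m N : ℕ} (A : Matrix (Fin m) (Fin N) ℚ_[p]) (i : Fin m) :
    bd A i.castSucc (Fin.last N) = 0 := by
  simp [bd]

theorem DensA_bd_lc {m N : ℕ} (A : Matrix (Fin m) (Fin N) ℚ_[p]) (j : Fin N) :
    bd A (Fin.last m) j.castSucc = 0 := by
  simp [bd]

theorem DensA_bd_ll {m N : ℕ} (A : Matrix (Fin m) (Fin N) ℚ_[p]) :
    bd A (Fin.last m) (Fin.last N) = 1 := by
  simp [bd]

omit [IsUltrametricDist C] in
/-- every matrix with nonzero last entry in the last row is equivalent to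
`bd (Schur R) * nU (ratio R)` -/
theorem psm_chart {m N : ℕ} {χ : Fin (m + 1) → ℚ_[p] →*₀ C}
    {f : Matrix (Fin (m + 1)) (Fin (N + 1)) ℚ_[p] → C} (hf : f ∈ PSM (m + 1) (N + 1) χ)
    (R : Matrix (Fin (m + 1)) (Fin (N + 1)) ℚ_[p]) (hR : R (Fin.last m) (Fin.last N) ≠ 0) :
    f R = χ (Fin.last m) (R (Fin.last m) (Fin.last N)) * f (bd (Schur R) * nU (ratio R)) := by
  set B : Matrix (Fin (m + 1)) (Fin (N + 1)) ℚ_[p] := bd (Schur R) * nU (ratio R) with hB
  have hBl : ∀ j, B (Fin.last m) j = R (Fin.last m) j / R (Fin.last m) (Fin.last N) := by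
    intro j
    refine Fin.lastCases ?_ (fun j' => ?_) j
    · rw [div_self hR, hB, mul_nU_last, DensA_bd_ll]
    · rw [hB, mul_nU_castSucc, DensA_bd_ll, DensA_bd_lc, zero_add, mul_one]
      rfl
  have hBc : ∀ (i : Fin m) (j : Fin (N + 1)), B i.castSucc j =
      R i.castSucc j - R i.castSucc (Fin.last N) * B (Fin.last m) j := by
    intro i j
    rw [hBl]
    refine Fin.lastCases ?_ (fun j' => ?_) j
    · rw [div_self hR, hB, mul_nU_last, DensA_bd_cl, mul_one, sub_self]
    · rw [hB, mul_nU_castSucc, DensA_bd_cl, DensA_bd_cc, mul_zero, add_zero]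
      rfl
  have h1 := DensA_rows hf (fun i => R i (Fin.last N)) B (Finset.univ.erase (Fin.last m))
    (Finset.notMem_erase _ _)
  rw [← h1, ← hf.2.1]
  congr 1
  ext i j
  rw [Matrix.updateRow_apply]
  revert j
  refine Fin.lastCases ?_ (fun i' => ?_) i
  · intro j
    rw [if_pos rfl]
    simp only [Pi.smul_apply, smul_eq_mul, Matrix.of_apply, Finset.mem_erase, ne_eq,
      not_true_eq_false, false_and, if_false, zero_mul, add_zero]
    rw [hBl]
    field_simp
  · intro j
    have hne : (i'.castSucc : Fin (m + 1)) ≠ Fin.last m := (Fin.castSucc_lt_last i').ne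
    rw [if_neg hne]
    simp only [Matrix.of_apply, Finset.mem_erase, ne_eq, hne, not_false_eq_true,
      Finset.mem_univ, and_self, if_true]
    rw [hBc]
    ring

theorem DensA_bd_updateRow {m N : ℕ} (A : Matrix (Fin m) (Fin N) ℚ_[p]) (i : Fin m)
    (v : Fin N → ℚ_[p]) (w : Fin (N + 1) → ℚ_[p]) (hw : ∀ j : Fin N, w j.castSucc = v j)
    (hw0 : w (Fin.last N) = 0) :
    bd (A.updateRow i v) = (bd A).updateRow i.castSucc w := by
  ext k j
  rw [Matrix.updateRow_apply]
  revert j
  refine Fin.lastCases ?_ (fun k' => ?_) k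
  · intro j
    rw [if_neg (Fin.castSucc_lt_last i).ne']
    refine Fin.lastCases ?_ (fun j' => ?_) j
    · rw [DensA_bd_ll, DensA_bd_ll]
    · rw [DensA_bd_lc, DensA_bd_lc]
  · intro j
    by_cases hk : k' = i
    · rw [if_pos (by rw [hk])]
      refine Fin.lastCases ?_ (fun j' => ?_) j
      · rw [DensA_bd_cl, hw0]
      · rw [DensA_bd_cc, hw, Matrix.updateRow_apply, if_pos hk]
    · have hk' : (k'.castSucc : Fin (m + 1)) ≠ i.castSucc := fun h =>
        hk (Fin.castSucc_injective _ h)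
      rw [if_neg hk']
      refine Fin.lastCases ?_ (fun j' => ?_) j
      · rw [DensA_bd_cl, DensA_bd_cl]
      · rw [DensA_bd_cc, DensA_bd_cc, Matrix.updateRow_apply, if_neg hk]

theorem DensA_continuous_bd {m N : ℕ} :
    Continuous (bd : Matrix (Fin m) (Fin N) ℚ_[p] → Matrix (Fin (m + 1)) (Fin (N + 1)) ℚ_[p]) := by
  refine continuous_matrix fun k j => ?_
  refine Fin.lastCases ?_ (fun k' => ?_) k
  · refine Fin.lastCases ?_ (fun j' => ?_) j
    · simp only [DensA_bd_ll]
      exact continuous_const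
    · simp only [DensA_bd_lc]
      exact continuous_const
  · refine Fin.lastCases ?_ (fun j' => ?_) j
    · simp only [DensA_bd_cl]
      exact continuous_const
    · simp only [DensA_bd_cc]
      exact continuous_id.matrix_elem _ _

omit [IsUltrametricDist C] in
theorem psm_bd {m N : ℕ} {χ : Fin (m + 1) → ℚ_[p] →*₀ C}
    {f : Matrix (Fin (m + 1)) (Fin (N + 1)) ℚ_[p] → C} (hf : f ∈ PSM (m + 1) (N + 1) χ)
    (u : Fin N → ℚ_[p]) :
    (fun A : Matrix (Fin m) (Fin N) ℚ_[p] => f (bd A * nU u)) ∈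
      PSM m N (fun i => χ i.castSucc) := by
  have h := psm_right hf (nU u)
  refine ⟨?_, ?_, ?_⟩
  · exact h.1.comp DensA_continuous_bd
  · intro A i c
    have h1 := h.2.1 (bd A) i.castSucc c
    rw [← h1]
    have h2 : bd (A.updateRow i (c • A i)) =
        (bd A).updateRow i.castSucc (c • bd A i.castSucc) := by
      refine DensA_bd_updateRow A i _ _ (fun j => ?_) ?_
      · simp only [Pi.smul_apply, DensA_bd_cc]
      · simp only [Pi.smul_apply, DensA_bd_cl, smul_zero]
    show f (bd (A.updateRow i (c • A i)) * nU u) = _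
    rw [h2]
  · intro A i j hij c
    have h1 := h.2.2 (bd A) i.castSucc j.castSucc (Fin.castSucc_lt_castSucc_iff.2 hij) c
    rw [← h1]
    have h2 : bd (A.updateRow i (A i + c • A j)) =
        (bd A).updateRow i.castSucc (bd A i.castSucc + c • bd A j.castSucc) := by
      refine DensA_bd_updateRow A i _ _ (fun k => ?_) ?_
      · simp only [Pi.add_apply, Pi.smul_apply, DensA_bd_cc]
      · simp only [Pi.add_apply, Pi.smul_apply, DensA_bd_cl, smul_zero, add_zero]
    show f (bd (A.updateRow i (A i + c • A j)) * nU u) = _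
    rw [h2]

theorem DensA_exists_approx (n : ℕ) {y : ℚ_[p]} (hy : ‖y‖ ≤ 1) :
    ∃ a : Fin (p ^ n), ‖y - ((a : ℕ) : ℚ_[p])‖ ≤ (p : ℝ) ^ (-(n : ℤ)) := by
  let x : ℤ_[p] := ⟨y, hy⟩
  refine ⟨⟨x.appr n, x.appr_lt n⟩, ?_⟩
  have h1 := (PadicInt.norm_le_pow_iff_mem_span_pow (x - (x.appr n : ℤ_[p])) n).2 (x.appr_spec n)
  have h2 : ((x - (x.appr n : ℤ_[p]) : ℤ_[p]) : ℚ_[p]) = y - ((x.appr n : ℕ) : ℚ_[p]) := by
    push_cast
    rfl
  rw [PadicInt.norm_def, h2] at h1
  exact h1

theorem DensA_approx_unique (n : ℕ) {y : ℚ_[p]} {a b : Fin (p ^ n)}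
    (ha : ‖y - ((a : ℕ) : ℚ_[p])‖ ≤ (p : ℝ) ^ (-(n : ℤ)))
    (hb : ‖y - ((b : ℕ) : ℚ_[p])‖ ≤ (p : ℝ) ^ (-(n : ℤ))) : a = b := by
  have h2 : ‖((((a : ℕ) : ℤ) - ((b : ℕ) : ℤ) : ℤ) : ℚ_[p])‖ ≤ (p : ℝ) ^ (-(n : ℤ)) := by
    have h3 : ((((a : ℕ) : ℤ) - ((b : ℕ) : ℤ) : ℤ) : ℚ_[p]) =
        (y - ((b : ℕ) : ℚ_[p])) + -(y - ((a : ℕ) : ℚ_[p])) := by
      push_cast
      ring
    rw [h3]
    refine le_trans (Padic.nonarchimedean _ _) (max_le hb ?_)
    rw [norm_neg]
    exact ha
  rw [Padic.norm_int_le_pow_iff_dvd] at h2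
  have ha' := a.2
  have hb' := b.2
  apply Fin.ext
  obtain ⟨c, hc⟩ := h2
  have h4 : |((a : ℕ) : ℤ) - ((b : ℕ) : ℤ)| < (p : ℤ) ^ n := by
    have e1 : ((a : ℕ) : ℤ) < (p : ℤ) ^ n := by exact_mod_cast ha'
    have e2 : ((b : ℕ) : ℤ) < (p : ℤ) ^ n := by exact_mod_cast hb'
    rw [abs_lt]
    constructor <;> omega
  have h5 : ((a : ℕ) : ℤ) - ((b : ℕ) : ℤ) = 0 :=
    Int.eq_zero_of_abs_lt_dvd ⟨c, hc⟩ h4
  omega

theorem DensA_norm_natCast (a : ℕ) : ‖((a : ℕ) : ℚ_[p])‖ ≤ 1 := by
  have := Padic.norm_int_le_one (p := p) (a : ℤ)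
  simpa using this

theorem DensA_pow_le_one (n : ℕ) : (p : ℝ) ^ (-(n : ℤ)) ≤ 1 := by
  have hp : 1 ≤ (p : ℝ) := by exact_mod_cast (Fact.out : p.Prime).one_lt.le
  exact zpow_le_one_of_nonpos₀ hp (by omega)

omit [IsUltrametricDist C] in
theorem DensA_ind_zero {N : ℕ} (n : ℕ) (α : Fin N → Fin (p ^ n)) {y : Fin N → ℚ_[p]}
    (hy : ∃ j, 1 < ‖y j‖) :
    ind (C := C) n (y - fun j => ((α j : ℕ) : ℚ_[p])) = 0 := by
  obtain ⟨j, hj⟩ := hy
  unfold ind
  rw [if_neg]
  intro h
  have h1 := h j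
  have h2 : ‖y j‖ ≤ 1 := by
    have h3 : y j = (y - fun j => ((α j : ℕ) : ℚ_[p])) j + ((α j : ℕ) : ℚ_[p]) := by
      simp
    rw [h3]
    refine le_trans (Padic.nonarchimedean _ _) (max_le ?_ (DensA_norm_natCast _))
    exact le_trans h1 (DensA_pow_le_one n)
  exact absurd hj (not_lt.2 h2)

theorem chart_mem {m N : ℕ} {χ : Fin (m + 1) → ℚ_[p] →*₀ C} (hχ : Small χ)
    {X : Submodule C (Matrix (Fin (m + 1)) (Fin (N + 1)) ℚ_[p] → C)}
    (hcl : ClosedU χ X) (hk : KStab X)
    (h : ∀ ψ ∈ PSM m N (fun i => χ i.castSucc), ∀ r : ℕ, Op (χ (Fin.last m)) (ind r) ψ ∈ X)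
    {f : Matrix (Fin (m + 1)) (Fin (N + 1)) ℚ_[p] → C} (hf : f ∈ PSM (m + 1) (N + 1) χ)
    (hf0 : ∀ R : Matrix (Fin (m + 1)) (Fin (N + 1)) ℚ_[p],
      (∃ j, ‖R (Fin.last m) (Fin.last N)‖ < ‖R (Fin.last m) j‖) → f R = 0) : f ∈ X := by
  refine hcl f hf fun ε hε => ?_
  obtain ⟨n, hn⟩ := psm_unif hf hε
  let u : (Fin N → Fin (p ^ n)) → Fin N → ℚ_[p] := fun α j => ((α j : ℕ) : ℚ_[p])
  let ψ : (Fin N → Fin (p ^ n)) → Matrix (Fin m) (Fin N) ℚ_[p] → C :=
    fun α A => f (bd A * nU (u α))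
  let γ : (Fin N → Fin (p ^ n)) → (Fin N → ℚ_[p]) → C := fun α y => ind n (y - u α)
  have hψ : ∀ α, ψ α ∈ PSM m N (fun i => χ i.castSucc) := fun α => psm_bd hf (u α)
  have hγ0 : ∀ α y, (∃ j, 1 < ‖y j‖) → γ α y = 0 := fun α y hy => DensA_ind_zero n α hy
  have hγc : ∀ α, Continuous (γ α) := fun α =>
    (continuous_ind (p := p) (C := C) (N := N) n).comp (continuous_id.sub continuous_const)
  let w : Matrix (Fin (m + 1)) (Fin (N + 1)) ℚ_[p] → C :=
    ∑ α, Op (χ (Fin.last m)) (γ α) (ψ α)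
  have hwX : w ∈ X := by
    refine Submodule.sum_mem _ fun α _ => ?_
    have h1 := nU_mem hk (h (ψ α) (hψ α) n) (u := -(u α)) (fun j => by
      rw [Pi.neg_apply, norm_neg]
      exact DensA_norm_natCast _)
    have h2 : (fun R => Op (χ (Fin.last m)) (ind n) (ψ α) (R * nU (-(u α)))) =
        Op (χ (Fin.last m)) (γ α) (ψ α) := by
      funext R
      rw [op_nU]
      have h3 : (fun y => ind n (y + -(u α))) = γ α := by
        funext y
        rw [← sub_eq_add_neg]
      rw [h3]
    rw [h2] at h1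
    exact h1
  have hwP : w ∈ PSM (m + 1) (N + 1) χ :=
    Submodule.sum_mem _ fun α _ => op_mem hχ (hγc α) (hγ0 α) (hψ α)
  refine ⟨w, hwX, fun R hR => ?_⟩
  have hsub : f - w ∈ PSM (m + 1) (N + 1) χ := Submodule.sub_mem _ hf hwP
  refine psm_prim hχ hsub hε.le ?_ R hR
  clear hR R
  intro R hR hprim
  obtain ⟨j₀, hj₀⟩ := hprim
  have hwR : w R = ∑ α, Op (χ (Fin.last m)) (γ α) (ψ α) R := by
    simp only [w, Finset.sum_apply]
  by_cases hll : ‖R (Fin.last m) (Fin.last N)‖ = 1
  · -- the last entry is a unit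
    have hne : R (Fin.last m) (Fin.last N) ≠ 0 := by
      intro h0
      rw [h0, norm_zero] at hll
      exact zero_ne_one hll
    have hrat : ∀ j, ‖ratio R j‖ ≤ 1 := by
      intro j
      unfold ratio
      rw [norm_div, hll, div_one]
      exact hR _ _
    have hSch : IntM (Schur R) := by
      intro i j
      unfold Schur
      rw [sub_eq_add_neg]
      refine le_trans (Padic.nonarchimedean _ _) (max_le (hR _ _) ?_)
      rw [norm_neg, norm_mul]
      exact mul_le_one₀ (hR _ _) (norm_nonneg _) (hrat j)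
    choose α hα using fun j => DensA_exists_approx n (hrat j)
    have hw1 : w R = χ (Fin.last m) (R (Fin.last m) (Fin.last N)) * ψ α (Schur R) := by
      rw [hwR, Finset.sum_eq_single α]
      · unfold Op
        have h1 : γ α (ratio R) = 1 := by
          simp only [γ, ind]
          rw [if_pos]
          intro j
          exact hα j
        rw [h1, mul_one]
      · intro β _ hβ
        unfold Op
        have h1 : γ β (ratio R) = 0 := by
          simp only [γ, ind]
          rw [if_neg]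
          intro hcon
          apply hβ
          funext j
          exact DensA_approx_unique n (hcon j) (hα j)
        rw [h1, mul_zero, zero_mul]
      · intro hcon
        exact absurd (Finset.mem_univ _) hcon
    have hf1 := psm_chart hf R hne
    have hsubR : (f - w) R = χ (Fin.last m) (R (Fin.last m) (Fin.last N)) *
        (f (bd (Schur R) * nU (ratio R)) - f (bd (Schur R) * nU (u α))) := by
      rw [Pi.sub_apply, hw1, hf1]
      ring
    rw [hsubR, norm_mul, norm_char_one (hχ _).1 hll, one_mul]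
    have hbd : IntM (bd (Schur R)) := by
      intro k l
      refine Fin.lastCases ?_ (fun k' => ?_) k
      · refine Fin.lastCases ?_ (fun l' => ?_) l
        · rw [DensA_bd_ll, norm_one]
        · rw [DensA_bd_lc, norm_zero]
          exact zero_le_one
      · refine Fin.lastCases ?_ (fun l' => ?_) l
        · rw [DensA_bd_cl, norm_zero]
          exact zero_le_one
        · rw [DensA_bd_cc]
          exact hSch _ _
    refine hn _ _ (intM_mul hbd (intM_nU hrat))
      (intM_mul hbd (intM_nU fun j => DensA_norm_natCast _)) ?_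
    intro k l
    refine Fin.lastCases ?_ (fun l' => ?_) l
    · rw [mul_nU_last, mul_nU_last, sub_self, norm_zero]
      exact zpow_nonneg (Nat.cast_nonneg _) _
    · rw [mul_nU_castSucc, mul_nU_castSucc]
      have h1 : bd (Schur R) k l'.castSucc + ratio R l' * bd (Schur R) k (Fin.last N) -
          (bd (Schur R) k l'.castSucc + u α l' * bd (Schur R) k (Fin.last N)) =
          (ratio R l' - u α l') * bd (Schur R) k (Fin.last N) := by ring
      rw [h1, norm_mul]
      have h2 := hα l'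
      calc ‖ratio R l' - u α l'‖ * ‖bd (Schur R) k (Fin.last N)‖
          ≤ (p : ℝ) ^ (-(n : ℤ)) * 1 :=
            mul_le_mul h2 (hbd _ _) (norm_nonneg _) (zpow_nonneg (Nat.cast_nonneg _) _)
        _ = (p : ℝ) ^ (-(n : ℤ)) := mul_one _
  · -- both functions vanish
    have hlt : ‖R (Fin.last m) (Fin.last N)‖ < 1 := lt_of_le_of_ne (hR _ _) hll
    have hfR : f R = 0 := hf0 R ⟨j₀, by rw [hj₀]; exact hlt⟩
    have hwR0 : w R = 0 := by
      rw [hwR]
      refine Finset.sum_eq_zero fun α _ => ?_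
      unfold Op
      by_cases h0 : R (Fin.last m) (Fin.last N) = 0
      · rw [h0, map_zero, zero_mul, zero_mul]
      · have h1 : γ α (ratio R) = 0 := by
          apply hγ0
          revert hj₀
          refine Fin.lastCases ?_ (fun j' => ?_) j₀
          · intro hj
            exact absurd hj hll
          · intro hj
            refine ⟨j', ?_⟩
            unfold ratio
            rw [norm_div, hj, lt_div_iff₀ (norm_pos_iff.2 h0), one_mul]
            exact hlt
        rw [h1, mul_zero, zero_mul]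
    rw [Pi.sub_apply, hfR, hwR0, sub_zero, norm_zero]
    exact hε.le

end

end Pool.Agent.Lib.MP_f399a8_nt
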