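import Pool.Agent.Lib.MP_f399a8_nt.BasA

/-!
# Extension by zero

Functions of matrices with linearly independent rows, depending on a parameter in a compact space,
extend continuously by zero to all matrices.

PROOF by induction on `m` (generalizing `N`, `Y`, `χ`, `F`).
`m = 0`: the rows are independent, the set is everything.
`m + 1`, `N = 0`: rows cannot be independent, `F = 0`.
`m + 1`, `N + 1`: let `v` be the last row, `l` the last column.  For `j : Fin (N + 1)` let `σ_j` be
the swap of `j` and `l` and, for `y : Y`, `ρ ∈ D := {ρ : Fin N → ℚ_p | ∀ i, ‖ρ i‖ ≤ 1}` (compact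
subtype) and `A : m × N`, put
`G_j ((y, ρ), A) := F y ((bd A * nU ρ).submatrix id σ_j)`.
[`bd A * nU ρ` is the matrix with rows `(A i, 0)` and last row `(ρ, 1)`.]  The rows of
`bd A * nU ρ` are independent iff those of `A` are.  By induction (parameter space `Y × D`) `G_j` is
continuous on everything.  If `‖v i‖ ≤ ‖v j‖ ≠ 0` for all `i` then, with `R' = R.submatrix id σ_j`,
`F y R = χ last (v j) * G_j ((y, ratio R'), Schur R')` (row operations).
Continuity at `(y₀, R₀)`: if `v₀ ≠ 0` choose `j` with `‖v₀ j‖` maximal; the set of `R` with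
`‖v i‖ ≤ ‖v j‖ ≠ 0` for all `i` is a neighbourhood of `R₀` and there `F` is given by the continuous
formula.  If `v₀ = 0`: `F y₀ R₀ = 0`.  On a compact neighbourhood of `(y₀, R₀)`, the `G_j`
arguments stay in a compact set (`‖ratio‖ ≤ 1`, entries of `Schur R'` bounded by those of `R`), so
`‖F y R‖ ≤ B * max_j ‖χ last (v j)‖` for a maximal entry `v j` (and `F y R = 0` if `v = 0`), which
tends to `0` as `R → R₀`.
-/

namespace Pool.Agent.Lib.MP_f399a8_nt

open Matrix

noncomputable section

set_option linter.unusedSectionVars false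

variable {p : ℕ} [Fact p.Prime] {C : Type*} [NormedField C]

/-- the matrix with rows `(A i, 0)` and last row `(ρ, 1)` -/
def Ext_T {m N : ℕ} (ρ : Fin N → ℚ_[p]) (A : Matrix (Fin m) (Fin N) ℚ_[p]) :
    Matrix (Fin (m + 1)) (Fin (N + 1)) ℚ_[p] :=
  fun k l => (Fin.snoc (fun i : Fin m => (Fin.snoc (A i) 0 : Fin (N + 1) → ℚ_[p]))
    (Fin.snoc ρ 1) : Fin (m + 1) → Fin (N + 1) → ℚ_[p]) k l

theorem Ext_T_cc {m N : ℕ} (ρ : Fin N → ℚ_[p]) (A : Matrix (Fin m) (Fin N) ℚ_[p]) (i : Fin m)
    (l : Fin N) : Ext_T ρ A i.castSucc l.castSucc = A i l := by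
  simp [Ext_T]

theorem Ext_T_cl {m N : ℕ} (ρ : Fin N → ℚ_[p]) (A : Matrix (Fin m) (Fin N) ℚ_[p]) (i : Fin m) :
    Ext_T ρ A i.castSucc (Fin.last N) = 0 := by
  simp [Ext_T]

theorem Ext_T_lc {m N : ℕ} (ρ : Fin N → ℚ_[p]) (A : Matrix (Fin m) (Fin N) ℚ_[p])
    (l : Fin N) : Ext_T ρ A (Fin.last m) l.castSucc = ρ l := by
  simp [Ext_T]

theorem Ext_T_ll {m N : ℕ} (ρ : Fin N → ℚ_[p]) (A : Matrix (Fin m) (Fin N) ℚ_[p]) :
    Ext_T ρ A (Fin.last m) (Fin.last N) = 1 := by
  simp [Ext_T]

/-- `Ext_T` with permuted columns -/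
def Ext_S {m N : ℕ} (σ : Equiv.Perm (Fin (N + 1))) (ρ : Fin N → ℚ_[p])
    (A : Matrix (Fin m) (Fin N) ℚ_[p]) : Matrix (Fin (m + 1)) (Fin (N + 1)) ℚ_[p] :=
  fun k l => Ext_T ρ A k (σ l)

theorem Ext_S_li {m N : ℕ} (σ : Equiv.Perm (Fin (N + 1))) (ρ : Fin N → ℚ_[p])
    (A : Matrix (Fin m) (Fin N) ℚ_[p]) (h : LinearIndependent ℚ_[p] (fun i => A i)) :
    LinearIndependent ℚ_[p] (fun i => Ext_S σ ρ A i) := by
  rw [Fintype.linearIndependent_iff] at h ⊢
  intro g hg
  have hg' : ∀ l, ∑ k, g k * Ext_T ρ A k l = 0 := by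
    intro l
    have := congrFun hg (σ.symm l)
    simpa [Finset.sum_apply, Ext_S] using this
  have hlast : g (Fin.last m) = 0 := by
    have := hg' (Fin.last N)
    rw [Fin.sum_univ_castSucc] at this
    simpa [Ext_T_cl, Ext_T_ll] using this
  have hA := h (fun i => g i.castSucc) (by
    funext l
    have := hg' l.castSucc
    rw [Fin.sum_univ_castSucc, hlast] at this
    simpa [Finset.sum_apply, Ext_T_cc] using this)
  intro k
  induction k using Fin.lastCases with
  | last => exact hlast
  | cast i => exact hA i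

theorem Ext_S_dep {m N : ℕ} (σ : Equiv.Perm (Fin (N + 1))) (ρ : Fin N → ℚ_[p])
    (A : Matrix (Fin m) (Fin N) ℚ_[p])
    (h : LinearIndependent ℚ_[p] (fun i => Ext_S σ ρ A i)) :
    LinearIndependent ℚ_[p] (fun i => A i) := by
  rw [Fintype.linearIndependent_iff] at h ⊢
  intro g hg
  have h1 := h (Fin.snoc g 0) (by
    funext l
    rw [Fin.sum_univ_castSucc]
    simp only [Fin.snoc_castSucc, Fin.snoc_last, zero_smul, add_zero, Finset.sum_apply,
      Pi.smul_apply, smul_eq_mul, Pi.zero_apply, Ext_S]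
    generalize σ l = l'
    induction l' using Fin.lastCases with
    | last => simp [Ext_T_cl]
    | cast l' =>
      have := congrFun hg l'
      simpa [Finset.sum_apply, Ext_T_cc] using this)
  intro i
  have := h1 i.castSucc
  simpa using this

theorem Ext_S_smul {m N : ℕ} (σ : Equiv.Perm (Fin (N + 1))) (ρ : Fin N → ℚ_[p])
    (A : Matrix (Fin m) (Fin N) ℚ_[p]) (i : Fin m) (c : ℚ_[p]) :
    Ext_S σ ρ (A.updateRow i (c • A i)) =
      (Ext_S σ ρ A).updateRow i.castSucc (c • Ext_S σ ρ A i.castSucc) := by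
  funext k l
  simp only [Ext_S, Matrix.updateRow_apply, Pi.smul_apply, smul_eq_mul]
  generalize σ l = l'
  induction k using Fin.lastCases with
  | last =>
    rw [if_neg (Fin.castSucc_lt_last i).ne']
    induction l' using Fin.lastCases with
    | last => simp [Ext_T_ll]
    | cast l' => simp [Ext_T_lc]
  | cast k =>
    induction l' using Fin.lastCases with
    | last => simp [Ext_T_cl]
    | cast l' => simp [Ext_T_cc, Matrix.updateRow_apply, Fin.castSucc_inj]

theorem Ext_S_add {m N : ℕ} (σ : Equiv.Perm (Fin (N + 1))) (ρ : Fin N → ℚ_[p])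
    (A : Matrix (Fin m) (Fin N) ℚ_[p]) (i j : Fin m) (c : ℚ_[p]) :
    Ext_S σ ρ (A.updateRow i (A i + c • A j)) =
      (Ext_S σ ρ A).updateRow i.castSucc
        (Ext_S σ ρ A i.castSucc + c • Ext_S σ ρ A j.castSucc) := by
  funext k l
  simp only [Ext_S, Matrix.updateRow_apply, Pi.smul_apply, smul_eq_mul, Pi.add_apply]
  generalize σ l = l'
  induction k using Fin.lastCases with
  | last =>
    rw [if_neg (Fin.castSucc_lt_last i).ne']
    induction l' using Fin.lastCases with
    | last => simp [Ext_T_ll]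
    | cast l' => simp [Ext_T_lc]
  | cast k =>
    induction l' using Fin.lastCases with
    | last => simp [Ext_T_cl]
    | cast l' => simp [Ext_T_cc, Matrix.updateRow_apply, Fin.castSucc_inj]

theorem Ext_S_cont {m N : ℕ} (σ : Equiv.Perm (Fin (N + 1))) :
    Continuous (fun q : (Fin N → ℚ_[p]) × Matrix (Fin m) (Fin N) ℚ_[p] =>
      Ext_S σ q.1 q.2) := by
  refine continuous_matrix fun k l => ?_
  simp only [Ext_S]
  generalize σ l = l'
  induction k using Fin.lastCases with
  | last =>
    induction l' using Fin.lastCases with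
    | last => simp only [Ext_T_ll]; exact continuous_const
    | cast l' =>
      simp only [Ext_T_lc]
      exact (continuous_apply l').comp continuous_fst
  | cast k =>
    induction l' using Fin.lastCases with
    | last => simp only [Ext_T_cl]; exact continuous_const
    | cast l' =>
      simp only [Ext_T_cc]
      exact continuous_snd.matrix_elem k l'

open Classical in
/-- adding multiples of the last row to the rows in `s` -/
def Ext_R {m N : ℕ} (R : Matrix (Fin (m + 1)) (Fin N) ℚ_[p]) (w : Fin m → ℚ_[p])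
    (s : Finset (Fin m)) : Matrix (Fin (m + 1)) (Fin N) ℚ_[p] :=
  fun k l => (Fin.snoc (fun i : Fin m => if i ∈ s then R i.castSucc l + w i * R (Fin.last m) l
      else R i.castSucc l) (R (Fin.last m) l) : Fin (m + 1) → ℚ_[p]) k

theorem Ext_R_l {m N : ℕ} (R : Matrix (Fin (m + 1)) (Fin N) ℚ_[p]) (w : Fin m → ℚ_[p])
    (s : Finset (Fin m)) (l : Fin N) : Ext_R R w s (Fin.last m) l = R (Fin.last m) l := by
  simp [Ext_R]

open Classical in
theorem Ext_R_c {m N : ℕ} (R : Matrix (Fin (m + 1)) (Fin N) ℚ_[p]) (w : Fin m → ℚ_[p])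
    (s : Finset (Fin m)) (i : Fin m) (l : Fin N) : Ext_R R w s i.castSucc l =
      if i ∈ s then R i.castSucc l + w i * R (Fin.last m) l else R i.castSucc l := by
  simp [Ext_R]

/-- invariance under adding multiples of the last row to all other rows -/
theorem Ext_rows {m N : ℕ} {F : Matrix (Fin (m + 1)) (Fin N) ℚ_[p] → C}
    (ha : ∀ (R : Matrix (Fin (m + 1)) (Fin N) ℚ_[p]) (i j : Fin (m + 1)), i < j →
      ∀ c : ℚ_[p], F (R.updateRow i (R i + c • R j)) = F R)
    (R : Matrix (Fin (m + 1)) (Fin N) ℚ_[p]) (w : Fin m → ℚ_[p]) (s : Finset (Fin m)) :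
    F (Ext_R R w s) = F R := by
  classical
  induction s using Finset.induction_on with
  | empty =>
    congr 1
    funext k l
    induction k using Fin.lastCases with
    | last => rw [Ext_R_l]
    | cast i => rw [Ext_R_c]; simp
  | insert i s his ih =>
    rw [← ih, ← ha (Ext_R R w s) i.castSucc (Fin.last m) (Fin.castSucc_lt_last i) (w i)]
    congr 1
    funext k l
    rw [Matrix.updateRow_apply]
    induction k using Fin.lastCases with
    | last =>
      rw [if_neg (Fin.castSucc_lt_last i).ne', Ext_R_l, Ext_R_l]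
    | cast k =>
      by_cases hk : k = i
      · subst hk
        rw [if_pos rfl]
        simp only [Pi.add_apply, Pi.smul_apply, smul_eq_mul]
        rw [Ext_R_c, Ext_R_c, Ext_R_l, if_pos (Finset.mem_insert_self _ _), if_neg his]
      · rw [if_neg (fun h => hk (Fin.castSucc_injective _ h)), Ext_R_c, Ext_R_c]
        simp [hk]

/-- the formula for `F` where the entry `j` of the last row is nonzero -/
theorem Ext_formula {m N : ℕ} {χ : Fin (m + 1) → ℚ_[p] →*₀ C}
    {F : Matrix (Fin (m + 1)) (Fin (N + 1)) ℚ_[p] → C}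
    (hs : ∀ (R : Matrix (Fin (m + 1)) (Fin (N + 1)) ℚ_[p]) (i : Fin (m + 1)) (c : ℚ_[p]),
      F (R.updateRow i (c • R i)) = χ i c * F R)
    (ha : ∀ (R : Matrix (Fin (m + 1)) (Fin (N + 1)) ℚ_[p]) (i j : Fin (m + 1)), i < j →
      ∀ c : ℚ_[p], F (R.updateRow i (R i + c • R j)) = F R)
    (R : Matrix (Fin (m + 1)) (Fin (N + 1)) ℚ_[p]) (j : Fin (N + 1))
    (hj : R (Fin.last m) j ≠ 0) :
    F R = χ (Fin.last m) (R (Fin.last m) j) *
      F (Ext_S (Equiv.swap j (Fin.last N))
        (ratio (R.submatrix id (Equiv.swap j (Fin.last N))))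
        (Schur (R.submatrix id (Equiv.swap j (Fin.last N))))) := by
  set σ := Equiv.swap j (Fin.last N) with hσ
  have hσl : σ (Fin.last N) = j := Equiv.swap_apply_right _ _
  have hσσ : ∀ l, σ (σ l) = l := fun l => by
    rw [hσ, ← Equiv.Perm.mul_apply, Equiv.swap_mul_self, Equiv.Perm.one_apply]
  set R1 := R.updateRow (Fin.last m) ((R (Fin.last m) j)⁻¹ • R (Fin.last m)) with hR1
  have e1 : F R1 = χ (Fin.last m) (R (Fin.last m) j)⁻¹ * F R := hs _ _ _
  have hR1l : ∀ l, R1 (Fin.last m) l = (R (Fin.last m) j)⁻¹ * R (Fin.last m) l := by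
    intro l
    rw [hR1, Matrix.updateRow_self]
    rfl
  have hR1c : ∀ (i : Fin m) l, R1 i.castSucc l = R i.castSucc l := by
    intro i l
    rw [hR1, Matrix.updateRow_ne (Fin.castSucc_lt_last i).ne]
  have e2 := Ext_rows ha R1 (fun i => - R i.castSucc j) Finset.univ
  have e3 : Ext_R R1 (fun i => - R i.castSucc j) Finset.univ =
      Ext_S σ (ratio (R.submatrix id σ)) (Schur (R.submatrix id σ)) := by
    funext k l
    simp only [Ext_S]
    obtain ⟨l', rfl⟩ : ∃ l', l = σ l' := ⟨σ l, (hσσ l).symm⟩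
    rw [hσσ]
    induction k using Fin.lastCases with
    | last =>
      rw [Ext_R_l, hR1l]
      induction l' using Fin.lastCases with
      | last =>
        rw [Ext_T_ll, hσl]
        exact inv_mul_cancel₀ hj
      | cast l' =>
        rw [Ext_T_lc]
        simp only [ratio, Matrix.submatrix_apply, id]
        rw [hσl, div_eq_inv_mul]
    | cast i =>
      rw [Ext_R_c, if_pos (Finset.mem_univ i), hR1c, hR1l]
      induction l' using Fin.lastCases with
      | last =>
        rw [Ext_T_cl, hσl]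
        field_simp
        ring
      | cast l' =>
        rw [Ext_T_cc]
        simp only [Schur, ratio, Matrix.submatrix_apply, id]
        rw [hσl, div_eq_inv_mul]
        ring
  rw [← e3, e2, e1, ← mul_assoc, ← map_mul, mul_inv_cancel₀ hj, map_one, one_mul]

theorem Ext_compact (N : ℕ) : CompactSpace {ρ : Fin N → ℚ_[p] // ∀ i, ‖ρ i‖ ≤ 1} := by
  have h : IsCompact {ρ : Fin N → ℚ_[p] | ∀ i, ‖ρ i‖ ≤ 1} := by
    have e : {ρ : Fin N → ℚ_[p] | ∀ i, ‖ρ i‖ ≤ 1} =
        Set.pi Set.univ (fun _ => Metric.closedBall (0 : ℚ_[p]) 1) := by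
      ext ρ
      simp
    rw [e]
    exact isCompact_univ_pi fun _ => isCompact_closedBall _ _
  exact isCompact_iff_compactSpace.mp h

theorem Ext_compact' (m N : ℕ) (r : ℝ) :
    IsCompact {A : Matrix (Fin m) (Fin N) ℚ_[p] | ∀ i j, ‖A i j‖ ≤ r} := by
  have e : {A : Matrix (Fin m) (Fin N) ℚ_[p] | ∀ i j, ‖A i j‖ ≤ r} =
      Set.pi Set.univ (fun _ => Set.pi Set.univ
        (fun _ => Metric.closedBall (0 : ℚ_[p]) r)) := by
    ext A
    constructor
    · intro h i _ j _
      simpa using h i j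
    · intro h i j
      simpa using h i trivial j trivial
  rw [e]
  exact isCompact_univ_pi fun _ => isCompact_univ_pi fun _ => isCompact_closedBall _ _

theorem Ext_ratio_le {m N : ℕ} (R : Matrix (Fin (m + 1)) (Fin (N + 1)) ℚ_[p]) (j : Fin (N + 1))
    (hj : ∀ i, ‖R (Fin.last m) i‖ ≤ ‖R (Fin.last m) j‖) (l : Fin N) :
    ‖ratio (R.submatrix id (Equiv.swap j (Fin.last N))) l‖ ≤ 1 := by
  simp only [ratio, Matrix.submatrix_apply, id, Equiv.swap_apply_right]
  rw [norm_div]
  exact div_le_one_of_le₀ (hj _) (norm_nonneg _)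

theorem Ext_Schur_le {m N : ℕ} (R : Matrix (Fin (m + 1)) (Fin (N + 1)) ℚ_[p]) (j : Fin (N + 1))
    (hj : ∀ i, ‖R (Fin.last m) i‖ ≤ ‖R (Fin.last m) j‖) {r : ℝ} (hr : ∀ k l, ‖R k l‖ ≤ r)
    (i : Fin m) (l : Fin N) :
    ‖Schur (R.submatrix id (Equiv.swap j (Fin.last N))) i l‖ ≤ r := by
  have h1 := Ext_ratio_le R j hj l
  simp only [Schur]
  rw [sub_eq_add_neg]
  refine (IsUltrametricDist.norm_add_le_max _ _).trans (max_le (hr _ _) ?_)
  rw [norm_neg, norm_mul]
  calc _ ≤ r * 1 := mul_le_mul (hr _ _) h1 (norm_nonneg _) ((norm_nonneg _).trans (hr i.castSucc j))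
    _ = r := mul_one r

theorem ext_continuous (m N : ℕ) (Y : Type) [TopologicalSpace Y] [CompactSpace Y]
    (χ : Fin m → ℚ_[p] →*₀ C) (hχ : Small χ)
    (F : Y → Matrix (Fin m) (Fin N) ℚ_[p] → C)
    (h0 : ∀ (y : Y) (R : Matrix (Fin m) (Fin N) ℚ_[p]),
      ¬ LinearIndependent ℚ_[p] (fun i => R i) → F y R = 0)
    (hc : ContinuousOn (fun q : Y × Matrix (Fin m) (Fin N) ℚ_[p] => F q.1 q.2)
      {q | LinearIndependent ℚ_[p] (fun i => q.2 i)})
    (hs : ∀ (y : Y) (R : Matrix (Fin m) (Fin N) ℚ_[p]) (i : Fin m) (c : ℚ_[p]),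
      F y (R.updateRow i (c • R i)) = χ i c * F y R)
    (ha : ∀ (y : Y) (R : Matrix (Fin m) (Fin N) ℚ_[p]) (i j : Fin m), i < j →
      ∀ c : ℚ_[p], F y (R.updateRow i (R i + c • R j)) = F y R) :
    Continuous (fun q : Y × Matrix (Fin m) (Fin N) ℚ_[p] => F q.1 q.2) := by
  induction m generalizing N Y with
  | zero =>
    rw [← continuousOn_univ]
    refine hc.mono fun q _ => ?_
    exact linearIndependent_empty_type
  | succ m ih =>
    rcases N with _ | N
    · have e : (fun q : Y × Matrix (Fin (m + 1)) (Fin 0) ℚ_[p] => F q.1 q.2) = fun _ => 0 := by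
        funext q
        refine h0 _ _ fun h => ?_
        exact h.ne_zero (Fin.last m) (Subsingleton.elim _ _)
      rw [e]
      exact continuous_const
    -- the auxiliary functions
    have hcomp := Ext_compact (p := p) N
    set σ : Fin (N + 1) → Equiv.Perm (Fin (N + 1)) := fun j => Equiv.swap j (Fin.last N) with hσ
    set G : Fin (N + 1) → (Y × {ρ : Fin N → ℚ_[p] // ∀ i, ‖ρ i‖ ≤ 1}) →
      Matrix (Fin m) (Fin N) ℚ_[p] → C := fun j q A => F q.1 (Ext_S (σ j) q.2.1 A) with hG
    have hGc : ∀ j, Continuous (fun q : (Y × {ρ : Fin N → ℚ_[p] // ∀ i, ‖ρ i‖ ≤ 1}) ×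
        Matrix (Fin m) (Fin N) ℚ_[p] => G j q.1 q.2) := by
      intro j
      refine ih N (Y × {ρ : Fin N → ℚ_[p] // ∀ i, ‖ρ i‖ ≤ 1}) (fun i => χ i.castSucc)
        (fun i => hχ i.castSucc) (G j) ?_ ?_ ?_ ?_
      · intro q A hA
        exact h0 _ _ fun h => hA (Ext_S_dep _ _ _ h)
      · have hmap : Continuous (fun q : (Y × {ρ : Fin N → ℚ_[p] // ∀ i, ‖ρ i‖ ≤ 1}) ×
            Matrix (Fin m) (Fin N) ℚ_[p] => (q.1.1, Ext_S (σ j) q.1.2.1 q.2)) := by
          refine (continuous_fst.comp continuous_fst).prodMk ?_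
          exact (Ext_S_cont (σ j)).comp
            ((continuous_subtype_val.comp (continuous_snd.comp continuous_fst)).prodMk
              continuous_snd)
        exact hc.comp hmap.continuousOn fun q hq => Ext_S_li _ _ _ hq
      · intro q A i c
        simp only [hG]
        rw [Ext_S_smul, hs]
      · intro q A i k hik c
        simp only [hG]
        rw [Ext_S_add, ha _ _ _ _ (Fin.castSucc_lt_castSucc_iff.mpr hik)]
    have hform : ∀ (y : Y) (R : Matrix (Fin (m + 1)) (Fin (N + 1)) ℚ_[p]) (j : Fin (N + 1))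
        (_ : R (Fin.last m) j ≠ 0)
        (h2 : ∀ i, ‖R (Fin.last m) i‖ ≤ ‖R (Fin.last m) j‖),
        F y R = χ (Fin.last m) (R (Fin.last m) j) *
          G j (y, ⟨ratio (R.submatrix id (σ j)), Ext_ratio_le R j h2⟩)
            (Schur (R.submatrix id (σ j))) := by
      intro y R j h1 h2
      exact Ext_formula (hs y) (ha y) R j h1
    have hzero : ∀ (y : Y) (R : Matrix (Fin (m + 1)) (Fin (N + 1)) ℚ_[p]),
        R (Fin.last m) = 0 → F y R = 0 := by
      intro y R h
      refine h0 _ _ fun hli => ?_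
      exact hli.ne_zero (Fin.last m) h
    rw [continuous_iff_continuousAt]
    rintro ⟨y₀, R₀⟩
    by_cases hv : R₀ (Fin.last m) = 0
    · -- the last row vanishes
      have hF0 : F y₀ R₀ = 0 := hzero _ _ hv
      set r : ℝ := 1 + ∑ k, ∑ l, ‖R₀ k l‖ with hr
      have hr0 : ∀ k l, ‖R₀ k l‖ ≤ ∑ k, ∑ l, ‖R₀ k l‖ := by
        intro k l
        calc ‖R₀ k l‖ ≤ ∑ l, ‖R₀ k l‖ :=
              Finset.single_le_sum (f := fun l => ‖R₀ k l‖) (fun _ _ => norm_nonneg _)
                (Finset.mem_univ l)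
          _ ≤ _ := Finset.single_le_sum (f := fun k => ∑ l, ‖R₀ k l‖)
                (fun _ _ => Finset.sum_nonneg fun _ _ => norm_nonneg _) (Finset.mem_univ k)
      have hbd : ∀ j, ∃ B : ℝ, ∀ q ∈ (Set.univ : Set (Y × {ρ : Fin N → ℚ_[p] //
          ∀ i, ‖ρ i‖ ≤ 1})) ×ˢ {A : Matrix (Fin m) (Fin N) ℚ_[p] | ∀ i j, ‖A i j‖ ≤ r},
          ‖G j q.1 q.2‖ ≤ B := fun j =>
        (isCompact_univ.prod (Ext_compact' m N r)).exists_bound_of_continuousOn
          (hGc j).continuousOn
      choose B hB using hbd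
      set B' : ℝ := 1 + ∑ j, |B j| with hB'
      have hB'0 : 0 < B' := by positivity
      have hBB : ∀ j, B j ≤ B' := by
        intro j
        have := Finset.single_le_sum (f := fun j => |B j|) (fun _ _ => abs_nonneg _)
          (Finset.mem_univ j)
        have h3 := le_abs_self (B j)
        rw [hB']
        linarith
      rw [ContinuousAt]
      simp only
      rw [hF0, Metric.tendsto_nhds]
      intro ε hε
      have hη := (hχ (Fin.last m)).1
      have hη0 : ∀ᶠ x in nhds (0 : ℚ_[p]), ‖χ (Fin.last m) x‖ < ε / B' := by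
        have h1 : Filter.Tendsto (χ (Fin.last m)) (nhds 0) (nhds 0) := by
          have := hη.tendsto 0
          rwa [map_zero] at this
        have h2 := (Metric.tendsto_nhds.mp h1) (ε / B') (by positivity)
        filter_upwards [h2] with x hx
        rwa [dist_zero_right] at hx
      have hev1 : ∀ᶠ q : Y × Matrix (Fin (m + 1)) (Fin (N + 1)) ℚ_[p] in nhds (y₀, R₀),
          ∀ l, ‖χ (Fin.last m) (q.2 (Fin.last m) l)‖ < ε / B' := by
        rw [Filter.eventually_all]
        intro l
        have hcq : Continuous (fun q : Y × Matrix (Fin (m + 1)) (Fin (N + 1)) ℚ_[p] =>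
            q.2 (Fin.last m) l) := continuous_snd.matrix_elem _ _
        have h1 := hcq.tendsto (y₀, R₀)
        have h2 : R₀ (Fin.last m) l = 0 := by rw [hv]; rfl
        simp only [h2] at h1
        exact h1.eventually hη0
      have hev2 : ∀ᶠ q : Y × Matrix (Fin (m + 1)) (Fin (N + 1)) ℚ_[p] in nhds (y₀, R₀),
          ∀ k l, ‖q.2 k l‖ < r := by
        rw [Filter.eventually_all]
        intro k
        rw [Filter.eventually_all]
        intro l
        have hcq : Continuous (fun q : Y × Matrix (Fin (m + 1)) (Fin (N + 1)) ℚ_[p] =>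
            ‖q.2 k l‖) := (continuous_snd.matrix_elem _ _).norm
        exact hcq.tendsto (y₀, R₀) |>.eventually (gt_mem_nhds (by
          have := hr0 k l
          simp only
          rw [hr]
          linarith))
      filter_upwards [hev1, hev2] with q hq1 hq2
      rw [dist_zero_right]
      obtain ⟨j, hj⟩ := Finite.exists_max (fun l => ‖q.2 (Fin.last m) l‖)
      by_cases hj0 : q.2 (Fin.last m) j = 0
      · have : q.2 (Fin.last m) = 0 := by
          funext l
          have := hj l
          rw [hj0, norm_zero] at this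
          exact norm_le_zero_iff.mp this
        rw [hzero _ _ this, norm_zero]
        exact hε
      · rw [hform q.1 q.2 j hj0 hj, norm_mul]
        have h1 : ‖G j (q.1, ⟨ratio (q.2.submatrix id (σ j)), Ext_ratio_le q.2 j hj⟩)
            (Schur (q.2.submatrix id (σ j)))‖ ≤ B' := by
          refine (hB j (((q.1, ⟨ratio (q.2.submatrix id (σ j)), Ext_ratio_le q.2 j hj⟩)),
            Schur (q.2.submatrix id (σ j))) ⟨Set.mem_univ _, ?_⟩).trans (hBB j)
          intro i l
          exact Ext_Schur_le q.2 j hj (fun k l => (hq2 k l).le) i l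
        calc _ ≤ ‖χ (Fin.last m) (q.2 (Fin.last m) j)‖ * B' :=
              mul_le_mul_of_nonneg_left h1 (norm_nonneg _)
          _ < ε / B' * B' := mul_lt_mul_of_pos_right (hq1 j) hB'0
          _ = ε := div_mul_cancel₀ _ hB'0.ne'
    · -- the last row does not vanish
      obtain ⟨j, hj⟩ := Finite.exists_max (fun l => ‖R₀ (Fin.last m) l‖)
      have hj0 : 0 < ‖R₀ (Fin.last m) j‖ := by
        rw [norm_pos_iff]
        intro h
        apply hv
        funext l
        have := hj l
        rw [h, norm_zero] at this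
        exact norm_le_zero_iff.mp this
      set S : Set (Y × Matrix (Fin (m + 1)) (Fin (N + 1)) ℚ_[p]) :=
        {q | ∀ l, ‖q.2 (Fin.last m) l - R₀ (Fin.last m) l‖ < ‖R₀ (Fin.last m) j‖} with hS
      have hSo : IsOpen S := by
        have e : S = ⋂ l, {q | ‖q.2 (Fin.last m) l - R₀ (Fin.last m) l‖ <
            ‖R₀ (Fin.last m) j‖} := by
          ext q
          simp [hS]
        rw [e]
        refine isOpen_iInter_of_finite fun l => ?_
        exact isOpen_lt ((continuous_snd.matrix_elem _ _).sub continuous_const).norm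
          continuous_const
      have hmem : (y₀, R₀) ∈ S := by
        intro l
        simpa using hj0
      have hSj : ∀ q ∈ S, ‖q.2 (Fin.last m) j‖ = ‖R₀ (Fin.last m) j‖ := by
        intro q hq
        have h1 := hq j
        have e : q.2 (Fin.last m) j =
            (q.2 (Fin.last m) j - R₀ (Fin.last m) j) + R₀ (Fin.last m) j := by ring
        rw [e, IsUltrametricDist.norm_add_eq_max_of_norm_ne_norm h1.ne, max_eq_right h1.le]
      have hSl : ∀ q ∈ S, ∀ l, ‖q.2 (Fin.last m) l‖ ≤ ‖q.2 (Fin.last m) j‖ := by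
        intro q hq l
        rw [hSj q hq]
        have e : q.2 (Fin.last m) l =
            (q.2 (Fin.last m) l - R₀ (Fin.last m) l) + R₀ (Fin.last m) l := by ring
        rw [e]
        exact (IsUltrametricDist.norm_add_le_max _ _).trans (max_le (hq l).le (hj l))
      have hSne : ∀ q ∈ S, q.2 (Fin.last m) j ≠ 0 := by
        intro q hq
        rw [← norm_pos_iff, hSj q hq]
        exact hj0
      refine ContinuousOn.continuousAt (s := S) ?_ (hSo.mem_nhds hmem)
      rw [continuousOn_iff_continuous_domRestrict]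
      have e : S.domRestrict (fun q : Y × Matrix (Fin (m + 1)) (Fin (N + 1)) ℚ_[p] => F q.1 q.2) =
          fun q : S => χ (Fin.last m) (q.1.2 (Fin.last m) j) *
          G j (q.1.1, ⟨ratio (q.1.2.submatrix id (σ j)),
            Ext_ratio_le q.1.2 j (hSl q.1 q.2)⟩) (Schur (q.1.2.submatrix id (σ j))) := by
        funext q
        exact hform q.1.1 q.1.2 j (hSne q.1 q.2) (hSl q.1 q.2)
      rw [e]
      have hq2 : Continuous (fun q : S => q.1.2) := continuous_snd.comp continuous_subtype_val
      have hrat : Continuous (fun q : S => ratio (q.1.2.submatrix id (σ j))) := by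
        refine continuous_pi fun l => ?_
        simp only [ratio, Matrix.submatrix_apply, id, hσ, Equiv.swap_apply_right]
        exact (hq2.matrix_elem _ _).div (hq2.matrix_elem _ _) fun q => hSne q.1 q.2
      refine ((hχ (Fin.last m)).1.comp (hq2.matrix_elem _ _)).mul ?_
      refine (hGc j).comp ((Continuous.prodMk (continuous_fst.comp continuous_subtype_val)
        (hrat.subtype_mk _)).prodMk ?_)
      refine continuous_matrix fun i l => ?_
      exact (hq2.matrix_elem i.castSucc (σ j l.castSucc)).sub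
        ((hq2.matrix_elem i.castSucc (σ j (Fin.last N))).mul
        ((continuous_apply l).comp hrat))

/-- the version without parameters -/
theorem ext_psm {m N : ℕ} {χ : Fin m → ℚ_[p] →*₀ C} (hχ : Small χ)
    {F : Matrix (Fin m) (Fin N) ℚ_[p] → C}
    (h0 : ∀ R : Matrix (Fin m) (Fin N) ℚ_[p],
      ¬ LinearIndependent ℚ_[p] (fun i => R i) → F R = 0)
    (hc : ContinuousOn F {R | LinearIndependent ℚ_[p] (fun i => R i)})
    (hs : ∀ (R : Matrix (Fin m) (Fin N) ℚ_[p]) (i : Fin m) (c : ℚ_[p]),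
      F (R.updateRow i (c • R i)) = χ i c * F R)
    (ha : ∀ (R : Matrix (Fin m) (Fin N) ℚ_[p]) (i j : Fin m), i < j →
      ∀ c : ℚ_[p], F (R.updateRow i (R i + c • R j)) = F R) :
    F ∈ PSM m N χ := by
  have := ext_continuous m N Unit χ hχ (fun _ => F) (fun _ => h0)
    (hc.comp continuous_snd.continuousOn (fun q hq => hq)) (fun _ => hs) (fun _ => ha)
  exact ⟨this.comp (Continuous.prodMk_right ()), hs, ha⟩

end

end Pool.Agent.Lib.MP_f399a8_nt
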