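import Pool.Agent.Lib.MP_f399a8_nt.BasA
import Pool.Agent.Lib.MP_f399a8_nt.Expand

/-!
# The test function `Gam`

`Gam η c lam w = ∑ lam i * η (w 0 - c i) * 1[‖w j‖ ≤ ‖w 0 - c i‖ for all j ≥ 1]`.

PROOFS.
Continuity: for `x = w 0 - c i ≠ 0` the condition is locally constant; at `x = 0` the term tends to
`0` as `η x → 0` (`η` continuous, `η 0 = 0`).
Support: if `‖w 0‖ > 1` then `‖w 0 - c i‖ = ‖w 0‖` and the conditions are the same for all `i`, the
sum is `0` by `hout`; if `‖w 0‖ ≤ 1 < ‖w j‖` all conditions fail.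
Nonvanishing at `w = (z, 0, …, 0)`.
-/

namespace Pool.Agent.Lib.MP_f399a8_nt

noncomputable section

variable {p : ℕ} [Fact p.Prime] {C : Type*} [NormedField C]

open Classical in
/-- the test function -/
def Gam {m n : ℕ} (η : ℚ_[p] →*₀ C) (c : Fin n → ℚ_[p]) (lam : Fin n → C) :
    (Fin (m + 1) → ℚ_[p]) → C :=
  fun w => ∑ i, lam i * (if ∀ j : Fin m, ‖w j.succ‖ ≤ ‖w 0 - c i‖ then η (w 0 - c i) else 0)

theorem Gam_sub_le (a b : ℚ_[p]) : ‖a - b‖ ≤ max ‖a‖ ‖b‖ := by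
  rw [sub_eq_add_neg, ← norm_neg b]
  exact IsUltrametricDist.norm_add_le_max _ _

theorem Gam_aux {m : ℕ} {η : ℚ_[p] →*₀ C} (hη : Continuous η) (c : ℚ_[p]) :
    Continuous (fun w : Fin (m + 1) → ℚ_[p] =>
      open Classical in if ∀ j : Fin m, ‖w j.succ‖ ≤ ‖w 0 - c‖ then η (w 0 - c) else 0) := by
  rw [continuous_iff_continuousAt]
  intro w
  by_cases hx : w 0 - c = 0
  · unfold ContinuousAt
    have hv : (open Classical in
        if ∀ j : Fin m, ‖w j.succ‖ ≤ ‖w 0 - c‖ then η (w 0 - c) else 0) = 0 := by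
      rw [hx]; simp
    simp only [hv]
    apply squeeze_zero_norm (a := fun w' : Fin (m + 1) → ℚ_[p] => ‖η (w' 0 - c)‖)
    · intro w'
      split_ifs
      · exact le_rfl
      · simp
    · have h2 : Continuous (fun w' : Fin (m + 1) → ℚ_[p] => ‖η (w' 0 - c)‖) := by fun_prop
      have h3 := h2.tendsto w
      simpa [hx] using h3
  · have hpos : 0 < ‖w 0 - c‖ := norm_pos_iff.mpr hx
    have h1 : ∀ᶠ w' in nhds w, ∀ j, ‖w' j - w j‖ < ‖w 0 - c‖ := by
      rw [Filter.eventually_all]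
      intro j
      have h2 : Continuous (fun w' : Fin (m + 1) → ℚ_[p] => ‖w' j - w j‖) := by fun_prop
      have h3 := h2.tendsto w
      simp only [sub_self, norm_zero] at h3
      exact h3.eventually_lt_const hpos
    have h4 : ∀ w' : Fin (m + 1) → ℚ_[p], (∀ j, ‖w' j - w j‖ < ‖w 0 - c‖) →
        ((∀ j : Fin m, ‖w' j.succ‖ ≤ ‖w' 0 - c‖) ↔ (∀ j : Fin m, ‖w j.succ‖ ≤ ‖w 0 - c‖)) := by
      intro w' hw'
      have h5 : ‖w' 0 - c‖ = ‖w 0 - c‖ := by
        have h6 : w' 0 - c = (w' 0 - w 0) + (w 0 - c) := by ring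
        rw [h6]
        rw [IsUltrametricDist.norm_add_eq_max_of_norm_ne_norm (ne_of_lt (hw' 0))]
        exact max_eq_right (hw' 0).le
      rw [h5]
      constructor
      · intro h j
        have h7 : w j.succ = w' j.succ - (w' j.succ - w j.succ) := by ring
        rw [h7]
        refine (Gam_sub_le _ _).trans (max_le (h j) (hw' _).le)
      · intro h j
        have h7 : w' j.succ = (w' j.succ - w j.succ) + w j.succ := by ring
        rw [h7]
        refine (IsUltrametricDist.norm_add_le_max _ _).trans (max_le (hw' _).le (h j))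
    by_cases hP : ∀ j : Fin m, ‖w j.succ‖ ≤ ‖w 0 - c‖
    · have h8 : (fun w' : Fin (m + 1) → ℚ_[p] => η (w' 0 - c)) =ᶠ[nhds w]
          (fun w' : Fin (m + 1) → ℚ_[p] =>
            open Classical in if ∀ j : Fin m, ‖w' j.succ‖ ≤ ‖w' 0 - c‖ then η (w' 0 - c) else 0) := by
        filter_upwards [h1] with w' hw'
        rw [if_pos ((h4 w' hw').mpr hP)]
      refine ContinuousAt.congr ?_ h8
      exact Continuous.continuousAt (by fun_prop)
    · have h8 : (fun w' : Fin (m + 1) → ℚ_[p] => (0 : C)) =ᶠ[nhds w]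
          (fun w' : Fin (m + 1) → ℚ_[p] =>
            open Classical in if ∀ j : Fin m, ‖w' j.succ‖ ≤ ‖w' 0 - c‖ then η (w' 0 - c) else 0) := by
        filter_upwards [h1] with w' hw'
        rw [if_neg (fun h => hP ((h4 w' hw').mp h))]
      refine ContinuousAt.congr ?_ h8
      exact continuousAt_const

theorem Gam_continuous {m n : ℕ} {η : ℚ_[p] →*₀ C} (hη : Continuous η) (c : Fin n → ℚ_[p])
    (lam : Fin n → C) : Continuous (Gam (m := m) η c lam) := by
  unfold Gam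
  refine continuous_finsetSum _ (fun i _ => ?_)
  exact continuous_const.mul (Gam_aux hη (c i))

theorem Gam_supp {m n : ℕ} {η : ℚ_[p] →*₀ C} {c : Fin n → ℚ_[p]} {lam : Fin n → C}
    (hc : ∀ i, ‖c i‖ ≤ 1) (hout : ∀ z : ℚ_[p], 1 < ‖z‖ → ∑ i, lam i * η (z - c i) = 0)
    {w : Fin (m + 1) → ℚ_[p]} (hw : ∃ j, 1 < ‖w j‖) : Gam η c lam w = 0 := by
  unfold Gam
  by_cases h0 : 1 < ‖w 0‖
  · have h1 : ∀ i, ‖w 0 - c i‖ = ‖w 0‖ := by
      intro i
      have h2 : ‖w 0‖ ≠ ‖-(c i)‖ := by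
        rw [norm_neg]
        exact ne_of_gt (lt_of_le_of_lt (hc i) h0)
      rw [sub_eq_add_neg, IsUltrametricDist.norm_add_eq_max_of_norm_ne_norm h2, norm_neg]
      exact max_eq_left ((hc i).trans h0.le)
    simp only [h1]
    by_cases hP : ∀ j : Fin m, ‖w j.succ‖ ≤ ‖w 0‖
    · simp only [hP, implies_true, if_true]
      exact hout _ h0
    · simp only [if_neg hP, mul_zero, Finset.sum_const_zero]
  · obtain ⟨j, hj⟩ := hw
    have hj0 : j ≠ 0 := by
      rintro rfl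
      exact h0 hj
    obtain ⟨j', rfl⟩ := Fin.exists_succ_eq.mpr hj0
    apply Finset.sum_eq_zero
    intro i _
    rw [if_neg, mul_zero]
    intro h
    have h2 : ‖w 0 - c i‖ ≤ 1 :=
      (Gam_sub_le _ _).trans (max_le (not_lt.mp h0) (hc i))
    exact absurd (h j') (not_le.mpr (lt_of_le_of_lt h2 hj))

theorem Gam_ne {m n : ℕ} {η : ℚ_[p] →*₀ C} {c : Fin n → ℚ_[p]} {lam : Fin n → C}
    (h : ∃ z : ℚ_[p], ‖z‖ ≤ 1 ∧ ∑ i, lam i * η (z - c i) ≠ 0) :
    ∃ w : Fin (m + 1) → ℚ_[p], Gam η c lam w ≠ 0 := by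
  obtain ⟨z, _, hz⟩ := h
  refine ⟨Fin.cons z 0, ?_⟩
  unfold Gam
  simpa using hz

end

end Pool.Agent.Lib.MP_f399a8_nt
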