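import Pool.Agent.Lib.MP_f399a8_nt.Defs

/-!
# The `p`-group argument

PROOF of `pgroup`.  Let `D` be the unit polydisc (compact).  `g := sup ‖Γ‖ > 0` is attained.  Call a
continuous function `F` on `D` *small* if `‖F y‖ < g` for all `y ∈ D`, and let `S` be the set of
finite combinations `F y = ∑ n_u Γ (y + u)` with integer coefficients `n_u` and `u ∈ D` (then
`‖F‖ ≤ g` on `D`, and `p F` is small).  By uniform continuity there is `N` with
`‖F (y + u) - F y‖ < g` for all `F ∈ S`, `y ∈ D` and `‖u‖ ≤ p ^ (-N)` (it is enough to have it for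
`Γ`).  For `i : Fin d` let `τ_i F (y) = F (y + e_i)` and `D_i = τ_i - 1`.  The `τ_i` commute and
preserve small functions.  `(X - 1) ^ (p ^ N) = X ^ (p ^ N) - 1 + p * Q` with `Q ∈ ℤ[X]` (true modulo
`p`, `sub_pow_char_pow`), so `D_i ^ (p ^ N) F` is small for `F ∈ S`.  Start with `F = Γ`, not small,
and for `i = 0, …, d - 1` replace `F` by `D_i ^ k F` with `k` maximal such that it is not small.  At
the end `F ∈ S` is not small and all `D_i F` are small.  Hence `F (y + u) - F y` is small for all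
`u ∈ ℕ ^ d`, and then for all `u ∈ D` (approximate `u` modulo `p ^ N`).  Take `y₀ ∈ D` with
`‖F y₀‖ = g` (compactness) and `a := F y₀`: `‖F y - a‖ < g = ‖a‖` for all `y ∈ D`; by compactness
`‖F y - a‖ ≤ κ ‖a‖` with `κ < 1`.  Divide by `a`.
(For `d = 0` everything is trivial: `D` is a point.)
-/

namespace Pool.Agent.Lib.MP_f399a8_nt

noncomputable section

variable {p : ℕ} [Fact p.Prime] {C : Type*} [NormedField C] [NormedAlgebra ℚ_[p] C]
  [IsUltrametricDist C]

/-- integer combinations of translates of `Γ`, indexed by the group ring -/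
def PGroup_T {G : Type*} [AddCommGroup G] {C : Type*} [NormedField C] (Γ : G → C) :
    AddMonoidAlgebra ℤ G →+ (G → C) :=
  AddMonoidAlgebra.liftNC (Int.castAddHom (G → C)) (fun u => fun x => Γ (x + u.toAdd))

theorem PGroup_T_single {G : Type*} [AddCommGroup G] {C : Type*} [NormedField C] (Γ : G → C)
    (u : G) (n : ℤ) (x : G) :
    PGroup_T Γ (AddMonoidAlgebra.single u n) x = (n : C) * Γ (x + u) := by
  unfold PGroup_T
  rw [AddMonoidAlgebra.liftNC_single]
  simp

theorem PGroup_T_one {G : Type*} [AddCommGroup G] {C : Type*} [NormedField C] (Γ : G → C)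
    (x : G) : PGroup_T Γ 1 x = Γ x := by
  rw [AddMonoidAlgebra.one_def, PGroup_T_single]
  simp

theorem PGroup_T_mul {G : Type*} [AddCommGroup G] {C : Type*} [NormedField C] (Γ : G → C)
    (u : G) (n : ℤ) (P : AddMonoidAlgebra ℤ G) (x : G) :
    PGroup_T Γ (AddMonoidAlgebra.single u n * P) x = (n : C) * PGroup_T Γ P (x + u) := by
  induction P using AddMonoidAlgebra.induction_linear with
  | zero => simp
  | add P Q hP hQ => rw [mul_add, map_add, map_add, Pi.add_apply, Pi.add_apply, hP, hQ, mul_add]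
  | single v m =>
    rw [AddMonoidAlgebra.single_mul_single, PGroup_T_single, PGroup_T_single, Int.cast_mul,
      mul_assoc, add_assoc]

/-- the ideal of small combinations -/
def PGroup_I {G : Type*} [AddCommGroup G] {C : Type*} [NormedField C] [IsUltrametricDist C]
    (Γ : G → C) (g : ℝ) (hg : 0 < g) : Ideal (AddMonoidAlgebra ℤ G) where
  carrier := {P | ∀ x, ‖PGroup_T Γ P x‖ < g}
  zero_mem' := by
    intro x
    simpa using hg
  add_mem' := by
    intro P Q hP hQ x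
    rw [map_add, Pi.add_apply]
    exact lt_of_le_of_lt (IsUltrametricDist.norm_add_le_max _ _) (max_lt (hP x) (hQ x))
  smul_mem' := by
    intro a P hP
    rw [smul_eq_mul]
    induction a using AddMonoidAlgebra.induction_linear with
    | zero => intro x; simpa using hg
    | add a b ha hb =>
      intro x
      rw [add_mul, map_add, Pi.add_apply]
      exact lt_of_le_of_lt (IsUltrametricDist.norm_add_le_max _ _) (max_lt (ha x) (hb x))
    | single u n =>
      intro x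
      rw [PGroup_T_mul, norm_mul]
      have h1 := IsUltrametricDist.norm_intCast_le_one C n
      have h2 := hP (x + u)
      have h3 : ‖(n : C)‖ * ‖PGroup_T Γ P (x + u)‖ ≤ 1 * ‖PGroup_T Γ P (x + u)‖ :=
        mul_le_mul_of_nonneg_right h1 (norm_nonneg _)
      linarith

theorem PGroup_mem_I {G : Type*} [AddCommGroup G] {C : Type*} [NormedField C]
    [IsUltrametricDist C] {Γ : G → C} {g : ℝ} {hg : 0 < g} {P : AddMonoidAlgebra ℤ G} :
    P ∈ PGroup_I Γ g hg ↔ ∀ x, ‖PGroup_T Γ P x‖ < g := Iff.rfl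

theorem PGroup_abs {G : Type*} [AddCommGroup G] {C : Type*} [NormedField C]
    [IsUltrametricDist C] {p : ℕ} (hp : p.Prime) (hpC : ‖(p : C)‖ < 1) (Γ : G → C) (g : ℝ)
    (hg : 0 < g) (hΓ : ∀ x, ‖Γ x‖ ≤ g) (hex : ∃ x, ‖Γ x‖ = g) (V : Set G)
    (hV : ∀ v ∈ V, ∀ x, ‖Γ (x + v) - Γ x‖ < g) (N : ℕ) (hpN : ∀ u : G, (p ^ N) • u ∈ V)
    (S : Finset G) (hS : ∀ u, ∃ s ∈ S, u - s ∈ V) :
    ∃ P : AddMonoidAlgebra ℤ G, (∃ x, g ≤ ‖PGroup_T Γ P x‖) ∧
      ∀ u x, ‖PGroup_T Γ P (x + u) - PGroup_T Γ P x‖ < g := by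
  classical
  set I := PGroup_I Γ g hg with hI
  have h1 : (1 : AddMonoidAlgebra ℤ G) ∉ I := by
    intro h
    obtain ⟨x, hx⟩ := hex
    have := h x
    rw [PGroup_T_one, hx] at this
    exact lt_irrefl _ this
  have hpI : ((p : ℕ) : AddMonoidAlgebra ℤ G) ∈ I := by
    intro x
    have h2 : ((p : ℕ) : AddMonoidAlgebra ℤ G) = p • (1 : AddMonoidAlgebra ℤ G) := by simp
    rw [h2, map_nsmul, Pi.smul_apply, PGroup_T_one, nsmul_eq_mul, norm_mul]
    have h3 := hΓ x
    calc ‖(p : C)‖ * ‖Γ x‖ ≤ ‖(p : C)‖ * g := mul_le_mul_of_nonneg_left h3 (norm_nonneg _)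
      _ < 1 * g := mul_lt_mul_of_pos_right hpC hg
      _ = g := one_mul g
  have hVI : ∀ v ∈ V, (AddMonoidAlgebra.single v 1 - 1 : AddMonoidAlgebra ℤ G) ∈ I := by
    intro v hv x
    rw [map_sub, Pi.sub_apply, PGroup_T_one, PGroup_T_single, Int.cast_one, one_mul]
    exact hV v hv x
  have hnt : Nontrivial (AddMonoidAlgebra ℤ G ⧸ I) := by
    apply Ideal.Quotient.nontrivial_iff.2
    intro h
    exact h1 ((Ideal.eq_top_iff_one _).1 h)
  have : Fact p.Prime := ⟨hp⟩
  have : CharP (AddMonoidAlgebra ℤ G ⧸ I) p := by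
    rw [CharP.charP_iff_prime_eq_zero hp]
    have := Ideal.Quotient.eq_zero_iff_mem.2 hpI
    rwa [map_natCast] at this
  have hpow : ∀ u : G, (AddMonoidAlgebra.single u 1 - 1 : AddMonoidAlgebra ℤ G) ^ (p ^ N) ∈ I := by
    intro u
    rw [← Ideal.Quotient.eq_zero_iff_mem, map_pow, map_sub, map_one, sub_pow_char_pow, one_pow,
      ← map_pow, ← map_one (Ideal.Quotient.mk I), ← map_sub, Ideal.Quotient.eq_zero_iff_mem,
      AddMonoidAlgebra.single_pow, one_pow]
    exact hVI _ (hpN u)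
  set J : Ideal (AddMonoidAlgebra ℤ G) :=
    Ideal.span ((S.image fun s => (AddMonoidAlgebra.single s 1 - 1 : AddMonoidAlgebra ℤ G) :
      Finset (AddMonoidAlgebra ℤ G)) : Set (AddMonoidAlgebra ℤ G)) with hJ
  have hJrad : J ≤ I.radical := by
    rw [hJ, Ideal.span_le]
    intro q hq
    rw [Finset.coe_image] at hq
    obtain ⟨s, _, rfl⟩ := hq
    exact ⟨p ^ N, hpow s⟩
  have hJfg : J.FG := ⟨_, rfl⟩
  have hK : ∃ K : ℕ, J ^ K ≤ I := Ideal.exists_pow_le_of_le_radical_of_fg hJrad hJfg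
  have hK0 : Nat.find hK ≠ 0 := by
    intro h0
    have h2 := Nat.find_spec hK
    rw [h0, pow_zero, Ideal.one_eq_top] at h2
    exact h1 (h2 Submodule.mem_top)
  obtain ⟨K', hK'⟩ := Nat.exists_eq_succ_of_ne_zero hK0
  have hspec : J ^ (K' + 1) ≤ I := by
    have := Nat.find_spec hK
    rwa [hK'] at this
  have hmin : ¬ J ^ K' ≤ I := Nat.find_min hK (by rw [hK']; exact Nat.lt_succ_self _)
  obtain ⟨P, hPJ, hPI⟩ := Set.not_subset.1 hmin
  refine ⟨P, ?_, ?_⟩
  · by_contra hcon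
    push Not at hcon
    exact hPI (PGroup_mem_I.2 hcon)
  · intro u x
    obtain ⟨s, hsS, hsV⟩ := hS u
    have e1 : (AddMonoidAlgebra.single u 1 - 1 : AddMonoidAlgebra ℤ G) =
        (AddMonoidAlgebra.single s 1 - 1) +
          AddMonoidAlgebra.single s 1 * (AddMonoidAlgebra.single (u - s) 1 - 1) := by
      rw [mul_sub, AddMonoidAlgebra.single_mul_single, mul_one, mul_one, add_sub_cancel]
      abel
    have e2 : (AddMonoidAlgebra.single u 1 - 1 : AddMonoidAlgebra ℤ G) * P ∈ I := by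
      rw [e1, add_mul]
      apply I.add_mem
      · apply hspec
        rw [pow_succ']
        apply Ideal.mul_mem_mul _ hPJ
        apply Ideal.subset_span
        rw [Finset.coe_image]
        exact ⟨s, hsS, rfl⟩
      · rw [mul_comm _ P, ← mul_assoc]
        exact I.mul_mem_left _ (hVI _ hsV)
    have e3 := e2 x
    rw [sub_mul, one_mul, map_sub, Pi.sub_apply, PGroup_T_mul, Int.cast_one, one_mul] at e3
    exact e3

theorem PGroup_cont {G : Type*} [AddCommGroup G] [TopologicalSpace G] [ContinuousAdd G]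
    {C : Type*} [NormedField C] {Γ : G → C} (hc : Continuous Γ) (P : AddMonoidAlgebra ℤ G) :
    Continuous (PGroup_T Γ P) := by
  induction P using AddMonoidAlgebra.induction_linear with
  | zero => rw [map_zero]; exact continuous_const
  | add P Q hP hQ => rw [map_add]; exact hP.add hQ
  | single u n =>
    have : PGroup_T Γ (AddMonoidAlgebra.single u n) = fun x => (n : C) * Γ (x + u) := by
      funext x; exact PGroup_T_single Γ u n x
    rw [this]
    exact continuous_const.mul (hc.comp (continuous_id.add continuous_const))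

theorem PGroup_repr {G : Type*} [AddCommGroup G] {C : Type*} [NormedField C] (Γ : G → C)
    (P : AddMonoidAlgebra ℤ G) : ∃ (n : ℕ) (u : Fin n → G) (a : Fin n → C),
      ∀ x, PGroup_T Γ P x = ∑ i, a i * Γ (x + u i) := by
  induction P using AddMonoidAlgebra.induction_linear with
  | zero => exact ⟨0, Fin.elim0, Fin.elim0, fun x => by simp⟩
  | add P Q hP hQ =>
    obtain ⟨n, u, a, h⟩ := hP
    obtain ⟨m, v, b, h'⟩ := hQ
    refine ⟨n + m, Fin.append u v, Fin.append a b, fun x => ?_⟩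
    rw [map_add, Pi.add_apply, h, h', Fin.sum_univ_add]
    simp
  | single u n => exact ⟨1, fun _ => u, fun _ => (n : C), fun x => by
      rw [PGroup_T_single]; simp⟩

theorem pgroup {d : ℕ} {Γ : (Fin d → ℚ_[p]) → C} (hc : Continuous Γ)
    (h0 : ∀ y, (∃ j, 1 < ‖y j‖) → Γ y = 0) (hne : ∃ y, Γ y ≠ 0) :
    ∃ (n : ℕ) (u : Fin n → Fin d → ℚ_[p]) (a : Fin n → C) (κ : ℝ), κ < 1 ∧
      (∀ i j, ‖u i j‖ ≤ 1) ∧
      ∀ y : Fin d → ℚ_[p], (∀ j, ‖y j‖ ≤ 1) → ‖∑ i, a i * Γ (y + u i) - 1‖ ≤ κ := by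
  classical
  have hp : p.Prime := Fact.out
  have hp1 : (1 : ℝ) < p := by exact_mod_cast hp.one_lt
  set co : (Fin d → ℤ_[p]) → (Fin d → ℚ_[p]) := fun x j => ((x j : ℤ_[p]) : ℚ_[p]) with hco
  have hcoc : Continuous co :=
    continuous_pi fun j => continuous_subtype_val.comp (continuous_apply j)
  set Γ' : (Fin d → ℤ_[p]) → C := fun x => Γ (co x) with hΓ'
  have hc' : Continuous Γ' := hc.comp hcoc
  obtain ⟨xm, -, hxm⟩ := (isCompact_univ (X := Fin d → ℤ_[p])).exists_isMaxOn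
    Set.univ_nonempty hc'.norm.continuousOn
  set g : ℝ := ‖Γ' xm‖ with hgdef
  have hle : ∀ x, ‖Γ' x‖ ≤ g := fun x => hxm (Set.mem_univ x)
  have hg : 0 < g := by
    obtain ⟨y, hy⟩ := hne
    have hyD : ∀ j, ‖y j‖ ≤ 1 := by
      intro j
      by_contra hcon
      exact hy (h0 y ⟨j, not_le.1 hcon⟩)
    have h2 := hle (fun j => ⟨y j, hyD j⟩)
    have h3 : Γ' (fun j => ⟨y j, hyD j⟩) = Γ y := rfl
    rw [h3] at h2
    exact lt_of_lt_of_le (norm_pos_iff.2 hy) h2
  have huc := CompactSpace.uniformContinuous_of_continuous hc'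
  rw [Metric.uniformContinuous_iff] at huc
  obtain ⟨δ, hδ, hδ'⟩ := huc g hg
  obtain ⟨N, hN⟩ := exists_pow_lt_of_lt_one hδ (inv_lt_one_of_one_lt₀ hp1)
  have hsmall : ∀ v : Fin d → ℤ_[p], (∀ j, ‖v j‖ ≤ ((p : ℝ)⁻¹) ^ N) →
      ∀ x, ‖Γ' (x + v) - Γ' x‖ < g := by
    intro v hv x
    rw [← dist_eq_norm]
    apply hδ'
    rw [dist_eq_norm, add_sub_cancel_left]
    refine lt_of_le_of_lt ?_ hN
    rw [pi_norm_le_iff_of_nonneg (by positivity)]
    exact hv
  have hpC : ‖((p : ℕ) : C)‖ < 1 := by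
    have h2 : ((p : ℕ) : C) = algebraMap ℚ_[p] C (p : ℚ_[p]) := by simp
    rw [h2, norm_algebraMap', Padic.norm_p]
    exact inv_lt_one_of_one_lt₀ hp1
  have hpnorm : ‖(p : ℤ_[p])‖ = (p : ℝ)⁻¹ := PadicInt.norm_p
  obtain ⟨P, ⟨x₁, hx₁⟩, hP⟩ := PGroup_abs hp hpC Γ' g hg hle ⟨xm, rfl⟩
    {v | ∀ j, ‖v j‖ ≤ ((p : ℝ)⁻¹) ^ N} hsmall N
    (by
      intro u j
      rw [Pi.smul_apply, nsmul_eq_mul, norm_mul, Nat.cast_pow, norm_pow, hpnorm]
      exact mul_le_of_le_one_right (by positivity) (PadicInt.norm_le_one _))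
    (Finset.univ.image (fun w : Fin d → Fin (p ^ N) => fun j => ((w j : ℕ) : ℤ_[p])))
    (by
      intro u
      refine ⟨fun j => (((u j).appr N : ℕ) : ℤ_[p]), ?_, ?_⟩
      · rw [Finset.mem_image]
        exact ⟨fun j => ⟨(u j).appr N, PadicInt.appr_lt _ _⟩, Finset.mem_univ _, rfl⟩
      · intro j
        rw [Pi.sub_apply]
        have h2 := (PadicInt.norm_le_pow_iff_mem_span_pow _ N).2 (PadicInt.appr_spec N (u j))
        rwa [zpow_neg, zpow_natCast, ← inv_pow] at h2)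
  obtain ⟨n, u, a, ha⟩ := PGroup_repr Γ' P
  set a₀ : C := PGroup_T Γ' P x₁ with ha₀
  have ha₀n : 0 < ‖a₀‖ := lt_of_lt_of_le hg hx₁
  have ha₀0 : a₀ ≠ 0 := norm_pos_iff.1 ha₀n
  have hFc : Continuous fun x => ‖PGroup_T Γ' P x - a₀‖ :=
    ((PGroup_cont hc' P).sub continuous_const).norm
  obtain ⟨xk, -, hxk⟩ := (isCompact_univ (X := Fin d → ℤ_[p])).exists_isMaxOn
    Set.univ_nonempty hFc.continuousOn
  set κ₀ : ℝ := ‖PGroup_T Γ' P xk - a₀‖ with hκ₀
  have hκlt : κ₀ < g := by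
    have h2 := hP (xk - x₁) x₁
    rw [add_sub_cancel] at h2
    exact h2
  refine ⟨n, fun i => co (u i), fun i => a i / a₀, κ₀ / ‖a₀‖, ?_, ?_, ?_⟩
  · rw [div_lt_one ha₀n]
    linarith
  · intro i j
    exact PadicInt.norm_le_one _
  · intro y hy
    set x : Fin d → ℤ_[p] := fun j => ⟨y j, hy j⟩ with hx
    have h2 : ∑ i, a i / a₀ * Γ (y + co (u i)) - 1 = (PGroup_T Γ' P x - a₀) / a₀ := by
      rw [ha x, sub_div, div_self ha₀0, Finset.sum_div]
      congr 1
      refine Finset.sum_congr rfl fun i _ => ?_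
      have h3 : Γ' (x + u i) = Γ (y + co (u i)) := rfl
      rw [h3]
      ring
    rw [h2, norm_div]
    exact div_le_div_of_nonneg_right (hxk (Set.mem_univ x)) ha₀n.le

end

end Pool.Agent.Lib.MP_f399a8_nt
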