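import Pool.Agent.Lib.MP_f399a8_nt.KeyEst
import Pool.Agent.Lib.MP_f399a8_nt.PGroup

/-!
# Localisation of the first column of the last row

PROOF.  Let `ψ = Drop φ ∈ PSM m (m + 1)`, `‖ψ‖ ≤ B` on integral matrices, `η = χ last`.
`D ε` : for all `r s`, `Near X ε (Op η (E r s) ψ)`.  `D B` holds (approximate by `0`, `op_bdd`).
`iter_step`: there is `κ < 1` such that `D ε → D (κ ε)` for all `ε > 0`:
take `Γ = Gam η c lam` with the data of `Loc η`, and `n, u, a, κ₀` from `pgroup` for `Γ`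
(`Gam_continuous`, `Gam_supp`, `Gam_ne`); `κ := max κ₀ (1/2)`.  Given `r s` and `ε`, choose `M` with
`M + r ≥ s` and `key_est` for an error `ε₁` with `(max_i ‖a i‖ + 1) * ε₁ ≤ κ ε`.
(a) `Near X ε₁ (Op η (Γ ∘ scl r (M + r)) ψ)` by `key_est`, `hF`, `gc_mem` (`‖p ^ r * c i‖ ≤ 1`).
(b) by `near_nU` and `op_nU`, also for `Γ (scl r (M + r) y + u i)` [`scl` is additive; use
`nU (usc r (M + r) (u i))`], hence `Near X (κ ε) (Op η (G ∘ scl r (M + r)) ψ)` with
`G w = ∑ a i * Γ (w + u i)`.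
(c) `γ := G - ind 0` is continuous, vanishes outside of the unit polydisc and `‖γ‖ ≤ κ` there; by
`expand` with `δ * B ≤ κ ε` and `ind_scl`, `Op η (γ ∘ scl r (M + r)) ψ` is up to `δ * B` (`op_bdd`)
the sum over `α` of `γ α` times a translate (`op_nU`, `nU (-(usc r (M + r) α))`) of
`Op η (E (r + N) (M + r + N)) ψ`, which is `Near X ε`; so it is `Near X (κ ε)`.
(d) `Op η (E r (M + r)) ψ = Op η ((ind 0) ∘ scl r (M + r)) ψ` is the difference of (b) and (c).
(e) `Op η (E r s) ψ` is by `E_refine` (`M + r = s + t`) a sum of translates of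
`Op η (E r (M + r)) ψ`.
`op_E_mem`: iterate, `κ ^ k * B → 0`, and `X` is closed.
-/

namespace Pool.Agent.Lib.MP_f399a8_nt

open Matrix

noncomputable section

set_option linter.unusedSectionVars false

variable {p : ℕ} [Fact p.Prime] {C : Type*} [NormedField C] [NormedAlgebra ℚ_[p] C]
  [IsUltrametricDist C]

theorem Iter_gt {x y : ℚ_[p]} (hx : 1 < ‖x‖) (hy : ‖y‖ ≤ 1) : 1 < ‖x + y‖ := by
  rw [IsUltrametricDist.norm_add_eq_max_of_norm_ne_norm (lt_of_le_of_lt hy hx).ne']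
  exact lt_max_of_lt_left hx

theorem Iter_nat (k : ℕ) : ‖(k : ℚ_[p])‖ ≤ 1 := by
  have := Padic.norm_int_le_one (p := p) (k : ℤ)
  simpa using this

theorem Iter_usc {m : ℕ} (r s : ℕ) {w : Fin (m + 1) → ℚ_[p]} (hw : ∀ j, ‖w j‖ ≤ 1) :
    ∀ j, ‖usc r s w j‖ ≤ 1 := by
  have h : ∀ (k : ℕ) (x : ℚ_[p]), ‖x‖ ≤ 1 → ‖x * (p : ℚ_[p]) ^ k‖ ≤ 1 := by
    intro k x hx
    rw [mul_comm]
    refine KeyEst_mul zero_le_one ?_ hx
    rw [Padic.norm_p_pow]
    exact KeyEst_pow_le k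
  intro j
  induction j using Fin.cases with
  | zero => exact h r _ (hw 0)
  | succ j => exact h s _ (hw j.succ)

theorem Iter_scl_add {m : ℕ} (r s : ℕ) (y w : Fin (m + 1) → ℚ_[p]) :
    scl r s (y + usc r s w) = scl r s y + w := by
  have hp0 : (p : ℚ_[p]) ≠ 0 := by exact_mod_cast (Fact.out : p.Prime).ne_zero
  have hpr : ∀ k : ℕ, (p : ℚ_[p]) ^ k ≠ 0 := fun k => pow_ne_zero _ hp0
  funext j
  induction j using Fin.cases with
  | zero =>
    simp only [scl, usc, Pi.add_apply, Fin.cons_zero]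
    have := hpr r
    field_simp
  | succ j =>
    simp only [scl, usc, Pi.add_apply, Fin.cons_succ]
    have := hpr s
    field_simp

theorem Iter_ind_supp {m : ℕ} (N : ℕ) {y α : Fin m → ℚ_[p]} (hα : ∀ j, ‖α j‖ ≤ 1)
    (h : ∃ j, 1 < ‖y j‖) : ind (C := C) N (y - α) = 0 := by
  obtain ⟨j, hj⟩ := h
  refine KeyEst_ind_supp N _ ⟨j, ?_⟩
  rw [Pi.sub_apply, sub_eq_add_neg]
  exact Iter_gt hj (by rw [norm_neg]; exact hα j)

theorem Iter_E_supp {m : ℕ} (r s : ℕ) {y : Fin (m + 1) → ℚ_[p]}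
    (h : ∃ j, 1 < ‖y j‖) : E (C := C) r s y = 0 := by
  rw [← ind_zero_scl]
  exact KeyEst_ind_supp 0 _ (scl_supp r s h)

/-- translating the weight -/
theorem Iter_near_trans {m : ℕ} {η : ℚ_[p] →*₀ C}
    {X : Submodule C (Matrix (Fin (m + 1)) (Fin (m + 2)) ℚ_[p] → C)} (hk : KStab X) {ε : ℝ}
    {γ : (Fin (m + 1) → ℚ_[p]) → C} {ψ : Matrix (Fin m) (Fin (m + 1)) ℚ_[p] → C}
    (h : Near X ε (Op η γ ψ)) {u : Fin (m + 1) → ℚ_[p]} (hu : ∀ j, ‖u j‖ ≤ 1) :
    Near X ε (Op η (fun y => γ (y + u)) ψ) := by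
  have h1 := near_nU hk h hu
  have e : (fun R : Matrix (Fin (m + 1)) (Fin (m + 2)) ℚ_[p] => Op η γ ψ (R * nU u)) =
      Op η (fun y => γ (y + u)) ψ := by
    funext R
    exact op_nU η γ ψ u R
  rw [← e]
  exact h1

/-- the sum of the test function -/
theorem Iter_sum_smul {m : ℕ} (η : ℚ_[p] →*₀ C) {ι : Type*} (s : Finset ι) (a : ι → C)
    (γ : ι → (Fin (m + 1) → ℚ_[p]) → C) (ψ : Matrix (Fin m) (Fin (m + 1)) ℚ_[p] → C) :
    Op η (fun y => ∑ i ∈ s, a i * γ i y) ψ = ∑ i ∈ s, a i • Op η (γ i) ψ := by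
  have e : (fun y => ∑ i ∈ s, a i * γ i y) = ∑ i ∈ s, a i • γ i := by
    funext y
    simp only [Finset.sum_apply, Pi.smul_apply, smul_eq_mul]
  rw [e, op_sum_left]
  refine Finset.sum_congr rfl fun i _ => ?_
  rw [op_smul_left]

theorem iter_step {m : ℕ} {χ : Fin (m + 1) → ℚ_[p] →*₀ C} (hχ : Small χ)
    (hloc : Loc (χ (Fin.last m)))
    {X : Submodule C (Matrix (Fin (m + 1)) (Fin (m + 2)) ℚ_[p] → C)} (hk : KStab X)
    {φ : Matrix (Fin m) (Fin m) ℚ_[p] → C} (hφ : φ ∈ PSM m m (fun i => χ i.castSucc))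
    (hF : ∀ M : ℕ, Drop (Op (χ (Fin.last m)) (ind M) φ) ∈ X) :
    ∃ κ : ℝ, 0 ≤ κ ∧ κ < 1 ∧ ∀ ε : ℝ, 0 < ε →
      (∀ r s : ℕ, Near X ε (Op (χ (Fin.last m)) (E r s) (Drop φ))) →
      ∀ r s : ℕ, Near X (κ * ε) (Op (χ (Fin.last m)) (E r s) (Drop φ)) := by
  obtain ⟨hη, hη1⟩ := hχ (Fin.last m)
  set η := χ (Fin.last m) with hη_def
  obtain ⟨n, c, lam, hc, hout, hsum, hne⟩ := hloc
  set Γ : (Fin (m + 1) → ℚ_[p]) → C := Gam η c lam with hΓ
  have hΓc : Continuous Γ := Gam_continuous hη c lam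
  have hΓ0 : ∀ y, (∃ j, 1 < ‖y j‖) → Γ y = 0 := fun y hy => Gam_supp hc hout hy
  obtain ⟨n', u, a, κ₀, hκ₀, hu, hpg⟩ := pgroup hΓc hΓ0 (Gam_ne hne)
  set ψ := Drop φ with hψ_def
  have hψ : ψ ∈ PSM m (m + 1) (fun i => χ i.castSucc) := drop_mem hφ
  obtain ⟨B, hB0, hB⟩ := psm_bdd hψ
  refine ⟨max κ₀ (1 / 2), le_max_of_le_right (by norm_num), max_lt hκ₀ (by norm_num), ?_⟩
  set κ := max κ₀ (1 / 2) with hκ_def
  have hκ : 0 < κ := lt_max_of_lt_right (by norm_num)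
  intro ε hε hD r s
  have hκε : 0 < κ * ε := mul_pos hκ hε
  set G : (Fin (m + 1) → ℚ_[p]) → C := fun w => ∑ i, a i * Γ (w + u i) with hG
  set γ : (Fin (m + 1) → ℚ_[p]) → C := fun w => G w - ind 0 w with hγ
  have hGc : Continuous G := by
    refine continuous_finsetSum _ fun i _ => continuous_const.mul (hΓc.comp ?_)
    exact continuous_id.add continuous_const
  have hγc : Continuous γ := hGc.sub (continuous_ind 0)
  have hG0 : ∀ y, (∃ j, 1 < ‖y j‖) → G y = 0 := by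
    rintro y ⟨j, hj⟩
    refine Finset.sum_eq_zero fun i _ => ?_
    rw [hΓ0 _ ⟨j, ?_⟩, mul_zero]
    rw [Pi.add_apply]
    exact Iter_gt hj (hu i j)
  have hγ0 : ∀ y, (∃ j, 1 < ‖y j‖) → γ y = 0 := by
    intro y hy
    simp only [hγ]
    rw [hG0 y hy, KeyEst_ind_supp 0 y hy, sub_zero]
  have hγb : ∀ y, ‖γ y‖ ≤ κ := by
    intro y
    by_cases hy : ∀ j, ‖y j‖ ≤ 1
    · have h1 : ind (C := C) 0 y = 1 := by
        simp only [ind]
        rw [if_pos]
        intro j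
        simpa using hy j
      simp only [hγ]
      rw [h1]
      exact (hpg y hy).trans (le_max_left _ _)
    · push Not at hy
      rw [hγ0 y hy, norm_zero]
      exact hκ.le
  obtain ⟨N, hN⟩ := expand hγc hγ0 (δ := κ * ε / B) (by positivity)
  set L : ℝ := 1 + ∑ i, ‖a i‖ with hL_def
  have hL : 0 < L := by positivity
  have haL : ∀ i, ‖a i‖ ≤ L := by
    intro i
    have := Finset.single_le_sum (f := fun i => ‖a i‖)
      (fun i _ => norm_nonneg _) (Finset.mem_univ i)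
    rw [hL_def]
    linarith
  obtain ⟨M₀, hM₀⟩ := key_est hχ hφ hc hout hsum r (ε := κ * ε / L) (by positivity)
  set M := max M₀ s with hM_def
  have hpc : ∀ i, ‖(p : ℚ_[p]) ^ r * c i‖ ≤ 1 := by
    intro i
    refine KeyEst_mul zero_le_one ?_ (hc i)
    rw [Padic.norm_p_pow]
    exact KeyEst_pow_le r
  -- (a)
  have hA : Near X (κ * ε / L) (Op η (fun y => Γ (scl r (M + r) y)) ψ) := by
    refine ⟨∑ i, (((η (p : ℚ_[p])) ^ r)⁻¹ * lam i) •
      (fun R : Matrix (Fin (m + 1)) (Fin (m + 2)) ℚ_[p] =>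
        Drop (Op η (ind M) φ) (R * gc ((p : ℚ_[p]) ^ r * c i))), ?_, ?_⟩
    · exact Submodule.sum_mem _ fun i _ => Submodule.smul_mem _ _ (gc_mem hk (hF M) (hpc i))
    · intro R hR
      have h1 := hM₀ M (le_max_left _ _) R hR
      rw [norm_sub_rev]
      refine le_of_eq_of_le ?_ h1
      congr 1
      simp only [Finset.sum_apply, Pi.smul_apply, smul_eq_mul]
      rfl
  -- (b)
  have hBi : ∀ i, Near X (κ * ε / L) (Op η (fun y => Γ (scl r (M + r) y + u i)) ψ) := by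
    intro i
    have h1 := Iter_near_trans hk hA (u := usc r (M + r) (u i)) (Iter_usc r (M + r) (hu i))
    have e : (fun y => Γ (scl r (M + r) (y + usc r (M + r) (u i)))) =
        fun y => Γ (scl r (M + r) y + u i) := by
      funext y
      rw [Iter_scl_add]
    rw [← e]
    exact h1
  have hGn : Near X (κ * ε) (Op η (fun y => G (scl r (M + r) y)) ψ) := by
    have e : Op η (fun y => G (scl r (M + r) y)) ψ =
        ∑ i, a i • Op η (fun y => Γ (scl r (M + r) y + u i)) ψ :=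
      Iter_sum_smul η Finset.univ a (fun i y => Γ (scl r (M + r) y + u i)) ψ
    rw [e]
    refine near_sum hκε.le _ _ fun i _ => near_mono (near_smul (hBi i) (a i)) ?_
    calc ‖a i‖ * (κ * ε / L) ≤ L * (κ * ε / L) :=
          mul_le_mul_of_nonneg_right (haL i) (by positivity)
      _ = κ * ε := by field_simp
  -- (c)
  have hcast : ∀ (α : Fin (m + 1) → Fin (p ^ N)) (j), ‖(((α j : ℕ) : ℚ_[p]))‖ ≤ 1 :=
    fun α j => Iter_nat _
  have hγn : Near X (κ * ε) (Op η (fun y => γ (scl r (M + r) y)) ψ) := by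
    have hg : Near X (κ * ε) (Op η (fun y => ∑ α : Fin (m + 1) → Fin (p ^ N),
        γ (fun j => ((α j : ℕ) : ℚ_[p])) *
          ind N (scl r (M + r) y - fun j => ((α j : ℕ) : ℚ_[p]))) ψ) := by
      rw [Iter_sum_smul η Finset.univ (fun α : Fin (m + 1) → Fin (p ^ N) =>
        γ (fun j => ((α j : ℕ) : ℚ_[p])))
        (fun α y => ind N (scl r (M + r) y - fun j => ((α j : ℕ) : ℚ_[p]))) ψ]
      refine near_sum hκε.le _ _ fun α _ => near_mono (ε := ‖γ (fun j => ((α j : ℕ) : ℚ_[p]))‖ * ε)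
        (near_smul ?_ _) (mul_le_mul_of_nonneg_right (hγb _) hε.le)
      have e : (fun y => ind (C := C) N (scl r (M + r) y - fun j => ((α j : ℕ) : ℚ_[p]))) =
          fun y => E (r + N) (M + r + N)
            (y + -usc r (M + r) (fun j => ((α j : ℕ) : ℚ_[p]))) := by
        funext y
        rw [ind_scl, sub_eq_add_neg]
      rw [e]
      refine Iter_near_trans hk (hD _ _) fun j => ?_
      rw [Pi.neg_apply, norm_neg]
      exact Iter_usc r (M + r) (hcast α) j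
    refine near_of_near hg fun R hR => ?_
    have e : Op η (fun y => γ (scl r (M + r) y)) ψ R -
        Op η (fun y => ∑ α : Fin (m + 1) → Fin (p ^ N),
        γ (fun j => ((α j : ℕ) : ℚ_[p])) *
          ind N (scl r (M + r) y - fun j => ((α j : ℕ) : ℚ_[p]))) ψ R =
        Op η (fun y => γ (scl r (M + r) y) - ∑ α : Fin (m + 1) → Fin (p ^ N),
        γ (fun j => ((α j : ℕ) : ℚ_[p])) *
          ind N (scl r (M + r) y - fun j => ((α j : ℕ) : ℚ_[p]))) ψ R := by
      simp only [Op]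
      ring
    rw [e]
    have h1 := op_bdd hη hη1 (γ := fun y => γ (scl r (M + r) y) -
        ∑ α : Fin (m + 1) → Fin (p ^ N), γ (fun j => ((α j : ℕ) : ℚ_[p])) *
          ind N (scl r (M + r) y - fun j => ((α j : ℕ) : ℚ_[p])))
      (a := κ * ε / B) (B := B) (fun y => hN (scl r (M + r) y)) ?_ hB0.le hB R hR
    · refine h1.trans (le_of_eq ?_)
      field_simp
    · intro y hy
      have hy' := scl_supp r (M + r) hy
      rw [hγ0 _ hy', Finset.sum_eq_zero, sub_zero]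
      intro α _
      rw [Iter_ind_supp N (hcast α) hy', mul_zero]
  -- (d)
  have hE1 : Near X (κ * ε) (Op η (E r (M + r)) ψ) := by
    have e : Op η (E r (M + r)) ψ =
        Op η (fun y => G (scl r (M + r) y)) ψ - Op η (fun y => γ (scl r (M + r) y)) ψ := by
      rw [← op_sub_left]
      congr 1
      funext y
      simp only [Pi.sub_apply, hγ]
      rw [ind_zero_scl]
      ring
    rw [e]
    exact near_sub hGn hγn
  -- (e)
  obtain ⟨t, ht⟩ : ∃ t, M + r = s + t := ⟨M + r - s, by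
    have : s ≤ M := le_max_right _ _
    omega⟩
  have e : Op η (E r s) ψ = ∑ β : Fin m → Fin (p ^ t),
      (1 : C) • Op η (fun y => E r (s + t)
        (y - Fin.cons 0 (fun j => ((β j : ℕ) : ℚ_[p]) * (p : ℚ_[p]) ^ s))) ψ := by
    rw [← Iter_sum_smul]
    congr 1
    funext y
    rw [E_refine r s t y]
    simp only [one_mul]
  rw [e]
  refine near_sum hκε.le _ _ fun β _ => ?_
  rw [one_smul]
  have e2 : (fun y : Fin (m + 1) → ℚ_[p] => E (C := C) r (s + t)
        (y - Fin.cons 0 (fun j => ((β j : ℕ) : ℚ_[p]) * (p : ℚ_[p]) ^ s))) =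
      fun y => E r (s + t)
        (y + -(Fin.cons 0 (fun j => ((β j : ℕ) : ℚ_[p]) * (p : ℚ_[p]) ^ s))) := by
    funext y
    rw [sub_eq_add_neg]
  rw [e2]
  refine Iter_near_trans hk (ht ▸ hE1) fun j => ?_
  rw [Pi.neg_apply, norm_neg]
  induction j using Fin.cases with
  | zero => simp
  | succ j =>
    rw [Fin.cons_succ, mul_comm]
    refine KeyEst_mul zero_le_one ?_ (Iter_nat _)
    rw [Padic.norm_p_pow]
    exact KeyEst_pow_le s

theorem op_E_mem {m : ℕ} {χ : Fin (m + 1) → ℚ_[p] →*₀ C} (hχ : Small χ)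
    (hloc : Loc (χ (Fin.last m)))
    {X : Submodule C (Matrix (Fin (m + 1)) (Fin (m + 2)) ℚ_[p] → C)} (hcl : ClosedU χ X)
    (hk : KStab X)
    {φ : Matrix (Fin m) (Fin m) ℚ_[p] → C} (hφ : φ ∈ PSM m m (fun i => χ i.castSucc))
    (hF : ∀ M : ℕ, Drop (Op (χ (Fin.last m)) (ind M) φ) ∈ X) (r s : ℕ) :
    Op (χ (Fin.last m)) (E r s) (Drop φ) ∈ X := by
  obtain ⟨hη, hη1⟩ := hχ (Fin.last m)
  have hψ : Drop φ ∈ PSM m (m + 1) (fun i => χ i.castSucc) := drop_mem hφ
  obtain ⟨B, hB0, hB⟩ := psm_bdd hψ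
  obtain ⟨κ, hκ0, hκ1, hstep⟩ := iter_step hχ hloc hk hφ hF
  set κ' := max κ (1 / 2) with hκ'
  have hκ'0 : 0 < κ' := lt_max_of_lt_right (by norm_num)
  have hκ'1 : κ' < 1 := max_lt hκ1 (by norm_num)
  have hall : ∀ k : ℕ, ∀ r s : ℕ,
      Near X (κ' ^ k * B) (Op (χ (Fin.last m)) (E r s) (Drop φ)) := by
    intro k
    induction k with
    | zero =>
      intro r s
      refine ⟨0, Submodule.zero_mem _, fun R hR => ?_⟩
      rw [Pi.zero_apply, sub_zero, pow_zero]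
      refine op_bdd hη hη1 (a := 1) (fun y => ?_) (fun y hy => Iter_E_supp r s hy) hB0.le hB R hR
      simp only [E]
      split_ifs
      · rw [norm_one]
      · rw [norm_zero]
        exact zero_le_one
    | succ k ih =>
      intro r s
      refine near_mono (hstep (κ' ^ k * B) (by positivity) ih r s) ?_
      rw [pow_succ]
      calc κ * (κ' ^ k * B) ≤ κ' * (κ' ^ k * B) :=
            mul_le_mul_of_nonneg_right (le_max_left _ _) (by positivity)
        _ = κ' ^ k * κ' * B := by ring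
  refine hcl _ (op_mem hχ (continuous_E r s) (fun y hy => Iter_E_supp r s hy) hψ) fun ε hε => ?_
  obtain ⟨k, hk'⟩ := exists_pow_lt_of_lt_one (show 0 < ε / B by positivity) hκ'1
  refine near_mono (hall k r s) ?_
  rw [lt_div_iff₀ hB0] at hk'
  exact hk'.le

end

end Pool.Agent.Lib.MP_f399a8_nt
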