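import Pool.Agent.Lib.MP_f399a8_nt.OpA
import Pool.Agent.Lib.MP_f399a8_nt.Gam

/-!
# The key estimate

Notation: `R` is an `(m + 1) × (m + 2)` matrix, `v` its last row, `l` the last column, columns
`1, …, m` (`j.succ.castSucc`, `j : Fin m`) are the middle columns; `η = χ last`.
`x = v 0 - c * v l` with `c = p ^ r * c_i`.

PROOF.  `Drop (Op η (ind M) φ) (R * gc c) = η x * 1[‖v j‖ ≤ p ^ (-M) ‖x‖, j middle] * φ (A_c)` with
`A_c i j = R i j - (R i 0 - c R i l) * (v j / x)` (zero if `x = 0`).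
`Op η (Gam ∘ scl) (Drop φ) R = η (v l) * Gam (scl (ratio R)) * φ (A)` with
`A i j = R i j - R i l * (v j / v l)`, `i : Fin m`, `j` middle; and for `v l ≠ 0`
`η (v l) * (η p ^ r)⁻¹ * η (v 0 / v l - c) = η x * (η p ^ r)⁻¹`, `‖v j / v l‖ ≤ p ^ (-(M + r)) *
‖(v 0 / v l) / p ^ r - c_i‖ ↔ ‖v j‖ ≤ p ^ (-M) ‖x‖`.
Let `M ≥ 1` be large (`psm_unif` for `φ` with a small `ε'` such that
`max_i ‖lam i‖ * ‖η p‖⁻¹ ^ r * ε' ≤ ε`).  By `psm_prim` (the difference is in `PSM`) let `v` be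
primitive (some entry of norm one).
* `‖v l‖ = 1`: on the support `‖v j / x‖ ≤ p ^ (-M)`, `A_c - A = -(v j / x) * (R i 0 - R i l * v 0 /
  v l)` has entries of norm `≤ p ^ (-M)`, both matrices are integral, `‖η x‖ ≤ 1`; so the two sides
  differ by at most `ε`, term by term.
* `‖v l‖ < 1`, some middle `‖v j‖ = 1` and `‖v 0‖ < 1`: `‖x‖ < 1`, all terms on the left vanish; on
  the right: if `v l = 0` it vanishes as `η 0 = 0`, otherwise `‖ratio j‖ > 1` so `Gam = 0`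
  (`Gam_supp`, `scl_supp`).
* `‖v l‖ < 1`, `‖v 0‖ = 1`: `‖x‖ = 1` for all `i`; the right side vanishes as before
  (`‖ratio 0‖ > 1`).  Left: the conditions `‖v j‖ ≤ p ^ (-M)` do not depend on `i`; if they hold,
  `A_c` differs from `A' i j = R i j` by `≤ p ^ (-M)`, so up to `ε` the left side is
  `(η p ^ r)⁻¹ * (∑ lam i * η (v 0 - p ^ r c_i v l)) * φ A'`, and the sum vanishes: if `v l = 0` by
  `hsum`; else it is `η (p ^ r v l) * ∑ lam i * η (z - c_i)`, `z = v 0 / (p ^ r v l)`, `‖z‖ > 1`.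
-/

namespace Pool.Agent.Lib.MP_f399a8_nt

open Matrix

noncomputable section

set_option linter.unusedSectionVars false

variable {p : ℕ} [Fact p.Prime] {C : Type*} [NormedField C] [IsUltrametricDist C]

/-- the matrix on the left -/
def KeyEst_Ac {m : ℕ} (R : Matrix (Fin (m + 1)) (Fin (m + 2)) ℚ_[p]) (c x : ℚ_[p]) :
    Matrix (Fin m) (Fin m) ℚ_[p] :=
  fun i j => R i.castSucc j.succ.castSucc -
    (R i.castSucc 0 - c * R i.castSucc (Fin.last (m + 1))) *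
      (R (Fin.last m) j.succ.castSucc / x)

/-- the matrix on the right -/
def KeyEst_A {m : ℕ} (R : Matrix (Fin (m + 1)) (Fin (m + 2)) ℚ_[p]) :
    Matrix (Fin m) (Fin m) ℚ_[p] :=
  fun i j => R i.castSucc j.succ.castSucc - R i.castSucc (Fin.last (m + 1)) *
      (R (Fin.last m) j.succ.castSucc / R (Fin.last m) (Fin.last (m + 1)))

theorem KeyEst_left {m : ℕ} (η : ℚ_[p] →*₀ C) (M : ℕ)
    (φ : Matrix (Fin m) (Fin m) ℚ_[p] → C) (T R : Matrix (Fin (m + 1)) (Fin (m + 2)) ℚ_[p])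
    (c x : ℚ_[p]) (hx : R (Fin.last m) 0 - c * R (Fin.last m) (Fin.last (m + 1)) = x)
    (h1 : ∀ k, T k (Fin.last (m + 1)) = R k 0 - c * R k (Fin.last (m + 1)))
    (h2 : ∀ (k) (j : Fin m), T k j.succ.castSucc = R k j.succ.castSucc) :
    Drop (Op η (ind M) φ) T =
      η x * ind M (fun j : Fin m => R (Fin.last m) j.succ.castSucc / x) *
        φ (KeyEst_Ac R c x) := by
  have e1 : ∀ k : Fin (m + 1), (T.submatrix id Fin.succ) k (Fin.last m) =
      R k 0 - c * R k (Fin.last (m + 1)) := by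
    intro k
    simp only [Matrix.submatrix_apply, id, Fin.succ_last]
    exact h1 k
  have e2 : ∀ (k : Fin (m + 1)) (j : Fin m),
      (T.submatrix id Fin.succ) k j.castSucc = R k j.succ.castSucc := by
    intro k j
    simp only [Matrix.submatrix_apply, id]
    rw [← h2 k j]
    rfl
  have e3 : ratio (T.submatrix id Fin.succ) =
      fun j : Fin m => R (Fin.last m) j.succ.castSucc / x := by
    funext j
    simp only [ratio]
    rw [e1, e2, hx]
  have e4 : Schur (T.submatrix id Fin.succ) = KeyEst_Ac R c x := by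
    funext i j
    simp only [Schur, KeyEst_Ac]
    rw [e1, e2, e3]
  simp only [Drop, Op]
  rw [e3, e4, e1, hx]

theorem KeyEst_right {m : ℕ} (η : ℚ_[p] →*₀ C) (γ : (Fin (m + 1) → ℚ_[p]) → C)
    (φ : Matrix (Fin m) (Fin m) ℚ_[p] → C) (R : Matrix (Fin (m + 1)) (Fin (m + 2)) ℚ_[p]) :
    Op η γ (Drop φ) R =
      η (R (Fin.last m) (Fin.last (m + 1))) * γ (ratio R) * φ (KeyEst_A R) := by
  simp only [Op, Drop]
  congr 2

theorem KeyEst_ind {m : ℕ} (M : ℕ) (y : Fin m → ℚ_[p]) (x : ℚ_[p]) (hx : x ≠ 0) :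
    ind (C := C) M (fun j => y j / x) =
      if ∀ j, ‖y j‖ ≤ (p : ℝ) ^ (-(M : ℤ)) * ‖x‖ then 1 else 0 := by
  have hx' : 0 < ‖x‖ := norm_pos_iff.mpr hx
  simp only [ind]
  refine if_congr ?_ rfl rfl
  refine forall_congr' fun j => ?_
  rw [norm_div, div_le_iff₀ hx']

theorem KeyEst_hp : (0 : ℝ) < (p : ℝ) := by exact_mod_cast (Fact.out : p.Prime).pos

theorem KeyEst_pow_le (M : ℕ) : (p : ℝ) ^ (-(M : ℤ)) ≤ 1 := by
  have h1 : (1 : ℝ) ≤ (p : ℝ) := by exact_mod_cast (Fact.out : p.Prime).one_lt.le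
  rw [_root_.zpow_neg, zpow_natCast]
  exact inv_le_one_of_one_le₀ (one_le_pow₀ h1)

theorem KeyEst_pow_anti {M M' : ℕ} (h : M ≤ M') :
    (p : ℝ) ^ (-(M' : ℤ)) ≤ (p : ℝ) ^ (-(M : ℤ)) := by
  have h1 : (1 : ℝ) ≤ (p : ℝ) := by exact_mod_cast (Fact.out : p.Prime).one_lt.le
  exact zpow_le_zpow_right₀ h1 (by omega)

/-- comparison of the two terms when the last entry is nonzero -/
theorem KeyEst_term {m : ℕ} (η : ℚ_[p] →*₀ C) (M r : ℕ) (l a x w d : ℚ_[p]) (y : Fin m → ℚ_[p])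
    (u : C) (hl : l ≠ 0) (hx : a - (p : ℚ_[p]) ^ r * d * l = x) (hw : a / l / (p : ℚ_[p]) ^ r = w)
    (F G : C) :
    ((η (p : ℚ_[p])) ^ r)⁻¹ * u * (η x * ind M (fun j => y j / x) * F) -
      η l * (u * (if ∀ j : Fin m, ‖y j / l / (p : ℚ_[p]) ^ (M + r)‖ ≤ ‖w - d‖
        then η (w - d) else 0)) * G =
      ((η (p : ℚ_[p])) ^ r)⁻¹ * u * (η x *
        (if ∀ j, ‖y j‖ ≤ (p : ℝ) ^ (-(M : ℤ)) * ‖x‖ then 1 else 0) * (F - G)) := by
  have hp0 : (p : ℚ_[p]) ≠ 0 := by exact_mod_cast (Fact.out : p.Prime).ne_zero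
  have hηp : η (p : ℚ_[p]) ≠ 0 := (map_ne_zero η).mpr hp0
  have hpr : (p : ℚ_[p]) ^ r ≠ 0 := pow_ne_zero _ hp0
  have hxw : x = l * (p : ℚ_[p]) ^ r * (w - d) := by
    rw [← hx, ← hw]
    field_simp
  have hηx : η x = η l * (η (p : ℚ_[p])) ^ r * η (w - d) := by
    rw [hxw, map_mul, map_mul, map_pow]
  by_cases hx0 : x = 0
  · have hwd : w - d = 0 := by
      rw [hxw] at hx0
      rcases mul_eq_zero.mp hx0 with h | h
      · exact absurd h (mul_ne_zero hl hpr)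
      · exact h
    rw [hx0, hwd]
    simp
  · rw [KeyEst_ind M y x hx0]
    have hcond : (∀ j : Fin m, ‖y j / l / (p : ℚ_[p]) ^ (M + r)‖ ≤ ‖w - d‖) ↔
        ∀ j, ‖y j‖ ≤ (p : ℝ) ^ (-(M : ℤ)) * ‖x‖ := by
      refine forall_congr' fun j => ?_
      have hnl : 0 < ‖l‖ := norm_pos_iff.mpr hl
      have hP : (0 : ℝ) < p := KeyEst_hp
      rw [hxw, norm_div, norm_div, norm_mul, norm_mul, norm_pow, norm_pow, Padic.norm_p,
        div_div, div_le_iff₀ (by positivity)]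
      have e : (p : ℝ) ^ (-(M : ℤ)) * (‖l‖ * (p : ℝ)⁻¹ ^ r * ‖w - d‖) =
          ‖w - d‖ * (‖l‖ * (p : ℝ)⁻¹ ^ (M + r)) := by
        rw [_root_.zpow_neg, zpow_natCast, pow_add, inv_pow, inv_pow]
        ring
      rw [e]
    by_cases hC : ∀ j, ‖y j‖ ≤ (p : ℝ) ^ (-(M : ℤ)) * ‖x‖
    · rw [if_pos (hcond.mpr hC), if_pos hC, hηx]
      field_simp
    · rw [if_neg (fun h => hC (hcond.mp h)), if_neg hC]
      simp

theorem KeyEst_sub {x y : ℚ_[p]} {B : ℝ} (hx : ‖x‖ ≤ B) (hy : ‖y‖ ≤ B) : ‖x - y‖ ≤ B := by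
  rw [sub_eq_add_neg]
  exact (IsUltrametricDist.norm_add_le_max _ _).trans (max_le hx (by rwa [norm_neg]))

theorem KeyEst_mul {x y : ℚ_[p]} {B : ℝ} (_hB : 0 ≤ B) (hx : ‖x‖ ≤ 1) (hy : ‖y‖ ≤ B) :
    ‖x * y‖ ≤ B := by
  rw [norm_mul]
  calc ‖x‖ * ‖y‖ ≤ 1 * B := mul_le_mul hx hy (norm_nonneg _) zero_le_one
    _ = B := one_mul B

theorem KeyEst_ind_supp {m : ℕ} (M : ℕ) (y : Fin m → ℚ_[p]) (h : ∃ j, 1 < ‖y j‖) :
    ind (C := C) M y = 0 := by
  obtain ⟨j, hj⟩ := h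
  simp only [ind]
  rw [if_neg]
  intro h
  exact absurd ((h j).trans (KeyEst_pow_le M)) (not_le.mpr hj)

/-- bound of one term -/
theorem KeyEst_bound {k a e : C} {ε L : ℝ} (hL : 0 < L) (hk : ‖k‖ ≤ L) (ha : ‖a‖ ≤ 1)
    (he : ‖e‖ ≤ ε / L) (hε : 0 < ε) : ‖k * (a * e)‖ ≤ ε := by
  rw [norm_mul, norm_mul]
  have h1 : ‖a‖ * ‖e‖ ≤ 1 * (ε / L) :=
    mul_le_mul ha he (norm_nonneg _) zero_le_one
  calc ‖k‖ * (‖a‖ * ‖e‖) ≤ L * (1 * (ε / L)) :=
        mul_le_mul hk h1 (by positivity) hL.le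
    _ = ε := by field_simp

theorem KeyEst_case1 {m : ℕ} {η : ℚ_[p] →*₀ C} (hη : Continuous η)
    (hη1 : ‖η (p : ℚ_[p])‖ < 1) {φ : Matrix (Fin m) (Fin m) ℚ_[p] → C}
    {M r : ℕ} {ε L : ℝ} (hε : 0 < ε) (hL : 0 < L)
    (hu : ∀ R R' : Matrix (Fin m) (Fin m) ℚ_[p], IntM R → IntM R' →
      (∀ i j, ‖R i j - R' i j‖ ≤ (p : ℝ) ^ (-(M : ℤ))) → ‖φ R - φ R'‖ ≤ ε / L)
    (R : Matrix (Fin (m + 1)) (Fin (m + 2)) ℚ_[p]) (hR : IntM R)
    (hvl : ‖R (Fin.last m) (Fin.last (m + 1))‖ = 1) (d : ℚ_[p]) (hd : ‖d‖ ≤ 1) (u : C)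
    (hk : ‖((η (p : ℚ_[p])) ^ r)⁻¹ * u‖ ≤ L) (x : ℚ_[p])
    (hx : R (Fin.last m) 0 - (p : ℚ_[p]) ^ r * d * R (Fin.last m) (Fin.last (m + 1)) = x) :
    ‖((η (p : ℚ_[p])) ^ r)⁻¹ * u * (η x *
        (if ∀ j : Fin m, ‖R (Fin.last m) j.succ.castSucc‖ ≤ (p : ℝ) ^ (-(M : ℤ)) * ‖x‖
          then 1 else 0) *
          (φ (KeyEst_Ac R ((p : ℚ_[p]) ^ r * d) x) - φ (KeyEst_A R)))‖ ≤ ε := by
  have hpd : ‖(p : ℚ_[p]) ^ r * d‖ ≤ 1 := by
    refine KeyEst_mul zero_le_one ?_ hd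
    rw [Padic.norm_p_pow]
    exact KeyEst_pow_le r
  by_cases hx0 : x = 0
  · rw [hx0]
    simp only [map_zero, zero_mul, mul_zero, norm_zero]
    exact hε.le
  by_cases hC : ∀ j : Fin m, ‖R (Fin.last m) j.succ.castSucc‖ ≤ (p : ℝ) ^ (-(M : ℤ)) * ‖x‖
  swap
  · rw [if_neg hC]
    simp only [mul_zero, zero_mul, norm_zero]
    exact hε.le
  rw [if_pos hC, mul_one]
  have hxn : 0 < ‖x‖ := norm_pos_iff.mpr hx0
  have hvl0 : R (Fin.last m) (Fin.last (m + 1)) ≠ 0 := by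
    intro h
    rw [h, norm_zero] at hvl
    exact zero_ne_one hvl
  have hx1 : ‖x‖ ≤ 1 := by
    rw [← hx]
    exact KeyEst_sub (hR _ _) (KeyEst_mul zero_le_one hpd (hR _ _))
  have hy : ∀ j : Fin m, ‖R (Fin.last m) j.succ.castSucc / x‖ ≤ (p : ℝ) ^ (-(M : ℤ)) := by
    intro j
    rw [norm_div, div_le_iff₀ hxn]
    exact hC j
  have hy' : ∀ j : Fin m, ‖R (Fin.last m) j.succ.castSucc /
      R (Fin.last m) (Fin.last (m + 1))‖ ≤ 1 := by
    intro j
    rw [norm_div, hvl, div_one]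
    exact hR _ _
  have hP : (0 : ℝ) ≤ (p : ℝ) ^ (-(M : ℤ)) := zpow_nonneg KeyEst_hp.le _
  refine KeyEst_bound hL hk (norm_char_le_one hη hη1 hx1) ?_ hε
  refine hu _ _ ?_ ?_ ?_
  · intro i j
    refine KeyEst_sub (hR _ _) (KeyEst_mul zero_le_one ?_ ((hy j).trans (KeyEst_pow_le M)))
    exact KeyEst_sub (hR _ _) (KeyEst_mul zero_le_one hpd (hR _ _))
  · intro i j
    exact KeyEst_sub (hR _ _) (KeyEst_mul zero_le_one (hR _ _) (hy' j))
  · intro i j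
    have e : KeyEst_Ac R ((p : ℚ_[p]) ^ r * d) x i j - KeyEst_A R i j =
        -((R i.castSucc 0 - R i.castSucc (Fin.last (m + 1)) *
          (R (Fin.last m) 0 / R (Fin.last m) (Fin.last (m + 1)))) *
          (R (Fin.last m) j.succ.castSucc / x)) := by
      simp only [KeyEst_Ac, KeyEst_A]
      have hx' := hx
      field_simp
      rw [← hx']
      ring
    rw [e, norm_neg]
    refine KeyEst_mul hP ?_ (hy j)
    refine KeyEst_sub (hR _ _) (KeyEst_mul zero_le_one (hR _ _) ?_)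
    rw [norm_div, hvl, div_one]
    exact hR _ _

theorem KeyEst_case2 {m : ℕ} {η : ℚ_[p] →*₀ C} (hη : Continuous η)
    (hη1 : ‖η (p : ℚ_[p])‖ < 1) {φ : Matrix (Fin m) (Fin m) ℚ_[p] → C}
    {n : ℕ} {c : Fin n → ℚ_[p]} {lam : Fin n → C} (hc : ∀ i, ‖c i‖ ≤ 1)
    (hout : ∀ z : ℚ_[p], 1 < ‖z‖ → ∑ i, lam i * η (z - c i) = 0)
    (hsum : ∑ i, lam i = 0)
    {M r : ℕ} {ε L : ℝ} (hε : 0 < ε) (hL : 0 < L)
    (hu : ∀ R R' : Matrix (Fin m) (Fin m) ℚ_[p], IntM R → IntM R' →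
      (∀ i j, ‖R i j - R' i j‖ ≤ (p : ℝ) ^ (-(M : ℤ))) → ‖φ R - φ R'‖ ≤ ε / L)
    (hk : ∀ i, ‖((η (p : ℚ_[p])) ^ r)⁻¹ * lam i‖ ≤ L)
    (R : Matrix (Fin (m + 1)) (Fin (m + 2)) ℚ_[p]) (hR : IntM R)
    (hvl : ‖R (Fin.last m) (Fin.last (m + 1))‖ < 1)
    (hv0 : ‖R (Fin.last m) 0‖ = 1) :
    ‖∑ i, ((η (p : ℚ_[p])) ^ r)⁻¹ * lam i *
      (η (R (Fin.last m) 0 - (p : ℚ_[p]) ^ r * c i * R (Fin.last m) (Fin.last (m + 1))) *
        ind M (fun j : Fin m => R (Fin.last m) j.succ.castSucc /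
          (R (Fin.last m) 0 - (p : ℚ_[p]) ^ r * c i * R (Fin.last m) (Fin.last (m + 1)))) *
        φ (KeyEst_Ac R ((p : ℚ_[p]) ^ r * c i)
          (R (Fin.last m) 0 - (p : ℚ_[p]) ^ r * c i *
            R (Fin.last m) (Fin.last (m + 1)))))‖ ≤ ε := by
  set vl := R (Fin.last m) (Fin.last (m + 1)) with hvl_def
  set v0 := R (Fin.last m) 0 with hv0_def
  have hpc : ∀ i, ‖(p : ℚ_[p]) ^ r * c i‖ ≤ 1 := by
    intro i
    refine KeyEst_mul zero_le_one ?_ (hc i)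
    rw [Padic.norm_p_pow]
    exact KeyEst_pow_le r
  have hx : ∀ i, ‖v0 - (p : ℚ_[p]) ^ r * c i * vl‖ = 1 := by
    intro i
    have h1 : ‖(p : ℚ_[p]) ^ r * c i * vl‖ < 1 := by
      rw [norm_mul]
      calc ‖(p : ℚ_[p]) ^ r * c i‖ * ‖vl‖ ≤ 1 * ‖vl‖ :=
            mul_le_mul_of_nonneg_right (hpc i) (norm_nonneg _)
        _ < 1 := by rw [one_mul]; exact hvl
    rw [sub_eq_add_neg, IsUltrametricDist.norm_add_eq_max_of_norm_ne_norm, norm_neg, hv0,
      max_eq_left h1.le]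
    rw [norm_neg, hv0]
    exact h1.ne'
  have hP : (0 : ℝ) ≤ (p : ℝ) ^ (-(M : ℤ)) := zpow_nonneg KeyEst_hp.le _
  by_cases hC : ∀ j : Fin m, ‖R (Fin.last m) j.succ.castSucc‖ ≤ (p : ℝ) ^ (-(M : ℤ))
  · have hind : ∀ i, ind (C := C) M (fun j : Fin m => R (Fin.last m) j.succ.castSucc /
          (v0 - (p : ℚ_[p]) ^ r * c i * vl)) = 1 := by
      intro i
      simp only [ind]
      rw [if_pos]
      intro j
      rw [norm_div, hx i, div_one]
      exact hC j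
    have hz : ∑ i, lam i * η (v0 - (p : ℚ_[p]) ^ r * c i * vl) = 0 := by
      by_cases h0 : vl = 0
      · simp only [h0, mul_zero, sub_zero]
        rw [← Finset.sum_mul, hsum, zero_mul]
      · have hp0 : (p : ℚ_[p]) ≠ 0 := by exact_mod_cast (Fact.out : p.Prime).ne_zero
        have hpr : (p : ℚ_[p]) ^ r ≠ 0 := pow_ne_zero _ hp0
        have e : ∀ i, v0 - (p : ℚ_[p]) ^ r * c i * vl =
            ((p : ℚ_[p]) ^ r * vl) * (v0 / ((p : ℚ_[p]) ^ r * vl) - c i) := by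
          intro i
          field_simp
        have e2 : ∀ i, lam i * η (v0 - (p : ℚ_[p]) ^ r * c i * vl) =
            η ((p : ℚ_[p]) ^ r * vl) * (lam i * η (v0 / ((p : ℚ_[p]) ^ r * vl) - c i)) := by
          intro i
          rw [e i, map_mul]
          ring
        rw [Finset.sum_congr rfl fun i _ => e2 i, ← Finset.mul_sum, hout, mul_zero]
        rw [norm_div, hv0, norm_mul, one_lt_div]
        · calc ‖(p : ℚ_[p]) ^ r‖ * ‖vl‖ ≤ 1 * ‖vl‖ := by
                refine mul_le_mul_of_nonneg_right ?_ (norm_nonneg _)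
                rw [Padic.norm_p_pow]
                exact KeyEst_pow_le r
            _ < 1 := by rw [one_mul]; exact hvl
        · exact mul_pos (norm_pos_iff.mpr hpr) (norm_pos_iff.mpr h0)
    set Rm : Matrix (Fin m) (Fin m) ℚ_[p] := fun i j => R i.castSucc j.succ.castSucc with hRm
    have hsplit : ∑ i, ((η (p : ℚ_[p])) ^ r)⁻¹ * lam i *
        (η (v0 - (p : ℚ_[p]) ^ r * c i * vl) *
        ind M (fun j : Fin m => R (Fin.last m) j.succ.castSucc /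
          (v0 - (p : ℚ_[p]) ^ r * c i * vl)) *
        φ (KeyEst_Ac R ((p : ℚ_[p]) ^ r * c i) (v0 - (p : ℚ_[p]) ^ r * c i * vl))) =
        ∑ i, ((η (p : ℚ_[p])) ^ r)⁻¹ * lam i * (η (v0 - (p : ℚ_[p]) ^ r * c i * vl) *
          (φ (KeyEst_Ac R ((p : ℚ_[p]) ^ r * c i) (v0 - (p : ℚ_[p]) ^ r * c i * vl)) -
            φ Rm)) := by
      have e3 : ∑ i, ((η (p : ℚ_[p])) ^ r)⁻¹ * lam i *
          (η (v0 - (p : ℚ_[p]) ^ r * c i * vl) * φ Rm) = 0 := by
        have e4 : ∀ i, ((η (p : ℚ_[p])) ^ r)⁻¹ * lam i *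
          (η (v0 - (p : ℚ_[p]) ^ r * c i * vl) * φ Rm) =
          (((η (p : ℚ_[p])) ^ r)⁻¹ * φ Rm) * (lam i * η (v0 - (p : ℚ_[p]) ^ r * c i * vl)) := by
          intro i
          ring
        rw [Finset.sum_congr rfl fun i _ => e4 i, ← Finset.mul_sum, hz, mul_zero]
      rw [← sub_zero (∑ i, ((η (p : ℚ_[p])) ^ r)⁻¹ * lam i *
        (η (v0 - (p : ℚ_[p]) ^ r * c i * vl) *
        ind M (fun j : Fin m => R (Fin.last m) j.succ.castSucc /
          (v0 - (p : ℚ_[p]) ^ r * c i * vl)) *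
        φ (KeyEst_Ac R ((p : ℚ_[p]) ^ r * c i) (v0 - (p : ℚ_[p]) ^ r * c i * vl)))), ← e3,
        ← Finset.sum_sub_distrib]
      refine Finset.sum_congr rfl fun i _ => ?_
      rw [hind i]
      ring
    rw [hsplit]
    refine IsUltrametricDist.norm_sum_le_of_forall_le_of_nonneg hε.le fun i _ => ?_
    refine KeyEst_bound hL (hk i) (norm_char_le_one hη hη1 (hx i).le) ?_ hε
    have hy : ∀ j : Fin m, ‖R (Fin.last m) j.succ.castSucc /
        (v0 - (p : ℚ_[p]) ^ r * c i * vl)‖ ≤ (p : ℝ) ^ (-(M : ℤ)) := by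
      intro j
      rw [norm_div, hx i, div_one]
      exact hC j
    have hz2 : ∀ k : Fin m, ‖R k.castSucc 0 - (p : ℚ_[p]) ^ r * c i *
        R k.castSucc (Fin.last (m + 1))‖ ≤ 1 := fun k =>
      KeyEst_sub (hR _ _) (KeyEst_mul zero_le_one (hpc i) (hR _ _))
    refine hu _ _ ?_ ?_ ?_
    · intro k j
      exact KeyEst_sub (hR _ _) (KeyEst_mul zero_le_one (hz2 k) ((hy j).trans (KeyEst_pow_le M)))
    · intro k j
      exact hR _ _
    · intro k j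
      have e : KeyEst_Ac R ((p : ℚ_[p]) ^ r * c i) (v0 - (p : ℚ_[p]) ^ r * c i * vl) k j -
          Rm k j = -((R k.castSucc 0 - (p : ℚ_[p]) ^ r * c i * R k.castSucc (Fin.last (m + 1))) *
            (R (Fin.last m) j.succ.castSucc / (v0 - (p : ℚ_[p]) ^ r * c i * vl))) := by
        simp only [KeyEst_Ac, hRm]
        ring
      rw [e, norm_neg]
      exact KeyEst_mul hP (hz2 k) (hy j)
  · have hind : ∀ i, ind (C := C) M (fun j : Fin m => R (Fin.last m) j.succ.castSucc /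
          (v0 - (p : ℚ_[p]) ^ r * c i * vl)) = 0 := by
      intro i
      simp only [ind]
      rw [if_neg]
      intro h
      apply hC
      intro j
      have := h j
      rwa [norm_div, hx i, div_one] at this
    rw [Finset.sum_eq_zero]
    · rw [norm_zero]
      exact hε.le
    · intro i _
      rw [hind i]
      simp

theorem KeyEst_case3 {m : ℕ} {η : ℚ_[p] →*₀ C} {φ : Matrix (Fin m) (Fin m) ℚ_[p] → C}
    {M : ℕ} (R : Matrix (Fin (m + 1)) (Fin (m + 2)) ℚ_[p]) (c : ℚ_[p])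
    (hc : ‖c‖ ≤ 1)
    (hvl : ‖R (Fin.last m) (Fin.last (m + 1))‖ < 1)
    (hv0 : ‖R (Fin.last m) 0‖ < 1) (hj : ∃ j : Fin m, ‖R (Fin.last m) j.succ.castSucc‖ = 1) :
      η (R (Fin.last m) 0 - c * R (Fin.last m) (Fin.last (m + 1))) *
        ind M (fun j : Fin m => R (Fin.last m) j.succ.castSucc /
          (R (Fin.last m) 0 - c * R (Fin.last m) (Fin.last (m + 1)))) *
        φ (KeyEst_Ac R c
          (R (Fin.last m) 0 - c * R (Fin.last m) (Fin.last (m + 1)))) = 0 := by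
  set x := R (Fin.last m) 0 - c * R (Fin.last m) (Fin.last (m + 1)) with hx
  by_cases hx0 : x = 0
  · rw [hx0]
    simp
  obtain ⟨j, hj⟩ := hj
  have hxn : 0 < ‖x‖ := norm_pos_iff.mpr hx0
  have hx1 : ‖x‖ < 1 := by
    rw [hx, sub_eq_add_neg]
    refine (IsUltrametricDist.norm_add_le_max _ _).trans_lt (max_lt hv0 ?_)
    rw [norm_neg, norm_mul]
    calc ‖c‖ * ‖R (Fin.last m) (Fin.last (m + 1))‖ ≤
        1 * ‖R (Fin.last m) (Fin.last (m + 1))‖ := mul_le_mul_of_nonneg_right hc (norm_nonneg _)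
      _ < 1 := by rw [one_mul]; exact hvl
  have : ind (C := C) M (fun j : Fin m => R (Fin.last m) j.succ.castSucc / x) = 0 := by
    apply KeyEst_ind_supp
    refine ⟨j, ?_⟩
    rw [norm_div, hj, one_lt_div hxn]
    exact hx1
  rw [this]
  simp

theorem key_est {m : ℕ} {χ : Fin (m + 1) → ℚ_[p] →*₀ C} (hχ : Small χ)
    {φ : Matrix (Fin m) (Fin m) ℚ_[p] → C} (hφ : φ ∈ PSM m m (fun i => χ i.castSucc))
    {n : ℕ} {c : Fin n → ℚ_[p]} {lam : Fin n → C} (hc : ∀ i, ‖c i‖ ≤ 1)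
    (hout : ∀ z : ℚ_[p], 1 < ‖z‖ → ∑ i, lam i * χ (Fin.last m) (z - c i) = 0)
    (hsum : ∑ i, lam i = 0) (r : ℕ) {ε : ℝ} (hε : 0 < ε) :
    ∃ M₀ : ℕ, ∀ M : ℕ, M₀ ≤ M → ∀ R : Matrix (Fin (m + 1)) (Fin (m + 2)) ℚ_[p], IntM R →
      ‖∑ i, ((χ (Fin.last m) (p : ℚ_[p])) ^ r)⁻¹ * lam i *
          Drop (Op (χ (Fin.last m)) (ind M) φ) (R * gc ((p : ℚ_[p]) ^ r * c i)) -
        Op (χ (Fin.last m)) (fun y => Gam (χ (Fin.last m)) c lam (scl r (M + r) y))
          (Drop φ) R‖ ≤ ε := by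
  obtain ⟨hη, hη1⟩ := hχ (Fin.last m)
  set η := χ (Fin.last m) with hη_def
  set L : ℝ := 1 + ∑ i, ‖((η (p : ℚ_[p])) ^ r)⁻¹ * lam i‖ with hL_def
  have hL : 0 < L := by positivity
  have hk : ∀ i, ‖((η (p : ℚ_[p])) ^ r)⁻¹ * lam i‖ ≤ L := by
    intro i
    have := Finset.single_le_sum (f := fun i => ‖((η (p : ℚ_[p])) ^ r)⁻¹ * lam i‖)
      (fun i _ => norm_nonneg _) (Finset.mem_univ i)
    rw [hL_def]
    linarith
  obtain ⟨M₀, hM₀⟩ := psm_unif hφ (ε := ε / L) (by positivity)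
  refine ⟨M₀, fun M hM R hR => ?_⟩
  have hu : ∀ R R' : Matrix (Fin m) (Fin m) ℚ_[p], IntM R → IntM R' →
      (∀ i j, ‖R i j - R' i j‖ ≤ (p : ℝ) ^ (-(M : ℤ))) → ‖φ R - φ R'‖ ≤ ε / L :=
    fun R R' h1 h2 h3 => hM₀ R R' h1 h2 fun i j => (h3 i j).trans (KeyEst_pow_anti hM)
  have hpc : ∀ i, ‖(p : ℚ_[p]) ^ r * c i‖ ≤ 1 := by
    intro i
    refine KeyEst_mul zero_le_one ?_ (hc i)
    rw [Padic.norm_p_pow]
    exact KeyEst_pow_le r
  have hF : (fun R : Matrix (Fin (m + 1)) (Fin (m + 2)) ℚ_[p] =>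
      ∑ i, ((η (p : ℚ_[p])) ^ r)⁻¹ * lam i *
          Drop (Op η (ind M) φ) (R * gc ((p : ℚ_[p]) ^ r * c i)) -
        Op η (fun y => Gam η c lam (scl r (M + r) y))
          (Drop φ) R) ∈ PSM (m + 1) (m + 2) χ := by
    refine Submodule.sub_mem _ (x := fun R : Matrix (Fin (m + 1)) (Fin (m + 2)) ℚ_[p] =>
      ∑ i, ((η (p : ℚ_[p])) ^ r)⁻¹ * lam i *
          Drop (Op η (ind M) φ) (R * gc ((p : ℚ_[p]) ^ r * c i)))
      (y := Op η (fun y => Gam η c lam (scl r (M + r) y)) (Drop φ)) ?_ ?_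
    · have e : (fun R : Matrix (Fin (m + 1)) (Fin (m + 2)) ℚ_[p] =>
          ∑ i, ((η (p : ℚ_[p])) ^ r)⁻¹ * lam i *
          Drop (Op η (ind M) φ) (R * gc ((p : ℚ_[p]) ^ r * c i))) =
          ∑ i, (((η (p : ℚ_[p])) ^ r)⁻¹ * lam i) •
          (fun R : Matrix (Fin (m + 1)) (Fin (m + 2)) ℚ_[p] =>
            Drop (Op η (ind M) φ) (R * gc ((p : ℚ_[p]) ^ r * c i))) := by
        funext R
        simp only [Finset.sum_apply, Pi.smul_apply, smul_eq_mul]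
      have hmem : (∑ i, (((η (p : ℚ_[p])) ^ r)⁻¹ * lam i) •
          (fun R : Matrix (Fin (m + 1)) (Fin (m + 2)) ℚ_[p] =>
            Drop (Op η (ind M) φ) (R * gc ((p : ℚ_[p]) ^ r * c i)))) ∈
            PSM (m + 1) (m + 2) χ :=
        Submodule.sum_mem _ fun i _ => Submodule.smul_mem _ _
          (psm_right (drop_mem (op_mem hχ (continuous_ind M)
            (fun y hy => KeyEst_ind_supp M y hy) hφ)) _)
      rw [← e] at hmem
      exact hmem
    · exact op_mem hχ ((Gam_continuous hη c lam).comp (continuous_scl r (M + r)))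
        (fun y hy => Gam_supp hc hout (scl_supp r (M + r) hy)) (drop_mem hφ)
  refine psm_prim hχ hF hε.le ?_ R hR
  clear hR R
  intro R hR hprim
  have hleft : ∀ i, Drop (Op η (ind M) φ) (R * gc ((p : ℚ_[p]) ^ r * c i)) =
      η (R (Fin.last m) 0 - (p : ℚ_[p]) ^ r * c i * R (Fin.last m) (Fin.last (m + 1))) *
        ind M (fun j : Fin m => R (Fin.last m) j.succ.castSucc /
          (R (Fin.last m) 0 - (p : ℚ_[p]) ^ r * c i * R (Fin.last m) (Fin.last (m + 1)))) *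
        φ (KeyEst_Ac R ((p : ℚ_[p]) ^ r * c i)
          (R (Fin.last m) 0 - (p : ℚ_[p]) ^ r * c i *
            R (Fin.last m) (Fin.last (m + 1)))) := fun i =>
    KeyEst_left η M φ _ R _ _ rfl (fun k => mul_gc_last R _ k) (fun k j => mul_gc_mid R _ k j)
  have hsl : (∑ i, ((η (p : ℚ_[p])) ^ r)⁻¹ * lam i *
          Drop (Op η (ind M) φ) (R * gc ((p : ℚ_[p]) ^ r * c i))) =
      ∑ i, ((η (p : ℚ_[p])) ^ r)⁻¹ * lam i *
      (η (R (Fin.last m) 0 - (p : ℚ_[p]) ^ r * c i * R (Fin.last m) (Fin.last (m + 1))) *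
        ind M (fun j : Fin m => R (Fin.last m) j.succ.castSucc /
          (R (Fin.last m) 0 - (p : ℚ_[p]) ^ r * c i * R (Fin.last m) (Fin.last (m + 1)))) *
        φ (KeyEst_Ac R ((p : ℚ_[p]) ^ r * c i)
          (R (Fin.last m) 0 - (p : ℚ_[p]) ^ r * c i *
            R (Fin.last m) (Fin.last (m + 1))))) :=
    Finset.sum_congr rfl fun i _ => by rw [hleft i]
  rw [hsl]
  by_cases hvl : ‖R (Fin.last m) (Fin.last (m + 1))‖ = 1
  · have hvl0 : R (Fin.last m) (Fin.last (m + 1)) ≠ 0 := by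
      intro h
      rw [h, norm_zero] at hvl
      exact zero_ne_one hvl
    have hright : Op η (fun y => Gam η c lam (scl r (M + r) y)) (Drop φ) R =
        ∑ i, η (R (Fin.last m) (Fin.last (m + 1))) *
          (lam i * (if ∀ j : Fin m, ‖R (Fin.last m) j.succ.castSucc /
            R (Fin.last m) (Fin.last (m + 1)) / (p : ℚ_[p]) ^ (M + r)‖ ≤
            ‖R (Fin.last m) 0 / R (Fin.last m) (Fin.last (m + 1)) / (p : ℚ_[p]) ^ r - c i‖
            then η (R (Fin.last m) 0 / R (Fin.last m) (Fin.last (m + 1)) / (p : ℚ_[p]) ^ r - c i)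
            else 0)) * φ (KeyEst_A R) := by
      rw [KeyEst_right, ← Finset.sum_mul, ← Finset.mul_sum]
      rfl
    rw [hright, ← Finset.sum_sub_distrib]
    refine IsUltrametricDist.norm_sum_le_of_forall_le_of_nonneg hε.le fun i _ => ?_
    rw [KeyEst_term η M r _ (R (Fin.last m) 0) _ _ (c i) _ (lam i) hvl0 rfl rfl]
    exact KeyEst_case1 hη hη1 hε hL hu R hR hvl (c i) (hc i) (lam i) (hk i) _ rfl
  · have hvl1 : ‖R (Fin.last m) (Fin.last (m + 1))‖ < 1 := lt_of_le_of_ne (hR _ _) hvl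
    have hright : Op η (fun y => Gam η c lam (scl r (M + r) y)) (Drop φ) R = 0 := by
      rw [KeyEst_right]
      by_cases h0 : R (Fin.last m) (Fin.last (m + 1)) = 0
      · rw [h0]
        simp
      · obtain ⟨j, hj⟩ := hprim
        have : Gam η c lam (scl r (M + r) (ratio R)) = 0 := by
          refine Gam_supp hc hout (scl_supp r (M + r) ?_)
          induction j using Fin.lastCases with
          | last => exact absurd hj hvl
          | cast j =>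
            refine ⟨j, ?_⟩
            simp only [ratio]
            rw [norm_div, hj, one_lt_div (norm_pos_iff.mpr h0)]
            exact hvl1
        rw [this]
        simp
    rw [hright, sub_zero]
    by_cases hv0 : ‖R (Fin.last m) 0‖ = 1
    · exact KeyEst_case2 hη hη1 hc hout hsum hε hL hu hk R hR hvl1 hv0
    · have hv1 : ‖R (Fin.last m) 0‖ < 1 := lt_of_le_of_ne (hR _ _) hv0
      rw [Finset.sum_eq_zero]
      · rw [norm_zero]
        exact hε.le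
      · intro i _
        rw [KeyEst_case3 R ((p : ℚ_[p]) ^ r * c i) (hpc i) hvl1 hv1, mul_zero]
        obtain ⟨j, hj⟩ := hprim
        induction j using Fin.lastCases with
        | last => exact absurd hj hvl
        | cast j =>
          induction j using Fin.cases with
          | zero => exact absurd hj hv0
          | succ j => exact ⟨j, hj⟩

end

end Pool.Agent.Lib.MP_f399a8_nt
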