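import Pool.Agent.Lib.MP_f399a8_nt.BasA

/-!
# Locally algebraic characters of non-negative weight satisfy `Loc`

PROOF.  `h ≥ 1` with `η x = x ^ k` whenever `‖x - 1‖ ≤ p ^ (-h)`.  Take `n = k + 2`,
`c i = i * p ^ (h - 1)`, `lam i = (-1) ^ i * (k + 1).choose i`, `i = 0, …, k + 1`.
`∑ lam i = (1 - 1) ^ (k + 1) = 0`.
If `1 < ‖z‖` then `‖z‖ ≥ p`, `‖c i / z‖ ≤ p ^ (-h)`, so
`η (z - c i) = η z * η (1 - c i / z) = η z * (1 - i * (p ^ (h - 1) / z)) ^ k` and
`∑ i, (-1) ^ i (k+1).choose i * (1 - i t) ^ k = 0` (finite differences of a polynomial of degree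
`k`; `Finset.sum_...`, `fwdDiff_iter_...`, `Polynomial`, or `Finset.inclusion_exclusion`; in Mathlib
`fwdDiff_iter_pow_eq_zero_of_lt` or similar).
Suppose `∑ i, lam i * η (z - c i) = 0` for all `‖z‖ ≤ 1`, hence for all `z`.  With
`z = - δ y`, `δ = p ^ (h - 1)`: `∑ i, lam i * η (y + i) = 0` for all `y` (divide by `η (-δ) ≠ 0`).
So the `(k+1)`-th difference of `n ↦ η n` on `ℕ` vanishes and there is a polynomial `P` over `C`
with `η n = P n` for all `n : ℕ` (Newton interpolation `shift_eq_sum_fwdDiff_iter`).  By continuity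
and density of `ℕ` in `ℤ_p`, `η x = P (x)` for `‖x‖ ≤ 1`.  From `η (p x) = η p * η x`:
`P (p x) = η p * P x` for infinitely many `x`, so coefficientwise `a_j p ^ j = η p * a_j`; as the
`p ^ j` are pairwise distinct in `C`, `P = a x ^ l`, and `a = P 1 = η 1 = 1`.  So `η x = x ^ l` for
`‖x‖ ≤ 1`, and for all `x ≠ 0` by multiplying with a power of `p`.  Contradiction to `hne`.
-/

namespace Pool.Agent.Lib.MP_f399a8_nt

noncomputable section

variable {p : ℕ} [Fact p.Prime] {C : Type*} [NormedField C] [NormedAlgebra ℚ_[p] C]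

/-- finite differences of a polynomial of small degree -/
theorem LocAlg_sum {K : Type*} [Field K] (k : ℕ) (t : K) :
    ∑ i ∈ Finset.range (k + 2), (((-1 : ℤ) ^ (k + 1 - i) * ((k + 1).choose i : ℕ) : ℤ) : K) *
      (1 - (i : K) * t) ^ k = 0 := by
  have h0 : (((1 : Polynomial K) - Polynomial.C t * Polynomial.X) ^ k).natDegree < k + 1 := by
    have h1 : ((1 : Polynomial K) - Polynomial.C t * Polynomial.X).natDegree ≤ 1 := by
      refine (Polynomial.natDegree_sub_le _ _).trans ?_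
      simp only [Polynomial.natDegree_one, Nat.zero_le, sup_of_le_right]
      exact (Polynomial.natDegree_C_mul_le t Polynomial.X).trans (Polynomial.natDegree_X_le)
    have h2 := Polynomial.natDegree_pow_le (p := (1 : Polynomial K) - Polynomial.C t * Polynomial.X)
      (n := k)
    have h3 : k * ((1 : Polynomial K) - Polynomial.C t * Polynomial.X).natDegree ≤ k * 1 :=
      Nat.mul_le_mul_left k h1
    omega
  have h1 := congrFun (Polynomial.fwdDiff_iter_eq_zero_of_degree_lt h0) 0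
  rw [fwdDiff_iter_eq_sum_shift] at h1
  simp only [zero_add, nsmul_eq_mul, mul_one, Polynomial.eval_pow, Polynomial.eval_sub,
    Polynomial.eval_one, Polynomial.eval_mul, Polynomial.eval_C, Polynomial.eval_X,
    zsmul_eq_mul, Pi.zero_apply] at h1
  rw [← h1]
  refine Finset.sum_congr rfl fun i _ => ?_
  rw [mul_comm t]

/-- a polynomial which is multiplicative on the natural numbers is a power of the variable -/
theorem LocAlg_mulPoly {K : Type*} [Field K] [CharZero K] (P : Polynomial K)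
    (h1 : P.eval 1 = 1) (hm : ∀ m n : ℕ, P.eval ((m * n : ℕ) : K) = P.eval (m : K) * P.eval (n : K)) :
    ∃ l : ℕ, P = Polynomial.X ^ l := by
  have hP0 : P ≠ 0 := by
    rintro rfl
    simp at h1
  have h2 : P.comp (Polynomial.C ((2 : ℕ) : K) * Polynomial.X) =
      Polynomial.C (P.eval ((2 : ℕ) : K)) * P := by
    refine Polynomial.eq_of_infinite_eval_eq _ _ (Set.Infinite.mono ?_
      (Set.infinite_range_of_injective (Nat.cast_injective (R := K))))
    rintro _ ⟨n, rfl⟩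
    show Polynomial.eval (n : K) _ = Polynomial.eval (n : K) _
    rw [Polynomial.eval_comp, Polynomial.eval_mul, Polynomial.eval_C, Polynomial.eval_X,
      Polynomial.eval_mul, Polynomial.eval_C, ← hm, Nat.cast_mul]
  have h3 : ∀ j, P.coeff j * ((2 : ℕ) : K) ^ j = P.eval ((2 : ℕ) : K) * P.coeff j := by
    intro j
    have := congrArg (fun Q => Polynomial.coeff Q j) h2
    simpa only [Polynomial.comp_C_mul_X_coeff, Polynomial.coeff_C_mul] using this
  have hl : P.coeff P.natDegree ≠ 0 := by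
    rw [Polynomial.coeff_natDegree, Ne, Polynomial.leadingCoeff_eq_zero]
    exact hP0
  have h4 : ((2 : ℕ) : K) ^ P.natDegree = P.eval ((2 : ℕ) : K) := by
    have := h3 P.natDegree
    rw [mul_comm] at this
    exact mul_right_cancel₀ hl this
  have h5 : ∀ j, j ≠ P.natDegree → P.coeff j = 0 := by
    intro j hj
    by_contra hc
    have h6 := h3 j
    rw [mul_comm] at h6
    have h7 := mul_right_cancel₀ hc h6
    rw [← h4] at h7
    have h8 : (2 : ℕ) ^ j = 2 ^ P.natDegree := by exact_mod_cast h7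
    exact hj (Nat.pow_right_injective (le_refl 2) h8)
  have h6 : P = Polynomial.C (P.coeff P.natDegree) * Polynomial.X ^ P.natDegree := by
    ext j
    rw [Polynomial.coeff_C_mul, Polynomial.coeff_X_pow]
    by_cases hj : j = P.natDegree
    · rw [if_pos hj, hj, mul_one]
    · rw [if_neg hj, mul_zero, h5 j hj]
  have h7 : P.coeff P.natDegree = 1 := by
    have h8 := h1
    rw [h6] at h8
    simpa using h8
  exact ⟨P.natDegree, by rw [h7, map_one, one_mul] at h6; exact h6⟩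

/-- a function whose iterated difference vanishes is a polynomial on the natural numbers -/
theorem LocAlg_newton {K : Type*} [Field K] [CharZero K] {M : Type*} [Ring M] (f : M → K) (k : ℕ)
    (h : (fwdDiff (1 : M))^[k + 1] f = 0) :
    ∃ P : Polynomial K, ∀ n : ℕ, f (n : M) = P.eval (n : K) := by
  have hz : ∀ j, k + 1 ≤ j → (fwdDiff (1 : M))^[j] f = 0 := by
    intro j hj
    obtain ⟨i, rfl⟩ := Nat.exists_eq_add_of_le hj
    rw [add_comm, Function.iterate_add_apply, h]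
    clear hj
    induction i with
    | zero => rfl
    | succ i ih =>
      rw [Function.iterate_succ_apply', ih]
      funext x
      simp [fwdDiff]
  refine ⟨∑ j ∈ Finset.range (k + 1), Polynomial.C ((fwdDiff (1 : M))^[j] f 0 / (j.factorial : K)) *
    descPochhammer K j, fun n => ?_⟩
  have h1 := shift_eq_sum_fwdDiff_iter (1 : M) f n 0
  rw [zero_add, nsmul_eq_mul, mul_one] at h1
  rw [h1, Polynomial.eval_finsetSum]
  have h2 : ∀ j, n.choose j • (fwdDiff (1 : M))^[j] f 0 = (Polynomial.C ((fwdDiff (1 : M))^[j] f 0 / (j.factorial : K)) *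
      descPochhammer K j).eval (n : K) := by
    intro j
    rw [Polynomial.eval_mul, Polynomial.eval_C, nsmul_eq_mul, Nat.cast_choose_eq_descPochhammer_div]
    ring
  simp only [← h2]
  have h3 : ∑ j ∈ Finset.range (n + 1), n.choose j • (fwdDiff (1 : M))^[j] f 0 =
      ∑ j ∈ Finset.range (n + 1 + (k + 1)), n.choose j • (fwdDiff (1 : M))^[j] f 0 := by
    refine Finset.sum_subset (Finset.range_mono (by omega)) fun j _ hj => ?_
    rw [Finset.mem_range, not_lt] at hj
    rw [Nat.choose_eq_zero_of_lt (by omega), zero_smul]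
  have h4 : ∑ j ∈ Finset.range (k + 1), n.choose j • (fwdDiff (1 : M))^[j] f 0 =
      ∑ j ∈ Finset.range (n + 1 + (k + 1)), n.choose j • (fwdDiff (1 : M))^[j] f 0 := by
    refine Finset.sum_subset (Finset.range_mono (by omega)) fun j _ hj => ?_
    rw [Finset.mem_range, not_lt] at hj
    rw [hz j hj, Pi.zero_apply, smul_zero]
  rw [h3, h4]

theorem LocAlg_norm_ge {z : ℚ_[p]} (hz : 1 < ‖z‖) : (p : ℝ) ≤ ‖z‖ := by
  have hp : (1 : ℝ) < p := by exact_mod_cast (Fact.out : p.Prime).one_lt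
  have hz0 : z ≠ 0 := by
    rintro rfl
    rw [norm_zero] at hz
    linarith
  rw [Padic.norm_eq_zpow_neg_valuation hz0] at hz ⊢
  have h1 : 0 < -z.valuation := (one_lt_zpow_iff_right₀ hp).1 hz
  have h2 : (p : ℝ) ^ (1 : ℤ) ≤ (p : ℝ) ^ (-z.valuation) := zpow_le_zpow_right₀ hp.le (by omega)
  rwa [zpow_one] at h2

/-- a character which is a power on the natural numbers is a power -/
theorem LocAlg_dense {η : ℚ_[p] →*₀ C} (hη : Continuous η) (l : ℕ)
    (h : ∀ n : ℕ, η (n : ℚ_[p]) = (n : C) ^ l) :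
    ∀ x : ℚ_[p], η x = (algebraMap ℚ_[p] C x) ^ l := by
  have h1 : (fun x : ℤ_[p] => η (x : ℚ_[p])) = fun x : ℤ_[p] => (algebraMap ℚ_[p] C x) ^ l := by
    refine PadicInt.denseRange_natCast.equalizer (hη.comp continuous_subtype_val)
      (((continuous_algebraMap ℚ_[p] C).comp continuous_subtype_val).pow l) ?_
    funext n
    simp only [Function.comp_apply, PadicInt.coe_natCast, map_natCast]
    exact h n
  intro x
  rcases le_or_gt ‖x‖ 1 with hx | hx
  · exact congrFun h1 ⟨x, hx⟩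
  · have hx0 : x ≠ 0 := by
      rintro rfl
      rw [norm_zero] at hx
      linarith
    have h2 : ‖x⁻¹‖ ≤ 1 := by
      rw [norm_inv]
      exact inv_le_one_of_one_le₀ hx.le
    have h3 : η x⁻¹ = (algebraMap ℚ_[p] C x⁻¹) ^ l := congrFun h1 ⟨x⁻¹, h2⟩
    rw [map_inv₀, map_inv₀, inv_pow] at h3
    exact inv_injective h3

theorem loc_of_locAlg {η : ℚ_[p] →*₀ C} (hη : Continuous η) (h1 : ‖η (p : ℚ_[p])‖ < 1) (k : ℕ)
    (hk : ∃ h : ℕ, ∀ x : ℚ_[p], ‖x - 1‖ ≤ (p : ℝ) ^ (-(h : ℤ)) →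
      η x = (algebraMap ℚ_[p] C x) ^ k)
    (hne : ¬ ∃ l : ℕ, ∀ x : ℚ_[p], x ≠ 0 → η x = (algebraMap ℚ_[p] C x) ^ l) : Loc η := by
  classical
  obtain ⟨h0, hk0⟩ := hk
  have hp : (1 : ℝ) < p := by exact_mod_cast (Fact.out : p.Prime).one_lt
  have : CharZero C := charZero_of_injective_algebraMap (algebraMap ℚ_[p] C).injective
  -- replace `h0` by `h + 1`
  set h : ℕ := h0 with hh
  have hk' : ∀ x : ℚ_[p], ‖x - 1‖ ≤ (p : ℝ) ^ (-((h + 1 : ℕ) : ℤ)) →
      η x = (algebraMap ℚ_[p] C x) ^ k := by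
    intro x hx
    refine hk0 x (hx.trans (zpow_le_zpow_right₀ hp.le ?_))
    push_cast
    omega
  have hδ0 : ((p : ℚ_[p]) ^ h) ≠ 0 :=
    pow_ne_zero _ (by exact_mod_cast (Fact.out : p.Prime).ne_zero)
  have hδ : ‖(p : ℚ_[p]) ^ h‖ = (p : ℝ) ^ (-(h : ℤ)) := by
    rw [Padic.norm_p_pow]
  have hδ1 : ‖(p : ℚ_[p]) ^ h‖ ≤ 1 := by
    rw [hδ]
    exact zpow_le_one_of_nonpos₀ hp.le (by omega)
  have hnat : ∀ i : ℕ, ‖(i : ℚ_[p])‖ ≤ 1 := fun i => by
    have := Padic.norm_int_le_one (p := p) (i : ℤ)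
    rwa [Int.cast_natCast] at this
  let lam : ℕ → C := fun i => (((-1 : ℤ) ^ (k + 1 - i) * ((k + 1).choose i : ℕ) : ℤ) : C)
  by_contra hL
  have hsum0 : ∑ i : Fin (k + 2), lam i = 0 := by
    have h1 := LocAlg_sum k (0 : C)
    simp only [mul_zero, sub_zero, one_pow, mul_one] at h1
    rw [Fin.sum_univ_eq_sum_range (fun i => lam i) (k + 2)]
    exact h1
  have hbig : ∀ z : ℚ_[p], 1 < ‖z‖ →
      ∑ i : Fin (k + 2), lam i * η (z - (i : ℕ) * (p : ℚ_[p]) ^ h) = 0 := by
    intro z hz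
    have hz0 : z ≠ 0 := by
      rintro rfl
      rw [norm_zero] at hz
      linarith
    have h1 : ∀ i : ℕ, η (z - (i : ℕ) * (p : ℚ_[p]) ^ h) =
        η z * (1 - (i : C) * algebraMap ℚ_[p] C ((p : ℚ_[p]) ^ h / z)) ^ k := by
      intro i
      have h2 : z - (i : ℕ) * (p : ℚ_[p]) ^ h = z * (1 - i * ((p : ℚ_[p]) ^ h / z)) := by
        field_simp
      have h8 : ‖(1 : ℚ_[p]) - i * ((p : ℚ_[p]) ^ h / z) - 1‖ ≤
          (p : ℝ) ^ (-((h + 1 : ℕ) : ℤ)) := by
        have h3 : (1 : ℚ_[p]) - i * ((p : ℚ_[p]) ^ h / z) - 1 = -(i * ((p : ℚ_[p]) ^ h / z)) := by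
          ring
        rw [h3, norm_neg, norm_mul, norm_div, hδ]
        have h4 : (p : ℝ) ^ (-(h : ℤ)) / ‖z‖ ≤ (p : ℝ) ^ (-((h + 1 : ℕ) : ℤ)) := by
          rw [div_le_iff₀ (by linarith)]
          have h5 : (p : ℝ) ^ (-(h : ℤ)) = (p : ℝ) ^ (-((h + 1 : ℕ) : ℤ)) * p := by
            rw [← zpow_add_one₀ (by linarith)]
            congr 1
            push_cast
            ring
          rw [h5]
          exact mul_le_mul_of_nonneg_left (LocAlg_norm_ge hz) (by positivity)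
        calc ‖(i : ℚ_[p])‖ * ((p : ℝ) ^ (-(h : ℤ)) / ‖z‖) ≤
            1 * ((p : ℝ) ^ (-((h + 1 : ℕ) : ℤ))) :=
              mul_le_mul (hnat i) h4 (by positivity) zero_le_one
          _ = _ := one_mul _
      rw [h2, map_mul, hk' _ h8, map_sub, map_one, map_mul, map_natCast]
    have h6 := LocAlg_sum k (algebraMap ℚ_[p] C ((p : ℚ_[p]) ^ h / z))
    rw [Fin.sum_univ_eq_sum_range (fun i => lam i * η (z - (i : ℕ) * (p : ℚ_[p]) ^ h)) (k + 2)]
    have h7 : ∑ i ∈ Finset.range (k + 2), lam i * η (z - (i : ℕ) * (p : ℚ_[p]) ^ h) =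
        η z * ∑ i ∈ Finset.range (k + 2),
          (((-1 : ℤ) ^ (k + 1 - i) * ((k + 1).choose i : ℕ) : ℤ) : C) *
            (1 - (i : C) * algebraMap ℚ_[p] C ((p : ℚ_[p]) ^ h / z)) ^ k := by
      rw [Finset.mul_sum]
      refine Finset.sum_congr rfl fun i _ => ?_
      rw [h1 i]
      ring
    rw [h7, h6, mul_zero]
  have hall : ∀ z : ℚ_[p],
      ∑ i : Fin (k + 2), lam i * η (z - (i : ℕ) * (p : ℚ_[p]) ^ h) = 0 := by
    intro z
    by_contra hz
    rcases le_or_gt ‖z‖ 1 with hz1 | hz1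
    · refine hL ⟨k + 2, fun i => (i : ℕ) * (p : ℚ_[p]) ^ h, fun i => lam i, fun i => ?_, hbig,
        hsum0, z, hz1, hz⟩
      rw [norm_mul]
      exact mul_le_one₀ (hnat _) (norm_nonneg _) hδ1
    · exact hz (hbig z hz1)
  have hdiff : (fwdDiff (1 : ℚ_[p]))^[k + 1] (η : ℚ_[p] → C) = 0 := by
    funext y
    rw [fwdDiff_iter_eq_sum_shift, Pi.zero_apply]
    have h1 := hall (-(p : ℚ_[p]) ^ h * y)
    rw [Fin.sum_univ_eq_sum_range
      (fun i => lam i * η (-(p : ℚ_[p]) ^ h * y - (i : ℕ) * (p : ℚ_[p]) ^ h)) (k + 2)] at h1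
    have h2 : ∑ i ∈ Finset.range (k + 2),
        lam i * η (-(p : ℚ_[p]) ^ h * y - (i : ℕ) * (p : ℚ_[p]) ^ h) =
        η (-(p : ℚ_[p]) ^ h) * ∑ i ∈ Finset.range (k + 1 + 1),
          ((-1 : ℤ) ^ (k + 1 - i) * (k + 1).choose i) • η (y + i • 1) := by
      rw [Finset.mul_sum]
      refine Finset.sum_congr rfl fun i _ => ?_
      have h3 : -(p : ℚ_[p]) ^ h * y - (i : ℕ) * (p : ℚ_[p]) ^ h =
          -(p : ℚ_[p]) ^ h * (y + i • 1) := by
        rw [nsmul_eq_mul, mul_one]
        ring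
      rw [h3, map_mul, zsmul_eq_mul]
      simp only [lam]
      ring
    rw [h2] at h1
    rcases mul_eq_zero.1 h1 with h3 | h3
    · exfalso
      rw [map_eq_zero] at h3
      exact hδ0 (neg_eq_zero.1 h3)
    · exact h3
  obtain ⟨P, hP⟩ := LocAlg_newton (η : ℚ_[p] → C) k hdiff
  obtain ⟨l, hl⟩ := LocAlg_mulPoly P (by
      have := hP 1
      rw [Nat.cast_one, map_one, Nat.cast_one] at this
      exact this.symm) (fun m n => by
      rw [← hP, ← hP, ← hP, Nat.cast_mul, map_mul])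
  refine hne ⟨l, fun x _ => LocAlg_dense hη l (fun n => ?_) x⟩
  rw [hP n, hl, Polynomial.eval_pow, Polynomial.eval_X]

end

end Pool.Agent.Lib.MP_f399a8_nt
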