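import Pool.Agent.Lib.MP_f399a8_nt.BasA

/-!
# Irreducibility for `m × (m + 1)` matrices from irreducibility for `GL_m`

PROOFS.
`contract`: let `f ∈ W`, `J = diagonal (0, 1, …, 1)`.  For `k : ℕ` let
`g_k = diagonal (p ^ (m k), p ^ (-k), …, p ^ (-k))`, `det g_k = 1`, and
`R * diagonal (p ^ ((m + 1) k), 1, …, 1) = p ^ k • (R * g_k)`.  Row scalings give
`f (p ^ k • S) = (∏ i, χ i p) ^ k * f S`, so `R ↦ f (R * diagonal (p ^ ((m + 1) k), 1, …, 1))` is in
`W`; as `k → ∞` it converges to `f (R * J)` uniformly on integral `R` (`psm_unif`).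
`f (R * J) = Drop (ins f) R`.
`exists_move`: let `f ∈ W`, `f R ≠ 0`, `R : m × (m + 1)`.  There is `x ≠ 0` with `R *ᵥ x = 0`
(more columns than rows) and `g` with `det g = 1` and first column a multiple of `x`: take
`x i₀ ≠ 0`; e.g. `g₁ = (1 : Matrix).updateCol i₀ x` (determinant `x i₀`, `Matrix.cramer_one`) times
the permutation matrix of `swap 0 i₀`, with one column rescaled (the first one; multiples of `x` are
fine) to have determinant `1`.  Then `R * g` has first column `0` and `f' := f (· * g⁻¹)` satisfies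
`f' ∈ W`, `f' (R * g) = f R ≠ 0`, and `R * g = insM A` for a square matrix `A`.
`main_step`: `Y := {φ ∈ PSM m m χ | Drop φ ∈ W}`; closed (integral `R` gives integral
`R.submatrix id succ`), stable under `GL_m`: for `h` with `det h ≠ 0` let
`g = fromBlocks`-like matrix with `g 0 0 = (det h)⁻¹`, `g i.succ j.succ = h i j`, other entries `0`:
`det g = 1` and `Drop (φ (· * h)) R = Drop φ (R * g)`; nonzero by `contract` and `exists_move`
(`ins f' ∈ Y`, nonzero).  So `Y = PSM m m χ` by `Irr`, and `astar` applies (`KStab W` from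
`det (transvection) = 1`, `Matrix.det_transvection_of_ne`).
-/

namespace Pool.Agent.Lib.MP_f399a8_nt

open Matrix

noncomputable section

variable {p : ℕ} [Fact p.Prime] {C : Type*} [NormedField C]

/-- insert a zero column at the beginning -/
def insM {m : ℕ} (A : Matrix (Fin m) (Fin m) ℚ_[p]) : Matrix (Fin m) (Fin (m + 1)) ℚ_[p] :=
  fun i => Fin.cons 0 (A i)

theorem MSA_insM_zero {m : ℕ} (A : Matrix (Fin m) (Fin m) ℚ_[p]) (i : Fin m) : insM A i 0 = 0 := rfl

theorem MSA_insM_succ {m : ℕ} (A : Matrix (Fin m) (Fin m) ℚ_[p]) (i j : Fin m) :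
    insM A i j.succ = A i j := rfl

theorem MSA_mul_insM {m : ℕ} (A : Matrix (Fin m) (Fin m) ℚ_[p]) :
    A * insM (1 : Matrix (Fin m) (Fin m) ℚ_[p]) = insM A := by
  ext i j
  rw [Matrix.mul_apply]
  refine Fin.cases ?_ (fun j => ?_) j
  · simp only [MSA_insM_zero, mul_zero, Finset.sum_const_zero]
  · simp only [MSA_insM_succ]
    rw [← Matrix.mul_apply, Matrix.mul_one]

theorem ins_mem {m : ℕ} {χ : Fin m → ℚ_[p] →*₀ C}
    {f : Matrix (Fin m) (Fin (m + 1)) ℚ_[p] → C} (hf : f ∈ PSM m (m + 1) χ) :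
    (fun A : Matrix (Fin m) (Fin m) ℚ_[p] => f (insM A)) ∈ PSM m m χ := by
  have h := psm_right hf (insM (1 : Matrix (Fin m) (Fin m) ℚ_[p]))
  simp only [MSA_mul_insM] at h
  exact h

theorem MSA_smul {m N : ℕ} {χ : Fin m → ℚ_[p] →*₀ C}
    {f : Matrix (Fin m) (Fin N) ℚ_[p] → C} (hf : f ∈ PSM m N χ) (c : ℚ_[p])
    (S : Matrix (Fin m) (Fin N) ℚ_[p]) : f (c • S) = (∏ i, χ i c) * f S := by
  classical
  have key : ∀ s : Finset (Fin m),
      f (Matrix.of (fun i j => if i ∈ s then c * S i j else S i j)) = (∏ i ∈ s, χ i c) * f S := by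
    intro s
    induction s using Finset.induction_on with
    | empty =>
      rw [Finset.prod_empty, one_mul]
      congr 1
    | insert a s ha ih =>
      rw [Finset.prod_insert ha, mul_assoc, ← ih]
      rw [← hf.2.1 (Matrix.of (fun i j => if i ∈ s then c * S i j else S i j)) a c]
      congr 1
      ext i j
      rw [Matrix.updateRow_apply]
      by_cases h : i = a
      · subst h
        simp [ha]
      · simp [h, Finset.mem_insert]
  rw [← key Finset.univ]
  congr 1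
  ext i j
  simp

theorem MSA_drop_ins {m : ℕ} (f : Matrix (Fin m) (Fin (m + 1)) ℚ_[p] → C)
    (R : Matrix (Fin m) (Fin (m + 1)) ℚ_[p]) :
    Drop (fun A : Matrix (Fin m) (Fin m) ℚ_[p] => f (insM A)) R =
      f (insM (R.submatrix id Fin.succ)) := rfl

theorem contract {m : ℕ} {χ : Fin m → ℚ_[p] →*₀ C} (hχ : Small χ)
    {W : Submodule C (Matrix (Fin m) (Fin (m + 1)) ℚ_[p] → C)} (hW : W ≤ PSM m (m + 1) χ)
    (hcl : ClosedU χ W)
    (hst : ∀ f ∈ W, ∀ g : Matrix (Fin (m + 1)) (Fin (m + 1)) ℚ_[p], g.det = 1 →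
      (fun R : Matrix (Fin m) (Fin (m + 1)) ℚ_[p] => f (R * g)) ∈ W)
    {f : Matrix (Fin m) (Fin (m + 1)) ℚ_[p] → C} (hf : f ∈ W) :
    Drop (fun A : Matrix (Fin m) (Fin m) ℚ_[p] => f (insM A)) ∈ W := by
  refine hcl _ (drop_mem (ins_mem (hW hf))) ?_
  intro ε hε
  obtain ⟨k, hk⟩ := psm_unif (hW hf) hε
  have hp0 : (p : ℚ_[p]) ≠ 0 := by exact_mod_cast (Fact.out : p.Prime).ne_zero
  have hp1 : (1 : ℝ) ≤ (p : ℝ) := by exact_mod_cast (Fact.out : p.Prime).one_lt.le
  have hq : ‖(p : ℚ_[p])‖ ≤ 1 := by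
    rw [Padic.norm_p]
    exact inv_le_one_of_one_le₀ hp1
  let d : Fin (m + 1) → ℚ_[p] := Fin.cons ((p : ℚ_[p]) ^ ((m + 1) * k)) (fun _ => 1)
  let e : Fin (m + 1) → ℚ_[p] := Fin.cons ((p : ℚ_[p]) ^ (m * k)) (fun _ => ((p : ℚ_[p]) ^ k)⁻¹)
  have hdet : (Matrix.diagonal e).det = 1 := by
    rw [Matrix.det_diagonal, Fin.prod_univ_succ]
    simp only [e, Fin.cons_zero, Fin.cons_succ, Finset.prod_const, Finset.card_univ,
      Fintype.card_fin]
    rw [inv_pow, ← pow_mul, mul_comm k m]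
    exact mul_inv_cancel₀ (pow_ne_zero _ hp0)
  have hde : ∀ j, d j = (p : ℚ_[p]) ^ k * e j := by
    intro j
    refine Fin.cases ?_ (fun j => ?_) j
    · simp only [d, e, Fin.cons_zero]
      rw [← pow_add]
      congr 1
      ring
    · simp only [d, e, Fin.cons_succ]
      rw [mul_inv_cancel₀ (pow_ne_zero _ hp0)]
  have hmul : ∀ R : Matrix (Fin m) (Fin (m + 1)) ℚ_[p],
      R * Matrix.diagonal d = ((p : ℚ_[p]) ^ k) • (R * Matrix.diagonal e) := by
    intro R
    ext i j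
    rw [Matrix.mul_diagonal, Matrix.smul_apply, Matrix.mul_diagonal, hde, smul_eq_mul]
    ring
  refine ⟨fun R => f (R * Matrix.diagonal d), ?_, ?_⟩
  · have h1 : (fun R : Matrix (Fin m) (Fin (m + 1)) ℚ_[p] => f (R * Matrix.diagonal d)) =
        (∏ i, χ i ((p : ℚ_[p]) ^ k)) •
          (fun R : Matrix (Fin m) (Fin (m + 1)) ℚ_[p] => f (R * Matrix.diagonal e)) := by
      funext R
      rw [Pi.smul_apply, smul_eq_mul, hmul, MSA_smul (hW hf)]
    rw [h1]
    exact W.smul_mem _ (hst f hf _ hdet)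
  · intro R hR
    rw [MSA_drop_ins]
    have hd : ∀ j, ‖d j‖ ≤ 1 := by
      intro j
      refine Fin.cases ?_ (fun j => ?_) j
      · simp only [d, Fin.cons_zero]
        rw [norm_pow]
        exact pow_le_one₀ (norm_nonneg _) hq
      · simp only [d, Fin.cons_succ]
        rw [norm_one]
    refine hk _ _ ?_ ?_ ?_
    · intro i j
      refine Fin.cases ?_ (fun j => ?_) j
      · rw [MSA_insM_zero, norm_zero]
        exact zero_le_one
      · rw [MSA_insM_succ]
        exact hR _ _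
    · intro i j
      rw [Matrix.mul_diagonal, norm_mul]
      exact mul_le_one₀ (hR i j) (norm_nonneg _) (hd j)
    · intro i j
      rw [Matrix.mul_diagonal]
      refine Fin.cases ?_ (fun j => ?_) j
      · rw [MSA_insM_zero, zero_sub, norm_neg, norm_mul]
        simp only [d, Fin.cons_zero]
        have h2 : ‖(p : ℚ_[p]) ^ ((m + 1) * k)‖ ≤ (p : ℝ) ^ (-(k : ℤ)) := by
          rw [norm_pow, Padic.norm_p, _root_.zpow_neg, zpow_natCast, ← inv_pow]
          refine pow_le_pow_of_le_one (by positivity) (inv_le_one_of_one_le₀ hp1) ?_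
          exact Nat.le_mul_of_pos_left k (Nat.succ_pos m)
        calc ‖R i 0‖ * ‖(p : ℚ_[p]) ^ ((m + 1) * k)‖ ≤ 1 * (p : ℝ) ^ (-(k : ℤ)) := by
              exact mul_le_mul (hR i 0) h2 (norm_nonneg _) zero_le_one
          _ = _ := one_mul _
      · rw [MSA_insM_succ]
        simp only [d, Fin.cons_succ, mul_one, Matrix.submatrix_apply, id, sub_self, norm_zero]
        positivity

theorem MSA_exists_g {n : ℕ} {x : Fin (n + 1) → ℚ_[p]} (hx : x ≠ 0) :
    ∃ g : Matrix (Fin (n + 1)) (Fin (n + 1)) ℚ_[p], g.det = 1 ∧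
      ∃ c : ℚ_[p], ∀ i, g i 0 = c * x i := by
  obtain ⟨i₀, hi⟩ := Function.ne_iff.1 hx
  have hi0 : x i₀ ≠ 0 := hi
  let g₁ : Matrix (Fin (n + 1)) (Fin (n + 1)) ℚ_[p] :=
    ((1 : Matrix (Fin (n + 1)) (Fin (n + 1)) ℚ_[p]).updateCol i₀ x).submatrix id (Equiv.swap 0 i₀)
  have h1 : g₁.det ≠ 0 := by
    have h2 : ((1 : Matrix (Fin (n + 1)) (Fin (n + 1)) ℚ_[p]).updateCol i₀ x).det = x i₀ := by
      rw [← Matrix.cramer_apply, Matrix.cramer_one]
      rfl
    show (Matrix.submatrix _ id (Equiv.swap 0 i₀)).det ≠ 0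
    rw [Matrix.det_permute', h2]
    refine mul_ne_zero ?_ hi0
    rcases Int.units_eq_one_or (Equiv.Perm.sign (Equiv.swap 0 i₀)) with h | h <;> rw [h] <;> simp
  have hcol : ∀ i, g₁ i 0 = x i := by
    intro i
    show (Matrix.updateCol _ i₀ x) i (Equiv.swap 0 i₀ 0) = x i
    rw [Equiv.swap_apply_left, Matrix.updateCol_self]
  refine ⟨g₁ * Matrix.diagonal (Fin.cons (g₁.det)⁻¹ (fun _ => 1)), ?_, (g₁.det)⁻¹, ?_⟩
  · rw [Matrix.det_mul, Matrix.det_diagonal, Fin.prod_univ_succ]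
    simp only [Fin.cons_zero, Fin.cons_succ, Finset.prod_const_one, mul_one]
    exact mul_inv_cancel₀ h1
  · intro i
    rw [Matrix.mul_diagonal, hcol, Fin.cons_zero, mul_comm]

theorem exists_move {m : ℕ} {χ : Fin m → ℚ_[p] →*₀ C}
    {W : Submodule C (Matrix (Fin m) (Fin (m + 1)) ℚ_[p] → C)} (hW : W ≤ PSM m (m + 1) χ)
    (hst : ∀ f ∈ W, ∀ g : Matrix (Fin (m + 1)) (Fin (m + 1)) ℚ_[p], g.det = 1 →
      (fun R : Matrix (Fin m) (Fin (m + 1)) ℚ_[p] => f (R * g)) ∈ W)
    (hne : ∃ f ∈ W, f ≠ 0) :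
    ∃ f ∈ W, ∃ A : Matrix (Fin m) (Fin m) ℚ_[p], f (insM A) ≠ 0 := by
  obtain ⟨f, hf, hf0⟩ := hne
  obtain ⟨R, hR⟩ := Function.ne_iff.1 hf0
  have hker : LinearMap.ker (Matrix.mulVecLin R) ≠ ⊥ := by
    apply LinearMap.ker_ne_bot_of_finrank_lt
    rw [Module.finrank_fin_fun, Module.finrank_fin_fun]
    exact Nat.lt_succ_self m
  obtain ⟨x, hx, hx0⟩ := Submodule.exists_mem_ne_zero_of_ne_bot hker
  have hRx : R *ᵥ x = 0 := hx
  obtain ⟨g, hg, c, hc⟩ := MSA_exists_g hx0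
  have hgu : IsUnit g.det := by rw [hg]; exact isUnit_one
  refine ⟨fun S => f (S * g⁻¹), hst f hf g⁻¹ ?_, (R * g).submatrix id Fin.succ, ?_⟩
  · rw [Matrix.det_nonsing_inv, hg, Ring.inverse_one]
  · have h1 : insM ((R * g).submatrix id Fin.succ) = R * g := by
      ext i j
      refine Fin.cases ?_ (fun j => ?_) j
      · rw [MSA_insM_zero, Matrix.mul_apply]
        have h2 : (R *ᵥ x) i = 0 := by rw [hRx]; rfl
        rw [Matrix.mulVec, dotProduct] at h2
        calc (0 : ℚ_[p]) = c * ∑ j, R i j * x j := by rw [h2, mul_zero]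
          _ = ∑ j, R i j * g j 0 := by
            rw [Finset.mul_sum]
            refine Finset.sum_congr rfl (fun j _ => ?_)
            rw [hc]
            ring
      · rfl
    show f (insM ((R * g).submatrix id Fin.succ) * g⁻¹) ≠ 0
    rw [h1, Matrix.mul_assoc, Matrix.mul_nonsing_inv g hgu, Matrix.mul_one]
    exact hR

end

end Pool.Agent.Lib.MP_f399a8_nt
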