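import Pool.Agent.Lib.MP_f399a8_nt.Astar
import Pool.Agent.Lib.MP_f399a8_nt.MSA

/-!
# The main step

See the header of `MSA.lean` for the proof of `main_step`.
-/

namespace Pool.Agent.Lib.MP_f399a8_nt

open Matrix

noncomputable section

variable {p : ℕ} [Fact p.Prime] {C : Type*} [NormedField C]

/-- the block matrix with blocks `(det g)⁻¹` and `g` -/
def MainStep_blk {m : ℕ} (g : Matrix (Fin m) (Fin m) ℚ_[p]) :
    Matrix (Fin (m + 1)) (Fin (m + 1)) ℚ_[p] :=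
  Matrix.of (Fin.cons (Fin.cons (g.det)⁻¹ 0) (fun i => Fin.cons 0 (g i)))

theorem MainStep_blk_det {m : ℕ} {g : Matrix (Fin m) (Fin m) ℚ_[p]} (hg : g.det ≠ 0) :
    (MainStep_blk g).det = 1 := by
  rw [Matrix.det_succ_row_zero, Fin.sum_univ_succ]
  have h0 : ∑ j : Fin m, (-1 : ℚ_[p]) ^ ((j.succ : Fin (m + 1)) : ℕ) * MainStep_blk g 0 j.succ *
      ((MainStep_blk g).submatrix Fin.succ (j.succ).succAbove).det = 0 := by
    refine Finset.sum_eq_zero fun j _ => ?_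
    simp [MainStep_blk]
  have h1 : (MainStep_blk g).submatrix Fin.succ (0 : Fin (m + 1)).succAbove = g := by
    ext i j
    simp [MainStep_blk]
  rw [h0, h1]
  simp [MainStep_blk, hg]

theorem MainStep_blk_mul {m : ℕ} (g : Matrix (Fin m) (Fin m) ℚ_[p])
    (R : Matrix (Fin m) (Fin (m + 1)) ℚ_[p]) :
    (R * MainStep_blk g).submatrix id Fin.succ = R.submatrix id Fin.succ * g := by
  ext i j
  simp [Matrix.mul_apply, Fin.sum_univ_succ, MainStep_blk]

theorem main_step [NormedAlgebra ℚ_[p] C] [IsUltrametricDist C] {m : ℕ}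
    {χ : Fin m → ℚ_[p] →*₀ C} (hχ : Small χ) (hloc : ∀ i, Loc (χ i)) (hirr : Irr m χ)
    {W : Submodule C (Matrix (Fin m) (Fin (m + 1)) ℚ_[p] → C)} (hW : W ≤ PSM m (m + 1) χ)
    (hcl : ClosedU χ W)
    (hst : ∀ f ∈ W, ∀ g : Matrix (Fin (m + 1)) (Fin (m + 1)) ℚ_[p], g.det = 1 →
      (fun R : Matrix (Fin m) (Fin (m + 1)) ℚ_[p] => f (R * g)) ∈ W)
    (hne : ∃ f ∈ W, f ≠ 0) : W = PSM m (m + 1) χ := by
  let Y : Submodule C (Matrix (Fin m) (Fin m) ℚ_[p] → C) :=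
    { carrier := {φ | φ ∈ PSM m m χ ∧ Drop φ ∈ W}
      add_mem' := fun {f g} hf hg => ⟨add_mem hf.1 hg.1, add_mem hf.2 hg.2⟩
      zero_mem' := ⟨zero_mem _, zero_mem W⟩
      smul_mem' := fun a f hf => ⟨Submodule.smul_mem _ a hf.1, Submodule.smul_mem W a hf.2⟩ }
  have hYle : Y ≤ PSM m m χ := fun φ hφ => hφ.1
  have hYcl : ClosedU χ Y := by
    intro f hf H
    refine ⟨hf, hcl (Drop f) (drop_mem hf) fun ε hε => ?_⟩
    obtain ⟨w, hw, h⟩ := H ε hε
    exact ⟨Drop w, hw.2, fun R hR => h (R.submatrix id Fin.succ) (fun i j => hR i j.succ)⟩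
  have hYst : ∀ φ ∈ Y, ∀ g : Matrix (Fin m) (Fin m) ℚ_[p], g.det ≠ 0 →
      (fun A : Matrix (Fin m) (Fin m) ℚ_[p] => φ (A * g)) ∈ Y := by
    intro φ hφ g hg
    refine ⟨psm_right hφ.1 g, ?_⟩
    have h1 := hst (Drop φ) hφ.2 (MainStep_blk g) (MainStep_blk_det hg)
    have h2 : Drop (fun A : Matrix (Fin m) (Fin m) ℚ_[p] => φ (A * g)) =
        fun R : Matrix (Fin m) (Fin (m + 1)) ℚ_[p] => Drop φ (R * MainStep_blk g) := by
      funext R
      unfold Drop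
      rw [MainStep_blk_mul]
    rw [h2]
    exact h1
  have hYne : ∃ φ ∈ Y, φ ≠ 0 := by
    obtain ⟨f, hf, A, hA⟩ := exists_move hW hst hne
    refine ⟨fun A : Matrix (Fin m) (Fin m) ℚ_[p] => f (insM A),
      ⟨ins_mem (hW hf), contract hχ hW hcl hst hf⟩, fun h => hA ?_⟩
    exact congrFun h A
  have hY := hirr Y hYle hYcl hYst hYne
  refine astar m χ hχ hloc W hW hcl ?_ ?_
  · intro f hf i j hij c _
    exact hst f hf (transvection i j c) (Matrix.det_transvection_of_ne i j hij c)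
  · intro φ hφ
    have : φ ∈ Y := by
      rw [hY]
      exact hφ
    exact this.2

end

end Pool.Agent.Lib.MP_f399a8_nt
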