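import Pool.Agent.Lib.MP_f399a8_nt.BasA

/-!
# Calculus of `Near`, translations
-/

namespace Pool.Agent.Lib.MP_f399a8_nt

open Matrix

noncomputable section

variable {p : ℕ} [Fact p.Prime] {C : Type*} [NormedField C]

/-- column operations `col a ↦ - col b`, `col b ↦ col a` -/
def sw {N : ℕ} (a b : Fin N) : Matrix (Fin N) (Fin N) ℚ_[p] :=
  transvection a b 1 * transvection b a (-1) * transvection a b 1

/-- column operations `col 0 ↦ - col last`, `col last ↦ col 0 - c * col last` -/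
def gc {m : ℕ} (c : ℚ_[p]) : Matrix (Fin (m + 2)) (Fin (m + 2)) ℚ_[p] :=
  transvection 0 (Fin.last (m + 1)) 1 * transvection (Fin.last (m + 1)) 0 (-1) *
    transvection 0 (Fin.last (m + 1)) (1 + c)

theorem mul_transvection {m N : ℕ} (R : Matrix (Fin m) (Fin N) ℚ_[p]) (i j : Fin N) (c : ℚ_[p])
    (k : Fin m) (l : Fin N) :
    (R * transvection i j c) k l = if l = j then R k j + c * R k i else R k l := by
  rw [transvection, Matrix.mul_add, Matrix.mul_one, Matrix.add_apply]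
  by_cases h : l = j
  · subst h
    rw [Matrix.mul_single_apply_same, if_pos rfl, mul_comm]
  · rw [Matrix.mul_single_apply_of_ne (hbj := h), if_neg h, add_zero]

theorem mul_nU_castSucc {m N : ℕ} (R : Matrix (Fin m) (Fin (N + 1)) ℚ_[p]) (u : Fin N → ℚ_[p])
    (k : Fin m) (l : Fin N) :
    (R * nU u) k l.castSucc = R k l.castSucc + u l * R k (Fin.last N) := by
  rw [nU, Matrix.mul_add, Matrix.mul_one, Matrix.add_apply]
  congr 1
  rw [Matrix.mul_apply, Finset.sum_eq_single (Fin.last N)]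
  · simp [mul_comm]
  · intro b _ hb
    simp [hb]
  · intro h
    exact absurd (Finset.mem_univ _) h

theorem mul_nU_last {m N : ℕ} (R : Matrix (Fin m) (Fin (N + 1)) ℚ_[p]) (u : Fin N → ℚ_[p])
    (k : Fin m) : (R * nU u) k (Fin.last N) = R k (Fin.last N) := by
  rw [nU, Matrix.mul_add, Matrix.mul_one, Matrix.add_apply]
  rw [add_eq_left, Matrix.mul_apply]
  apply Finset.sum_eq_zero
  intro b _
  by_cases hb : b = Fin.last N
  · simp [hb]
  · simp [hb]

theorem mul_sw {m N : ℕ} (R : Matrix (Fin m) (Fin N) ℚ_[p]) {a b : Fin N} (hab : a ≠ b)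
    (k : Fin m) (l : Fin N) :
    (R * sw (p := p) a b) k l = if l = a then - R k b else if l = b then R k a else R k l := by
  have hba : b ≠ a := Ne.symm hab
  rw [sw, ← Matrix.mul_assoc, ← Matrix.mul_assoc]
  simp only [mul_transvection]
  by_cases h1 : l = a
  · subst h1
    simp [hab]
  · by_cases h2 : l = b
    · subst h2
      simp [hba, hab]
    · simp [h1, h2]

theorem mul_gc_zero {m k : ℕ} (R : Matrix (Fin k) (Fin (m + 2)) ℚ_[p]) (c : ℚ_[p]) (i : Fin k) :
    (R * gc (m := m) c) i 0 = - R i (Fin.last (m + 1)) := by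
  have h0 : (0 : Fin (m + 2)) ≠ Fin.last (m + 1) := Fin.ne_of_lt (Fin.last_pos)
  rw [gc, ← Matrix.mul_assoc, ← Matrix.mul_assoc]
  simp only [mul_transvection]
  simp [h0]

theorem mul_gc_last {m k : ℕ} (R : Matrix (Fin k) (Fin (m + 2)) ℚ_[p]) (c : ℚ_[p]) (i : Fin k) :
    (R * gc (m := m) c) i (Fin.last (m + 1)) = R i 0 - c * R i (Fin.last (m + 1)) := by
  have h0 : Fin.last (m + 1) ≠ (0 : Fin (m + 2)) := (Fin.ne_of_lt (Fin.last_pos)).symm
  have h0' : (0 : Fin (m + 2)) ≠ Fin.last (m + 1) := Fin.ne_of_lt (Fin.last_pos)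
  rw [gc, ← Matrix.mul_assoc, ← Matrix.mul_assoc]
  simp only [mul_transvection]
  simp [h0, h0']
  ring

theorem mul_gc_mid {m k : ℕ} (R : Matrix (Fin k) (Fin (m + 2)) ℚ_[p]) (c : ℚ_[p]) (i : Fin k)
    (j : Fin m) : (R * gc (m := m) c) i j.succ.castSucc = R i j.succ.castSucc := by
  have h0 : j.succ.castSucc ≠ (0 : Fin (m + 2)) := by
    intro h
    exact Fin.succ_ne_zero j (Fin.castSucc_injective _ (h.trans Fin.castSucc_zero.symm))
  have h1 : j.succ.castSucc ≠ Fin.last (m + 1) := Fin.castSucc_ne_last _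
  rw [gc, ← Matrix.mul_assoc, ← Matrix.mul_assoc]
  simp only [mul_transvection]
  simp [h0, h1]

theorem near_mono {m N : ℕ} {X : Submodule C (Matrix (Fin m) (Fin N) ℚ_[p] → C)} {ε ε' : ℝ}
    {f : Matrix (Fin m) (Fin N) ℚ_[p] → C} (h : Near X ε f) (hε : ε ≤ ε') : Near X ε' f := by
  obtain ⟨w, hw, h1⟩ := h
  exact ⟨w, hw, fun R hR => (h1 R hR).trans hε⟩

theorem near_of_mem {m N : ℕ} {X : Submodule C (Matrix (Fin m) (Fin N) ℚ_[p] → C)} {ε : ℝ}
    {f : Matrix (Fin m) (Fin N) ℚ_[p] → C} (h : f ∈ X) (hε : 0 ≤ ε) : Near X ε f := by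
  exact ⟨f, h, fun R _ => by simpa using hε⟩

/-- a function close to a nearby function is nearby -/
theorem near_of_near [IsUltrametricDist C] {m N : ℕ}
    {X : Submodule C (Matrix (Fin m) (Fin N) ℚ_[p] → C)} {ε : ℝ}
    {f g : Matrix (Fin m) (Fin N) ℚ_[p] → C} (h : Near X ε g)
    (hfg : ∀ R : Matrix (Fin m) (Fin N) ℚ_[p], IntM R → ‖f R - g R‖ ≤ ε) : Near X ε f := by
  obtain ⟨w, hw, h1⟩ := h
  refine ⟨w, hw, fun R hR => ?_⟩
  have h2 : f R - w R = (f R - g R) + (g R - w R) := by ring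
  rw [h2]
  exact (IsUltrametricDist.norm_add_le_max _ _).trans (max_le (hfg R hR) (h1 R hR))

theorem near_add [IsUltrametricDist C] {m N : ℕ}
    {X : Submodule C (Matrix (Fin m) (Fin N) ℚ_[p] → C)} {ε : ℝ}
    {f g : Matrix (Fin m) (Fin N) ℚ_[p] → C} (hf : Near X ε f) (hg : Near X ε g) :
    Near X ε (f + g) := by
  obtain ⟨w, hw, h1⟩ := hf
  obtain ⟨v, hv, h2⟩ := hg
  refine ⟨w + v, X.add_mem hw hv, fun R hR => ?_⟩
  have h3 : (f + g) R - (w + v) R = (f R - w R) + (g R - v R) := by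
    simp only [Pi.add_apply]
    ring
  rw [h3]
  exact (IsUltrametricDist.norm_add_le_max _ _).trans (max_le (h1 R hR) (h2 R hR))

theorem near_sub [IsUltrametricDist C] {m N : ℕ}
    {X : Submodule C (Matrix (Fin m) (Fin N) ℚ_[p] → C)} {ε : ℝ}
    {f g : Matrix (Fin m) (Fin N) ℚ_[p] → C} (hf : Near X ε f) (hg : Near X ε g) :
    Near X ε (f - g) := by
  obtain ⟨w, hw, h1⟩ := hf
  obtain ⟨v, hv, h2⟩ := hg
  refine ⟨w - v, X.sub_mem hw hv, fun R hR => ?_⟩
  have h3 : (f - g) R - (w - v) R = (f R - w R) - (g R - v R) := by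
    simp only [Pi.sub_apply]
    ring
  rw [h3]
  rw [sub_eq_add_neg (f R - w R)]
  refine (IsUltrametricDist.norm_add_le_max _ _).trans (max_le (h1 R hR) ?_)
  rw [norm_neg]
  exact h2 R hR

theorem near_sum [IsUltrametricDist C] {m N : ℕ}
    {X : Submodule C (Matrix (Fin m) (Fin N) ℚ_[p] → C)} {ε : ℝ} (hε : 0 ≤ ε) {ι : Type*}
    (s : Finset ι) (f : ι → Matrix (Fin m) (Fin N) ℚ_[p] → C) (hf : ∀ i ∈ s, Near X ε (f i)) :
    Near X ε (∑ i ∈ s, f i) := by
  classical
  induction s using Finset.induction_on with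
  | empty => simpa using near_of_mem X.zero_mem hε
  | insert a s ha ih =>
    rw [Finset.sum_insert ha]
    exact near_add (hf a (Finset.mem_insert_self a s))
      (ih (fun i hi => hf i (Finset.mem_insert_of_mem hi)))

theorem near_smul {m N : ℕ} {X : Submodule C (Matrix (Fin m) (Fin N) ℚ_[p] → C)} {ε : ℝ}
    {f : Matrix (Fin m) (Fin N) ℚ_[p] → C} (hf : Near X ε f) (a : C) :
    Near X (‖a‖ * ε) (a • f) := by
  obtain ⟨w, hw, h1⟩ := hf
  refine ⟨a • w, X.smul_mem a hw, fun R hR => ?_⟩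
  have h3 : (a • f) R - (a • w) R = a * (f R - w R) := by
    simp only [Pi.smul_apply, smul_eq_mul]
    ring
  rw [h3, norm_mul]
  exact mul_le_mul_of_nonneg_left (h1 R hR) (norm_nonneg a)

theorem near_transvection {m N : ℕ} {X : Submodule C (Matrix (Fin m) (Fin N) ℚ_[p] → C)}
    (hX : KStab X) {ε : ℝ} {f : Matrix (Fin m) (Fin N) ℚ_[p] → C} (hf : Near X ε f)
    {i j : Fin N} (hij : i ≠ j) {c : ℚ_[p]} (hc : ‖c‖ ≤ 1) :
    Near X ε (fun R => f (R * transvection i j c)) := by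
  obtain ⟨w, hw, h1⟩ := hf
  exact ⟨_, hX w hw i j hij c hc, fun R hR => h1 _ (intM_mul hR (intM_transvection hc))⟩

theorem nU_mem {m N : ℕ} {X : Submodule C (Matrix (Fin m) (Fin (N + 1)) ℚ_[p] → C)}
    (hX : KStab X) {f : Matrix (Fin m) (Fin (N + 1)) ℚ_[p] → C} (hf : f ∈ X)
    {u : Fin N → ℚ_[p]} (hu : ∀ j, ‖u j‖ ≤ 1) : (fun R => f (R * nU u)) ∈ X := by
  classical
  -- product of transvections
  have key : ∀ s : Finset (Fin N), ∀ f' ∈ X,
      (fun R : Matrix (Fin m) (Fin (N + 1)) ℚ_[p] =>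
        f' (R * nU (fun j => if j ∈ s then u j else 0))) ∈ X := by
    intro s
    induction s using Finset.induction_on with
    | empty =>
      intro f' hf'
      have h1 : nU (fun j : Fin N => if j ∈ (∅ : Finset (Fin N)) then u j else 0) =
          (1 : Matrix (Fin (N + 1)) (Fin (N + 1)) ℚ_[p]) := by
        ext a b
        rw [nU, Matrix.add_apply, add_eq_left, Matrix.of_apply]
        split_ifs
        · refine Fin.lastCases ?_ (fun i => ?_) b
          · simp
          · simp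
        · rfl
      rw [h1]
      simpa using hf'
    | insert a s ha ih =>
      intro f' hf'
      have h2 := ih _ (hX f' hf' (Fin.last N) a.castSucc (Fin.castSucc_ne_last a).symm (u a) (hu a))
      convert h2 using 1
      funext R
      congr 1
      ext k l
      rw [mul_transvection]
      refine Fin.lastCases ?_ (fun l' => ?_) l
      · rw [if_neg (Fin.castSucc_ne_last a).symm, mul_nU_last, mul_nU_last]
      · rw [mul_nU_castSucc]
        by_cases hl : l' = a
        · subst hl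
          rw [if_pos rfl, mul_nU_castSucc, mul_nU_last]
          simp [ha]
        · have hl' : l'.castSucc ≠ a.castSucc := fun h => hl (Fin.castSucc_injective _ h)
          rw [if_neg hl', mul_nU_castSucc]
          simp [hl]
  have h3 := key Finset.univ f hf
  simpa using h3

theorem near_nU {m N : ℕ} {X : Submodule C (Matrix (Fin m) (Fin (N + 1)) ℚ_[p] → C)}
    (hX : KStab X) {ε : ℝ} {f : Matrix (Fin m) (Fin (N + 1)) ℚ_[p] → C} (hf : Near X ε f)
    {u : Fin N → ℚ_[p]} (hu : ∀ j, ‖u j‖ ≤ 1) : Near X ε (fun R => f (R * nU u)) := by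
  obtain ⟨w, hw, h1⟩ := hf
  exact ⟨_, nU_mem hX hw hu, fun R hR => h1 _ (intM_mul hR (intM_nU hu))⟩

theorem sw_mem {m N : ℕ} {X : Submodule C (Matrix (Fin m) (Fin N) ℚ_[p] → C)}
    (hX : KStab X) {f : Matrix (Fin m) (Fin N) ℚ_[p] → C} (hf : f ∈ X)
    {a b : Fin N} (hab : a ≠ b) : (fun R => f (R * sw (p := p) a b)) ∈ X := by
  have h1 := hX _ (hX _ (hX f hf a b hab 1 (by simp)) b a hab.symm (-1) (by simp)) a b hab 1
    (by simp)
  convert h1 using 1
  funext R
  rw [sw, ← Matrix.mul_assoc, ← Matrix.mul_assoc]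

theorem gc_mem {k m : ℕ} {X : Submodule C (Matrix (Fin k) (Fin (m + 2)) ℚ_[p] → C)}
    (hX : KStab X) {f : Matrix (Fin k) (Fin (m + 2)) ℚ_[p] → C} (hf : f ∈ X)
    {c : ℚ_[p]} (hc : ‖c‖ ≤ 1) : (fun R => f (R * gc (m := m) c)) ∈ X := by
  have hab : (0 : Fin (m + 2)) ≠ Fin.last (m + 1) := Fin.ne_of_lt (Fin.last_pos)
  have hc1 : ‖1 + c‖ ≤ 1 :=
    (IsUltrametricDist.norm_add_le_max _ _).trans (max_le (by simp) hc)
  have h1 := hX _ (hX _ (hX f hf 0 (Fin.last (m + 1)) hab (1 + c) hc1) (Fin.last (m + 1)) 0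
    hab.symm (-1) (by simp)) 0 (Fin.last (m + 1)) hab 1 (by simp)
  convert h1 using 1
  funext R
  rw [gc, ← Matrix.mul_assoc, ← Matrix.mul_assoc]

end

end Pool.Agent.Lib.MP_f399a8_nt
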