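import Pool.Agent.Lib.MP_f399a8_nt.NearA

/-!
# The operators `Op`

PROOFS.
`op_mem`.  Row operations: scaling the last row by `c ≠ 0` changes neither `ratio R` nor `Schur R`;
for `c = 0` both sides vanish (`η 0 = 0`).  Scaling row `i < last` scales row `i` of `Schur R`.
Adding `c` times row `j` to row `i`, `i < j < last`: the same operation on `Schur R`; adding `c`
times the last row to row `i`: `Schur R` does not change if `R last last ≠ 0`, and both sides are
zero if `R last last = 0`.  Continuity: clear where `R last last ≠ 0` (`ratio`, `Schur`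
continuous there).  At `R₀` with `R₀ last last = 0` the value is `0`; for `R` near `R₀` either
`γ (ratio R) = 0` or all `‖ratio R j‖ ≤ 1`, and then the entries of `Schur R` are bounded by
`max ‖R i j‖`, so `γ (ratio R)` and `ψ (Schur R)` stay bounded (compactness) and
`η (R last last) → η 0 = 0`.
`op_nU`: both sides vanish if `R last last = 0`; otherwise `ratio (R * nU u) = ratio R + u` and
`Schur (R * nU u) = Schur R`.
`op_transvection`: `ratio (R * T) = ratio R` except entry `j` where it is `y j + c * y i`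
(ultrametric: the ball is preserved), `Schur (R * T) = Schur R * transvection i j c`.
`op_bdd`: by `psm_prim`-like scaling: if `‖γ‖ ≤ a`, `γ` vanishes outside the unit polydisc and
`‖ψ A‖ ≤ B` on integral `A` then `‖Op‖ ≤ a * B` on integral matrices (for `R` with
`‖ratio R j‖ ≤ 1`, the matrix `Schur R` is integral).
-/

namespace Pool.Agent.Lib.MP_f399a8_nt

open Matrix

noncomputable section

variable {p : ℕ} [Fact p.Prime] {C : Type*} [NormedField C]

theorem OpA_clopen {N : ℕ} (j : Fin N) (r : ℕ) :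
    IsClopen {y : Fin N → ℚ_[p] | ‖y j‖ ≤ (p : ℝ) ^ (-(r : ℤ))} := by
  have hp : (p : ℝ) ≠ 0 := by
    have := (Fact.out : p.Prime).ne_zero
    exact_mod_cast this
  have h1 : IsClopen (Metric.closedBall (0 : ℚ_[p]) ((p : ℝ) ^ (-(r : ℤ)))) :=
    IsUltrametricDist.isClopen_closedBall _ (zpow_ne_zero _ hp)
  have h2 := h1.preimage (continuous_apply (A := fun _ : Fin N => ℚ_[p]) j)
  have e : {y : Fin N → ℚ_[p] | ‖y j‖ ≤ (p : ℝ) ^ (-(r : ℤ))} =
      (fun y : Fin N → ℚ_[p] => y j) ⁻¹' (Metric.closedBall (0 : ℚ_[p]) ((p : ℝ) ^ (-(r : ℤ)))) := by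
    ext y
    simp
  rw [e]
  exact h2

theorem OpA_schur_le {m N : ℕ} (R : Matrix (Fin (m + 1)) (Fin (N + 1)) ℚ_[p]) {M : ℝ} (hM : 0 ≤ M)
    (hR : ∀ i j, ‖R i j‖ ≤ M) (h : ∀ j, ‖ratio R j‖ ≤ 1) (i : Fin m) (j : Fin N) :
    ‖Schur R i j‖ ≤ M := by
  unfold Schur
  rw [sub_eq_add_neg]
  refine (IsUltrametricDist.norm_add_le_max _ _).trans (max_le (hR _ _) ?_)
  rw [norm_neg, norm_mul]
  calc ‖R i.castSucc (Fin.last N)‖ * ‖ratio R j‖ ≤ M * 1 := mul_le_mul (hR _ _) (h j) (norm_nonneg _) hM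
    _ = M := mul_one M

theorem OpA_bddψ {m N : ℕ} {ψ : Matrix (Fin m) (Fin N) ℚ_[p] → C} (hψ : Continuous ψ) (M : ℝ) :
    ∃ B : ℝ, 0 ≤ B ∧ ∀ A : Matrix (Fin m) (Fin N) ℚ_[p], (∀ i j, ‖A i j‖ ≤ M) → ‖ψ A‖ ≤ B := by
  have hK : IsCompact (Set.pi Set.univ (fun _ : Fin m => Set.pi Set.univ
      (fun _ : Fin N => Metric.closedBall (0 : ℚ_[p]) M))) :=
    isCompact_univ_pi fun _ => isCompact_univ_pi fun _ => isCompact_closedBall _ _
  obtain ⟨B, hB⟩ := hK.exists_bound_of_continuousOn (f := ψ) hψ.continuousOn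
  refine ⟨max B 0, le_max_right _ _, fun A hA => (hB A ?_).trans (le_max_left _ _)⟩
  intro i _ j _
  rw [mem_closedBall_zero_iff]
  exact hA i j

theorem OpA_bddγ {N : ℕ} {γ : (Fin N → ℚ_[p]) → C} (hγ : Continuous γ)
    (hγ0 : ∀ y, (∃ j, 1 < ‖y j‖) → γ y = 0) : ∃ A : ℝ, 0 ≤ A ∧ ∀ y, ‖γ y‖ ≤ A := by
  have hK : IsCompact (Set.pi Set.univ (fun _ : Fin N => Metric.closedBall (0 : ℚ_[p]) 1)) :=
    isCompact_univ_pi fun _ => isCompact_closedBall _ _
  obtain ⟨A, hA⟩ := hK.exists_bound_of_continuousOn (f := γ) hγ.continuousOn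
  refine ⟨max A 0, le_max_right _ _, fun y => ?_⟩
  by_cases h : ∃ j, 1 < ‖y j‖
  · rw [hγ0 y h, norm_zero]
    exact le_max_right _ _
  · push Not at h
    refine (hA y ?_).trans (le_max_left _ _)
    intro j _
    rw [mem_closedBall_zero_iff]
    exact h j

theorem OpA_cont {m N : ℕ} {χ : Fin (m + 1) → ℚ_[p] →*₀ C} (hχ : Small χ)
    {γ : (Fin N → ℚ_[p]) → C} (hγ : Continuous γ) (hγ0 : ∀ y, (∃ j, 1 < ‖y j‖) → γ y = 0)
    {ψ : Matrix (Fin m) (Fin N) ℚ_[p] → C} (hψ : Continuous ψ) :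
    Continuous (Op (χ (Fin.last m)) γ ψ) := by
  have hη : Continuous (χ (Fin.last m)) := (hχ (Fin.last m)).1
  have hent : ∀ i j, Continuous (fun R : Matrix (Fin (m + 1)) (Fin (N + 1)) ℚ_[p] => R i j) := by
    intro i j
    exact (continuous_apply j).comp (continuous_apply i)
  rw [continuous_iff_continuousAt]
  intro R0
  by_cases h0 : R0 (Fin.last m) (Fin.last N) = 0
  · -- the value at `R0` is zero
    obtain ⟨A, hA0, hA⟩ := OpA_bddγ hγ hγ0
    set M : ℝ := 1 + ∑ i, ∑ j, ‖R0 i j‖ with hMdef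
    have hM0 : 0 ≤ M := by positivity
    obtain ⟨B, hB0, hB⟩ := OpA_bddψ hψ M
    have hval : Op (χ (Fin.last m)) γ ψ R0 = 0 := by
      simp only [Op, h0, map_zero, zero_mul]
    rw [ContinuousAt, hval]
    refine squeeze_zero_norm' (a := fun R => ‖χ (Fin.last m) (R (Fin.last m) (Fin.last N))‖ * (A * B)) ?_ ?_
    · have hev : ∀ᶠ R in nhds R0, ∀ i j, ‖R i j‖ ≤ M := by
        rw [Filter.eventually_all]
        intro i
        rw [Filter.eventually_all]
        intro j
        have h1 : ‖R0 i j‖ < M := by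
          have a1 : ‖R0 i j‖ ≤ ∑ j, ‖R0 i j‖ :=
            Finset.single_le_sum (f := fun j => ‖R0 i j‖) (fun _ _ => norm_nonneg _) (Finset.mem_univ j)
          have a2 : ∑ j, ‖R0 i j‖ ≤ ∑ i, ∑ j, ‖R0 i j‖ :=
            Finset.single_le_sum (f := fun i => ∑ j, ‖R0 i j‖)
              (fun _ _ => Finset.sum_nonneg fun _ _ => norm_nonneg _) (Finset.mem_univ i)
          linarith
        have h2 := ((hent i j).norm.tendsto R0).eventually_lt_const h1
        exact h2.mono fun R hR => hR.le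
      filter_upwards [hev] with R hR
      by_cases h : ∃ j, 1 < ‖ratio R j‖
      · simp only [Op, hγ0 _ h, mul_zero, zero_mul, norm_zero]
        positivity
      · push Not at h
        unfold Op
        rw [norm_mul, norm_mul, mul_assoc]
        exact mul_le_mul_of_nonneg_left (mul_le_mul (hA _) (hB _ (OpA_schur_le R hM0 hR h))
          (norm_nonneg _) hA0) (norm_nonneg _)
    · have h3 : Continuous (fun R : Matrix (Fin (m + 1)) (Fin (N + 1)) ℚ_[p] =>
          ‖χ (Fin.last m) (R (Fin.last m) (Fin.last N))‖ * (A * B)) :=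
        ((hη.comp (hent _ _)).norm).mul continuous_const
      have h4 := h3.tendsto R0
      simp only [h0, map_zero, norm_zero, zero_mul] at h4
      exact h4
  · have hr : ContinuousAt (fun R : Matrix (Fin (m + 1)) (Fin (N + 1)) ℚ_[p] => ratio R) R0 := by
      refine continuousAt_pi.mpr fun j => ?_
      exact (hent _ _).continuousAt.div (hent _ _).continuousAt h0
    have hS : ContinuousAt (fun R : Matrix (Fin (m + 1)) (Fin (N + 1)) ℚ_[p] => Schur R) R0 := by
      refine continuousAt_pi.mpr fun i => continuousAt_pi.mpr fun j => ?_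
      have hrj : ContinuousAt (fun R : Matrix (Fin (m + 1)) (Fin (N + 1)) ℚ_[p] => ratio R j) R0 :=
        (hent _ _).continuousAt.div (hent _ _).continuousAt h0
      exact (hent _ _).continuousAt.sub ((hent _ _).continuousAt.mul hrj)
    have h1 : ContinuousAt (fun R : Matrix (Fin (m + 1)) (Fin (N + 1)) ℚ_[p] =>
        χ (Fin.last m) (R (Fin.last m) (Fin.last N))) R0 := (hη.comp (hent _ _)).continuousAt
    have h2 : ContinuousAt (fun R : Matrix (Fin (m + 1)) (Fin (N + 1)) ℚ_[p] => γ (ratio R)) R0 :=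
      ContinuousAt.comp (g := γ) hγ.continuousAt hr
    have h3 : ContinuousAt (fun R : Matrix (Fin (m + 1)) (Fin (N + 1)) ℚ_[p] => ψ (Schur R)) R0 :=
      ContinuousAt.comp (g := ψ) hψ.continuousAt hS
    exact (h1.mul h2).mul h3

theorem op_mem {m N : ℕ} {χ : Fin (m + 1) → ℚ_[p] →*₀ C} (hχ : Small χ)
    {γ : (Fin N → ℚ_[p]) → C} (hγ : Continuous γ) (hγ0 : ∀ y, (∃ j, 1 < ‖y j‖) → γ y = 0)
    {ψ : Matrix (Fin m) (Fin N) ℚ_[p] → C} (hψ : ψ ∈ PSM m N (fun i => χ i.castSucc)) :
    Op (χ (Fin.last m)) γ ψ ∈ PSM (m + 1) (N + 1) χ := by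
  refine ⟨OpA_cont hχ hγ hγ0 hψ.1, ?_, ?_⟩
  · intro R i c
    refine Fin.lastCases ?_ (fun i' => ?_) i
    · have h1 : (R.updateRow (Fin.last m) (c • R (Fin.last m))) (Fin.last m) (Fin.last N) =
          c * R (Fin.last m) (Fin.last N) := by
        rw [updateRow_self]
        rfl
      by_cases hc : c = 0
      · subst hc
        simp only [Op, h1, zero_mul, map_zero]
      · have h2 : ratio (R.updateRow (Fin.last m) (c • R (Fin.last m))) = ratio R := by
          funext j
          simp only [ratio, updateRow_self, Pi.smul_apply, smul_eq_mul]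
          rw [mul_div_mul_left _ _ hc]
        have h3 : Schur (R.updateRow (Fin.last m) (c • R (Fin.last m))) = Schur R := by
          funext a b
          simp only [Schur, h2]
          rw [updateRow_ne (Fin.castSucc_lt_last a).ne]
        simp only [Op, h1, h2, h3, map_mul]
        ring
    · have hne : Fin.last m ≠ i'.castSucc := (Fin.castSucc_lt_last i').ne'
      have h1 : (R.updateRow i'.castSucc (c • R i'.castSucc)) (Fin.last m) = R (Fin.last m) :=
        updateRow_ne hne
      have h2 : ratio (R.updateRow i'.castSucc (c • R i'.castSucc)) = ratio R := by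
        funext j
        simp only [ratio, h1]
      have h3 : Schur (R.updateRow i'.castSucc (c • R i'.castSucc)) =
          (Schur R).updateRow i' (c • Schur R i') := by
        funext a b
        simp only [Schur, h2]
        by_cases ha : a = i'
        · subst ha
          simp only [updateRow_self, Pi.smul_apply, smul_eq_mul, Schur]
          ring
        · rw [updateRow_ne ha, updateRow_ne (fun h => ha (Fin.castSucc_injective _ h))]
          rfl
      have h4 := hψ.2.1 (Schur R) i' c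
      simp only [Op, h1, h2, h3, h4]
      ring
  · intro R i j hij c
    have hil : i ≠ Fin.last m := (lt_of_lt_of_le hij (Fin.le_last j)).ne
    obtain ⟨i', rfl⟩ := Fin.exists_castSucc_eq.mpr hil
    have hne : Fin.last m ≠ i'.castSucc := (Fin.castSucc_lt_last i').ne'
    have h1 : ∀ v, (R.updateRow i'.castSucc v) (Fin.last m) = R (Fin.last m) := fun v =>
      updateRow_ne hne
    have h2 : ∀ v, ratio (R.updateRow i'.castSucc v) = ratio R := by
      intro v
      funext j
      simp only [ratio, h1]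
    revert hij
    refine Fin.lastCases ?_ (fun j' => ?_) j
    · intro _
      by_cases h0 : R (Fin.last m) (Fin.last N) = 0
      · simp only [Op, h1, h0, map_zero, zero_mul]
      · have h3 : Schur (R.updateRow i'.castSucc (R i'.castSucc + c • R (Fin.last m))) = Schur R := by
          funext a b
          simp only [Schur, h2]
          by_cases ha : a = i'
          · subst ha
            simp only [updateRow_self, Pi.add_apply, Pi.smul_apply, smul_eq_mul, ratio]
            field_simp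
            ring
          · rw [updateRow_ne (fun h => ha (Fin.castSucc_injective _ h))]
        simp only [Op, h1, h2, h3]
    · intro hij
      have hij' : i' < j' := Fin.castSucc_lt_castSucc_iff.mp hij
      have h3 : Schur (R.updateRow i'.castSucc (R i'.castSucc + c • R j'.castSucc)) =
          (Schur R).updateRow i' (Schur R i' + c • Schur R j') := by
        funext a b
        simp only [Schur, h2]
        by_cases ha : a = i'
        · subst ha
          simp only [updateRow_self, Pi.add_apply, Pi.smul_apply, smul_eq_mul, Schur]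
          ring
        · rw [updateRow_ne ha, updateRow_ne (fun h => ha (Fin.castSucc_injective _ h))]
          rfl
      have h4 := hψ.2.2 (Schur R) i' j' hij' c
      simp only [Op, h1, h2, h3, h4]

theorem op_nU {m N : ℕ} (η : ℚ_[p] →*₀ C) (γ : (Fin N → ℚ_[p]) → C)
    (ψ : Matrix (Fin m) (Fin N) ℚ_[p] → C) (u : Fin N → ℚ_[p])
    (R : Matrix (Fin (m + 1)) (Fin (N + 1)) ℚ_[p]) :
    Op η γ ψ (R * nU u) = Op η (fun y => γ (y + u)) ψ R := by
  unfold Op
  rw [mul_nU_last]
  by_cases h0 : R (Fin.last m) (Fin.last N) = 0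
  · simp only [h0, map_zero, zero_mul]
  · have h1 : ratio (R * nU u) = ratio R + u := by
      funext j
      simp only [ratio, mul_nU_last, mul_nU_castSucc, Pi.add_apply]
      field_simp
    have h2 : Schur (R * nU u) = Schur R := by
      funext a b
      simp only [Schur, h1, mul_nU_last, mul_nU_castSucc, Pi.add_apply]
      ring
    rw [h1, h2]

theorem op_transvection {m N : ℕ} (η : ℚ_[p] →*₀ C) (r : ℕ)
    (ψ : Matrix (Fin m) (Fin N) ℚ_[p] → C) {i j : Fin N} (hij : i ≠ j) {c : ℚ_[p]}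
    (hc : ‖c‖ ≤ 1) (R : Matrix (Fin (m + 1)) (Fin (N + 1)) ℚ_[p]) :
    Op η (ind r) ψ (R * transvection i.castSucc j.castSucc c) =
      Op η (ind r) (fun A => ψ (A * transvection i j c)) R := by
  have hL : Fin.last N ≠ j.castSucc := (Fin.castSucc_lt_last j).ne'
  have h1 : ∀ k, (R * transvection i.castSucc j.castSucc c) k (Fin.last N) = R k (Fin.last N) := by
    intro k
    rw [mul_transvection, if_neg hL]
  have h2 : ∀ k, ratio (R * transvection i.castSucc j.castSucc c) k =
      if k = j then ratio R j + c * ratio R i else ratio R k := by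
    intro k
    simp only [ratio, h1, mul_transvection]
    by_cases hk : k = j
    · subst hk
      rw [if_pos rfl, if_pos rfl]
      ring
    · rw [if_neg (fun h => hk (Fin.castSucc_injective _ h)), if_neg hk]
  have hpr : (0 : ℝ) ≤ (p : ℝ) ^ (-(r : ℤ)) := by positivity
  have h3 : (∀ k, ‖ratio (R * transvection i.castSucc j.castSucc c) k‖ ≤ (p : ℝ) ^ (-(r : ℤ))) ↔
      ∀ k, ‖ratio R k‖ ≤ (p : ℝ) ^ (-(r : ℤ)) := by
    constructor
    · intro h k
      by_cases hk : k = j
      · subst hk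
        have a1 := h k
        have a2 := h i
        rw [h2, if_pos rfl] at a1
        rw [h2, if_neg hij] at a2
        have e : ratio R k = (ratio R k + c * ratio R i) + (-c) * ratio R i := by ring
        rw [e]
        refine (IsUltrametricDist.norm_add_le_max _ _).trans (max_le a1 ?_)
        rw [norm_mul, norm_neg]
        calc ‖c‖ * ‖ratio R i‖ ≤ 1 * (p : ℝ) ^ (-(r : ℤ)) := mul_le_mul hc a2 (norm_nonneg _) zero_le_one
          _ = _ := one_mul _
      · have a1 := h k
        rwa [h2, if_neg hk] at a1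
    · intro h k
      rw [h2]
      by_cases hk : k = j
      · rw [if_pos hk]
        refine (IsUltrametricDist.norm_add_le_max _ _).trans (max_le (h j) ?_)
        rw [norm_mul]
        calc ‖c‖ * ‖ratio R i‖ ≤ 1 * (p : ℝ) ^ (-(r : ℤ)) := mul_le_mul hc (h i) (norm_nonneg _) zero_le_one
          _ = _ := one_mul _
      · rw [if_neg hk]
        exact h k
  have h4 : Schur (R * transvection i.castSucc j.castSucc c) = Schur R * transvection i j c := by
    funext a b
    rw [mul_transvection]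
    simp only [Schur, h1, h2, mul_transvection]
    by_cases hb : b = j
    · subst hb
      rw [if_pos rfl, if_pos rfl, if_pos rfl]
      ring
    · rw [if_neg (fun h => hb (Fin.castSucc_injective _ h)), if_neg hb, if_neg hb]
  simp only [Op, h1, h4, ind, h3]

theorem op_bdd {m N : ℕ} {η : ℚ_[p] →*₀ C} (hη : Continuous η) (h1 : ‖η (p : ℚ_[p])‖ < 1)
    {γ : (Fin N → ℚ_[p]) → C} {a B : ℝ} (ha : ∀ y, ‖γ y‖ ≤ a)
    (hγ0 : ∀ y, (∃ j, 1 < ‖y j‖) → γ y = 0)
    {ψ : Matrix (Fin m) (Fin N) ℚ_[p] → C} (hB0 : 0 ≤ B)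
    (hB : ∀ A : Matrix (Fin m) (Fin N) ℚ_[p], IntM A → ‖ψ A‖ ≤ B)
    (R : Matrix (Fin (m + 1)) (Fin (N + 1)) ℚ_[p]) (hR : IntM R) :
    ‖Op η γ ψ R‖ ≤ a * B := by
  have ha0 : 0 ≤ a := (norm_nonneg _).trans (ha 0)
  by_cases h : ∃ j, 1 < ‖ratio R j‖
  · simp only [Op, hγ0 _ h, mul_zero, zero_mul, norm_zero]
    positivity
  · push Not at h
    have hS : IntM (Schur R) := fun i j => OpA_schur_le R zero_le_one hR h i j
    have h1 := norm_char_le_one hη h1 (hR (Fin.last m) (Fin.last N))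
    unfold Op
    rw [norm_mul, norm_mul]
    calc ‖η (R (Fin.last m) (Fin.last N))‖ * ‖γ (ratio R)‖ * ‖ψ (Schur R)‖ ≤ 1 * a * B := by
          apply mul_le_mul (mul_le_mul h1 (ha _) (norm_nonneg _) zero_le_one) (hB _ hS) (norm_nonneg _)
          positivity
      _ = a * B := by ring

theorem op_add_left {m N : ℕ} (η : ℚ_[p] →*₀ C) (γ γ' : (Fin N → ℚ_[p]) → C)
    (ψ : Matrix (Fin m) (Fin N) ℚ_[p] → C) :
    Op η (γ + γ') ψ = Op η γ ψ + Op η γ' ψ := by
  funext R
  simp only [Op, Pi.add_apply]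
  ring

theorem op_sub_left {m N : ℕ} (η : ℚ_[p] →*₀ C) (γ γ' : (Fin N → ℚ_[p]) → C)
    (ψ : Matrix (Fin m) (Fin N) ℚ_[p] → C) :
    Op η (γ - γ') ψ = Op η γ ψ - Op η γ' ψ := by
  funext R
  simp only [Op, Pi.sub_apply]
  ring

theorem op_smul_left {m N : ℕ} (η : ℚ_[p] →*₀ C) (a : C) (γ : (Fin N → ℚ_[p]) → C)
    (ψ : Matrix (Fin m) (Fin N) ℚ_[p] → C) :
    Op η (a • γ) ψ = a • Op η γ ψ := by
  funext R
  simp only [Op, Pi.smul_apply, smul_eq_mul]
  ring

theorem op_sum_left {m N : ℕ} (η : ℚ_[p] →*₀ C) {ι : Type*} (s : Finset ι)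
    (γ : ι → (Fin N → ℚ_[p]) → C) (ψ : Matrix (Fin m) (Fin N) ℚ_[p] → C) :
    Op η (∑ i ∈ s, γ i) ψ = ∑ i ∈ s, Op η (γ i) ψ := by
  funext R
  simp only [Op, Finset.sum_apply, Finset.mul_sum, Finset.sum_mul]

theorem continuous_ind {N : ℕ} (r : ℕ) : Continuous (ind (p := p) (C := C) (N := N) r) := by
  unfold ind
  refine Continuous.if ?_ continuous_const continuous_const
  have h : IsClopen {y : Fin N → ℚ_[p] | ∀ j, ‖y j‖ ≤ (p : ℝ) ^ (-(r : ℤ))} := by
    have e : {y : Fin N → ℚ_[p] | ∀ j, ‖y j‖ ≤ (p : ℝ) ^ (-(r : ℤ))} =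
        ⋂ j, {y : Fin N → ℚ_[p] | ‖y j‖ ≤ (p : ℝ) ^ (-(r : ℤ))} := by
      ext y
      simp
    rw [e]
    exact isClopen_iInter_of_finite fun j => OpA_clopen j r
  rw [h.frontier_eq]
  intro a ha
  exact absurd ha (Set.notMem_empty a)

theorem continuous_E {m : ℕ} (r s : ℕ) : Continuous (E (p := p) (C := C) (m := m) r s) := by
  unfold E
  refine Continuous.if ?_ continuous_const continuous_const
  have h : IsClopen {y : Fin (m + 1) → ℚ_[p] | ‖y 0‖ ≤ (p : ℝ) ^ (-(r : ℤ)) ∧
      ∀ j : Fin m, ‖y j.succ‖ ≤ (p : ℝ) ^ (-(s : ℤ))} := by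
    have e : {y : Fin (m + 1) → ℚ_[p] | ‖y 0‖ ≤ (p : ℝ) ^ (-(r : ℤ)) ∧
        ∀ j : Fin m, ‖y j.succ‖ ≤ (p : ℝ) ^ (-(s : ℤ))} =
        {y : Fin (m + 1) → ℚ_[p] | ‖y 0‖ ≤ (p : ℝ) ^ (-(r : ℤ))} ∩
        ⋂ j : Fin m, {y : Fin (m + 1) → ℚ_[p] | ‖y j.succ‖ ≤ (p : ℝ) ^ (-(s : ℤ))} := by
      ext y
      simp
    rw [e]
    exact (OpA_clopen 0 r).inter (isClopen_iInter_of_finite fun j => OpA_clopen j.succ s)
  rw [h.frontier_eq]
  intro a ha
  exact absurd ha (Set.notMem_empty a)

theorem E_self {m : ℕ} (r : ℕ) : E (p := p) (C := C) (m := m) r r = ind r := by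
  funext y
  unfold E ind
  have h : (‖y 0‖ ≤ (p : ℝ) ^ (-(r : ℤ)) ∧ ∀ j : Fin m, ‖y j.succ‖ ≤ (p : ℝ) ^ (-(r : ℤ))) ↔
      ∀ j, ‖y j‖ ≤ (p : ℝ) ^ (-(r : ℤ)) := by
    rw [Fin.forall_fin_succ]
  simp only [h]

end

end Pool.Agent.Lib.MP_f399a8_nt
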