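import Pool.Agent.Lib.MP_f399a8_nt.SLDef

/-!
# Reducibility of the continuous principal series of `SL_n(ℚ_p)`: definitions
-/

namespace Pool.Agent.Lib.MP_f399a8_nt

open Matrix Filter Topology

/-- `SL_n(ℚ_p)` -/
abbrev SLp (p n : ℕ) [Fact p.Prime] : Type := SpecialLinearGroup (Fin n) ℚ_[p]

/-- the diagonal torus of `SL_n(ℚ_p)`, as a type: the elements of `Torus p n` -/
def Tor (p n : ℕ) [Fact p.Prime] : Type := Torus p n

/-- the group structure of the torus is the one of the subgroup `Torus p n` -/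
noncomputable instance torGroup (p n : ℕ) [Fact p.Prime] : Group (Tor p n) :=
  Subgroup.toGroup (Torus p n)

/-- the topology of the torus is the one of the subgroup `Torus p n` -/
noncomputable instance torTop (p n : ℕ) [Fact p.Prime] : TopologicalSpace (Tor p n) :=
  instTopologicalSpaceSubtype

/-- the `i`-th diagonal entry -/
def Tor.entry {p n : ℕ} [Fact p.Prime] (t : Tor p n) (i : Fin n) : ℚ_[p]ˣ :=
  (show Torus p n from t).1 i

/-- the coroot `x ↦ diag(…, x, …, x⁻¹, …)` with `x` in place `i` and `x⁻¹` in place `j` -/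
noncomputable def cort {p n : ℕ} [Fact p.Prime] (i j : Fin n) (x : ℚ_[p]ˣ) : Tor p n := coroot i j x

variable {p : ℕ} [Fact p.Prime] {C : Type*} [NormedField C] {n : ℕ}

/-- `b` is upper triangular with diagonal `t` -/
def IsUpper (b : SLp p n) (t : Tor p n) : Prop :=
  ∀ i j : Fin n, j ≤ i → b.1 i j = if j = i then (t.entry i : ℚ_[p]) else 0

/-- `f` is in the continuous induction of `χ` from the upper triangular Borel subgroup -/
def IsPS (χ : Tor p n →* Cˣ) (f : SLp p n → C) : Prop :=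
  Continuous f ∧ ∀ (b g : SLp p n) (t : Tor p n), IsUpper b t → f (b * g) = (χ t : C) * f g

/-- `g` has entries in `ℤ_p` -/
def IsIntegral (g : SLp p n) : Prop := ∀ i j : Fin n, ‖g.1 i j‖ ≤ 1

/-- `W` is a closed (for the sup norm over `SL_n(ℤ_p)`) subspace of the continuous induction of `χ`
which is stable under right translation by `SL_n(ℚ_p)` -/
structure IsClosedSubrep (χ : Tor p n →* Cˣ) (W : Set (SLp p n → C)) : Prop where
  isPS : ∀ f ∈ W, IsPS χ f
  zero : (fun _ => 0) ∈ W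
  add : ∀ f ∈ W, ∀ f' ∈ W, (fun x => f x + f' x) ∈ W
  smul : ∀ c : C, ∀ f ∈ W, (fun x => c * f x) ∈ W
  trans : ∀ g : SLp p n, ∀ f ∈ W, (fun x => f (x * g)) ∈ W
  closed : ∀ f, IsPS χ f →
    (∀ ε : ℝ, 0 < ε → ∃ w ∈ W, ∀ x, IsIntegral x → ‖f x - w x‖ ≤ ε) → f ∈ W

/-- the continuous induction of `χ` has a closed `SL_n(ℚ_p)`-stable subspace which is neither zero
nor everything -/
def IsReducible (χ : Tor p n →* Cˣ) : Prop :=
  ∃ W : Set (SLp p n → C), IsClosedSubrep χ W ∧ (∃ f ∈ W, ∃ x, f x ≠ 0) ∧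
    ∃ f, IsPS χ f ∧ f ∉ W

/-- `|χ(α^∨(p))| > 1` for all simple roots `α` -/
def IsAntidominant (χ : Tor p n →* Cˣ) : Prop :=
  ∀ i j : Fin n, (i : ℕ) + 1 = j → 1 < ‖(χ (cort i j (pu p)) : C)‖

variable [NormedAlgebra ℚ_[p] C]

/-- for every simple root `α` there is an integer `k ≥ 0` with `χ (α^∨ (x)) = x ^ (-k)` for all `x`
close to `1` -/
def IsLocAlg (χ : Tor p n →* Cˣ) : Prop :=
  ∀ i j : Fin n, (i : ℕ) + 1 = j → ∃ k : ℕ, ∀ᶠ x : ℚ_[p]ˣ in 𝓝 1,
    (χ (cort i j x) : C) = (algebraMap ℚ_[p] C x) ^ (-(k : ℤ))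

/-- the half-sum of the positive roots as a character of the diagonal torus of
`SL_n(ℚ_p)`: `diag (t_0, …, t_{n-1}) ↦ ∏ t_i ^ (n - 1 - i)` (recall that `∏ t_i = 1`) -/
noncomputable def halfSum (t : Tor p n) : ℚ_[p]ˣ :=
  ∏ i : Fin n, t.entry i ^ (n - 1 - (i : ℕ))

/-- there are a positive root `α` and an integer `a ≤ 0` with
`(χ δ ^ (-1 / 2)) (α^∨ (x)) = x⁻¹ x ^ a` for all `x` -/
def SchneiderCond (χ : Tor p n →* Cˣ) : Prop :=
  ∃ i j : Fin n, i < j ∧ ∃ a : ℤ, a ≤ 0 ∧ ∀ x : ℚ_[p]ˣ,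
    (χ (cort i j x) : C) * (algebraMap ℚ_[p] C (halfSum (cort i j x)))⁻¹ =
      (algebraMap ℚ_[p] C x)⁻¹ * (algebraMap ℚ_[p] C x) ^ a

end Pool.Agent.Lib.MP_f399a8_nt
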