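import Pool.Agent.Lib.MP_f399a8_nt.SLFin
import Pool.Agent.Lib.MP_f399a8_nt.RepDef

/-!
# Reducibility of the continuous principal series of `SL_n(ℚ_p)`: the theorem in terms of `RepDef`
-/

namespace Pool.Agent.Lib.MP_f399a8_nt

open Matrix Filter Topology

variable {p : ℕ} [Fact p.Prime]

theorem RepFin_halfSum {n : ℕ} {i j : Fin n} (hij : i < j) (x : ℚ_[p]ˣ) :
    halfSum (cort i j x) = x ^ ((j : ℤ) - (i : ℤ)) := by
  have hne : i ≠ j := hij.ne
  have hlt : (i : ℕ) < (j : ℕ) := hij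
  have hj : (j : ℕ) < n := j.2
  have h1 : ∀ k : Fin n, (cort i j x).entry k =
      (if k = i then x else 1) * (if k = j then x⁻¹ else 1) := by
    intro k
    show (coroot i j x).1 k = _
    simp only [coroot, Pi.mul_apply, Pi.mulSingle_apply]
  have h2 : halfSum (cort i j x) =
      (∏ k : Fin n, (if k = i then x ^ (n - 1 - (k : ℕ)) else 1)) *
        ∏ k : Fin n, (if k = j then x⁻¹ ^ (n - 1 - (k : ℕ)) else 1) := by
    rw [halfSum, ← Finset.prod_mul_distrib]
    refine Finset.prod_congr rfl fun k _ => ?_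
    rw [h1, mul_pow]
    by_cases hki : k = i <;> by_cases hkj : k = j <;> simp [hki, hkj]
  rw [h2, Finset.prod_ite_eq' Finset.univ i, Finset.prod_ite_eq' Finset.univ j]
  simp only [Finset.mem_univ, if_true]
  have h3 : (j : ℤ) - (i : ℤ) = ((n - 1 - (i : ℕ) : ℕ) : ℤ) - ((n - 1 - (j : ℕ) : ℕ) : ℤ) := by
    omega
  rw [h3, _root_.zpow_sub, zpow_natCast, zpow_natCast, inv_pow]

theorem RepFin_compact (p n : ℕ) [Fact p.Prime] : IsCompact {x : SLp p n | IsIntegral x} := by
  have h1 : IsClosed {A : Matrix (Fin n) (Fin n) ℚ_[p] | A.det = 1} :=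
    isClosed_eq (Continuous.matrix_det continuous_id) continuous_const
  have h2 : Topology.IsClosedEmbedding (Subtype.val : SLp p n → Matrix (Fin n) (Fin n) ℚ_[p]) :=
    h1.isClosedEmbedding_subtypeVal
  have h3 : IsCompact {A : Matrix (Fin n) (Fin n) ℚ_[p] | ∀ i j, ‖A i j‖ ≤ 1} := by
    have h4 : {A : Matrix (Fin n) (Fin n) ℚ_[p] | ∀ i j, ‖A i j‖ ≤ 1} =
        Set.pi Set.univ (fun _ : Fin n => Set.pi Set.univ
          (fun _ : Fin n => Metric.closedBall (0 : ℚ_[p]) 1)) := by
      ext A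
      show (∀ i j, ‖A i j‖ ≤ 1) ↔ _
      constructor
      · intro h i _ j _
        exact mem_closedBall_zero_iff.2 (h i j)
      · intro h i j
        exact mem_closedBall_zero_iff.1 (h i (Set.mem_univ _) j (Set.mem_univ _))
    rw [h4]
    exact isCompact_univ_pi fun _ => isCompact_univ_pi fun _ => isCompact_closedBall _ _
  exact h2.isCompact_preimage h3

variable {C : Type*} [NormedField C]

theorem RepFin_ind {n : ℕ} (χ : Tor p n →* Cˣ)
    (F : C(SpecialLinearGroup (Fin n) ℚ_[p], C)) :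
    F ∈ Ind (χ : Torus p n →* Cˣ) ↔ IsPS χ (fun x => F x) := by
  constructor
  · intro h
    refine ⟨F.continuous, fun b g t hbt => ?_⟩
    refine h b g t (fun i j hij => ?_) (fun i => ?_)
    · have := hbt i j hij.le
      rwa [if_neg hij.ne] at this
    · have := hbt i i le_rfl
      rwa [if_pos rfl] at this
  · rintro ⟨-, h⟩ b g t hb ht
    refine h b g t (fun i j hij => ?_)
    by_cases hji : j = i
    · subst hji
      rw [if_pos rfl]
      exact ht j
    · rw [if_neg hji]
      exact hb i j (lt_of_le_of_ne hij hji)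

variable [NormedAlgebra ℚ_[p] C]

theorem rep_main {n : ℕ} (χ : Tor p n →* Cˣ) (hχ : Continuous χ) (hslope : IsAntidominant χ)
    (halg : IsLocAlg χ) (hred : IsReducible χ) : SchneiderCond χ := by
  obtain ⟨W, hW, ⟨f0, hf0, x0, hx0⟩, f1, hf1, hf1W⟩ := hred
  let W' : Submodule C C(SpecialLinearGroup (Fin n) ℚ_[p], C) :=
    { carrier := {F | (fun x => F x : SLp p n → C) ∈ W}
      add_mem' := fun {a b} ha hb => hW.add _ ha _ hb
      zero_mem' := hW.zero
      smul_mem' := fun c a ha => hW.smul c _ ha }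
  have hmem : ∀ F : C(SpecialLinearGroup (Fin n) ℚ_[p], C),
      F ∈ W' ↔ (fun x => F x : SLp p n → C) ∈ W := fun F => Iff.rfl
  have hle : W' ≤ Ind (χ : Torus p n →* Cˣ) := by
    intro F hF
    rw [RepFin_ind]
    exact hW.isPS _ hF
  have hcl : IsClosed (W' : Set C(SpecialLinearGroup (Fin n) ℚ_[p], C)) := by
    refine isClosed_of_closure_subset fun F hF => ?_
    have hps : IsPS χ (fun x => F x) := by
      refine ⟨F.continuous, fun b g t hbt => ?_⟩
      have h1 : IsClosed {F' : C(SpecialLinearGroup (Fin n) ℚ_[p], C) |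
          F' (b * g) = (χ t : C) * F' g} :=
        isClosed_eq (continuous_eval_const (b * g))
          (continuous_const.mul (continuous_eval_const g))
      have h2 : (W' : Set C(SpecialLinearGroup (Fin n) ℚ_[p], C)) ⊆
          {F' : C(SpecialLinearGroup (Fin n) ℚ_[p], C) | F' (b * g) = (χ t : C) * F' g} :=
        fun F' hF' => (hW.isPS _ hF').2 b g t hbt
      exact (closure_minimal h2 h1) hF
    refine hW.closed _ hps fun ε hε => ?_
    have h3 := (ContinuousMap.tendsto_iff_forall_isCompact_tendstoUniformlyOn.1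
      (tendsto_id (α := C(SpecialLinearGroup (Fin n) ℚ_[p], C)) (x := 𝓝 F))) _
      (RepFin_compact p n)
    have h4 := (Metric.tendstoUniformlyOn_iff.1 h3) ε hε
    have h5 := (mem_closure_iff_frequently.1 hF).and_eventually h4
    obtain ⟨F', hF', h6⟩ := h5.exists
    refine ⟨fun x => F' x, hF', fun x hx => ?_⟩
    have h7 := h6 x hx
    rw [dist_eq_norm] at h7
    exact h7.le
  have hne : W' ≠ ⊥ := by
    intro h
    have h1 : (⟨f0, (hW.isPS f0 hf0).1⟩ : C(SpecialLinearGroup (Fin n) ℚ_[p], C)) ∈ W' := hf0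
    rw [h, Submodule.mem_bot] at h1
    apply hx0
    have h2 := congrArg (fun F : C(SpecialLinearGroup (Fin n) ℚ_[p], C) => F x0) h1
    exact h2
  have hne' : W' ≠ Ind (χ : Torus p n →* Cˣ) := by
    intro h
    have h1 : (⟨f1, hf1.1⟩ : C(SpecialLinearGroup (Fin n) ℚ_[p], C)) ∈ W' := by
      rw [h, RepFin_ind]
      exact hf1
    exact hf1W h1
  obtain ⟨i, j, hij, b, hb, h⟩ := schneider_chamber (χ : Torus p n →* Cˣ) hχ hslope halg W' hle
    hcl (fun f hf g => hW.trans g _ hf) hne hne'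
  refine ⟨i, j, hij, b - ((j : ℤ) - (i : ℤ)) + 1, by omega, fun x => ?_⟩
  have hx : algebraMap ℚ_[p] C (x : ℚ_[p]) ≠ 0 :=
    (map_ne_zero (algebraMap ℚ_[p] C)).2 x.ne_zero
  have h8 : (χ (cort i j x) : C) = (algebraMap ℚ_[p] C x) ^ b := h x
  rw [h8, RepFin_halfSum hij x, Units.val_zpow_eq_zpow_val, map_zpow₀, ← _root_.zpow_neg,
    ← zpow_add₀ hx, ← _root_.zpow_neg_one, ← zpow_add₀ hx]
  congr 1
  ring

end Pool.Agent.Lib.MP_f399a8_nt
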