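import Pool.Agent.Lib.MP_f399a8_nt.SLA1

/-!
# The map from functions of the lower rows to the induced representation

See the header of `SLA1.lean` for the proofs.
-/

namespace Pool.Agent.Lib.MP_f399a8_nt

open Matrix

noncomputable section

variable {p : ℕ} [Fact p.Prime] {C : Type*} [NormedField C]

private theorem SLA_coroot_cont {n : ℕ} (i j : Fin n) :
    Continuous (fun x : ℚ_[p]ˣ => coroot (p := p) i j x) := by
  have h1 : ∀ l : Fin n, Continuous (fun x : ℚ_[p]ˣ => (Pi.mulSingle l x : Fin n → ℚ_[p]ˣ)) :=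
    fun l => continuous_mulSingle (A := fun _ : Fin n => ℚ_[p]ˣ) l
  have h2 : Continuous (fun x : ℚ_[p]ˣ => (Pi.mulSingle j x⁻¹ : Fin n → ℚ_[p]ˣ)) :=
    (h1 j).comp (continuous_inv (G := ℚ_[p]ˣ))
  exact Continuous.subtype_mk ((h1 i).mul h2) _

private theorem SLA_apply {k : ℕ} (χ : Torus p (k + 1) →* Cˣ) (i : Fin k) {x : ℚ_[p]}
    (hx : x ≠ 0) :
    lowChar χ i x = (((χ (coroot 0 i.succ (Units.mk0 x hx)))⁻¹ : Cˣ) : C) := dif_neg hx

private theorem SLA_contAt {k : ℕ} {χ : Torus p (k + 1) →* Cˣ} (hχ : Continuous χ) (i : Fin k)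
    {x : ℚ_[p]} (hx : x ≠ 0) : ContinuousAt (lowChar χ i) x := by
  have h1 : Continuous (fun u : ℚ_[p]ˣ => (((χ (coroot 0 i.succ u))⁻¹ : Cˣ) : C)) :=
    Units.continuous_val.comp (continuous_inv.comp (hχ.comp (SLA_coroot_cont _ _)))
  have h2 : (fun u : ℚ_[p]ˣ => (((χ (coroot 0 i.succ u))⁻¹ : Cˣ) : C)) =
      (lowChar χ i : ℚ_[p] → C) ∘ (Units.val : ℚ_[p]ˣ → ℚ_[p]) := by
    funext u
    have h3 : (u : ℚ_[p]) ≠ 0 := u.ne_zero
    show (((χ (coroot 0 i.succ u))⁻¹ : Cˣ) : C) = lowChar χ i (u : ℚ_[p])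
    rw [SLA_apply χ i h3, Units.mk0_val]
  have h3 := (Units.isOpenEmbedding_val (R := ℚ_[p])).continuousAt_iff (x := Units.mk0 x hx)
    (g := (lowChar χ i : ℚ_[p] → C))
  rw [← h2] at h3
  exact h3.1 h1.continuousAt

private theorem SLA_bdd {k : ℕ} {χ : Torus p (k + 1) →* Cˣ} (hχ : Continuous χ) (i : Fin k) :
    ∃ B : ℝ, 0 < B ∧ ∀ x : ℚ_[p], ‖x‖ = 1 → ‖lowChar χ i x‖ ≤ B := by
  have h1 : IsCompact (Metric.sphere (0 : ℚ_[p]) 1) := isCompact_sphere 0 1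
  have h2 : ContinuousOn (fun x : ℚ_[p] => ‖lowChar χ i x‖) (Metric.sphere (0 : ℚ_[p]) 1) := by
    intro x hx
    have h3 : x ≠ 0 := by
      rintro rfl
      simp at hx
    exact (SLA_contAt hχ i h3).norm.continuousWithinAt
  obtain ⟨B, hB⟩ := h1.bddAbove_image h2
  refine ⟨max B 1, lt_of_lt_of_le one_pos (le_max_right _ _), fun x hx => ?_⟩
  refine (hB ⟨x, ?_, rfl⟩).trans (le_max_left _ _)
  rw [mem_sphere_zero_iff_norm]
  exact hx

theorem lowChar_continuous {k : ℕ} {χ : Torus p (k + 1) →* Cˣ} (hχ : Continuous χ) (i : Fin k)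
    (h1 : ‖lowChar χ i (p : ℚ_[p])‖ < 1) : Continuous (lowChar χ i) := by
  rw [continuous_iff_continuousAt]
  intro x
  by_cases hx : x = 0
  swap
  · exact SLA_contAt hχ i hx
  subst hx
  obtain ⟨B, hB0, hB⟩ := SLA_bdd hχ i
  have hp1 : (1 : ℝ) < p := by exact_mod_cast (Fact.out : p.Prime).one_lt
  have hp0 : (p : ℚ_[p]) ≠ 0 := by exact_mod_cast (Fact.out : p.Prime).ne_zero
  rw [Metric.continuousAt_iff]
  intro ε hε
  obtain ⟨N, hN⟩ := exists_pow_lt_of_lt_one (div_pos hε hB0) h1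
  refine ⟨(p : ℝ) ^ (-(N : ℤ)), zpow_pos (by linarith) _, fun {y} hy => ?_⟩
  rw [map_zero, dist_zero_right]
  rw [dist_zero_right] at hy
  by_cases hy0 : y = 0
  · rw [hy0, map_zero, norm_zero]
    exact hε
  have h2 : ‖y‖ = (p : ℝ) ^ (-y.valuation) := Padic.norm_eq_zpow_neg_valuation hy0
  have h3 : (N : ℤ) < y.valuation := by
    rw [h2] at hy
    have := (zpow_lt_zpow_iff_right₀ hp1).1 hy
    omega
  obtain ⟨v, hv⟩ := Int.eq_ofNat_of_zero_le (show 0 ≤ y.valuation by omega)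
  have hvN : N ≤ v := by omega
  have h4 : y = (p : ℚ_[p]) ^ v * (y / (p : ℚ_[p]) ^ v) := by
    rw [mul_div_cancel₀]
    exact pow_ne_zero _ hp0
  have h5 : ‖y / (p : ℚ_[p]) ^ v‖ = 1 := by
    rw [norm_div, norm_pow, h2, hv, Padic.norm_p, _root_.zpow_neg, _root_.zpow_natCast, inv_pow]
    exact div_self (inv_ne_zero (pow_ne_zero _ (by linarith)))
  rw [h4, map_mul, map_pow, norm_mul, norm_pow]
  calc ‖lowChar χ i (p : ℚ_[p])‖ ^ v * ‖lowChar χ i (y / (p : ℚ_[p]) ^ v)‖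
      ≤ ‖lowChar χ i (p : ℚ_[p])‖ ^ N * B :=
        mul_le_mul (pow_le_pow_of_le_one (norm_nonneg _) h1.le hvN) (hB _ h5) (norm_nonneg _)
          (pow_nonneg (norm_nonneg _) _)
    _ < ε / B * B := mul_lt_mul_of_pos_right hN hB0
    _ = ε := div_mul_cancel₀ _ hB0.ne'

theorem lowMap_mem {k : ℕ} {χ : Torus p (k + 1) →* Cˣ} (f : PSM k (k + 1) (lowChar χ)) :
    lowMap f ∈ Ind χ := by
  intro b g t hb ht
  have h1 : (b * g).1.submatrix (Fin.succ : Fin k → Fin (k + 1)) id =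
      b.1.submatrix Fin.succ Fin.succ * g.1.submatrix Fin.succ id := by
    ext i l
    show (b.1 * g.1) i.succ l = _
    rw [Matrix.mul_apply, Fin.sum_univ_succ, hb i.succ 0 (Fin.succ_pos i), zero_mul, zero_add,
      Matrix.mul_apply]
    rfl
  show f.1 ((b * g).1.submatrix Fin.succ id) = ((χ t : Cˣ) : C) * f.1 (g.1.submatrix Fin.succ id)
  have h2 := psm_tri f.2 (b.1.submatrix Fin.succ Fin.succ)
    (fun i j hij => hb i.succ j.succ (Fin.succ_lt_succ_iff.2 hij)) (g.1.submatrix Fin.succ id)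
  have h3 : ∏ i, lowChar χ i (b.1.submatrix Fin.succ Fin.succ i i) = ((χ t : Cˣ) : C) := by
    rw [torus_char]
    refine Finset.prod_congr rfl fun i _ => ?_
    rw [← ht i.succ]
    rfl
  rw [h3] at h2
  exact (congrArg f.1 h1).trans h2

theorem lowMap_rtrans {k : ℕ} {χ : Torus p (k + 1) →* Cˣ} (f : PSM k (k + 1) (lowChar χ))
    (g : SpecialLinearGroup (Fin (k + 1)) ℚ_[p]) :
    rtrans g (lowMap f) = lowMap ⟨fun R => f.1 (R * g.1), psm_right f.2 g.1⟩ := by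
  ext x
  rfl

end

end Pool.Agent.Lib.MP_f399a8_nt
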