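import Pool.Agent.Lib.MP_f399a8_nt.SLDef
import Pool.Agent.Lib.MP_f399a8_nt.BasA

/-!
# Torus characters, upper triangular matrices

PROOFS.
`torus_char`: `t = ∏_{i : Fin k} (coroot 0 i.succ (t i.succ))⁻¹` in the torus (place `i.succ`: the
factor `i` contributes `t i.succ`; place `0`: `∏ (t i.succ)⁻¹ = t 0` as `∏ t = 1`).
`psm_tri`: `U` upper triangular, nonzero diagonal, `f (U * R) = (∏ χ i (U i i)) * f R`.  Induction:
e.g. treat the rows from the top: row `i` of `U * R` is `U i i • R i + ∑_{j > i} U i j • R j`.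
Successively for `i = 0, 1, …` replace row `i` of the current matrix (rows `< i` already those of
`U * R`, rows `≥ i` those of `R`) by row `i` of `U * R`: add multiples of the lower rows
`R j, j > i` after scaling.
`lowChar_continuous`: at `x ≠ 0`: `coroot` is continuous in the unit `x`, `χ` is continuous.  At `0`:
`‖η x‖ = ‖η p‖ ^ v` for `‖x‖ = p ^ (-v)`, `v ≥ 0` (units have `‖η u‖ = 1` by compactness of the group
of units); tends to `0`.
`lowMap_mem`: `(b * g)` without row `0` is `U * (g without row 0)` with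
`U i j = b i.succ j.succ` (as `b i.succ 0 = 0`); `psm_tri` and `torus_char`.
-/

namespace Pool.Agent.Lib.MP_f399a8_nt

open Matrix

noncomputable section

variable {p : ℕ} [Fact p.Prime] {C : Type*} [NormedField C]

theorem SLA1_lowChar_unit {k : ℕ} (χ : Torus p (k + 1) →* Cˣ) (i : Fin k) (u : ℚ_[p]ˣ) :
    lowChar χ i (u : ℚ_[p]) = (((χ (coroot 0 i.succ u))⁻¹ : Cˣ) : C) := by
  have hu : (u : ℚ_[p]) ≠ 0 := u.ne_zero
  have h1 : Units.mk0 (u : ℚ_[p]) hu = u := Units.ext rfl
  refine (dif_neg hu).trans ?_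
  rw [h1]

theorem SLA1_torus_prod {k : ℕ} (t : Torus p (k + 1)) :
    t = ∏ i : Fin k, (coroot 0 i.succ (t.1 i.succ))⁻¹ := by
  apply Subtype.ext
  funext j
  have hval : ((∏ i : Fin k, (coroot 0 i.succ (t.1 i.succ))⁻¹ : Torus p (k + 1)) :
      Fin (k + 1) → ℚ_[p]ˣ) j = ∏ i : Fin k, ((coroot 0 i.succ (t.1 i.succ)).1 j)⁻¹ := by
    rw [Subgroup.val_finsetProd, Finset.prod_apply]
    rfl
  rw [hval]
  refine Fin.cases ?_ (fun l => ?_) j
  · have h1 : ∀ i : Fin k, ((coroot 0 i.succ (t.1 i.succ)).1 0)⁻¹ = (t.1 i.succ)⁻¹ := by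
      intro i
      have : (coroot 0 i.succ (t.1 i.succ)).1 0 = t.1 i.succ := by
        simp only [coroot, Pi.mul_apply, Pi.mulSingle_eq_same]
        rw [Pi.mulSingle_eq_of_ne (Fin.succ_ne_zero i).symm, mul_one]
      rw [this]
    rw [Finset.prod_congr rfl (fun i _ => h1 i), Finset.prod_inv_distrib]
    have h2 : ∏ i, t.1 i = 1 := t.2
    rw [Fin.prod_univ_succ] at h2
    exact eq_inv_of_mul_eq_one_left h2
  · have h1 : ∀ i : Fin k, i ≠ l → ((coroot 0 i.succ (t.1 i.succ)).1 l.succ)⁻¹ = 1 := by
      intro i hi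
      have : (coroot 0 i.succ (t.1 i.succ)).1 l.succ = 1 := by
        simp only [coroot, Pi.mul_apply]
        rw [Pi.mulSingle_eq_of_ne (Fin.succ_ne_zero l),
          Pi.mulSingle_eq_of_ne (fun h => hi (Fin.succ_injective _ h).symm), mul_one]
      rw [this, inv_one]
    rw [Finset.prod_eq_single l (fun i _ hi => h1 i hi) (by simp)]
    simp only [coroot, Pi.mul_apply, Pi.mulSingle_eq_same]
    rw [Pi.mulSingle_eq_of_ne (Fin.succ_ne_zero l), one_mul, inv_inv]

theorem torus_char {k : ℕ} (χ : Torus p (k + 1) →* Cˣ) (t : Torus p (k + 1)) :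
    ((χ t : Cˣ) : C) = ∏ i : Fin k, lowChar χ i ((t.1 i.succ : ℚ_[p]ˣ) : ℚ_[p]) := by
  conv_lhs => rw [SLA1_torus_prod t]
  rw [map_prod, Units.coe_prod]
  refine Finset.prod_congr rfl fun i _ => ?_
  rw [SLA1_lowChar_unit, map_inv]

/-- `coroot 0 j = coroot 0 i * coroot i j` -/
theorem coroot_trans {n : ℕ} (i j l : Fin n) (x : ℚ_[p]ˣ) :
    coroot i l x = coroot i j x * coroot j l x := by
  apply Subtype.ext
  show (Pi.mulSingle i x * Pi.mulSingle l x⁻¹ : Fin n → ℚ_[p]ˣ) =
    (Pi.mulSingle i x * Pi.mulSingle j x⁻¹) * (Pi.mulSingle j x * Pi.mulSingle l x⁻¹)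
  have h : (Pi.mulSingle j x⁻¹ * Pi.mulSingle j x : Fin n → ℚ_[p]ˣ) = 1 := by
    rw [← Pi.mulSingle_mul, inv_mul_cancel, Pi.mulSingle_one]
  calc (Pi.mulSingle i x * Pi.mulSingle l x⁻¹ : Fin n → ℚ_[p]ˣ)
      = Pi.mulSingle i x * (Pi.mulSingle j x⁻¹ * Pi.mulSingle j x) * Pi.mulSingle l x⁻¹ := by
        rw [h, mul_one]
    _ = _ := by simp only [mul_assoc]

theorem SLA1_add_rows {m N : ℕ} {χ : Fin m → ℚ_[p] →*₀ C}
    {f : Matrix (Fin m) (Fin N) ℚ_[p] → C} (hf : f ∈ PSM m N χ) (i : Fin m) (c : Fin m → ℚ_[p])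
    (s : Finset (Fin m)) (hs : ∀ j ∈ s, i < j) (R : Matrix (Fin m) (Fin N) ℚ_[p]) :
    f (R.updateRow i (R i + ∑ j ∈ s, c j • R j)) = f R := by
  classical
  induction s using Finset.induction_on with
  | empty => simp
  | insert j s hj ih =>
    have hij : i < j := hs j (Finset.mem_insert_self j s)
    have ih' := ih (fun l hl => hs l (Finset.mem_insert_of_mem hl))
    rw [Finset.sum_insert hj, ← ih', ← hf.2.2 (R.updateRow i (R i + ∑ j ∈ s, c j • R j)) i j hij
      (c j)]
    congr 1
    rw [Matrix.updateRow_self, Matrix.updateRow_ne hij.ne', Matrix.updateRow_idem]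
    congr 1
    abel

theorem SLA1_row_op {m N : ℕ} {χ : Fin m → ℚ_[p] →*₀ C}
    {f : Matrix (Fin m) (Fin N) ℚ_[p] → C} (hf : f ∈ PSM m N χ) (i : Fin m) (a : ℚ_[p])
    (c : Fin m → ℚ_[p]) (s : Finset (Fin m)) (hs : ∀ j ∈ s, i < j)
    (R : Matrix (Fin m) (Fin N) ℚ_[p]) :
    f (R.updateRow i (a • R i + ∑ j ∈ s, c j • R j)) = χ i a * f R := by
  rw [← hf.2.1 R i a, ← SLA1_add_rows hf i c s hs (R.updateRow i (a • R i))]
  congr 1
  rw [Matrix.updateRow_self, Matrix.updateRow_idem]
  congr 2
  refine Finset.sum_congr rfl fun j hj => ?_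
  rw [Matrix.updateRow_ne (hs j hj).ne']

theorem psm_tri {m N : ℕ} {χ : Fin m → ℚ_[p] →*₀ C}
    {f : Matrix (Fin m) (Fin N) ℚ_[p] → C} (hf : f ∈ PSM m N χ)
    (U : Matrix (Fin m) (Fin m) ℚ_[p]) (hU : ∀ i j, j < i → U i j = 0)
    (R : Matrix (Fin m) (Fin N) ℚ_[p]) : f (U * R) = (∏ i, χ i (U i i)) * f R := by
  classical
  have key : ∀ k : ℕ, k ≤ m →
      f (Matrix.of fun i : Fin m => if i.val < k then (U * R) i else R i) =
        (∏ i with i.val < k, χ i (U i i)) * f R := by
    intro k
    induction k with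
    | zero =>
      intro _
      simp only [Nat.not_lt_zero, if_false, Finset.filter_false, Finset.prod_empty, one_mul]
      rfl
    | succ k ih =>
      intro hk
      have ih' := ih (by omega)
      obtain ⟨i0, hi0⟩ : ∃ i0 : Fin m, i0.val = k := ⟨⟨k, by omega⟩, rfl⟩
      have hset : (Finset.univ.filter fun i : Fin m => i.val < k + 1) =
          insert i0 (Finset.univ.filter fun i : Fin m => i.val < k) := by
        ext i
        simp only [Finset.mem_filter, Finset.mem_univ, true_and, Finset.mem_insert, Fin.ext_iff,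
          hi0]
        omega
      have hnot : i0 ∉ (Finset.univ.filter fun i : Fin m => i.val < k) := by
        simp [hi0]
      rw [hset, Finset.prod_insert hnot, mul_assoc, ← ih',
        ← SLA1_row_op hf i0 (U i0 i0) (U i0) (Finset.univ.filter fun j => i0 < j) (by simp)]
      congr 1
      ext i j
      by_cases hi : i = i0
      · subst hi
        rw [Matrix.updateRow_self]
        have e1 : (Matrix.of fun i : Fin m => if i.val < k + 1 then (U * R) i else R i) i j =
            (U * R) i j := by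
          simp only [Matrix.of_apply]
          rw [if_pos (by omega)]
        have e2 : (Matrix.of fun i : Fin m => if i.val < k then (U * R) i else R i) i j =
            R i j := by
          simp only [Matrix.of_apply]
          rw [if_neg (by omega)]
        rw [e1, Matrix.mul_apply, Pi.add_apply, Pi.smul_apply, Finset.sum_apply, smul_eq_mul, e2]
        have hsplit : ∀ l : Fin m, l ≠ i → ¬ (i < l) → U i l * R l j = 0 := by
          intro l h1 h2
          rw [hU i l (lt_of_le_of_ne (not_lt.mp h2) h1), zero_mul]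
        rw [← Finset.add_sum_erase Finset.univ (fun l => U i l * R l j) (Finset.mem_univ i)]
        congr 1
        rw [← Finset.sum_filter_add_sum_filter_not (Finset.univ.erase i) (fun l => i < l)]
        rw [Finset.sum_eq_zero (s := (Finset.univ.erase i).filter fun l => ¬ (i < l))
          (fun l hl => by
            simp only [Finset.mem_filter, Finset.mem_erase, Finset.mem_univ, and_true] at hl
            exact hsplit l hl.1 hl.2), add_zero]
        refine Finset.sum_congr ?_ fun l hl => ?_
        · ext l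
          simp only [Finset.mem_filter, Finset.mem_erase, Finset.mem_univ, and_true, true_and]
          constructor
          · rintro ⟨_, h⟩; exact h
          · intro h; exact ⟨(ne_of_gt h), h⟩
        · simp only [Finset.mem_filter, Finset.mem_univ, true_and, Fin.lt_def] at hl
          have e3 : (Matrix.of fun i : Fin m => if i.val < k then (U * R) i else R i) l j =
              R l j := by
            simp only [Matrix.of_apply]
            rw [if_neg (by omega)]
          rw [Pi.smul_apply, smul_eq_mul, e3]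
      · rw [Matrix.updateRow_ne hi]
        have hne : i.val ≠ k := fun h => hi (Fin.ext (h.trans hi0.symm))
        simp only [Matrix.of_apply]
        by_cases h : i.val < k
        · rw [if_pos (by omega), if_pos h]
        · rw [if_neg (by omega), if_neg h]
  have h := key m le_rfl
  have h1 : (Matrix.of fun i : Fin m => if i.val < m then (U * R) i else R i) = U * R := by
    ext i j
    simp
  have h2 : (Finset.univ.filter fun i : Fin m => i.val < m) = Finset.univ := by
    ext i
    simp
  rw [h1, h2] at h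
  exact h

end

end Pool.Agent.Lib.MP_f399a8_nt
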