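import Pool.Agent.Lib.MP_f399a8_nt.SLB1

/-!
# Closed subspaces

See the header of `SLB1.lean` for the proofs.
-/

namespace Pool.Agent.Lib.MP_f399a8_nt

open Matrix

noncomputable section

variable {p : ℕ} [Fact p.Prime] {C : Type*} [NormedField C]

/-- the preimage of a subspace under `lowMap`, as a space of functions -/
def comapLow {k : ℕ} {χ : Torus p (k + 1) →* Cˣ}
    (W : Submodule C C(SpecialLinearGroup (Fin (k + 1)) ℚ_[p], C)) :
    Submodule C (Matrix (Fin k) (Fin (k + 1)) ℚ_[p] → C) :=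
  (W.comap (lowMap (χ := χ))).map (PSM k (k + 1) (lowChar χ)).subtype

theorem mem_comapLow {k : ℕ} {χ : Torus p (k + 1) →* Cˣ}
    {W : Submodule C C(SpecialLinearGroup (Fin (k + 1)) ℚ_[p], C)}
    {f : Matrix (Fin k) (Fin (k + 1)) ℚ_[p] → C} :
    f ∈ comapLow (χ := χ) W ↔ ∃ h : f ∈ PSM k (k + 1) (lowChar χ), lowMap ⟨f, h⟩ ∈ W := by
  constructor
  · intro h
    obtain ⟨y, hy, rfl⟩ := Submodule.mem_map.1 h
    exact ⟨y.2, hy⟩
  · rintro ⟨h, hW⟩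
    exact Submodule.mem_map.2 ⟨⟨f, h⟩, hW, rfl⟩

theorem SLB_scale {m N : ℕ} {χ : Fin m → ℚ_[p] →*₀ C}
    {f : Matrix (Fin m) (Fin N) ℚ_[p] → C} (hf : f ∈ PSM m N χ) (c : ℚ_[p])
    (R : Matrix (Fin m) (Fin N) ℚ_[p]) : f (c • R) = (∏ i, χ i c) * f R := by
  have h := psm_tri hf (Matrix.diagonal fun _ => c)
    (fun i j hij => Matrix.diagonal_apply_ne _ (ne_of_gt hij)) R
  have h1 : (Matrix.diagonal fun _ => c : Matrix (Fin m) (Fin m) ℚ_[p]) * R = c • R := by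
    ext i j
    rw [Matrix.diagonal_mul, Matrix.smul_apply, smul_eq_mul]
  rw [h1] at h
  simpa only [Matrix.diagonal_apply_eq] using h

theorem SLB_bound {k : ℕ} {K : Set (SpecialLinearGroup (Fin (k + 1)) ℚ_[p])} (hK : IsCompact K) :
    ∃ M : ℕ, ∀ g ∈ K, ∀ i j, ‖g.1 i j‖ ≤ (p : ℝ) ^ M := by
  have hc : Continuous (fun g : SpecialLinearGroup (Fin (k + 1)) ℚ_[p] =>
      (fun i j => g.1 i j : Fin (k + 1) → Fin (k + 1) → ℚ_[p])) := by
    refine continuous_pi fun i => continuous_pi fun j => ?_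
    fun_prop
  obtain ⟨B, hB⟩ := hK.exists_bound_of_continuousOn hc.continuousOn
  have hp : (1 : ℝ) < p := by exact_mod_cast (Fact.out : p.Prime).one_lt
  obtain ⟨M, hM⟩ := pow_unbounded_of_one_lt B hp
  refine ⟨M, fun g hg i j => ?_⟩
  have h1 := hB g hg
  have h2 : ‖g.1 i j‖ ≤ ‖(fun j => g.1 i j : Fin (k + 1) → ℚ_[p])‖ :=
    norm_le_pi_norm (fun j => g.1 i j : Fin (k + 1) → ℚ_[p]) j
  have h3 : ‖(fun j => g.1 i j : Fin (k + 1) → ℚ_[p])‖ ≤
      ‖(fun i j => g.1 i j : Fin (k + 1) → Fin (k + 1) → ℚ_[p])‖ :=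
    norm_le_pi_norm (fun i j => g.1 i j : Fin (k + 1) → Fin (k + 1) → ℚ_[p]) i
  linarith

theorem closed_comap {k : ℕ} {χ : Torus p (k + 1) →* Cˣ} (hs : Small (lowChar χ))
    {W : Submodule C C(SpecialLinearGroup (Fin (k + 1)) ℚ_[p], C)}
    (hW : IsClosed (W : Set C(SpecialLinearGroup (Fin (k + 1)) ℚ_[p], C))) :
    ClosedU (lowChar χ) (comapLow (χ := χ) W) := by
  intro f hf hnear
  rw [mem_comapLow]
  refine ⟨hf, ?_⟩
  have hn : ∀ n : ℕ, ∃ w : Matrix (Fin k) (Fin (k + 1)) ℚ_[p] → C,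
      ∃ hw : w ∈ PSM k (k + 1) (lowChar χ), lowMap ⟨w, hw⟩ ∈ W ∧
        ∀ R : Matrix (Fin k) (Fin (k + 1)) ℚ_[p], IntM R → ‖f R - w R‖ ≤ 1 / ((n : ℝ) + 1) := by
    intro n
    obtain ⟨w, hwX, hw⟩ := hnear (1 / ((n : ℝ) + 1)) (by positivity)
    obtain ⟨h1, h2⟩ := mem_comapLow.1 hwX
    exact ⟨w, h1, h2, hw⟩
  choose w hwP hwW hwR using hn
  refine hW.mem_of_tendsto (f := fun n => lowMap ⟨w n, hwP n⟩) (b := Filter.atTop) ?_
    (Filter.Eventually.of_forall hwW)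
  rw [ContinuousMap.tendsto_iff_forall_isCompact_tendstoUniformlyOn]
  intro K hK
  obtain ⟨M, hM⟩ := SLB_bound hK
  have hp0 : (p : ℚ_[p]) ≠ 0 := by exact_mod_cast (Fact.out : p.Prime).ne_zero
  have hpr : (0 : ℝ) < p := by exact_mod_cast (Fact.out : p.Prime).pos
  set P : C := ∏ i, lowChar χ i ((p : ℚ_[p]) ^ M) with hP
  have hP0 : P ≠ 0 := by
    rw [hP, Finset.prod_ne_zero_iff]
    intro i _
    rw [map_ne_zero]
    exact pow_ne_zero _ hp0
  have hPn : 0 < ‖P‖ := norm_pos_iff.2 hP0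
  rw [Metric.tendstoUniformlyOn_iff]
  intro ε hε
  obtain ⟨n₀, hn₀⟩ := exists_nat_one_div_lt (mul_pos hPn hε)
  filter_upwards [Filter.eventually_ge_atTop n₀] with n hnn g hg
  show dist (f (g.1.submatrix Fin.succ id)) (w n (g.1.submatrix Fin.succ id)) < ε
  set R : Matrix (Fin k) (Fin (k + 1)) ℚ_[p] := g.1.submatrix Fin.succ id with hR
  have hint : IntM (((p : ℚ_[p]) ^ M) • R) := by
    intro i j
    rw [Matrix.smul_apply, smul_eq_mul, norm_mul, norm_pow, Padic.norm_p, inv_pow]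
    have h1 : ‖R i j‖ ≤ (p : ℝ) ^ M := hM g hg i.succ j
    rw [inv_mul_le_iff₀ (by positivity), mul_one]
    exact h1
  have h2 := hwR n _ hint
  rw [SLB_scale hf, SLB_scale (hwP n), ← hP, ← mul_sub, norm_mul] at h2
  have h3 : (1 : ℝ) / ((n : ℝ) + 1) ≤ 1 / ((n₀ : ℝ) + 1) := by
    apply one_div_le_one_div_of_le (by positivity)
    have : (n₀ : ℝ) ≤ n := by exact_mod_cast hnn
    linarith
  rw [dist_eq_norm]
  have h4 : ‖P‖ * ‖f R - w n R‖ < ‖P‖ * ε := by linarith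
  exact lt_of_mul_lt_mul_left h4 hPn.le

end

end Pool.Agent.Lib.MP_f399a8_nt
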