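import Pool.Agent.Lib.MP_f399a8_nt.SLA
import Pool.Agent.Lib.MP_f399a8_nt.Ext

/-!
# Surjectivity of `lowMap`, closed subspaces

PROOFS.
`lowMap_surj`: for `R : k × (k + 1)` with independent rows there is a row `r` with
`det (Fin.cons r R) = 1`; put `F R := f ⟨Fin.cons r R, _⟩`, and `F R = 0` for dependent rows.
Independent of `r`: for two choices `det (Fin.cons (r - r') R) = 0`, so `r - r'` is a combination of
the rows of `R`, and the two matrices differ by an upper unitriangular matrix `b` on the left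
(`t = 1`).  Scaling row `i` of `R` by `c ≠ 0`: `b = diagonal` with `c` in place `i.succ` and `c⁻¹`
in place `0`, `χ t = lowChar χ i c`; for `c = 0` both sides vanish.  Adding `c *` row `j` to row `i`:
`b` unitriangular.  Continuity on independent rows: near `R₀` use the row
`r = (det (Fin.cons r₀ R))⁻¹ • r₀`.  Then `ext_psm` gives `F ∈ PSM`, and `lowMap F = f` because
`F (g without row 0) = f g` (choose `r = g 0`).
`closed_comap`: let `f ∈ PSM` be within `ε` of `X = {f | lowMap f ∈ W}` for all `ε > 0`; take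
`w_n ∈ X` with `ε = 1 / (n + 1)`.  `lowMap w_n → lowMap f` uniformly on compact sets: on a compact
set `S` the entries of `g` are bounded by some `p ^ M`, and
`f (p ^ M • R) = (∏ χ i p) ^ M * f R`, so
`‖f R - w_n R‖ ≤ ‖∏ χ i p‖⁻¹ ^ M / (n + 1)` for the lower rows `R` of `g ∈ S`
(`ContinuousMap.tendsto_iff_forall_isCompact_tendstoUniformlyOn`, `IsClosed.mem_of_tendsto`).
-/

namespace Pool.Agent.Lib.MP_f399a8_nt

open Matrix

noncomputable section

variable {p : ℕ} [Fact p.Prime] {C : Type*} [NormedField C]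

/-- the matrix with first row `r` and lower rows `R` -/
def SLB1_cons {k : ℕ} (r : Fin (k + 1) → ℚ_[p]) (R : Matrix (Fin k) (Fin (k + 1)) ℚ_[p]) :
    Matrix (Fin (k + 1)) (Fin (k + 1)) ℚ_[p] :=
  Matrix.of (Fin.cons r (fun i => R i) : Fin (k + 1) → Fin (k + 1) → ℚ_[p])

theorem SLB1_cons_sub {k : ℕ} (r : Fin (k + 1) → ℚ_[p])
    (R : Matrix (Fin k) (Fin (k + 1)) ℚ_[p]) :
    (SLB1_cons r R).submatrix Fin.succ id = R := by
  ext i j
  simp [SLB1_cons]

theorem SLB1_cons_continuous {k : ℕ} :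
    Continuous (fun q : (Fin (k + 1) → ℚ_[p]) × Matrix (Fin k) (Fin (k + 1)) ℚ_[p] =>
      SLB1_cons q.1 q.2) := by
  refine continuous_matrix (fun i j => ?_)
  refine Fin.cases ?_ (fun i => ?_) i
  · simp only [SLB1_cons, of_apply, Fin.cons_zero]
    fun_prop
  · simp only [SLB1_cons, of_apply, Fin.cons_succ]
    exact (continuous_apply_apply i j).comp continuous_snd

theorem SLB1_key {k : ℕ} {χ : Torus p (k + 1) →* Cˣ}
    {f : C(SpecialLinearGroup (Fin (k + 1)) ℚ_[p], C)} (hf : f ∈ Ind χ)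
    (g g' : SpecialLinearGroup (Fin (k + 1)) ℚ_[p]) (U : Matrix (Fin k) (Fin k) ℚ_[p])
    (hU : ∀ i j, j < i → U i j = 0)
    (h : g'.1.submatrix Fin.succ id = U * g.1.submatrix Fin.succ id) :
    f g' = (∏ i, lowChar χ i (U i i)) * f g := by
  set b : SpecialLinearGroup (Fin (k + 1)) ℚ_[p] := g' * g⁻¹ with hb
  have hbg : b * g = g' := by rw [hb]; group
  have h1 : b.1.submatrix Fin.succ id =
      U * (1 : Matrix (Fin (k + 1)) (Fin (k + 1)) ℚ_[p]).submatrix Fin.succ id := by
    have h2 : b.1 = g'.1 * (g⁻¹).1 := rfl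
    have h3 : g.1 * (g⁻¹).1 = 1 := congrArg Subtype.val (mul_inv_cancel g)
    have h4 : b.1.submatrix Fin.succ id = (g'.1.submatrix Fin.succ id) * (g⁻¹).1 := by
      rw [h2]
      ext i j
      simp [Matrix.mul_apply]
    rw [h4, h, Matrix.mul_assoc]
    congr 1
    rw [← h3]
    ext i j
    simp [Matrix.mul_apply]
  have hb0 : ∀ i : Fin k, b.1 i.succ 0 = 0 := by
    intro i
    have := congrFun (congrFun h1 i) 0
    simp only [submatrix_apply, id_eq] at this
    rw [this]
    simp [Matrix.mul_apply, Matrix.one_apply]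
  have hbs : ∀ i j : Fin k, b.1 i.succ j.succ = U i j := by
    intro i j
    have := congrFun (congrFun h1 i) j.succ
    simp only [submatrix_apply, id_eq] at this
    rw [this]
    simp [Matrix.mul_apply, Matrix.one_apply]
  have htri : ∀ i j : Fin (k + 1), j < i → b.1 i j = 0 := by
    intro i j hij
    obtain ⟨i', rfl⟩ : ∃ i' : Fin k, i'.succ = i :=
      Fin.exists_succ_eq.mpr (by rintro rfl; exact absurd hij (Fin.not_lt_zero _))
    by_cases hj : j = 0
    · subst hj
      exact hb0 i'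
    · obtain ⟨j', rfl⟩ := Fin.exists_succ_eq.mpr hj
      rw [hbs]
      exact hU _ _ (Fin.succ_lt_succ_iff.mp hij)
  have hdet : ∏ i, b.1 i i = 1 :=
    (Matrix.det_of_isUpperTriangular (fun i j hij => htri i j hij)).symm.trans b.2
  have hne : ∀ i, b.1 i i ≠ 0 := by
    intro i h0
    have h6 : ∏ i, b.1 i i = 0 := Finset.prod_eq_zero (Finset.mem_univ i) h0
    exact zero_ne_one (h6.symm.trans hdet)
  let t : Torus p (k + 1) := ⟨fun i => Units.mk0 (b.1 i i) (hne i), by
    show ∏ i, Units.mk0 (b.1 i i) (hne i) = 1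
    apply Units.ext
    simp [hdet]⟩
  have h5 := hf b g t htri (fun i => rfl)
  rw [hbg] at h5
  rw [h5, torus_char χ t]
  congr 1
  refine Finset.prod_congr rfl (fun i _ => ?_)
  show lowChar χ i (b.1 i.succ i.succ) = _
  rw [hbs]

theorem SLB1_indep {k : ℕ} (R : Matrix (Fin k) (Fin (k + 1)) ℚ_[p]) :
    LinearIndependent ℚ_[p] (fun i => R i) ↔ ∃ r, (SLB1_cons r R).det = 1 := by
  constructor
  · intro hR
    have h1 : Submodule.span ℚ_[p] (Set.range (fun i => R i)) ≠ ⊤ := by
      intro h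
      have h2 := finrank_span_eq_card hR
      rw [h, finrank_top] at h2
      simp at h2
    obtain ⟨r, _, hr⟩ := SetLike.exists_of_lt (lt_top_iff_ne_top.mpr h1)
    have h3 : LinearIndependent ℚ_[p]
        (Fin.cons r (fun i => R i) : Fin (k + 1) → Fin (k + 1) → ℚ_[p]) := hR.finCons hr
    have h4 : IsUnit (SLB1_cons r R) := linearIndependent_rows_iff_isUnit.mp h3
    have h5 : IsUnit (SLB1_cons r R).det := (Matrix.isUnit_iff_isUnit_det _).mp h4
    refine ⟨(SLB1_cons r R).det⁻¹ • r, ?_⟩
    have h6 : SLB1_cons ((SLB1_cons r R).det⁻¹ • r) R =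
        (SLB1_cons r R).updateRow 0 ((SLB1_cons r R).det⁻¹ • r) := by
      ext i j
      refine Fin.cases ?_ (fun i => ?_) i
      · simp [SLB1_cons]
      · simp [SLB1_cons]
    have h7 : (SLB1_cons r R).updateRow 0 r = SLB1_cons r R := by
      ext i j
      refine Fin.cases ?_ (fun i => ?_) i
      · simp [SLB1_cons]
      · simp [SLB1_cons]
    rw [h6, det_updateRow_smul, h7]
    exact inv_mul_cancel₀ h5.ne_zero
  · rintro ⟨r, hr⟩
    have h1 : IsUnit (SLB1_cons r R) := by
      rw [Matrix.isUnit_iff_isUnit_det, hr]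
      exact isUnit_one
    have h2 := linearIndependent_rows_iff_isUnit.mpr h1
    have h3 := h2.comp Fin.succ (Fin.succ_injective _)
    have h4 : (SLB1_cons r R).row ∘ Fin.succ = fun i => R i := by
      ext i j
      simp [SLB1_cons]
    rw [h4] at h3
    exact h3

open Classical in
/-- the function of the lower rows -/
def SLB1_F {k : ℕ} (f : C(SpecialLinearGroup (Fin (k + 1)) ℚ_[p], C)) :
    Matrix (Fin k) (Fin (k + 1)) ℚ_[p] → C :=
  fun R => if h : ∃ r, (SLB1_cons r R).det = 1 then f ⟨_, h.choose_spec⟩ else 0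

theorem SLB1_F_zero {k : ℕ} (f : C(SpecialLinearGroup (Fin (k + 1)) ℚ_[p], C))
    {R : Matrix (Fin k) (Fin (k + 1)) ℚ_[p]}
    (hR : ¬ LinearIndependent ℚ_[p] (fun i => R i)) : SLB1_F f R = 0 := by
  unfold SLB1_F
  rw [dif_neg (fun h => hR ((SLB1_indep R).mpr h))]

theorem SLB1_F_mul {k : ℕ} {χ : Torus p (k + 1) →* Cˣ}
    {f : C(SpecialLinearGroup (Fin (k + 1)) ℚ_[p], C)} (hf : f ∈ Ind χ)
    (g : SpecialLinearGroup (Fin (k + 1)) ℚ_[p]) (U : Matrix (Fin k) (Fin k) ℚ_[p])
    (hU : ∀ i j, j < i → U i j = 0)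
    (hR : LinearIndependent ℚ_[p] (fun i => (U * g.1.submatrix Fin.succ id) i)) :
    SLB1_F f (U * g.1.submatrix Fin.succ id) = (∏ i, lowChar χ i (U i i)) * f g := by
  have h := (SLB1_indep _).mp hR
  unfold SLB1_F
  rw [dif_pos h]
  refine SLB1_key hf g _ U hU ?_
  exact SLB1_cons_sub _ _

theorem SLB1_lower_indep {k : ℕ} (g : SpecialLinearGroup (Fin (k + 1)) ℚ_[p]) :
    LinearIndependent ℚ_[p] (fun i => (g.1.submatrix Fin.succ id) i) := by
  have h1 : IsUnit g.1 := by
    rw [Matrix.isUnit_iff_isUnit_det, g.2]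
    exact isUnit_one
  have h2 := linearIndependent_rows_iff_isUnit.mpr h1
  exact h2.comp Fin.succ (Fin.succ_injective _)

theorem SLB1_F_low {k : ℕ} {χ : Torus p (k + 1) →* Cˣ}
    {f : C(SpecialLinearGroup (Fin (k + 1)) ℚ_[p], C)} (hf : f ∈ Ind χ)
    (g : SpecialLinearGroup (Fin (k + 1)) ℚ_[p]) :
    SLB1_F f (g.1.submatrix Fin.succ id) = f g := by
  have h := SLB1_F_mul hf g 1 (fun i j hij => Matrix.one_apply_ne (ne_of_gt hij))
    (by rw [Matrix.one_mul]; exact SLB1_lower_indep g)
  rw [Matrix.one_mul] at h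
  rw [h]
  simp

theorem SLB1_F_tri {k : ℕ} {χ : Torus p (k + 1) →* Cˣ}
    {f : C(SpecialLinearGroup (Fin (k + 1)) ℚ_[p], C)} (hf : f ∈ Ind χ)
    (U : Matrix (Fin k) (Fin k) ℚ_[p]) (hU : ∀ i j, j < i → U i j = 0) (hdet : IsUnit U)
    (R : Matrix (Fin k) (Fin (k + 1)) ℚ_[p]) :
    SLB1_F f (U * R) = (∏ i, lowChar χ i (U i i)) * SLB1_F f R := by
  have hiff : LinearIndependent ℚ_[p] (fun i => (U * R) i) ↔
      LinearIndependent ℚ_[p] (fun i => R i) := by
    have e1 : LinearIndependent ℚ_[p] (fun i => (U * R) i) ↔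
        Function.Injective (U * R).vecMul := (Matrix.vecMul_injective_iff).symm
    have e2 : LinearIndependent ℚ_[p] (fun i => R i) ↔
        Function.Injective R.vecMul := (Matrix.vecMul_injective_iff).symm
    rw [e1, e2]
    have hUi : Function.Bijective U.vecMul :=
      ⟨Matrix.vecMul_injective_iff_isUnit.mpr hdet, Matrix.vecMul_surjective_iff_isUnit.mpr hdet⟩
    have hcomp : (U * R).vecMul = R.vecMul ∘ U.vecMul := by
      funext v
      exact (Matrix.vecMul_vecMul v U R).symm
    rw [hcomp]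
    exact Function.Injective.of_comp_iff' _ hUi
  by_cases hR : LinearIndependent ℚ_[p] (fun i => R i)
  · obtain ⟨r, hr⟩ := (SLB1_indep R).mp hR
    have h1 := SLB1_F_mul hf ⟨SLB1_cons r R, hr⟩ U hU
      (by rw [SLB1_cons_sub]; exact hiff.mpr hR)
    have h2 := SLB1_F_low hf ⟨SLB1_cons r R, hr⟩
    simp only [SLB1_cons_sub] at h1 h2
    rw [h1, h2]
  · rw [SLB1_F_zero f hR, SLB1_F_zero f (fun h => hR (hiff.mp h)), mul_zero]

theorem SLB1_F_cont {k : ℕ} {χ : Torus p (k + 1) →* Cˣ}
    {f : C(SpecialLinearGroup (Fin (k + 1)) ℚ_[p], C)} (hf : f ∈ Ind χ) :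
    ContinuousOn (SLB1_F f) {R | LinearIndependent ℚ_[p] (fun i => R i)} := by
  intro R₀ hR₀
  obtain ⟨r₀, hr₀⟩ := (SLB1_indep R₀).mp hR₀
  have hdc : Continuous (fun R : Matrix (Fin k) (Fin (k + 1)) ℚ_[p] =>
      (SLB1_cons r₀ R).det) := by
    refine Continuous.matrix_det ?_
    exact SLB1_cons_continuous.comp (Continuous.prodMk continuous_const continuous_id)
  let V : Set (Matrix (Fin k) (Fin (k + 1)) ℚ_[p]) := {R | (SLB1_cons r₀ R).det ≠ 0}
  have hV : IsOpen V := hdc.isOpen_preimage _ isOpen_ne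
  have hRV : R₀ ∈ V := by
    show (SLB1_cons r₀ R₀).det ≠ 0
    rw [hr₀]; exact one_ne_zero
  have hsm : ∀ R : Matrix (Fin k) (Fin (k + 1)) ℚ_[p], R ∈ V →
      (SLB1_cons ((SLB1_cons r₀ R).det⁻¹ • r₀) R).det = 1 := by
    intro R hR
    have h6 : SLB1_cons ((SLB1_cons r₀ R).det⁻¹ • r₀) R =
        (SLB1_cons r₀ R).updateRow 0 ((SLB1_cons r₀ R).det⁻¹ • r₀) := by
      ext i j
      refine Fin.cases ?_ (fun i => ?_) i
      · simp [SLB1_cons]
      · simp [SLB1_cons]
    have h7 : (SLB1_cons r₀ R).updateRow 0 r₀ = SLB1_cons r₀ R := by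
      ext i j
      refine Fin.cases ?_ (fun i => ?_) i
      · simp [SLB1_cons]
      · simp [SLB1_cons]
    rw [h6, det_updateRow_smul, h7]
    exact inv_mul_cancel₀ hR
  have hcV : ContinuousOn (SLB1_F f) V := by
    rw [continuousOn_iff_continuous_domRestrict]
    have h8 : V.domRestrict (SLB1_F f) = fun R : V =>
        f ⟨SLB1_cons ((SLB1_cons r₀ R.1).det⁻¹ • r₀) R.1, hsm R.1 R.2⟩ := by
      funext R
      have h9 := SLB1_F_low hf ⟨SLB1_cons ((SLB1_cons r₀ R.1).det⁻¹ • r₀) R.1, hsm R.1 R.2⟩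
      simp only [SLB1_cons_sub] at h9
      exact h9
    rw [h8]
    have h10 : Continuous (fun R : V => (SLB1_cons r₀ R.1).det) :=
      hdc.comp continuous_subtype_val
    have h11 : Continuous (fun R : V => (SLB1_cons r₀ R.1).det⁻¹ • r₀) :=
      (h10.inv₀ (fun R => R.2)).smul continuous_const
    have h12 : Continuous (fun R : V => SLB1_cons ((SLB1_cons r₀ R.1).det⁻¹ • r₀) R.1) :=
      SLB1_cons_continuous.comp (h11.prodMk continuous_subtype_val)
    exact f.continuous.comp (Continuous.subtype_mk h12 _)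
  exact (hcV.continuousAt (hV.mem_nhds hRV)).continuousWithinAt

theorem lowMap_surj {k : ℕ} {χ : Torus p (k + 1) →* Cˣ} (hs : Small (lowChar χ))
    {f : C(SpecialLinearGroup (Fin (k + 1)) ℚ_[p], C)} (hf : f ∈ Ind χ) :
    ∃ F : PSM k (k + 1) (lowChar χ), lowMap F = f := by
  have hF : SLB1_F f ∈ PSM k (k + 1) (lowChar χ) := by
    refine ext_psm hs (fun R hR => SLB1_F_zero f hR) (SLB1_F_cont hf) ?_ ?_
    · intro R i c
      by_cases hc : c = 0
      · subst hc
        rw [map_zero, zero_mul]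
        apply SLB1_F_zero
        intro h
        apply h.ne_zero i
        simp
      · have h1 : R.updateRow i (c • R i) =
            Matrix.diagonal (Function.update (1 : Fin k → ℚ_[p]) i c) * R := by
          ext a b
          rw [Matrix.diagonal_mul]
          by_cases ha : a = i
          · subst ha; simp
          · simp [Matrix.updateRow_ne ha, Function.update_of_ne ha]
        rw [h1, SLB1_F_tri hf]
        · congr 1
          rw [Finset.prod_eq_single i]
          · simp
          · intro j _ hj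
            simp [Function.update_of_ne hj]
          · simp
        · intro a b hab
          exact Matrix.diagonal_apply_ne _ (ne_of_gt hab)
        · rw [Matrix.isUnit_iff_isUnit_det, Matrix.det_diagonal]
          rw [Finset.prod_eq_single i]
          · simpa using hc
          · intro j _ hj
            simp [Function.update_of_ne hj]
          · simp
    · intro R i j hij c
      have h1 : R.updateRow i (R i + c • R j) = transvection i j c * R := by
        ext a b
        by_cases ha : a = i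
        · subst ha; simp
        · simp [ha]
      rw [h1, SLB1_F_tri hf]
      · have h2 : ∀ l, transvection i j c l l = 1 := by
          intro l
          simp only [transvection, Matrix.add_apply, Matrix.one_apply_eq]
          rw [Matrix.single_apply_of_ne]
          · simp
          · rintro ⟨rfl, rfl⟩
            exact lt_irrefl _ hij
        simp [h2]
      · intro a b hab
        simp only [transvection, Matrix.add_apply]
        rw [Matrix.one_apply_ne (ne_of_gt hab), Matrix.single_apply_of_ne]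
        · simp
        · rintro ⟨rfl, rfl⟩
          exact absurd hab (not_lt.mpr hij.le)
      · rw [Matrix.isUnit_iff_isUnit_det, det_transvection_of_ne i j (ne_of_lt hij)]
        exact isUnit_one
  refine ⟨⟨SLB1_F f, hF⟩, ?_⟩
  apply ContinuousMap.ext
  intro g
  exact SLB1_F_low hf g

end

end Pool.Agent.Lib.MP_f399a8_nt
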