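import Pool.Agent.Lib.MP_f399a8_nt.Defs

/-!
# Continuous principal series of `SL_n(ℚ_p)`
-/

namespace Pool.Agent.Lib.MP_f399a8_nt

open Matrix

noncomputable section

variable {p : ℕ} [Fact p.Prime] {C : Type*} [NormedField C]

/-- the diagonal torus of `SL_n(ℚ_p)`: vectors of units with product one -/
def Torus (p : ℕ) [Fact p.Prime] (n : ℕ) : Subgroup (Fin n → ℚ_[p]ˣ) where
  carrier := {t | ∏ i, t i = 1}
  mul_mem' := by
    intro a b ha hb
    simp only [Set.mem_ofPred_eq] at ha hb ⊢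
    simp [Finset.prod_mul_distrib, ha, hb]
  one_mem' := by simp
  inv_mem' := by
    intro a ha
    simp only [Set.mem_ofPred_eq] at ha ⊢
    simp [Finset.prod_inv_distrib, ha]

/-- the coroot `x ↦ diag(…, x, …, x⁻¹, …)` with `x` in place `i` and `x⁻¹` in place `j` -/
def coroot {n : ℕ} (i j : Fin n) (x : ℚ_[p]ˣ) : Torus p n :=
  ⟨Pi.mulSingle i x * Pi.mulSingle j x⁻¹, by
    show ∏ k, (Pi.mulSingle i x * Pi.mulSingle j x⁻¹ : Fin n → ℚ_[p]ˣ) k = 1
    simp only [Pi.mul_apply, Finset.prod_mul_distrib, Finset.prod_pi_mulSingle',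
      Finset.mem_univ, if_true]
    simp⟩

theorem coroot_one {n : ℕ} (i j : Fin n) : coroot (p := p) i j 1 = 1 := by
  apply Subtype.ext
  funext k
  simp [coroot]

theorem coroot_mul {n : ℕ} (i j : Fin n) (x y : ℚ_[p]ˣ) :
    coroot i j (x * y) = coroot i j x * coroot i j y := by
  apply Subtype.ext
  funext k
  simp only [coroot, Subgroup.coe_mul, Pi.mul_apply, mul_inv, Pi.mulSingle_mul]
  exact mul_mul_mul_comm _ _ _ _

/-- the prime as a unit of `ℚ_p` -/
def pu (p : ℕ) [Fact p.Prime] : ℚ_[p]ˣ :=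
  Units.mk0 (p : ℚ_[p]) (by exact_mod_cast (Fact.out : p.Prime).ne_zero)

/-- the continuous induction of `χ` from the upper triangular Borel subgroup: continuous functions
`f` on `SL_n(ℚ_p)` with `f (b g) = χ (diag b) f g` -/
def Ind {n : ℕ} (χ : Torus p n →* Cˣ) :
    Submodule C C(SpecialLinearGroup (Fin n) ℚ_[p], C) where
  carrier := {f | ∀ (b g : SpecialLinearGroup (Fin n) ℚ_[p]) (t : Torus p n),
    (∀ i j : Fin n, j < i → b.1 i j = 0) → (∀ i, b.1 i i = ((t.1 i : ℚ_[p]ˣ) : ℚ_[p])) →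
      f (b * g) = ((χ t : Cˣ) : C) * f g}
  add_mem' := by
    intro f g hf hg b x t hb ht
    simp only [ContinuousMap.add_apply, hf b x t hb ht, hg b x t hb ht]
    ring
  zero_mem' := by
    intro b x t hb ht
    simp
  smul_mem' := by
    intro a f hf b x t hb ht
    simp only [ContinuousMap.smul_apply, hf b x t hb ht, smul_eq_mul]
    ring

/-- right translation -/
def rtrans {n : ℕ} (g : SpecialLinearGroup (Fin n) ℚ_[p])
    (f : C(SpecialLinearGroup (Fin n) ℚ_[p], C)) : C(SpecialLinearGroup (Fin n) ℚ_[p], C) :=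
  f.comp ⟨fun x => x * g, continuous_mul_const g⟩

open Classical in
/-- the character of the lower rows: `x ↦ χ (coroot 0 (i + 1) x)⁻¹`, extended by zero -/
def lowChar {k : ℕ} (χ : Torus p (k + 1) →* Cˣ) (i : Fin k) : ℚ_[p] →*₀ C where
  toFun x := if h : x = 0 then 0 else (((χ (coroot 0 i.succ (Units.mk0 x h)))⁻¹ : Cˣ) : C)
  map_zero' := by simp
  map_one' := by
    have h1 : Units.mk0 (1 : ℚ_[p]) one_ne_zero = 1 := Units.ext rfl
    simp [h1, coroot_one]
  map_mul' := by
    intro x y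
    by_cases hx : x = 0
    · simp [hx]
    by_cases hy : y = 0
    · simp [hy]
    have hxy : x * y ≠ 0 := mul_ne_zero hx hy
    have h1 : coroot (p := p) (0 : Fin (k + 1)) i.succ (Units.mk0 (x * y) hxy) =
        coroot 0 i.succ (Units.mk0 x hx) * coroot 0 i.succ (Units.mk0 y hy) := by
      rw [← coroot_mul, Units.mk0_mul]
    simp only [hx, hy, hxy, dite_false, h1, map_mul, mul_inv, Units.val_mul]

/-- the function on `SL_{k+1}` given by a function of the lower rows -/
def lowMap {k : ℕ} {χ : Torus p (k + 1) →* Cˣ} :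
    PSM k (k + 1) (lowChar χ) →ₗ[C] C(SpecialLinearGroup (Fin (k + 1)) ℚ_[p], C) where
  toFun f := ⟨fun g => f.1 (g.1.submatrix Fin.succ id), f.2.1.comp (by fun_prop)⟩
  map_add' f g := rfl
  map_smul' a f := rfl

end

end Pool.Agent.Lib.MP_f399a8_nt
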