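import Pool.Agent.Lib.MP_f399a8_nt.TwA
import Pool.Agent.Lib.MP_f399a8_nt.MainStep

/-!
# Irreducibility by induction

See the header of `TwA.lean` for the proof of `irr_all`.
-/

namespace Pool.Agent.Lib.MP_f399a8_nt

open Matrix

noncomputable section

variable {p : ℕ} [Fact p.Prime] {C : Type*} [NormedField C]

theorem Twist_det_le {m : ℕ} {A : Matrix (Fin m) (Fin m) ℚ_[p]} (hA : IntM A) :
    ‖A.det‖ ≤ 1 := by
  obtain ⟨B, hB⟩ : ∃ B : Matrix (Fin m) (Fin m) ℤ_[p],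
      A = (PadicInt.Coe.ringHom (p := p)).mapMatrix B := by
    refine ⟨Matrix.of fun i j => (⟨A i j, hA i j⟩ : ℤ_[p]), ?_⟩
    ext i j
    rfl
  rw [hB, ← RingHom.map_det]
  exact PadicInt.norm_le_one _

theorem Twist_chDiv_chDiv (a b c : ℚ_[p] →*₀ C) :
    chDiv (chDiv a c) (chDiv b c) = chDiv a b := by
  apply MonoidWithZeroHom.ext
  intro x
  show a x / c x / (b x / c x) = a x / b x
  by_cases hx : x = 0
  · subst hx
    simp
  · have hc : c x ≠ 0 := (map_ne_zero c).mpr hx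
    exact div_div_div_cancel_right₀ hc _ _

/-- the functions of the lower rows whose twist lies in `Y` -/
def TwistW {m : ℕ} (χ : Fin (m + 1) → ℚ_[p] →*₀ C)
    (Y : Submodule C (Matrix (Fin (m + 1)) (Fin (m + 1)) ℚ_[p] → C)) :
    Submodule C (Matrix (Fin m) (Fin (m + 1)) ℚ_[p] → C) where
  carrier := {f | f ∈ PSM m (m + 1) (fun i : Fin m => chDiv (χ i.succ) (χ 0)) ∧
    (fun A : Matrix (Fin (m + 1)) (Fin (m + 1)) ℚ_[p] =>
      χ 0 A.det * f (A.submatrix Fin.succ id)) ∈ Y}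
  add_mem' := by
    rintro f g ⟨hf1, hf2⟩ ⟨hg1, hg2⟩
    refine ⟨Submodule.add_mem _ hf1 hg1, ?_⟩
    have h := Submodule.add_mem _ hf2 hg2
    have e : (fun A : Matrix (Fin (m + 1)) (Fin (m + 1)) ℚ_[p] =>
        χ 0 A.det * (f + g) (A.submatrix Fin.succ id)) =
        (fun A : Matrix (Fin (m + 1)) (Fin (m + 1)) ℚ_[p] =>
          χ 0 A.det * f (A.submatrix Fin.succ id)) +
        (fun A : Matrix (Fin (m + 1)) (Fin (m + 1)) ℚ_[p] =>
          χ 0 A.det * g (A.submatrix Fin.succ id)) := by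
      funext A
      simp only [Pi.add_apply]
      ring
    rw [e]
    exact h
  zero_mem' := by
    refine ⟨Submodule.zero_mem _, ?_⟩
    have e : (fun A : Matrix (Fin (m + 1)) (Fin (m + 1)) ℚ_[p] =>
        χ 0 A.det * (0 : Matrix (Fin m) (Fin (m + 1)) ℚ_[p] → C)
          (A.submatrix Fin.succ id)) = 0 := by
      funext A
      simp
    rw [e]
    exact Submodule.zero_mem _
  smul_mem' := by
    rintro a f ⟨hf1, hf2⟩
    refine ⟨Submodule.smul_mem _ a hf1, ?_⟩
    have h := Submodule.smul_mem _ a hf2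
    have e : (fun A : Matrix (Fin (m + 1)) (Fin (m + 1)) ℚ_[p] =>
        χ 0 A.det * (a • f) (A.submatrix Fin.succ id)) =
        a • (fun A : Matrix (Fin (m + 1)) (Fin (m + 1)) ℚ_[p] =>
          χ 0 A.det * f (A.submatrix Fin.succ id)) := by
      funext A
      simp only [Pi.smul_apply, smul_eq_mul]
      ring
    rw [e]
    exact h

theorem irr_all [NormedAlgebra ℚ_[p] C] [IsUltrametricDist C] (m : ℕ)
    (χ : Fin m → ℚ_[p] →*₀ C) (hχ : Small χ)
    (hdec : ∀ i j : Fin m, i < j → ‖χ j (p : ℚ_[p])‖ < ‖χ i (p : ℚ_[p])‖)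
    (hloc : ∀ i j : Fin m, i < j → Loc (chDiv (χ j) (χ i))) : Irr m χ := by
  induction m with
  | zero =>
    intro Y hY _ _ hne
    refine le_antisymm hY ?_
    intro f _
    obtain ⟨φ, hφ, hφ0⟩ := hne
    have hsub : ∀ A B : Matrix (Fin 0) (Fin 0) ℚ_[p], A = B := fun A B => by
      ext i
      exact i.elim0
    have h1 : φ 0 ≠ 0 := by
      intro h
      apply hφ0
      funext A
      rw [hsub A 0, h]
      rfl
    have h2 : f = (f 0 / φ 0) • φ := by
      funext A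
      rw [Pi.smul_apply, hsub A 0, smul_eq_mul, div_mul_cancel₀ _ h1]
    rw [h2]
    exact Submodule.smul_mem _ _ hφ
  | succ m ih =>
    intro Y hY hcl hst hne
    have hd : ∀ i : Fin m, ‖χ i.succ (p : ℚ_[p])‖ < ‖χ 0 (p : ℚ_[p])‖ :=
      fun i => hdec 0 i.succ (Fin.succ_pos i)
    have hχ' : Small (fun i : Fin m => chDiv (χ i.succ) (χ 0)) := small_chDiv hχ hd
    have hdec' : ∀ i j : Fin m, i < j →
        ‖chDiv (χ j.succ) (χ 0) (p : ℚ_[p])‖ < ‖chDiv (χ i.succ) (χ 0) (p : ℚ_[p])‖ := by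
      intro i j hij
      have h0 : 0 < ‖χ 0 (p : ℚ_[p])‖ := lt_of_le_of_lt (norm_nonneg _) (hd i)
      show ‖χ j.succ (p : ℚ_[p]) / χ 0 (p : ℚ_[p])‖ < ‖χ i.succ (p : ℚ_[p]) / χ 0 (p : ℚ_[p])‖
      rw [norm_div, norm_div]
      exact div_lt_div_of_pos_right (hdec i.succ j.succ (Fin.succ_lt_succ_iff.mpr hij)) h0
    have hloc0 : ∀ i : Fin m, Loc (chDiv (χ i.succ) (χ 0)) :=
      fun i => hloc 0 i.succ (Fin.succ_pos i)
    have hloc' : ∀ i j : Fin m, i < j →
        Loc (chDiv (chDiv (χ j.succ) (χ 0)) (chDiv (χ i.succ) (χ 0))) := by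
      intro i j hij
      rw [Twist_chDiv_chDiv]
      exact hloc i.succ j.succ (Fin.succ_lt_succ_iff.mpr hij)
    have hirr' : Irr m (fun i : Fin m => chDiv (χ i.succ) (χ 0)) := ih _ hχ' hdec' hloc'
    have hWle : TwistW χ Y ≤ PSM m (m + 1) (fun i : Fin m => chDiv (χ i.succ) (χ 0)) :=
      fun f hf => hf.1
    have hWcl : ClosedU (fun i : Fin m => chDiv (χ i.succ) (χ 0)) (TwistW χ Y) := by
      intro f hf hnear
      refine ⟨hf, ?_⟩
      refine hcl _ (twist_mem hχ hf) ?_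
      intro ε hε
      obtain ⟨w, hw, hwε⟩ := hnear ε hε
      refine ⟨_, hw.2, ?_⟩
      intro A hA
      show ‖χ 0 A.det * f (A.submatrix Fin.succ id) - χ 0 A.det * w (A.submatrix Fin.succ id)‖ ≤ ε
      rw [← mul_sub, norm_mul]
      have h1 : ‖χ 0 A.det‖ ≤ 1 := norm_char_le_one (hχ 0).1 (hχ 0).2 (Twist_det_le hA)
      have h2 := hwε (A.submatrix Fin.succ id) (fun i j => hA i.succ j)
      calc ‖χ 0 A.det‖ * ‖f (A.submatrix Fin.succ id) - w (A.submatrix Fin.succ id)‖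
          ≤ 1 * ε := mul_le_mul h1 h2 (norm_nonneg _) zero_le_one
        _ = ε := one_mul ε
    have hWst : ∀ f ∈ TwistW χ Y, ∀ g : Matrix (Fin (m + 1)) (Fin (m + 1)) ℚ_[p], g.det = 1 →
        (fun R : Matrix (Fin m) (Fin (m + 1)) ℚ_[p] => f (R * g)) ∈ TwistW χ Y := by
      intro f hf g hg
      refine ⟨psm_right hf.1 g, ?_⟩
      have h := hst _ hf.2 g (by rw [hg]; exact one_ne_zero)
      have e : (fun A : Matrix (Fin (m + 1)) (Fin (m + 1)) ℚ_[p] =>
          χ 0 A.det * f (A.submatrix Fin.succ id * g)) =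
          (fun A : Matrix (Fin (m + 1)) (Fin (m + 1)) ℚ_[p] =>
            (fun A : Matrix (Fin (m + 1)) (Fin (m + 1)) ℚ_[p] =>
              χ 0 A.det * f (A.submatrix Fin.succ id)) (A * g)) := by
        funext A
        have e1 : (A * g).submatrix Fin.succ id = A.submatrix Fin.succ id * g := by
          ext i j
          simp [Matrix.mul_apply]
        show _ = χ 0 (A * g).det * f ((A * g).submatrix Fin.succ id)
        rw [Matrix.det_mul, hg, mul_one, e1]
      exact e ▸ h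
    have hWne : ∃ f ∈ TwistW χ Y, f ≠ 0 := by
      obtain ⟨φ, hφ, hφ0⟩ := hne
      obtain ⟨f, hf, hfφ⟩ := twist_surj hχ hd (hY hφ)
      have e : (fun A : Matrix (Fin (m + 1)) (Fin (m + 1)) ℚ_[p] =>
          χ 0 A.det * f (A.submatrix Fin.succ id)) = φ := by
        funext A
        exact (hfφ A).symm
      refine ⟨f, ⟨hf, e ▸ hφ⟩, ?_⟩
      rintro rfl
      apply hφ0
      funext A
      rw [hfφ A]
      simp
    have hWeq := main_step hχ' hloc0 hirr' hWle hWcl hWst hWne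
    refine le_antisymm hY ?_
    intro φ hφ
    obtain ⟨f, hf, hfφ⟩ := twist_surj hχ hd hφ
    rw [← hWeq] at hf
    have e : (fun A : Matrix (Fin (m + 1)) (Fin (m + 1)) ℚ_[p] =>
        χ 0 A.det * f (A.submatrix Fin.succ id)) = φ := by
      funext A
      exact (hfφ A).symm
    exact e ▸ hf.2

end

end Pool.Agent.Lib.MP_f399a8_nt
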