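import Pool.Agent.Lib.MP_f399a8_nt.SLB
import Pool.Agent.Lib.MP_f399a8_nt.Twist
import Pool.Agent.Lib.MP_f399a8_nt.LocAlg

/-!
# Schneider's conjecture for `SL_n(ℚ_p)` in the antidominant slope chamber

PROOF of `schneider_chamber`.  `C` is ultrametric (`‖(n : C)‖ ≤ 1`).  `n = 0`: `SL_0` is trivial,
`Ind χ` has dimension at most one, so `W = ⊥` or `W = Ind χ`.  Let `n = k + 1` and suppose the
conclusion fails.  `coroot i j x` is the product of the simple coroots between (`coroot_trans`), so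
`1 < ‖χ (coroot i j p)‖` for all `i < j` and `χ (coroot i j x) = x ^ (-K)` for `x` near `1`, with some
`K : ℕ`.  `lowChar χ i p = (χ (coroot 0 i.succ p))⁻¹` so `Small (lowChar χ)` (`lowChar_continuous`),
and `chDiv (lowChar χ j) (lowChar χ i) x = (χ (coroot i.succ j.succ x))⁻¹` for `i < j`, `x ≠ 0`.
`Loc` for all these characters by `loc_of_locAlg`: if such an inverse were `x ↦ x ^ l` then
`χ (coroot i j x) = x ^ (-l)`, `-l ≤ 0 ≤ j - i - 1`, the conclusion.  `Irr k (lowChar χ)` by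
`irr_all`.  `main_step` for `comapLow W`: nonzero as `W ≠ ⊥` and `lowMap_surj`, closed by
`closed_comap`, stable by `lowMap_rtrans`.  So `comapLow W = PSM`, hence `W = Ind χ`
(`lowMap_surj`), a contradiction.
-/

namespace Pool.Agent.Lib.MP_f399a8_nt

open Matrix Topology

noncomputable section

variable {p : ℕ} [Fact p.Prime] {C : Type*} [NormedField C] [NormedAlgebra ℚ_[p] C]

theorem SLFin_ultra (p : ℕ) [Fact p.Prime] (C : Type*) [NormedField C] [NormedAlgebra ℚ_[p] C] :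
    IsUltrametricDist C := by
  have : IsUltrametricDist ℚ_[p] := inferInstance
  exact IsUltrametricDist.of_normedAlgebra ℚ_[p]

theorem SLFin_zero (χ : Torus p 0 →* Cˣ)
    (W : Submodule C C(SpecialLinearGroup (Fin 0) ℚ_[p], C)) (h0 : W ≠ ⊥) : W = ⊤ := by
  obtain ⟨f, hf, hf0⟩ := Submodule.exists_mem_ne_zero_of_ne_bot h0
  have hsub : ∀ g : SpecialLinearGroup (Fin 0) ℚ_[p], g = 1 := fun g => Subsingleton.elim _ _
  have hf1 : f 1 ≠ 0 := by
    intro h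
    apply hf0
    ext g
    rw [hsub g, h]
    rfl
  rw [eq_top_iff]
  intro h _
  have : h = (h 1 / f 1) • f := by
    ext g
    rw [hsub g]
    simp [hf1]
  rw [this]
  exact W.smul_mem _ hf

theorem SLFin_trans {n : ℕ} (χ : Torus p n →* Cˣ) (i j l : Fin n) (x : ℚ_[p]ˣ) :
    ((χ (coroot i l x) : Cˣ) : C) = ((χ (coroot i j x) : Cˣ) : C) * ((χ (coroot j l x) : Cˣ) : C) := by
  rw [coroot_trans i j l x, map_mul, Units.val_mul]

theorem SLFin_slope {n : ℕ} (χ : Torus p n →* Cˣ)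
    (hslope : ∀ i j : Fin n, (i : ℕ) + 1 = j → 1 < ‖((χ (coroot i j (pu p)) : Cˣ) : C)‖) :
    ∀ (d : ℕ) (i j : Fin n), (i : ℕ) + (d + 1) = j → 1 < ‖((χ (coroot i j (pu p)) : Cˣ) : C)‖ := by
  intro d
  induction d with
  | zero =>
    intro i j h
    exact hslope i j (by omega)
  | succ d ih =>
    intro i j h
    have hl : (i : ℕ) + (d + 1) < n := by have := j.2; omega
    have h1 := ih i ⟨(i : ℕ) + (d + 1), hl⟩ rfl
    have h2 := hslope ⟨(i : ℕ) + (d + 1), hl⟩ j (by simp only; omega)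
    rw [SLFin_trans χ i ⟨(i : ℕ) + (d + 1), hl⟩ j, norm_mul]
    nlinarith

theorem SLFin_alg {n : ℕ} (χ : Torus p n →* Cˣ)
    (halg : ∀ i j : Fin n, (i : ℕ) + 1 = j → ∃ k : ℕ, ∀ᶠ x : ℚ_[p]ˣ in 𝓝 1,
      ((χ (coroot i j x) : Cˣ) : C) = (algebraMap ℚ_[p] C x) ^ (-(k : ℤ))) :
    ∀ (d : ℕ) (i j : Fin n), (i : ℕ) + (d + 1) = j → ∃ k : ℕ, ∀ᶠ x : ℚ_[p]ˣ in 𝓝 1,
      ((χ (coroot i j x) : Cˣ) : C) = (algebraMap ℚ_[p] C x) ^ (-(k : ℤ)) := by
  intro d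
  induction d with
  | zero =>
    intro i j h
    exact halg i j (by omega)
  | succ d ih =>
    intro i j h
    have hl : (i : ℕ) + (d + 1) < n := by have := j.2; omega
    obtain ⟨k1, h1⟩ := ih i ⟨(i : ℕ) + (d + 1), hl⟩ rfl
    obtain ⟨k2, h2⟩ := halg ⟨(i : ℕ) + (d + 1), hl⟩ j (by simp only; omega)
    refine ⟨k1 + k2, ?_⟩
    filter_upwards [h1, h2] with x hx1 hx2
    have hx : algebraMap ℚ_[p] C x ≠ 0 := by
      rw [map_ne_zero]
      exact x.ne_zero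
    rw [SLFin_trans χ i ⟨(i : ℕ) + (d + 1), hl⟩ j, hx1, hx2, ← zpow_add₀ hx]
    congr 1
    push_cast
    ring

/-- the inverse of a coroot character is locally algebraic near `1`, in terms of balls -/
theorem SLFin_ball {n : ℕ} (χ : Torus p n →* Cˣ) (i j : Fin n) (k : ℕ)
    (hk : ∀ᶠ x : ℚ_[p]ˣ in 𝓝 1,
      ((χ (coroot i j x) : Cˣ) : C) = (algebraMap ℚ_[p] C x) ^ (-(k : ℤ))) :
    ∃ h : ℕ, ∀ x : ℚ_[p], ‖x - 1‖ ≤ (p : ℝ) ^ (-(h : ℤ)) → ∃ hx : x ≠ 0,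
      (((χ (coroot i j (Units.mk0 x hx)))⁻¹ : Cˣ) : C) = (algebraMap ℚ_[p] C x) ^ k := by
  have he : Topology.IsEmbedding (Units.val : ℚ_[p]ˣ → ℚ_[p]) := Units.isEmbedding_val₀
  rw [he.nhds_eq_comap, Filter.eventually_comap] at hk
  rw [Metric.eventually_nhds_iff] at hk
  obtain ⟨ε, hε, h1⟩ := hk
  have hp1 : (1 : ℝ) < p := by exact_mod_cast (Fact.out : p.Prime).one_lt
  obtain ⟨h, hh⟩ : ∃ h : ℕ, ((p : ℝ)⁻¹) ^ h < min ε 1 :=
    exists_pow_lt_of_lt_one (lt_min hε one_pos) (inv_lt_one_of_one_lt₀ hp1)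
  refine ⟨h, fun x hx => ?_⟩
  have hx' : ‖x - 1‖ < min ε 1 := by
    refine lt_of_le_of_lt hx ?_
    rwa [_root_.zpow_neg, zpow_natCast, ← inv_pow]
  have hx0 : x ≠ 0 := by
    rintro rfl
    have := lt_of_lt_of_le hx' (min_le_right _ _)
    simp at this
  refine ⟨hx0, ?_⟩
  have h2 := h1 (y := x) (by
    rw [dist_eq_norm]
    exact lt_of_lt_of_le hx' (min_le_left _ _)) (Units.mk0 x hx0) rfl
  rw [Units.val_inv_eq_inv_val, h2]
  simp

theorem SLFin_low {k : ℕ} (χ : Torus p (k + 1) →* Cˣ) (i : Fin k) (x : ℚ_[p]) (hx : x ≠ 0) :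
    lowChar χ i x = (((χ (coroot 0 i.succ (Units.mk0 x hx)))⁻¹ : Cˣ) : C) := by
  exact dif_neg hx

theorem SLFin_div {k : ℕ} (χ : Torus p (k + 1) →* Cˣ) (i j : Fin k) (x : ℚ_[p]) (hx : x ≠ 0) :
    chDiv (lowChar χ j) (lowChar χ i) x =
      (((χ (coroot i.succ j.succ (Units.mk0 x hx)))⁻¹ : Cˣ) : C) := by
  show lowChar χ j x / lowChar χ i x = _
  rw [SLFin_low χ i x hx, SLFin_low χ j x hx, coroot_trans 0 i.succ j.succ, map_mul, mul_inv,
    Units.val_mul]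
  rw [mul_div_cancel_left₀]
  exact Units.ne_zero _

theorem SLFin_neg {z : C} {l : ℕ} {u : Cˣ} (h : ((u⁻¹ : Cˣ) : C) = z ^ l) :
    (u : C) = z ^ (-(l : ℤ)) := by
  rw [_root_.zpow_neg, zpow_natCast, ← h, Units.val_inv_eq_inv_val, inv_inv]

theorem schneider_chamber {n : ℕ} (χ : Torus p n →* Cˣ) (hχ : Continuous χ)
    (hslope : ∀ i j : Fin n, (i : ℕ) + 1 = j → 1 < ‖((χ (coroot i j (pu p)) : Cˣ) : C)‖)
    (halg : ∀ i j : Fin n, (i : ℕ) + 1 = j → ∃ k : ℕ, ∀ᶠ x : ℚ_[p]ˣ in 𝓝 1,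
      ((χ (coroot i j x) : Cˣ) : C) = (algebraMap ℚ_[p] C x) ^ (-(k : ℤ)))
    (W : Submodule C C(SpecialLinearGroup (Fin n) ℚ_[p], C)) (hW : W ≤ Ind χ)
    (hcl : IsClosed (W : Set C(SpecialLinearGroup (Fin n) ℚ_[p], C)))
    (hst : ∀ f ∈ W, ∀ g : SpecialLinearGroup (Fin n) ℚ_[p], rtrans g f ∈ W)
    (h0 : W ≠ ⊥) (h1 : W ≠ Ind χ) :
    ∃ i j : Fin n, i < j ∧ ∃ b : ℤ, b ≤ (j : ℤ) - (i : ℤ) - 1 ∧
      ∀ x : ℚ_[p]ˣ, ((χ (coroot i j x) : Cˣ) : C) = (algebraMap ℚ_[p] C x) ^ b := by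
  have hult : IsUltrametricDist C := SLFin_ultra p C
  rcases n with _ | k
  · exfalso
    have h2 := SLFin_zero χ W h0
    apply h1
    apply le_antisymm hW
    rw [h2]
    exact le_top
  by_contra H
  have Hne : ∀ i j : Fin (k + 1), i < j → ¬ ∃ l : ℕ, ∀ x : ℚ_[p]ˣ,
      ((χ (coroot i j x) : Cˣ) : C) = (algebraMap ℚ_[p] C x) ^ (-(l : ℤ)) := by
    rintro i j hij ⟨l, hl⟩
    apply H
    refine ⟨i, j, hij, -(l : ℤ), ?_, hl⟩
    have : (i : ℕ) < (j : ℕ) := hij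
    omega
  have hsl : ∀ i j : Fin (k + 1), i < j → 1 < ‖((χ (coroot i j (pu p)) : Cˣ) : C)‖ := by
    intro i j hij
    have : (i : ℕ) < (j : ℕ) := hij
    exact SLFin_slope χ hslope ((j : ℕ) - i - 1) i j (by omega)
  have hal : ∀ i j : Fin (k + 1), i < j → ∃ K : ℕ, ∀ᶠ x : ℚ_[p]ˣ in 𝓝 1,
      ((χ (coroot i j x) : Cˣ) : C) = (algebraMap ℚ_[p] C x) ^ (-(K : ℤ)) := by
    intro i j hij
    have : (i : ℕ) < (j : ℕ) := hij
    exact SLFin_alg χ halg ((j : ℕ) - i - 1) i j (by omega)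
  have hp0 : (p : ℚ_[p]) ≠ 0 := by exact_mod_cast (Fact.out : p.Prime).ne_zero
  have hpu : Units.mk0 (p : ℚ_[p]) hp0 = pu p := rfl
  have hlow : ∀ i : Fin k, ‖lowChar χ i (p : ℚ_[p])‖ < 1 := by
    intro i
    rw [SLFin_low χ i _ hp0, hpu, Units.val_inv_eq_inv_val, norm_inv]
    exact inv_lt_one_of_one_lt₀ (hsl 0 i.succ (Fin.succ_pos i))
  have hsmall : Small (lowChar χ) := fun i => ⟨lowChar_continuous hχ i (hlow i), hlow i⟩
  have hdec : ∀ i j : Fin k, i < j → ‖lowChar χ j (p : ℚ_[p])‖ < ‖lowChar χ i (p : ℚ_[p])‖ := by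
    intro i j hij
    have h2 := hsl i.succ j.succ (Fin.succ_lt_succ_iff.2 hij)
    have h3 := hsl 0 i.succ (Fin.succ_pos i)
    rw [SLFin_low χ i _ hp0, SLFin_low χ j _ hp0, hpu, Units.val_inv_eq_inv_val,
      Units.val_inv_eq_inv_val, norm_inv, norm_inv, SLFin_trans χ 0 i.succ j.succ, norm_mul]
    apply inv_strictAnti₀ (by linarith)
    nlinarith
  have hloc1 : ∀ i : Fin k, Loc (lowChar χ i) := by
    intro i
    obtain ⟨K, hK⟩ := hal 0 i.succ (Fin.succ_pos i)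
    obtain ⟨h, hh⟩ := SLFin_ball χ 0 i.succ K hK
    refine loc_of_locAlg (hsmall i).1 (hlow i) K ⟨h, fun x hx => ?_⟩ ?_
    · obtain ⟨hx0, h2⟩ := hh x hx
      rw [SLFin_low χ i x hx0, h2]
    · rintro ⟨l, hl⟩
      apply Hne 0 i.succ (Fin.succ_pos i)
      refine ⟨l, fun x => SLFin_neg ?_⟩
      have h2 := hl (x : ℚ_[p]) x.ne_zero
      rw [SLFin_low χ i _ x.ne_zero, Units.mk0_val] at h2
      exact h2
  have hloc2 : ∀ i j : Fin k, i < j → Loc (chDiv (lowChar χ j) (lowChar χ i)) := by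
    intro i j hij
    have hij' : i.succ < j.succ := Fin.succ_lt_succ_iff.2 hij
    obtain ⟨K, hK⟩ := hal i.succ j.succ hij'
    obtain ⟨h, hh⟩ := SLFin_ball χ i.succ j.succ K hK
    have hsm2 : Small (![lowChar χ i, lowChar χ j] : Fin 2 → ℚ_[p] →*₀ C) := by
      intro a
      fin_cases a
      · exact hsmall i
      · exact hsmall j
    have hs := small_chDiv (m := 1) hsm2 (by
      intro a
      fin_cases a
      exact hdec i j hij)
    have hs0 : Continuous (chDiv (lowChar χ j) (lowChar χ i)) ∧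
        ‖chDiv (lowChar χ j) (lowChar χ i) (p : ℚ_[p])‖ < 1 := hs 0
    refine loc_of_locAlg hs0.1 hs0.2 K ⟨h, fun x hx => ?_⟩ ?_
    · obtain ⟨hx0, h2⟩ := hh x hx
      rw [SLFin_div χ i j x hx0, h2]
    · rintro ⟨l, hl⟩
      apply Hne i.succ j.succ hij'
      refine ⟨l, fun x => SLFin_neg ?_⟩
      have h2 := hl (x : ℚ_[p]) x.ne_zero
      rw [SLFin_div χ i j _ x.ne_zero, Units.mk0_val] at h2
      exact h2
  have hirr : Irr k (lowChar χ) := irr_all k (lowChar χ) hsmall hdec hloc2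
  have hX : comapLow (χ := χ) W ≤ PSM k (k + 1) (lowChar χ) := by
    intro f hf
    obtain ⟨h, -⟩ := mem_comapLow.1 hf
    exact h
  have hfin := main_step hsmall hloc1 hirr hX (closed_comap hsmall hcl) ?_ ?_
  · apply h1
    apply le_antisymm hW
    intro f hf
    obtain ⟨F, hF⟩ := lowMap_surj hsmall hf
    have hF1 : F.1 ∈ comapLow (χ := χ) W := by
      rw [hfin]
      exact F.2
    obtain ⟨h, h2⟩ := mem_comapLow.1 hF1
    have h3 : lowMap ⟨F.1, h⟩ = f := hF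
    rw [← h3]
    exact h2
  · intro f hf g hg
    obtain ⟨h, h2⟩ := mem_comapLow.1 hf
    have h3 := hst _ h2 ⟨g, hg⟩
    have h4 := lowMap_rtrans (χ := χ) ⟨f, h⟩ ⟨g, hg⟩
    have h5 : lowMap ⟨fun R : Matrix (Fin k) (Fin (k + 1)) ℚ_[p] => f (R * g), psm_right h g⟩ ∈ W := by
      have h6 : rtrans ⟨g, hg⟩ (lowMap ⟨f, h⟩) ∈ W := h3
      exact h4 ▸ h6
    exact mem_comapLow.2 ⟨_, h5⟩
  · obtain ⟨w, hw, hw0⟩ := Submodule.exists_mem_ne_zero_of_ne_bot h0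
    obtain ⟨F, hF⟩ := lowMap_surj hsmall (hW hw)
    refine ⟨F.1, mem_comapLow.2 ⟨F.2, ?_⟩, ?_⟩
    · have : lowMap ⟨F.1, F.2⟩ = w := hF
      rw [this]
      exact hw
    · intro hF0
      apply hw0
      rw [← hF]
      have : F = 0 := Subtype.ext hF0
      rw [this, map_zero]

end

end Pool.Agent.Lib.MP_f399a8_nt
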