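import Pool.Agent.Lib.MP_f399a8_nt.Ext

/-!
# `GL_{m+1}` principal series and functions of the lower rows

For `φ ∈ PSM (m + 1) (m + 1) χ` we have `φ A = χ 0 (det A) * f (A without row 0)` with
`f ∈ PSM m (m + 1) (χ (i + 1) / χ 0)`.

PROOFS.
`twist_mem`: row operations on `A`: scaling row `0` by `c` multiplies `det A` by `c` and does not
change the lower rows; scaling row `i + 1` by `c` multiplies `det A` by `c` and `f` by
`χ (i + 1) c / χ 0 c`, product `χ (i + 1) c` if `c ≠ 0`, and both sides are `0` for `c = 0`; adding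
`c *` row `j` to row `i < j` changes neither `det A` nor `f` (`Matrix.det_updateRow_add_smul_self`).
`twist_surj`: for `R : m × (m + 1)` with independent rows choose a row `r` such that
`A = Fin.cons r R` has `det A ≠ 0` and put `F R = φ A / χ 0 (det A)`; `F R = 0` if the rows of `R`
are dependent.  Independent of `r`: any two choices `r, r'` satisfy `r' = a r + ∑ c_j R j` with
`a ≠ 0` (the rows of `A` are a basis), and these are row operations on row `0`.  Continuity on
independent `R`: near `R₀` the row `r₀` chosen for `R₀` works for all `R`.  Then `ext_psm`.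
`irr_all`: induction on `m` generalizing `χ`.  `m = 0`: `PSM 0 0 χ` is one dimensional (functions
on a one point type).  `m + 1`: given `Y`, put
`W := {f ∈ PSM m (m + 1) χ' | (fun A => χ 0 (det A) * f (A.submatrix succ id)) ∈ Y}`,
`χ' i = chDiv (χ i.succ) (χ 0)`.  `W` is closed (`‖χ 0 (det A)‖ ≤ 1` for integral `A`), stable under
`det g = 1` (`det (A g) = det A`), nonzero by `twist_surj`.  `Irr m χ'` by induction
(`chDiv (χ' j) (χ' i) = chDiv (χ j.succ) (χ i.succ)`).  `main_step` gives `W = PSM m (m + 1) χ'`, so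
`Y = PSM (m + 1) (m + 1) χ` by `twist_surj`.
-/

namespace Pool.Agent.Lib.MP_f399a8_nt

open Matrix

noncomputable section

variable {p : ℕ} [Fact p.Prime] {C : Type*} [NormedField C]

theorem TwA_ne {η : ℚ_[p] →*₀ C} {x : ℚ_[p]} (hx : x ≠ 0) : η x ≠ 0 :=
  (map_ne_zero η).2 hx

omit [NormedField C] in
theorem TwA_add {m N : ℕ} {φ : Matrix (Fin m) (Fin N) ℚ_[p] → C} (i : Fin m)
    (h : ∀ (R : Matrix (Fin m) (Fin N) ℚ_[p]) (j : Fin m), i < j → ∀ c : ℚ_[p],
      φ (R.updateRow i (R i + c • R j)) = φ R)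
    (R : Matrix (Fin m) (Fin N) ℚ_[p]) (c : Fin m → ℚ_[p]) (S : Finset (Fin m))
    (hS : ∀ j ∈ S, i < j) :
    φ (R.updateRow i (R i + ∑ j ∈ S, c j • R j)) = φ R := by
  classical
  induction S using Finset.induction_on with
  | empty => simp
  | insert a S ha ih =>
    have h1 := ih fun j hj => hS j (Finset.mem_insert_of_mem hj)
    have hia : i < a := hS a (Finset.mem_insert_self _ _)
    rw [← h1, ← h (R.updateRow i (R i + ∑ j ∈ S, c j • R j)) a hia (c a)]
    congr 1
    rw [updateRow_self, updateRow_ne hia.ne', updateRow_idem, Finset.sum_insert ha, add_assoc,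
      add_comm (∑ j ∈ S, c j • R j)]

theorem TwA_dep {m N : ℕ} {χ : Fin m → ℚ_[p] →*₀ C}
    {f : Matrix (Fin m) (Fin N) ℚ_[p] → C} (hf : f ∈ PSM m N χ)
    {R : Matrix (Fin m) (Fin N) ℚ_[p]} (h : ¬ LinearIndependent ℚ_[p] (fun i => R i)) :
    f R = 0 := by
  classical
  obtain ⟨g, hg, i₁, hi₁⟩ := Fintype.not_linearIndependent_iff.1 h
  obtain ⟨i, hi, hmin⟩ : ∃ i, g i ≠ 0 ∧ ∀ j, j < i → g j = 0 := by
    have hne : (Finset.univ.filter fun i => g i ≠ 0).Nonempty :=
      ⟨i₁, Finset.mem_filter.2 ⟨Finset.mem_univ _, hi₁⟩⟩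
    refine ⟨Finset.min' _ hne, (Finset.mem_filter.1 (Finset.min'_mem _ hne)).2, fun j hj => ?_⟩
    by_contra hj0
    exact absurd (Finset.min'_le _ j (Finset.mem_filter.2 ⟨Finset.mem_univ _, hj0⟩))
      (not_le.2 hj)
  have h1 := TwA_add (φ := f) i (fun R j hij c => hf.2.2 R i j hij c) R
    (fun j => g j / g i) (Finset.Ioi i) (fun j hj => Finset.mem_Ioi.1 hj)
  rw [← h1]
  refine psm_zero_row hf (i := i) ?_
  rw [updateRow_self]
  have h2 : ∑ j, g j • R j = g i • R i + ∑ j ∈ Finset.Ioi i, g j • R j := by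
    have h3 : (Finset.univ : Finset (Fin m)) = insert i (Finset.Ioi i) ∪ Finset.Iio i := by
      ext j
      simp only [Finset.mem_univ, Finset.mem_union, Finset.mem_insert, Finset.mem_Ioi,
        Finset.mem_Iio, true_iff]
      rcases lt_trichotomy i j with h | h | h
      · exact Or.inl (Or.inr h)
      · exact Or.inl (Or.inl h.symm)
      · exact Or.inr h
    rw [h3, Finset.sum_union, Finset.sum_insert]
    · rw [Finset.sum_eq_zero (s := Finset.Iio i), add_zero]
      intro j hj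
      rw [hmin j (Finset.mem_Iio.1 hj), zero_smul]
    · simp
    · rw [Finset.disjoint_left]
      intro j hj hj'
      rw [Finset.mem_Iio] at hj'
      rcases Finset.mem_insert.1 hj with h | h
      · exact absurd hj' (by rw [h]; exact lt_irrefl _)
      · exact absurd (Finset.mem_Ioi.1 h) (not_lt.2 hj'.le)
  have h4 : R i + ∑ j ∈ Finset.Ioi i, (g j / g i) • R j = (g i)⁻¹ • ∑ j, g j • R j := by
    rw [h2, smul_add, smul_smul, inv_mul_cancel₀ hi, one_smul, Finset.smul_sum]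
    congr 1
    refine Finset.sum_congr rfl fun j _ => ?_
    rw [smul_smul, div_eq_inv_mul]
  rw [h4, hg, smul_zero]

theorem small_chDiv {m : ℕ} {χ : Fin (m + 1) → ℚ_[p] →*₀ C} (hχ : Small χ)
    (hd : ∀ i : Fin m, ‖χ i.succ (p : ℚ_[p])‖ < ‖χ 0 (p : ℚ_[p])‖) :
    Small (fun i : Fin m => chDiv (χ i.succ) (χ 0)) := by
  have hp0 : (p : ℚ_[p]) ≠ 0 := Nat.cast_ne_zero.2 (Fact.out : p.Prime).ne_zero
  intro i
  have hpos : 0 < ‖χ 0 (p : ℚ_[p])‖ := norm_pos_iff.2 (TwA_ne hp0)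
  have hrho : ‖χ i.succ (p : ℚ_[p])‖ / ‖χ 0 (p : ℚ_[p])‖ < 1 := (div_lt_one hpos).2 (hd i)
  refine ⟨?_, ?_⟩
  · rw [continuous_iff_continuousAt]
    intro x
    by_cases hx : x = 0
    · subst hx
      have h0 : (chDiv (χ i.succ) (χ 0)) (0 : ℚ_[p]) = 0 := map_zero _
      rw [Metric.continuousAt_iff]
      intro ε hε
      rw [h0]
      obtain ⟨K, hK⟩ := exists_pow_lt_of_lt_one hε hrho
      have hp1 : (1 : ℝ) < p := by exact_mod_cast (Fact.out : p.Prime).one_lt
      refine ⟨(p : ℝ) ^ (-(K : ℤ)), zpow_pos (by linarith) _, fun {y} hy => ?_⟩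
      rw [dist_zero_right] at hy ⊢
      by_cases hy0 : y = 0
      · rw [hy0, map_zero, norm_zero]; exact hε
      have hv := Padic.norm_eq_zpow_neg_valuation hy0
      have hlt : (K : ℤ) < y.valuation := by
        rw [hv] at hy
        have := (zpow_lt_zpow_iff_right₀ hp1).1 hy
        omega
      obtain ⟨k, hk⟩ := Int.eq_ofNat_of_zero_le (show 0 ≤ y.valuation by omega)
      rw [hk] at hv hlt
      have e1 := norm_char_p (hχ i.succ).1 hv
      have e2 := norm_char_p (hχ 0).1 hv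
      have e3 : ‖chDiv (χ i.succ) (χ 0) y‖ =
          (‖χ i.succ (p : ℚ_[p])‖ / ‖χ 0 (p : ℚ_[p])‖) ^ k := by
        change ‖χ i.succ y / χ 0 y‖ = _
        rw [norm_div, e1, e2, div_pow]
      rw [e3]
      exact (pow_le_pow_of_le_one (div_nonneg (norm_nonneg _) (norm_nonneg _)) hrho.le
        (by omega)).trans_lt hK
    · have h1 : ContinuousAt (fun x => χ i.succ x / χ 0 x) x :=
        (hχ i.succ).1.continuousAt.div (hχ 0).1.continuousAt (TwA_ne hx)
      exact h1
  · change ‖χ i.succ (p : ℚ_[p]) / χ 0 (p : ℚ_[p])‖ < 1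
    rw [norm_div]
    exact hrho

theorem TwA_sub_zero {m N : ℕ} (A : Matrix (Fin (m + 1)) (Fin N) ℚ_[p]) (v : Fin N → ℚ_[p]) :
    (A.updateRow 0 v).submatrix Fin.succ id = A.submatrix Fin.succ id := by
  ext i j
  rw [submatrix_apply, submatrix_apply, updateRow_ne (Fin.succ_ne_zero i)]

theorem TwA_sub_succ {m N : ℕ} (A : Matrix (Fin (m + 1)) (Fin N) ℚ_[p]) (i : Fin m)
    (v : Fin N → ℚ_[p]) :
    (A.updateRow i.succ v).submatrix Fin.succ id =
      (A.submatrix Fin.succ id).updateRow i v := by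
  ext k j
  by_cases hk : k = i
  · subst hk
    rw [submatrix_apply, updateRow_self, updateRow_self]; rfl
  · rw [submatrix_apply, updateRow_ne (fun h => hk (Fin.succ_injective _ h)), updateRow_ne hk,
      submatrix_apply]

theorem twist_mem {m : ℕ} {χ : Fin (m + 1) → ℚ_[p] →*₀ C} (hχ : Small χ)
    {f : Matrix (Fin m) (Fin (m + 1)) ℚ_[p] → C}
    (hf : f ∈ PSM m (m + 1) (fun i : Fin m => chDiv (χ i.succ) (χ 0))) :
    (fun A : Matrix (Fin (m + 1)) (Fin (m + 1)) ℚ_[p] =>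
      χ 0 A.det * f (A.submatrix Fin.succ id)) ∈ PSM (m + 1) (m + 1) χ := by
  obtain ⟨hf1, hf2, hf3⟩ := hf
  refine ⟨?_, ?_, ?_⟩
  · refine ((hχ 0).1.comp (Continuous.matrix_det continuous_id)).mul (hf1.comp ?_)
    exact Continuous.matrix_submatrix continuous_id _ _
  · intro A i c
    simp only []
    have hdet : (A.updateRow i (c • A i)).det = c * A.det := by
      rw [det_updateRow_smul, updateRow_eq_self]
    rw [hdet, map_mul]
    refine Fin.cases ?_ (fun i => ?_) i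
    · rw [TwA_sub_zero]; ring
    · rw [TwA_sub_succ]
      have := hf2 (A.submatrix Fin.succ id) i c
      have e : (c • A i.succ) = c • (A.submatrix Fin.succ id) i := rfl
      rw [e, this]
      change χ 0 c * χ 0 A.det * (χ i.succ c / χ 0 c * _) = _
      by_cases hc : c = 0
      · subst hc; simp
      · have := TwA_ne (η := χ 0) hc
        field_simp
  · intro A i j hij c
    simp only []
    rw [det_updateRow_add_smul_self _ hij.ne]
    congr 1
    revert hij
    refine Fin.cases ?_ (fun i => ?_) i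
    · intro _
      rw [TwA_sub_zero]
    · refine Fin.cases ?_ (fun j => ?_) j
      · intro h
        exact absurd h (Fin.not_lt_zero _)
      · intro h
        rw [TwA_sub_succ]
        exact hf3 (A.submatrix Fin.succ id) i j (Fin.succ_lt_succ_iff.1 h) c

/-- the matrix with first row `r` and other rows `R` -/
def TwA_c {m N : ℕ} (r : Fin N → ℚ_[p]) (R : Matrix (Fin m) (Fin N) ℚ_[p]) :
    Matrix (Fin (m + 1)) (Fin N) ℚ_[p] :=
  (Fin.cons r R : Fin (m + 1) → (Fin N → ℚ_[p]))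

theorem TwA_c_update {m N : ℕ} (r : Fin N → ℚ_[p]) (R : Matrix (Fin m) (Fin N) ℚ_[p])
    (i : Fin m) (v : Fin N → ℚ_[p]) :
    TwA_c r (R.updateRow i v) = (TwA_c r R).updateRow i.succ v := by
  ext k j
  refine Fin.cases ?_ (fun k => ?_) k
  · rw [updateRow_ne (Fin.succ_ne_zero i).symm]; rfl
  · by_cases hk : k = i
    · subst hk
      rw [updateRow_self]
      change (R.updateRow k v) k j = v j
      rw [updateRow_self]
    · rw [updateRow_ne (fun h => hk (Fin.succ_injective _ h))]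
      change (R.updateRow i v) k j = R k j
      rw [updateRow_ne hk]

theorem TwA_c_self {m N : ℕ} (A : Matrix (Fin (m + 1)) (Fin N) ℚ_[p]) :
    TwA_c (A 0) (A.submatrix Fin.succ id) = A := by
  ext k j
  refine Fin.cases ?_ (fun k => ?_) k
  · rfl
  · rfl

theorem TwA_c_cont {m N : ℕ} (r : Fin N → ℚ_[p]) :
    Continuous (fun R : Matrix (Fin m) (Fin N) ℚ_[p] => TwA_c r R) := by
  refine continuous_matrix fun k j => ?_
  refine Fin.cases ?_ (fun k => ?_) k
  · exact continuous_const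
  · exact Continuous.matrix_elem continuous_id k j

theorem TwA_two {m : ℕ} {η : ℚ_[p] →*₀ C}
    {φ : Matrix (Fin (m + 1)) (Fin (m + 1)) ℚ_[p] → C}
    (h1 : ∀ (A : Matrix (Fin (m + 1)) (Fin (m + 1)) ℚ_[p]) (c : ℚ_[p]),
      φ (A.updateRow 0 (c • A 0)) = η c * φ A)
    (h2 : ∀ (A : Matrix (Fin (m + 1)) (Fin (m + 1)) ℚ_[p]) (j : Fin (m + 1)), 0 < j →
      ∀ c : ℚ_[p], φ (A.updateRow 0 (A 0 + c • A j)) = φ A)
    (R : Matrix (Fin m) (Fin (m + 1)) ℚ_[p]) (r r' : Fin (m + 1) → ℚ_[p])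
    (hr : (TwA_c r R).det ≠ 0) :
    φ (TwA_c r' R) = η ((r' ᵥ* (TwA_c r R)⁻¹) 0) * φ (TwA_c r R) := by
  set A := TwA_c r R with hA
  set y := r' ᵥ* A⁻¹ with hy
  have hu : IsUnit A.det := isUnit_iff_ne_zero.2 hr
  have e1 : r' = ∑ i, y i • A i := by
    have : y ᵥ* A = r' := by
      rw [hy, vecMul_vecMul, nonsing_inv_mul _ hu, vecMul_one]
    rw [← this]
    funext j
    simp [vecMul, dotProduct, Finset.sum_apply]
  have e2 : r' = y 0 • A 0 + ∑ j ∈ Finset.Ioi (0 : Fin (m + 1)), y j • A j := by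
    have h3 : (Finset.univ : Finset (Fin (m + 1))) = insert 0 (Finset.Ioi 0) := by
      ext j
      simp only [Finset.mem_univ, Finset.mem_insert, Finset.mem_Ioi, true_iff]
      by_cases h : j = 0
      · exact Or.inl h
      · exact Or.inr (Fin.pos_iff_ne_zero.2 h)
    rw [e1, h3, Finset.sum_insert (by simp)]
  set A₁ := A.updateRow 0 (y 0 • A 0) with hA₁
  have e3 : TwA_c r' R = A₁.updateRow 0
      (A₁ 0 + ∑ j ∈ Finset.Ioi (0 : Fin (m + 1)), y j • A₁ j) := by
    have e4 : ∑ j ∈ Finset.Ioi (0 : Fin (m + 1)), y j • A₁ j =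
        ∑ j ∈ Finset.Ioi (0 : Fin (m + 1)), y j • A j := by
      refine Finset.sum_congr rfl fun j hj => ?_
      rw [hA₁, updateRow_ne (Finset.mem_Ioi.1 hj).ne']
    rw [e4, hA₁, updateRow_self, updateRow_idem, ← e2]
    ext k j
    refine Fin.cases ?_ (fun k => ?_) k
    · rw [updateRow_self]; rfl
    · rw [updateRow_ne (Fin.succ_ne_zero k)]; rfl
  rw [e3, TwA_add (φ := φ) 0 (fun R j hj c => h2 R j hj c) A₁ y (Finset.Ioi 0)
    (fun j hj => Finset.mem_Ioi.1 hj), hA₁, h1]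

theorem TwA_exists {m : ℕ} (R : Matrix (Fin m) (Fin (m + 1)) ℚ_[p]) :
    LinearIndependent ℚ_[p] (fun i => R i) ↔
      ∃ r : Fin (m + 1) → ℚ_[p], (TwA_c r R).det ≠ 0 := by
  have key : ∀ r : Fin (m + 1) → ℚ_[p], (TwA_c r R).det ≠ 0 ↔
      LinearIndependent ℚ_[p] (Fin.cons r (fun i => R i) : Fin (m + 1) → _) := by
    intro r
    have h1 : (TwA_c r R).det ≠ 0 ↔ IsUnit (TwA_c r R) := by
      rw [isUnit_iff_isUnit_det, isUnit_iff_ne_zero]
    rw [h1, ← linearIndependent_rows_iff_isUnit]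
    rfl
  constructor
  · intro h
    have h1 : ∃ r : Fin (m + 1) → ℚ_[p],
        r ∉ Submodule.span ℚ_[p] (Set.range fun i => R i) := by
      by_contra hcon
      push Not at hcon
      have h2 : Submodule.span ℚ_[p] (Set.range fun i => R i) = ⊤ :=
        Submodule.eq_top_iff'.2 hcon
      have h3 := finrank_range_le_card (R := ℚ_[p]) (fun i => R i)
      rw [Set.finrank, h2, finrank_top, Module.finrank_fin_fun, Fintype.card_fin] at h3
      omega
    obtain ⟨r, hr⟩ := h1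
    exact ⟨r, (key r).2 (linearIndependent_finCons.2 ⟨h, hr⟩)⟩
  · rintro ⟨r, hr⟩
    exact (linearIndependent_finCons.1 ((key r).1 hr)).1

open Classical in
/-- the function of the lower rows -/
def TwA_F {m : ℕ} (η : ℚ_[p] →*₀ C) (φ : Matrix (Fin (m + 1)) (Fin (m + 1)) ℚ_[p] → C)
    (R : Matrix (Fin m) (Fin (m + 1)) ℚ_[p]) : C :=
  if h : ∃ r : Fin (m + 1) → ℚ_[p], (TwA_c r R).det ≠ 0 then
    φ (TwA_c h.choose R) / η (TwA_c h.choose R).det else 0

theorem TwA_F_eq {m : ℕ} {χ : Fin (m + 1) → ℚ_[p] →*₀ C}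
    {φ : Matrix (Fin (m + 1)) (Fin (m + 1)) ℚ_[p] → C} (hφ : φ ∈ PSM (m + 1) (m + 1) χ)
    (R : Matrix (Fin m) (Fin (m + 1)) ℚ_[p]) (r : Fin (m + 1) → ℚ_[p])
    (hr : (TwA_c r R).det ≠ 0) :
    TwA_F (χ 0) φ R = φ (TwA_c r R) / χ 0 (TwA_c r R).det := by
  have h : ∃ r : Fin (m + 1) → ℚ_[p], (TwA_c r R).det ≠ 0 := ⟨r, hr⟩
  rw [TwA_F, dif_pos h]
  set s := h.choose with hs
  have hsd : (TwA_c s R).det ≠ 0 := h.choose_spec
  have e1 := TwA_two (η := χ 0) (φ := φ) (fun A c => hφ.2.1 A 0 c)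
    (fun A j hj c => hφ.2.2 A 0 j hj c) R r s hr
  have e2 := TwA_two (η := χ 0) (φ := fun A => χ 0 A.det)
    (fun A c => by
      change χ 0 (A.updateRow 0 (c • A 0)).det = _
      rw [det_updateRow_smul, updateRow_eq_self, map_mul])
    (fun A j hj c => by
      change χ 0 (A.updateRow 0 (A 0 + c • A j)).det = _
      rw [det_updateRow_add_smul_self _ hj.ne]) R r s hr
  have h3 : χ 0 (TwA_c s R).det ≠ 0 := TwA_ne hsd
  rw [e2] at h3
  rw [e1, e2, mul_div_mul_left _ _ (left_ne_zero_of_mul h3)]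

theorem TwA_F_zero {m : ℕ} {η : ℚ_[p] →*₀ C}
    {φ : Matrix (Fin (m + 1)) (Fin (m + 1)) ℚ_[p] → C}
    (R : Matrix (Fin m) (Fin (m + 1)) ℚ_[p])
    (h : ¬ ∃ r : Fin (m + 1) → ℚ_[p], (TwA_c r R).det ≠ 0) : TwA_F η φ R = 0 := by
  rw [TwA_F, dif_neg h]

theorem twist_surj {m : ℕ} {χ : Fin (m + 1) → ℚ_[p] →*₀ C} (hχ : Small χ)
    (hd : ∀ i : Fin m, ‖χ i.succ (p : ℚ_[p])‖ < ‖χ 0 (p : ℚ_[p])‖)
    {φ : Matrix (Fin (m + 1)) (Fin (m + 1)) ℚ_[p] → C} (hφ : φ ∈ PSM (m + 1) (m + 1) χ) :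
    ∃ f ∈ PSM m (m + 1) (fun i : Fin m => chDiv (χ i.succ) (χ 0)),
      ∀ A : Matrix (Fin (m + 1)) (Fin (m + 1)) ℚ_[p],
        φ A = χ 0 A.det * f (A.submatrix Fin.succ id) := by
  refine ⟨TwA_F (χ 0) φ, ext_psm (small_chDiv hχ hd) ?_ ?_ ?_ ?_, ?_⟩
  · intro R hR
    rw [TwA_exists] at hR
    exact TwA_F_zero R hR
  · intro R₀ hR₀
    obtain ⟨r, hr⟩ := (TwA_exists R₀).1 hR₀
    refine ContinuousAt.continuousWithinAt ?_
    have hdet : Continuous (fun R : Matrix (Fin m) (Fin (m + 1)) ℚ_[p] => (TwA_c r R).det) :=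
      Continuous.matrix_det (TwA_c_cont r)
    have h1 : ContinuousAt (fun R => φ (TwA_c r R) / χ 0 (TwA_c r R).det) R₀ :=
      (hφ.1.comp (TwA_c_cont r)).continuousAt.div ((hχ 0).1.comp hdet).continuousAt (TwA_ne hr)
    refine h1.congr ?_
    filter_upwards [(isOpen_ne.preimage hdet).mem_nhds hr] with R hR
    exact (TwA_F_eq hφ R r hR).symm
  · intro R i c
    by_cases hc : c = 0
    · subst hc
      rw [map_zero, zero_mul]
      refine TwA_F_zero _ ?_
      rintro ⟨r, hr⟩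
      refine hr ?_
      rw [TwA_c_update, zero_smul]
      exact det_eq_zero_of_row_eq_zero i.succ (fun j => by rw [updateRow_self]; rfl)
    · have hdet : ∀ r, (TwA_c r (R.updateRow i (c • R i))).det = c * (TwA_c r R).det := by
        intro r
        rw [TwA_c_update]
        have : c • R i = c • (TwA_c r R) i.succ := rfl
        rw [this, det_updateRow_smul, updateRow_eq_self]
      by_cases h : ∃ r : Fin (m + 1) → ℚ_[p], (TwA_c r R).det ≠ 0
      · obtain ⟨r, hr⟩ := h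
        rw [TwA_F_eq hφ R r hr, TwA_F_eq hφ (R.updateRow i (c • R i)) r
          (by rw [hdet]; exact mul_ne_zero hc hr), hdet, TwA_c_update]
        have : c • R i = c • (TwA_c r R) i.succ := rfl
        rw [this, hφ.2.1, map_mul, mul_div_mul_comm]
        rfl
      · rw [TwA_F_zero R h, TwA_F_zero, mul_zero]
        rintro ⟨r, hr⟩
        rw [hdet] at hr
        exact h ⟨r, right_ne_zero_of_mul hr⟩
  · intro R i j hij c
    have hdet : ∀ r, (TwA_c r (R.updateRow i (R i + c • R j))).det = (TwA_c r R).det := by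
      intro r
      rw [TwA_c_update]
      have : R i + c • R j = (TwA_c r R) i.succ + c • (TwA_c r R) j.succ := rfl
      rw [this, det_updateRow_add_smul_self _ (Fin.succ_injective _ |>.ne hij.ne)]
    by_cases h : ∃ r : Fin (m + 1) → ℚ_[p], (TwA_c r R).det ≠ 0
    · obtain ⟨r, hr⟩ := h
      rw [TwA_F_eq hφ R r hr, TwA_F_eq hφ (R.updateRow i (R i + c • R j)) r
        (by rw [hdet]; exact hr), hdet, TwA_c_update]
      have : R i + c • R j = (TwA_c r R) i.succ + c • (TwA_c r R) j.succ := rfl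
      rw [this, hφ.2.2 _ _ _ (Fin.succ_lt_succ_iff.2 hij)]
    · rw [TwA_F_zero R h, TwA_F_zero]
      rintro ⟨r, hr⟩
      rw [hdet] at hr
      exact h ⟨r, hr⟩
  · intro A
    by_cases hA : A.det = 0
    · rw [hA, map_zero, zero_mul]
      refine TwA_dep hφ fun h => ?_
      have : IsUnit A := linearIndependent_rows_iff_isUnit.1 h
      rw [isUnit_iff_isUnit_det, isUnit_iff_ne_zero] at this
      exact this hA
    · have h1 := TwA_F_eq hφ (A.submatrix Fin.succ id) (A 0) (by rw [TwA_c_self]; exact hA)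
      rw [TwA_c_self] at h1
      rw [h1, mul_div_cancel₀ _ (TwA_ne hA)]

end

end Pool.Agent.Lib.MP_f399a8_nt
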